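import Pool.Agent.Lib.MP_b520b2_co.Slots

/-!
# Cells

A cell is given by its rays: `q` rays, the groups (number of squares `n`, vectors `u` and `L` of the
first side and of the sum of the sides), the vector `y` of the first side of the tail and the vector
`s` of the square root of the total area.  `Holds q g y s δ l` says that the collection `l` is the
combination of the rays with coefficients `δ`.
-/

namespace Pool.Agent.MOS

open Finset

/-- list of groups -/
inductive Gl where
  | nil : Gl
  /-- a group of `n` squares -/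
  | cons (n u L : ℕ) (g : Gl) : Gl

/-- the vectors `u` -/
noncomputable def us (g : Gl) : List ℕ :=
  Gl.rec (motive := fun _ => List ℕ) [] (fun _ u _ _ r => List.cons u r) g

/-- the vectors `L` -/
noncomputable def ls (g : Gl) : List ℕ :=
  Gl.rec (motive := fun _ => List ℕ) []
    (fun n u L _ r => List.cons (Bool.rec (motive := fun _ => ℕ) L u (Nat.beq n 1)) r) g

theorem us_cons (n u L : ℕ) (g : Gl) : us (.cons n u L g) = u :: us g := rfl

theorem ls_cons (n u L : ℕ) (g : Gl) :
    ls (.cons n u L g) = (if n = 1 then u else L) :: ls g := by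
  show Bool.rec (motive := fun _ => ℕ) L u (Nat.beq n 1) :: ls g = _
  by_cases h : n = 1
  · subst h
    rfl
  · rw [if_neg h]
    have : Nat.beq n 1 = false := by
      cases h1 : Nat.beq n 1
      · rfl
      · exact absurd (Nat.eq_of_beq_eq_true h1) h
    rw [this]

/-- the number of groups -/
def Gl.len : Gl → ℕ
  | .nil => 0
  | .cons _ _ _ g => g.len + 1

/-- the number of squares of group `j` -/
def Gl.mult : Gl → ℕ → ℕ
  | .nil, _ => 0
  | .cons n _ _ _, 0 => n
  | .cons _ _ _ g, j + 1 => g.mult j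

/-- the squares of group `j` -/
def Gl.grp : Gl → List ℝ → ℕ → List ℝ
  | .nil, _, _ => []
  | .cons n _ _ _, l, 0 => l.take n
  | .cons n _ _ g, l, j + 1 => g.grp (l.drop n) j

/-- the tail -/
def Gl.tl : Gl → List ℝ → List ℝ
  | .nil, l => l
  | .cons n _ _ g, l => g.tl (l.drop n)

/-- the first side -/
def hd (l : List ℝ) : ℝ := l.headD 0

/-- the sides of the groups and the tail are given by `δ` -/
def HoldsG (q y : ℕ) (δ : ℕ → ℝ) : Gl → List ℝ → Prop
  | .nil, l => hd l = lin q δ (dg y)
  | .cons n u L g, l => hd l = lin q δ (dg u) ∧ (n ≠ 1 → (l.take n).sum = lin q δ (dg L)) ∧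
      HoldsG q y δ g (l.drop n)

/-- The collection `l` is the combination of the rays with coefficients `δ`. -/
def Holds (q : ℕ) (g : Gl) (y s : ℕ) (δ : ℕ → ℝ) (l : List ℝ) : Prop :=
  (∀ i, 0 ≤ δ i) ∧ HoldsG q y δ g l ∧ Real.sqrt (sumsq l) = lin q δ (dg s)

/-- validity of the groups of a cell -/
def GOK (q y : ℕ) : Gl → Prop
  | .nil => True
  | .cons n u L g => (1 ≤ n ∧ n ≤ 961) ∧ IsVec q u ∧ (∀ i < q, dg y i ≤ dg u i) ∧
      (n ≠ 1 → IsVec q L ∧ ∀ i < q, dg u i ≤ dg L i) ∧ GOK q y g

/-- validity of a cell -/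
def CellOK (q : ℕ) (g : Gl) (y s : ℕ) : Prop :=
  2 ≤ q ∧ q ≤ 1000 ∧ IsVec q y ∧ IsVec q s ∧ GOK q y g ∧ g.len ≤ 30

/-- sorted lists of positive numbers -/
def SP (l : List ℝ) : Prop := l.Pairwise (· ≥ ·) ∧ ∀ s ∈ l, 0 < s

theorem SP.drop {l : List ℝ} (h : SP l) (n : ℕ) : SP (l.drop n) :=
  ⟨h.1.sublist (List.drop_sublist n l), fun s hs => h.2 s (List.mem_of_mem_drop hs)⟩

theorem SP.take {l : List ℝ} (h : SP l) (n : ℕ) : SP (l.take n) :=
  ⟨h.1.sublist (List.take_sublist n l), fun s hs => h.2 s (List.mem_of_mem_take hs)⟩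

theorem SP.le_hd {l : List ℝ} (h : SP l) {s : ℝ} (hs : s ∈ l) : s ≤ hd l := by
  cases l with
  | nil => simp at hs
  | cons a l =>
    rw [hd, List.headD_cons]
    rcases List.mem_cons.1 hs with rfl | hs
    · exact le_rfl
    · exact (List.pairwise_cons.1 h.1).1 s hs

theorem hd_nonneg {l : List ℝ} (h : SP l) : 0 ≤ hd l := by
  cases l with
  | nil => simp [hd]
  | cons a l => exact (h.2 a (by simp)).le

theorem hd_take {l : List ℝ} {n : ℕ} (hn : 1 ≤ n) : hd (l.take n) = hd l := by
  obtain ⟨m, rfl⟩ : ∃ m, n = m + 1 := ⟨n - 1, by omega⟩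
  cases l with
  | nil => simp
  | cons a l => simp [hd]

/-- Cauchy-Schwarz for the squares of one group -/
theorem sumsq_ge {l : List ℝ} {n : ℕ} (hn : 2 ≤ n) (hl : l.length ≤ n) :
    hd l ^ 2 + (l.sum - hd l) ^ 2 / (n - 1) ≤ sumsq l := by
  have hn1 : (0 : ℝ) < n - 1 := by
    have : (2 : ℝ) ≤ n := by exact_mod_cast hn
    linarith
  cases l with
  | nil => simp [hd]
  | cons a l =>
    rw [hd, List.headD_cons, List.sum_cons, add_sub_cancel_left, sumsq_cons]
    have h1 : l.sum ^ 2 ≤ l.length * sumsq l := by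
      have := sq_sum_le_card_mul_sum_sq (s := (Finset.univ : Finset (Fin l.length)))
        (f := fun i => l[i])
      rw [Finset.card_univ, Fintype.card_fin] at this
      have e1 : ∑ i : Fin l.length, l[i] = l.sum := by
        rw [← List.sum_ofFn]
        congr 1
        exact List.ofFn_getElem
      have e2 : ∑ i : Fin l.length, l[i] ^ 2 = sumsq l := by
        rw [sumsq, ← List.sum_ofFn]
        congr 1
        have : l = List.ofFn (fun i : Fin l.length => l[i]) := List.ofFn_getElem.symm
        conv_rhs => rw [this]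
        rw [List.map_ofFn]
        rfl
      rw [e1, e2] at this
      exact_mod_cast this
    have h2 : (l.length : ℝ) ≤ n - 1 := by
      rw [List.length_cons] at hl
      have : ((l.length + 1 : ℕ) : ℝ) ≤ n := by exact_mod_cast hl
      push_cast at this
      linarith
    have h3 : l.sum ^ 2 / (n - 1) ≤ sumsq l := by
      rw [div_le_iff₀ hn1, mul_comm]
      exact h1.trans (mul_le_mul_of_nonneg_right h2 (sumsq_nonneg l))
    linarith

theorem sum_take_le {T : List ℝ} (hT : SP T) (n : ℕ) : (T.take n).sum ≤ n * hd T := by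
  calc (T.take n).sum ≤ (T.take n).length • hd T :=
      List.sum_le_card_nsmul _ _ fun s hs => hT.le_hd (List.mem_of_mem_take hs)
    _ = (T.take n).length * hd T := by rw [nsmul_eq_mul]
    _ ≤ n * hd T := by
      apply mul_le_mul_of_nonneg_right _ (hd_nonneg hT)
      exact_mod_cast List.length_take_le _ _

theorem mul_hd_le {T : List ℝ} (hT : SP T) (n : ℕ) : n * hd (T.drop n) ≤ (T.take n).sum := by
  cases h4 : T.drop n with
  | nil =>
    have : hd ([] : List ℝ) = 0 := rfl
    rw [this, mul_zero]
    exact List.sum_nonneg fun s hs => (hT.2 s (List.mem_of_mem_take hs)).le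
  | cons b U =>
    have h6 : n < T.length := by
      by_contra hcon
      rw [List.drop_eq_nil_of_le (by omega)] at h4
      simp at h4
    have h7 : (T.take n).length = n := by
      rw [List.length_take]
      omega
    have h8 : ∀ s ∈ T.take n, b ≤ s := by
      intro s hs
      have h9 : T.Pairwise (· ≥ ·) := hT.1
      rw [← List.take_append_drop n T, List.pairwise_append] at h9
      exact h9.2.2 s hs b (by rw [h4]; simp)
    show (n : ℝ) * b ≤ _
    calc (n : ℝ) * b = (T.take n).length • b := by rw [h7, nsmul_eq_mul]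
      _ ≤ (T.take n).sum := List.card_nsmul_le_sum _ _ h8

/-- the last squares are small -/
theorem avg_le {G : List ℝ} (hG : SP G) (i n : ℕ) :
    ((i + n : ℕ) : ℝ) * ((G.drop i).take n).sum ≤ n * (G.take (i + n)).sum := by
  have h1 := sum_take_le (hG.drop i) n
  have h2 := mul_hd_le hG i
  have hn : (0 : ℝ) ≤ n := Nat.cast_nonneg _
  have hi : (0 : ℝ) ≤ i := Nat.cast_nonneg _
  have h3 : (i : ℝ) * ((G.drop i).take n).sum ≤ n * (G.take i).sum := by
    calc (i : ℝ) * ((G.drop i).take n).sum ≤ i * (n * hd (G.drop i)) :=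
        mul_le_mul_of_nonneg_left h1 hi
      _ = n * (i * hd (G.drop i)) := by ring
      _ ≤ n * (G.take i).sum := mul_le_mul_of_nonneg_left h2 hn
  rw [List.take_add, List.sum_append]
  push_cast
  linarith

theorem hd_add_sum (F : List ℝ) : F.sum = hd F + (F.drop 1).sum := by
  cases F with
  | nil => simp [hd]
  | cons a F => simp [hd]

theorem take_sum (F : List ℝ) {n : ℕ} (hn : 1 ≤ n) :
    (F.take n).sum = hd F + ((F.drop 1).take (n - 1)).sum := by
  obtain ⟨m, rfl⟩ : ∃ m, n = m + 1 := ⟨n - 1, by omega⟩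
  cases F with
  | nil => simp [hd]
  | cons a F => simp [hd]

/-- bounds for parts of a group -/
theorem pos_facts {F : List ℝ} (hF : SP F) {N : ℕ} {L v : ℝ} (hL : F.sum ≤ L)
    (hlen : F.length ≤ N) (hv' : ∀ s ∈ F, v ≤ s) (hv'' : F.length < N → v = 0) :
    (∀ n, 2 ≤ n → (F.take n).sum ≤ hd F + (L - hd F - (N - n : ℕ) * v)) ∧
    (∀ i n, 1 ≤ i → ((i + n - 1 : ℕ) : ℝ) * ((F.drop i).take n).sum ≤
      n * (L - hd F - (N - (i + n) : ℕ) * v)) ∧
    ∀ i n, 1 ≤ i → ∀ s ∈ (F.drop i).take n, i * s ≤ L - hd F - (N - (i + 1) : ℕ) * v := by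
  have key : ∀ k, 1 ≤ k → ((F.drop 1).take (k - 1)).sum ≤ L - hd F - (N - k : ℕ) * v := by
    intro k hk
    have h1 := hd_add_sum F
    have h2 : (F.drop 1).sum = ((F.drop 1).take (k - 1)).sum + (F.drop k).sum := by
      have : F.drop k = (F.drop 1).drop (k - 1) := by
        rw [List.drop_drop]
        congr 1
        omega
      rw [this, ← List.sum_append, List.take_append_drop]
    have h3 : (N - k : ℕ) * v ≤ (F.drop k).sum := by
      rcases hlen.lt_or_eq with h | h
      · rw [hv'' h, mul_zero]
        exact List.sum_nonneg fun s hs => (hF.2 s (List.mem_of_mem_drop hs)).le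
      · have h4 : (F.drop k).length = N - k := by rw [List.length_drop, h]
        calc ((N - k : ℕ) : ℝ) * v = (F.drop k).length • v := by rw [h4, nsmul_eq_mul]
          _ ≤ (F.drop k).sum := List.card_nsmul_le_sum _ _ fun s hs =>
            hv' s (List.mem_of_mem_drop hs)
    linarith
  have hG := hF.drop 1
  refine ⟨fun n hn => ?_, fun i n hi => ?_, fun i n hi s hs => ?_⟩
  · rw [take_sum F (by omega)]
    have := key n (by omega)
    linarith
  · have h1 := avg_le hG (i - 1) n
    rw [List.drop_drop, show 1 + (i - 1) = i by omega, show i - 1 + n = i + n - 1 by omega] at h1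
    have h2 := key (i + n) (by omega)
    exact h1.trans (mul_le_mul_of_nonneg_left h2 (Nat.cast_nonneg _))
  · have h1 : s ≤ hd (F.drop i) := (hF.drop i).le_hd (List.mem_of_mem_take hs)
    have h2 : F.drop i = (F.drop 1).drop (i - 1) := by
      rw [List.drop_drop]
      congr 1
      omega
    have h3 := mul_hd_le hG (i - 1)
    rw [← h2] at h3
    have h4 : ((F.drop 1).take (i + 1 - 1)).sum =
        ((F.drop 1).take (i - 1)).sum + hd (F.drop i) := by
      rw [show i + 1 - 1 = (i - 1) + 1 by omega, List.take_add, List.sum_append, ← h2]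
      congr 1
      cases F.drop i with
      | nil => simp [hd]
      | cons a U => simp [hd]
    have h5 := key (i + 1) (by omega)
    have hi1 : (1 : ℝ) ≤ i := by exact_mod_cast hi
    have h6 : ((i - 1 : ℕ) : ℝ) = i - 1 := by
      rw [Nat.cast_sub hi, Nat.cast_one]
    rw [h6] at h3
    nlinarith

section groups

variable {q y : ℕ} {δ : ℕ → ℝ}

/-- the vector `u` of group `j`, or `y` -/
theorem nth_isVec (hy : IsVec q y) : ∀ (g : Gl), GOK q y g → ∀ j,
    IsVec q (nthR y (us g) j) ∧ IsVec q (nthR y (ls g) j) ∧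
      (∀ i < q, dg y i ≤ dg (nthR y (us g) j) i) ∧ ∀ i < q, dg y i ≤ dg (nthR y (ls g) j) i := by
  intro g
  induction g with
  | nil =>
    intro _ j
    exact ⟨hy, hy, fun _ _ => le_rfl, fun _ _ => le_rfl⟩
  | cons n u L g ih =>
    rintro ⟨_, h2, h3, h4, h5⟩ j
    rw [us_cons, ls_cons]
    cases j with
    | zero =>
      show IsVec q u ∧ IsVec q (if n = 1 then u else L) ∧ (∀ i < q, dg y i ≤ dg u i) ∧
        ∀ i < q, dg y i ≤ dg (if n = 1 then u else L) i
      split_ifs with h
      · exact ⟨h2, h2, h3, h3⟩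
      · exact ⟨h2, (h4 h).1, h3, fun i hi => (h3 i hi).trans ((h4 h).2 i hi)⟩
    | succ j => exact ih h5 j

/-- the multiplicities -/
noncomputable def mls (g : Gl) : List ℕ :=
  Gl.rec (motive := fun _ => List ℕ) [] (fun n _ _ _ r => List.cons n r) g

theorem mls_eq (g : Gl) (j : ℕ) : nthR 0 (mls g) j = g.mult j := by
  induction g generalizing j with
  | nil => rfl
  | cons n u L g ih =>
    cases j with
    | zero => rfl
    | succ j => exact ih j

theorem hd_next {g : Gl} {l : List ℝ} (h : HoldsG q y δ g l) :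
    hd l = lin q δ (dg (nthR y (us g) 0)) := by
  cases g with
  | nil => exact h
  | cons n u L g => exact h.1

theorem grp_ok (hδ : ∀ i, 0 ≤ δ i) : ∀ (g : Gl), GOK q y g → ∀ l, SP l → HoldsG q y δ g l → ∀ j,
    GroupOK q (fun j => dg (nthR y (us g) j)) (fun j => dg (nthR y (ls g) j)) g.mult δ j
      (g.grp l j) := by
  intro g
  induction g with
  | nil =>
    intro _ l _ _ j
    have hy := lin_nonneg (q := q) hδ (dg y)
    have hV : ∀ j k, VV q (fun j => dg (nthR y (us Gl.nil) j))
        (fun j => dg (nthR y (ls Gl.nil) j)) Gl.nil.mult δ j k = 0 := by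
      intro j k
      have e1 : nthR y (us Gl.nil) j = y := rfl
      have e2 : nthR y (ls Gl.nil) j = y := rfl
      rw [VV, e1, e2, Gl.mult]
      simp
    refine ⟨by simp [Gl.grp], by rw [Gl.grp, List.sum_nil]; exact hy, fun i n => ?_⟩
    rw [Gl.grp, List.drop_nil, List.take_nil]
    refine ⟨fun _ _ => ?_, fun _ => ?_, by simp⟩
    · rw [hV, add_zero, List.sum_nil]
      exact hy
    · rw [hV]
      simp
  | cons n u L g ih =>
    rintro ⟨⟨h1, _⟩, _, _, _, h5⟩ l hl ⟨h6, h7, h8⟩ j
    cases j with
    | zero =>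
      have hsum : (l.take n).sum ≤ lin q δ (dg (if n = 1 then u else L)) := by
        by_cases h : n = 1
        · subst h
          rw [if_pos rfl, ← h6]
          cases l with
          | nil => simp [hd]
          | cons a l => simp [hd]
        · rw [if_neg h]
          exact (h7 h).le
      have hsum' : (l.take n).sum ≤ lin q δ (dg (nthR y (ls (.cons n u L g)) 0)) := by
        rw [ls_cons]
        exact hsum
      have hn := hd_next h8
      have hhd : hd (l.take n) = lin q δ (dg u) := by
        rw [hd_take h1, h6]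
      refine ⟨fun s hs => ⟨(hl.2 s (List.mem_of_mem_take hs)).le, ?_⟩, hsum', ?_⟩
      · show s ≤ lin q δ (dg u)
        rw [← h6]
        exact hl.le_hd (List.mem_of_mem_take hs)
      · have hlt : (l.take n).length < n → l.drop n = [] := by
          intro h
          rw [List.length_take] at h
          exact List.drop_eq_nil_of_le (by omega)
        obtain ⟨p1, p2, p3⟩ := pos_facts (hl.take n) (N := n)
          (L := lin q δ (dg (nthR y (ls (.cons n u L g)) 0)))
          (v := lin q δ (dg (nthR y (us g) 0))) hsum' (List.length_take_le _ _) (by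
            intro s hs
            rw [← hn]
            cases h9 : l.drop n with
            | nil => exact (hl.2 s (List.mem_of_mem_take hs)).le
            | cons b U =>
              show b ≤ s
              have h10 : l.Pairwise (· ≥ ·) := hl.1
              rw [← List.take_append_drop n l, List.pairwise_append] at h10
              exact h10.2.2 s hs b (by rw [h9]; simp)) (by
            intro h
            rw [← hn, hlt h]
            rfl)
        rw [hhd] at p1 p2 p3
        intro i m
        refine ⟨fun hi hm => ?_, fun hi => p2 i m hi, fun hi => p3 i m hi⟩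
        rw [hi]
        exact p1 m hm
    | succ j => exact ih h5 _ (hl.drop n) h8 j

theorem grp_length : ∀ (g : Gl) (l : List ℝ) (j : ℕ), (g.grp l j).length ≤ g.mult j := by
  intro g
  induction g with
  | nil =>
    intro l j
    simp [Gl.grp]
  | cons n u L g ih =>
    intro l j
    cases j with
    | zero =>
      rw [Gl.grp, Gl.mult, List.length_take]
      exact min_le_left _ _
    | succ j => exact ih _ j

theorem grp_nil : ∀ (g : Gl) (l : List ℝ) (j : ℕ), g.len ≤ j → g.grp l j = [] := by
  intro g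
  induction g with
  | nil =>
    intro l j _
    rfl
  | cons n u L g ih =>
    intro l j hj
    rw [Gl.len] at hj
    obtain ⟨i, rfl⟩ : ∃ i, j = i + 1 := ⟨j - 1, by omega⟩
    exact ih _ i (by omega)

theorem grp_sum : ∀ (g : Gl) (l : List ℝ), (l : Multiset ℝ) =
    (∑ j ∈ range g.len, (g.grp l j : Multiset ℝ)) + (g.tl l : Multiset ℝ) := by
  intro g
  induction g with
  | nil =>
    intro l
    simp [Gl.len, Gl.tl]
  | cons n u L g ih =>
    intro l
    rw [Gl.len, sum_range_succ']
    show (l : Multiset ℝ) = (∑ j ∈ range g.len, (g.grp (l.drop n) j : Multiset ℝ)) +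
      (l.take n : Multiset ℝ) + (g.tl (l.drop n) : Multiset ℝ)
    rw [add_right_comm, ← ih, Multiset.coe_add]
    exact Quotient.sound ((List.perm_append_comm).trans (by rw [List.take_append_drop])).symm

theorem tl_sp : ∀ (g : Gl) (l : List ℝ), SP l → SP (g.tl l) := by
  intro g
  induction g with
  | nil => exact fun l h => h
  | cons n u L g ih => exact fun l h => ih _ (h.drop n)

theorem tl_hd : ∀ (g : Gl) (l : List ℝ), HoldsG q y δ g l → hd (g.tl l) = lin q δ (dg y) := by
  intro g
  induction g with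
  | nil => exact fun l h => h
  | cons n u L g ih => exact fun l h => ih _ h.2.2

/-- the packed matrix `2 u ⊗ u` -/
def sqQ (q u : ℕ) : ℕ := Nat.mul (Nat.mul 2 u) (spread (spreadR K q) (spreadM K q) u)

theorem sqQ_eq (hq : 2 ≤ q) (hq' : q ≤ 1000) {u : ℕ → ℕ} (hu : ∀ i < q, u i ≤ WB) :
    sqQ q (digs K q u) = digs K (q * q) (sym q u u) := by
  show 2 * digs K q u * spread _ _ (digs K q u) = _
  rw [spread_eq K_pos hq (sum_lt_of_le hq' hu le_rfl), mul_assoc, digs_mul_digsS (by omega),
    digs_const_mul]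
  apply digs_congr
  intro p _
  rw [sym]
  ring

/-- lower bound for the area of the groups, scaled by `2 gg`; also checks that `gg` is divisible
by `n - 1` for every group -/
noncomputable def ngGo (q gg : ℕ) (g : Gl) : ℕ → (ℕ → Bool) → Bool :=
  Gl.rec (motive := fun _ => ℕ → (ℕ → Bool) → Bool) (fun acc k => k acc)
    (fun n u L _ r acc k => Bool.rec (motive := fun _ => Bool)
      (andB (Nat.beq (Nat.mul (Nat.div gg (Nat.sub n 1)) (Nat.sub n 1)) gg)
        (r (Nat.add acc (Nat.add (Nat.mul gg (sqQ q u))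
          (Nat.mul (Nat.div gg (Nat.sub n 1)) (sqQ q (Nat.sub L u))))) k))
      (r (Nat.add acc (Nat.mul gg (sqQ q u))) k) (Nat.beq n 1)) g

/-- the bound for the entries of `ngGo`, per group -/
def NB : ℕ := 2 ^ (2 * KAP + 8)

theorem pow_KAP_le : 2 ^ KAP ≤ WB := by norm_num [KAP, WB]

theorem ngGo_sound (hq : 2 ≤ q) (hq' : q ≤ 1000) {gg : ℕ} (hgg : gg ≤ 64) :
    ∀ (g : Gl), GOK q y g → ∀ (acc : ℕ → ℕ) (k : ℕ → Bool) (l : List ℝ), SP l →
      HoldsG q y δ g l → ngGo q gg g (digs K (q * q) acc) k = true →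
      ∃ acc' : ℕ → ℕ, k (digs K (q * q) acc') = true ∧
        bil q δ acc' + 2 * gg * sumsq (g.tl l) ≤ bil q δ acc + 2 * gg * sumsq l ∧
        ∀ p < q * q, acc' p ≤ acc p + g.len * NB := by
  have hq0 : 0 < q := by omega
  have hgg0 : (0 : ℝ) ≤ gg := Nat.cast_nonneg _
  intro g
  induction g with
  | nil =>
    intro _ acc k l _ _ h
    exact ⟨acc, h, le_rfl, fun p _ => Nat.le_add_right _ _⟩
  | cons n u L g ih =>
    rintro ⟨⟨h1, _⟩, h2, _, h4, h5⟩ acc k l hl ⟨h6, h7, h8⟩ h
    have hu : ∀ i < q, dg u i ≤ WB := fun i hi => (h2.2 i hi).le.trans pow_KAP_le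
    have hub : ∀ p < q * q, sym q (dg u) (dg u) p ≤ 2 * (2 ^ KAP * 2 ^ KAP) := fun p hp =>
      sym_le (fun i hi => (h2.2 i hi).le) (fun i hi => (h2.2 i hi).le) hp
    have e1 : sqQ q u = digs K (q * q) (sym q (dg u) (dg u)) := by
      conv_lhs => rw [h2.1]
      exact sqQ_eq hq hq' hu
    have hsplit : sumsq l = sumsq (l.take n) + sumsq (l.drop n) := by
      rw [← sumsq_append, List.take_append_drop]
    have hNB : 64 * (2 * (2 ^ KAP * 2 ^ KAP)) + 64 * (2 * (2 ^ KAP * 2 ^ KAP)) ≤ NB := by
      norm_num [KAP, NB]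
    by_cases hn : n = 1
    · subst hn
      have h : ngGo q gg g (digs K (q * q) acc + gg * sqQ q u) k = true := h
      rw [e1, digs_const_mul, digs_add] at h
      obtain ⟨acc', a1, a2, a3⟩ := ih h5 _ k _ (hl.drop 1) h8 h
      refine ⟨acc', a1, ?_, ?_⟩
      · rw [bil_add, bil_const_mul, bil_sym hq0, ← h6] at a2
        have h9 : hd l * hd l = sumsq (l.take 1) := by
          cases l with
          | nil => simp [hd]
          | cons a l => simp [hd, sq]
        rw [h9] at a2
        show bil q δ acc' + 2 * gg * sumsq (g.tl (l.drop 1)) ≤ _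
        rw [hsplit]
        linarith
      · intro p hp
        have := a3 p hp
        have := Nat.mul_le_mul hgg (hub p hp)
        rw [Gl.len, Nat.add_mul, Nat.one_mul]
        omega
    · have hn2 : 2 ≤ n := by omega
      have hb : Nat.beq n 1 = false := by
        cases h1 : Nat.beq n 1
        · rfl
        · exact absurd (Nat.eq_of_beq_eq_true h1) hn
      have h : Bool.rec (motive := fun _ => Bool)
        (andB (Nat.beq (Nat.mul (Nat.div gg (Nat.sub n 1)) (Nat.sub n 1)) gg)
        (ngGo q gg g (Nat.add (digs K (q * q) acc) (Nat.add (Nat.mul gg (sqQ q u))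
          (Nat.mul (Nat.div gg (Nat.sub n 1)) (sqQ q (Nat.sub L u))))) k))
        (ngGo q gg g (Nat.add (digs K (q * q) acc) (Nat.mul gg (sqQ q u))) k) (Nat.beq n 1)
          = true := h
      rw [hb] at h
      obtain ⟨g1, h⟩ := andB_eq_true.1 h
      obtain ⟨c, hc⟩ : ∃ c, c = gg / (n - 1) := ⟨_, rfl⟩
      have g1 : c * (n - 1) = gg := by
        rw [hc]
        exact Nat.eq_of_beq_eq_true g1
      have h : ngGo q gg g (digs K (q * q) acc + (gg * sqQ q u + (gg / (n - 1)) * sqQ q (L - u))) k
        = true := h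
      rw [← hc] at h
      obtain ⟨hL, hL'⟩ := h4 hn
      have hLu : L - u = digs K q (fun i => dg L i - dg u i) := by
        conv_lhs => rw [hL.1, h2.1]
        exact digs_sub hL'
      have hLb : ∀ i < q, dg L i - dg u i ≤ 2 ^ KAP := fun i hi =>
        (Nat.sub_le _ _).trans (hL.2 i hi).le
      have e2 : sqQ q (L - u) = digs K (q * q) (sym q (fun i => dg L i - dg u i)
          (fun i => dg L i - dg u i)) := by
        rw [hLu]
        exact sqQ_eq hq hq' fun i hi => (hLb i hi).trans pow_KAP_le
      rw [e1, e2, digs_const_mul, digs_const_mul, digs_add, digs_add] at h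
      obtain ⟨acc', a1, a2, a3⟩ := ih h5 _ k _ (hl.drop n) h8 h
      have hcg : c ≤ gg := by
        rw [← g1]
        exact Nat.le_mul_of_pos_right _ (by omega)
      refine ⟨acc', a1, ?_, ?_⟩
      · rw [bil_add, bil_add, bil_const_mul, bil_const_mul, bil_sym hq0, bil_sym hq0,
          lin_sub hL', ← h6, ← h7 hn] at a2
        have h9 := sumsq_ge hn2 (l := l.take n) (by rw [List.length_take]; exact min_le_left _ _)
        rw [hd_take h1] at h9
        show bil q δ acc' + 2 * gg * sumsq (g.tl (l.drop n)) ≤ _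
        rw [hsplit]
        have hn1 : (0 : ℝ) < n - 1 := by
          have : (2 : ℝ) ≤ n := by exact_mod_cast hn2
          linarith
        have g1' : (c : ℝ) * (n - 1) = gg := by
          rw [← g1]
          push_cast [Nat.cast_sub h1]
          ring
        have h10 : (c : ℝ) * ((l.take n).sum - hd l) ^ 2 =
            gg * (((l.take n).sum - hd l) ^ 2 / (n - 1)) := by
          rw [← g1']
          field_simp
        have h11 := mul_le_mul_of_nonneg_left h9 hgg0
        nlinarith
      · intro p hp
        have b1 := a3 p hp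
        have b2 := Nat.mul_le_mul hgg (hub p hp)
        have b3 := Nat.mul_le_mul (hcg.trans hgg) (sym_le hLb hLb hp)
        rw [Gl.len, Nat.add_mul, Nat.one_mul]
        omega

/-- packed multiplicities -/
noncomputable def qsGo (g : Gl) : ℕ :=
  Gl.rec (motive := fun _ => ℕ) 0 (fun n _ _ _ r => Nat.mul (2 ^ 20) (Nat.add n r)) g

theorem qsGo_eq (g : Gl) (hg : g.len ≤ 31) :
    qsGo g = ∑ j ∈ range 31, g.mult j * 2 ^ (20 * (j + 1)) := by
  have key : ∀ (g : Gl) (M : ℕ), g.len ≤ M →
      qsGo g = ∑ j ∈ range M, g.mult j * 2 ^ (20 * (j + 1)) := by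
    intro g
    induction g with
    | nil =>
      intro M _
      symm
      apply sum_eq_zero
      intro j _
      rw [Gl.mult, zero_mul]
    | cons n u L g ih =>
      intro M hM
      rw [Gl.len] at hM
      obtain ⟨M, rfl⟩ : ∃ m, M = m + 1 := ⟨M - 1, by omega⟩
      have e0 : qsGo (.cons n u L g) = 2 ^ 20 * (n + qsGo g) := by
        rw [qsGo]
        rfl
      have e1 : ∑ j ∈ range (M + 1), Gl.mult (.cons n u L g) j * 2 ^ (20 * (j + 1)) =
          ∑ j ∈ range M, g.mult j * 2 ^ (20 * (j + 1 + 1)) + n * 2 ^ (20 * (0 + 1)) :=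
        sum_range_succ' _ M
      have e2 : ∑ j ∈ range M, g.mult j * 2 ^ (20 * (j + 1 + 1)) =
          2 ^ 20 * ∑ j ∈ range M, g.mult j * 2 ^ (20 * (j + 1)) := by
        rw [mul_sum]
        apply sum_congr rfl
        intro j _
        rw [show 20 * (j + 1 + 1) = 20 + 20 * (j + 1) by ring, pow_add]
        ring
      rw [e0, e1, e2, ih M (by omega)]
      ring
  exact key g 31 hg

theorem mult_le {q y : ℕ} : ∀ (g : Gl), GOK q y g → ∀ j, g.mult j ≤ 961 := by
  intro g
  induction g with
  | nil =>
    intro _ j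
    rw [Gl.mult]
    omega
  | cons n u L g ih =>
    rintro ⟨⟨_, h1⟩, _, _, _, h5⟩ j
    cases j with
    | zero => exact h1
    | succ j => exact ih h5 j

end groups

end Pool.Agent.MOS
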