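import Pool.Agent.Lib.MP_b520b2_co.Lower

/-!
Compactness: if every finite subfamily packs into a rectangle of area at most `C`, so does the
whole family. Hence only finite decreasing lists matter. Final assembly.
-/

namespace Pool.Agent.MOS

open Filter Topology

theorem exists_ultrafilter_limit {α : Type} (U : Ultrafilter α) (f : α → ℝ) (M : ℝ)
    (h : ∀ᶠ F in (U : Filter α), 0 ≤ f F ∧ f F ≤ M) :
    ∃ z, Tendsto f (U : Filter α) (𝓝 z) := by
  have hK : IsCompact (Set.Icc (0 : ℝ) M) := isCompact_Icc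
  rw [isCompact_iff_ultrafilter_le_nhds'] at hK
  obtain ⟨z, _, hz⟩ := hK (U.map f) h
  exact ⟨z, hz⟩

/-- Compactness. -/
theorem packs_of_finite {ι : Type} [Nonempty ι] {d : ι → ℝ} (hd : ∀ i, 0 < d i) {C : ℝ}
    (h : ∀ F : Finset ι, F.Nonempty →
      ∃ a b : ℝ, a * b ≤ C ∧ Packs (fun i : F => d i) a b) :
    ∃ a b : ℝ, 0 < a ∧ 0 < b ∧ a * b ≤ C ∧ Packs d a b := by
  classical
  obtain ⟨i₀⟩ := ‹Nonempty ι›
  have h' : ∀ F : Finset ι, ∃ (a b : ℝ) (x y : ι → ℝ), i₀ ∈ F → a * b ≤ C ∧
      (∀ i ∈ F, 0 ≤ x i ∧ x i + d i ≤ a ∧ 0 ≤ y i ∧ y i + d i ≤ b) ∧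
      ∀ i ∈ F, ∀ j ∈ F, i ≠ j → Apart (x i, y i) (d i) (x j, y j) (d j) := by
    intro F
    by_cases hF : i₀ ∈ F
    · obtain ⟨a, b, hab, p, h1, h2⟩ := h F ⟨i₀, hF⟩
      refine ⟨a, b, fun i => if hi : i ∈ F then (p ⟨i, hi⟩).1 else 0,
        fun i => if hi : i ∈ F then (p ⟨i, hi⟩).2 else 0, fun _ => ⟨hab, ?_, ?_⟩⟩
      · intro i hi
        simp only [dif_pos hi]
        exact h1 ⟨i, hi⟩
      · intro i hi j hj hij
        simp only [dif_pos hi, dif_pos hj]
        exact h2 (show (⟨i, hi⟩ : F) ≠ ⟨j, hj⟩ from fun e => hij (congrArg Subtype.val e))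
    · exact ⟨0, 0, fun _ => 0, fun _ => 0, fun e => absurd e hF⟩
  choose a b x y hF using h'
  set U : Ultrafilter (Finset ι) := Ultrafilter.of atTop with hU
  have hmem : ∀ i : ι, ∀ᶠ F in (U : Filter (Finset ι)), i ∈ F := by
    intro i
    have h1 : ∀ᶠ F : Finset ι in atTop, i ∈ F := by
      filter_upwards [eventually_ge_atTop ({i} : Finset ι)] with F hF
      exact hF (Finset.mem_singleton_self i)
    exact (Ultrafilter.of_le atTop) h1
  have hi₀ := hmem i₀
  have hδ : 0 < d i₀ := hd i₀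
  -- bounds
  have hab : ∀ F : Finset ι, i₀ ∈ F → d i₀ ≤ a F ∧ d i₀ ≤ b F ∧ a F * b F ≤ C ∧
      a F ≤ C / d i₀ ∧ b F ≤ C / d i₀ := by
    intro F hi
    obtain ⟨h1, h2, _⟩ := hF F hi
    obtain ⟨g1, g2, g3, g4⟩ := h2 i₀ hi
    have ha : d i₀ ≤ a F := by linarith
    have hb : d i₀ ≤ b F := by linarith
    refine ⟨ha, hb, h1, ?_, ?_⟩
    · rw [le_div_iff₀ hδ]
      nlinarith
    · rw [le_div_iff₀ hδ]
      nlinarith
  obtain ⟨α, hα⟩ := exists_ultrafilter_limit U a (C / d i₀) (by
    filter_upwards [hi₀] with F hi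
    exact ⟨hδ.le.trans (hab F hi).1, (hab F hi).2.2.2.1⟩)
  obtain ⟨β, hβ⟩ := exists_ultrafilter_limit U b (C / d i₀) (by
    filter_upwards [hi₀] with F hi
    exact ⟨hδ.le.trans (hab F hi).2.1, (hab F hi).2.2.2.2⟩)
  have hx : ∀ i, ∃ z, Tendsto (fun F => x F i) (U : Filter (Finset ι)) (𝓝 z) := by
    intro i
    refine exists_ultrafilter_limit U (fun F => x F i) (C / d i₀) ?_
    filter_upwards [hi₀, hmem i] with F h0 hi
    obtain ⟨_, h2, _⟩ := hF F h0
    obtain ⟨g1, g2, g3, g4⟩ := h2 i hi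
    exact ⟨g1, by linarith [hd i, (hab F h0).2.2.2.1]⟩
  have hy : ∀ i, ∃ z, Tendsto (fun F => y F i) (U : Filter (Finset ι)) (𝓝 z) := by
    intro i
    refine exists_ultrafilter_limit U (fun F => y F i) (C / d i₀) ?_
    filter_upwards [hi₀, hmem i] with F h0 hi
    obtain ⟨_, h2, _⟩ := hF F h0
    obtain ⟨g1, g2, g3, g4⟩ := h2 i hi
    exact ⟨g3, by linarith [hd i, (hab F h0).2.2.2.2]⟩
  choose X hX using hx
  choose Y hY using hy
  refine ⟨α, β, ?_, ?_, ?_, fun i => (X i, Y i), ?_, ?_⟩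
  · refine hδ.trans_le (ge_of_tendsto hα ?_)
    filter_upwards [hi₀] with F hi
    exact (hab F hi).1
  · refine hδ.trans_le (ge_of_tendsto hβ ?_)
    filter_upwards [hi₀] with F hi
    exact (hab F hi).2.1
  · refine le_of_tendsto (hα.mul hβ) ?_
    filter_upwards [hi₀] with F hi
    exact (hab F hi).2.2.1
  · intro i
    have hev : ∀ᶠ F in (U : Filter (Finset ι)),
        0 ≤ x F i ∧ x F i + d i ≤ a F ∧ 0 ≤ y F i ∧ y F i + d i ≤ b F := by
      filter_upwards [hi₀, hmem i] with F h0 hi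
      exact (hF F h0).2.1 i hi
    refine ⟨?_, ?_, ?_, ?_⟩
    · refine ge_of_tendsto (hX i) ?_
      filter_upwards [hev] with F hF
      exact hF.1
    · refine le_of_tendsto_of_tendsto ((hX i).add_const (d i)) hα ?_
      filter_upwards [hev] with F hF
      exact hF.2.1
    · refine ge_of_tendsto (hY i) ?_
      filter_upwards [hev] with F hF
      exact hF.2.2.1
    · refine le_of_tendsto_of_tendsto ((hY i).add_const (d i)) hβ ?_
      filter_upwards [hev] with F hF
      exact hF.2.2.2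
  · intro i j hij
    have hev : ∀ᶠ F in (U : Filter (Finset ι)),
        Apart (x F i, y F i) (d i) (x F j, y F j) (d j) := by
      filter_upwards [hi₀, hmem i, hmem j] with F h0 hi hj
      exact (hF F h0).2.2 i hi j hj hij
    unfold Apart at hev ⊢
    simp only at hev ⊢
    rw [Ultrafilter.eventually_or, Ultrafilter.eventually_or, Ultrafilter.eventually_or] at hev
    rcases hev with hev | hev | hev | hev
    · left
      exact le_of_tendsto_of_tendsto ((hX i).add_const (d i)) (hX j) hev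
    · right; left
      exact le_of_tendsto_of_tendsto ((hX j).add_const (d j)) (hX i) hev
    · right; right; left
      exact le_of_tendsto_of_tendsto ((hY i).add_const (d i)) (hY j) hev
    · right; right; right
      exact le_of_tendsto_of_tendsto ((hY j).add_const (d j)) (hY i) hev

/-- What the certificate has to deliver: every finite decreasing list of positive sides packs
into a rectangle of area at most `C` times the total area. -/
def UpperBound (C : ℝ) : Prop :=
  ∀ l : List ℝ, l ≠ [] → (∀ s ∈ l, 0 < s) → l.Pairwise (· ≥ ·) →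
    ∃ a b : ℝ, a * b ≤ C * (l.map fun s => s ^ 2).sum ∧ PacksL l a b

theorem sufficient_of_upperBound {C : ℝ} (hC : 0 < C) (hU : UpperBound C) : Sufficient C := by
  classical
  intro ι d _ hd hsum
  have hne : Nonempty ι := by
    by_contra hcon
    rw [not_nonempty_iff] at hcon
    have h1 : HasSum (fun i => d i ^ 2) 0 := hasSum_empty
    exact one_ne_zero (hsum.unique h1)
  have hfin : ∀ F : Finset ι, F.Nonempty →
      ∃ a b : ℝ, a * b ≤ C ∧ Packs (fun i : F => d i) a b := by
    intro F hF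
    set L : List ℝ := List.map (fun i : F => d i) (Finset.univ : Finset F).toList with hL
    set l : List ℝ := L.insertionSort (· ≥ ·) with hl
    have hperm : List.Perm l L := List.perm_insertionSort _ _
    have hsorted : l.Pairwise (· ≥ ·) := List.pairwise_insertionSort _ _
    have hlne : l ≠ [] := by
      intro h0
      rw [h0] at hperm
      have h1 : L = [] := List.Perm.eq_nil hperm.symm
      rw [hL, List.map_eq_nil_iff, Finset.toList_eq_nil] at h1
      obtain ⟨i, hi⟩ := hF
      have : (⟨i, hi⟩ : F) ∈ (Finset.univ : Finset F) := Finset.mem_univ _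
      rw [h1] at this
      simp at this
    have hpos : ∀ s ∈ l, 0 < s := by
      intro s hs
      have h1 := hperm.subset hs
      rw [hL] at h1
      obtain ⟨i, _, rfl⟩ := List.mem_map.1 h1
      exact hd i
    obtain ⟨a, b, hab, hp⟩ := hU l hlne hpos hsorted
    refine ⟨a, b, ?_, packs_of_packsL hperm hp⟩
    have h2 : (l.map fun s => s ^ 2).sum = ∑ i ∈ F, d i ^ 2 := by
      rw [(hperm.map fun s => s ^ 2).sum_eq, hL, List.map_map]
      have h3 : ((Finset.univ : Finset F).toList.map ((fun s => s ^ 2) ∘ fun i : F => d i)).sum =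
          ∑ i : F, d i ^ 2 := by
        exact Finset.sum_map_toList _ _
      rw [h3]
      exact Finset.sum_coe_sort F fun i => d i ^ 2
    have h4 : ∑ i ∈ F, d i ^ 2 ≤ 1 := sum_le_hasSum F (fun i _ => by positivity) hsum
    rw [h2] at hab
    nlinarith
  obtain ⟨a, b, ha, hb, hab, hp⟩ := packs_of_finite hd hfin
  refine ⟨C / b, b, div_pos hC hb, hb, div_mul_cancel₀ C hb.ne', ?_⟩
  rw [packsInto_iff hd]
  refine hp.mono ?_ le_rfl
  rw [le_div_iff₀ hb]
  exact hab

/-- Final assembly: the certificate side gives the exact value. -/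
theorem isLeast_of_upperBound (hU : UpperBound ((2 + Real.sqrt 3) / 3)) :
    IsLeast {A : ℝ | 0 < A ∧ Sufficient A} ((2 + Real.sqrt 3) / 3) := by
  have hpos : (0 : ℝ) < (2 + Real.sqrt 3) / 3 := by positivity
  exact ⟨⟨hpos, sufficient_of_upperBound hpos hU⟩, fun A hA => lower_bound hA.2⟩

end Pool.Agent.MOS
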