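import Pool.Agent.Lib.MP_b520b2_co.Dec
import Pool.Agent.Lib.MP_b520b2_co.Compact

/-!
# The check of a covering tree

The tree is read from the stream `n` of words of twelve bits; the leaves and matrices are taken from
the list `cs`.
-/

namespace Pool.Agent.MOS

open Finset

/-- a word of the stream -/
def wd (n i : ℕ) : ℕ := Nat.land (Nat.shiftRight n (Nat.mul 12 i)) 4095

/-- an entry of the list of known cells -/
noncomputable def nthKC (l : List KC) : ℕ → (KC → Bool) → Bool :=
  List.rec (motive := fun _ => ℕ → (KC → Bool) → Bool) (fun _ _ => false)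
    (fun a _ ih n k => Nat.rec (motive := fun _ => Bool) (k a) (fun n _ => ih n k) n) l

theorem nthKC_sound {l : List KC} : ∀ {n : ℕ} {k : KC → Bool}, nthKC l n k = true →
    ∃ a ∈ l, k a = true := by
  induction l with
  | nil =>
    intro n k h
    exact absurd h (by simp [nthKC])
  | cons a l ih =>
    intro n k h
    cases n with
    | zero => exact ⟨a, by simp, h⟩
    | succ n =>
      obtain ⟨b, hb, h1⟩ := ih (n := n) h
      exact ⟨b, List.mem_cons_of_mem _ hb, h1⟩

/-- the check of a tree -/
noncomputable def chk (cn cd : ℕ) (kn : List KC) (fuel : ℕ) :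
    ℕ → List ℕ → ℕ → Gl → ℕ → ℕ → (ℕ → List ℕ → Bool) → Bool :=
  Nat.rec (motive := fun _ => ℕ → List ℕ → ℕ → Gl → ℕ → ℕ → (ℕ → List ℕ → Bool) → Bool)
    (fun _ _ _ _ _ _ _ => false)
    (fun _ ih n cs q g y s k => Nat.rec (motive := fun _ => Bool)
      -- 0: leaf
      (List.rec (motive := fun _ => Bool) false (fun c cs' _ =>
        LD.rec (motive := fun _ => Bool) (fun gg mu l sp =>
          andB (leafCheck cn cd q g y s gg mu l sp) (k (Nat.shiftRight n 12) cs')) (dLD q c)) cs)
      (fun o _ => Nat.rec (motive := fun _ => Bool)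
      -- 1: splitting
      (andB (Nat.ble (Nat.succ (wd n 1)) q) (andB (Nat.ble (Nat.succ (wd n 2)) q)
        (Bool.rec (motive := fun _ => Bool)
          (split1 (wd n 1) (wd n 2) (Nat.succ (wd n 3)) (wd n 4) g y s (fun g' y' s' =>
            ih (Nat.shiftRight n 60) cs q g' y' s' (fun n' cs' =>
              split1 (wd n 2) (wd n 1) (Nat.succ (wd n 4)) (wd n 3) g y s (fun g'' y'' s'' =>
                ih n' cs' q g'' y'' s'' k))))
          false (Nat.beq (wd n 1) (wd n 2)))))
      (fun o _ => Nat.rec (motive := fun _ => Bool)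
      -- 2: new group
      (Bool.rec (motive := fun _ => Bool)
        (upn q (wd n 1) (lenL (selL y q)) (selL y q) g y s (fun q' g' y' s' =>
          ih (Nat.shiftRight n 24) cs q' g' y' s' k))
        (up1 q (lenL (selL y q)) (selL y q) g y s (fun q' g' y' s' =>
          ih (Nat.shiftRight n 24) cs q' g' y' s' k)) (Nat.beq (wd n 1) 1))
      (fun o _ => Nat.rec (motive := fun _ => Bool)
      -- 3: empty cell
      (andB (emptyCheck q g y s (wd n 1)) (k (Nat.shiftRight n 24) cs))
      (fun o _ => Nat.rec (motive := fun _ => Bool)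
      -- 4: known cell
      (andB (nthKC kn (wd n 1) (fun a => eqC a q g y s)) (k (Nat.shiftRight n 24) cs))
      (fun o _ => Nat.rec (motive := fun _ => Bool)
      -- 5: contained in a known cell
      (List.rec (motive := fun _ => Bool) false (fun c cs' _ =>
        andB (nthKC kn (wd n 1) (fun a => covC a (dRws q c) q g y s))
          (k (Nat.shiftRight n 24) cs')) cs)
      (fun o _ => Nat.rec (motive := fun _ => Bool)
      -- 6: multiple of a ray
      (andB (Nat.ble (Nat.succ (wd n 1)) q)
        (split1 (Bool.rec (motive := fun _ => ℕ) 0 1 (Nat.beq (wd n 1) 0)) (wd n 1) 0 (wd n 2)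
          g y s (fun g' y' s' => ih (Nat.shiftRight n 36) cs q g' y' s' k)))
      (fun o _ => Nat.rec (motive := fun _ => Bool)
      -- 7: new group, triangulated
      (Bool.rec (motive := fun _ => Bool)
        (trn q (wd n 1) g y s (fun g' y' s' n cs k => ih n cs (Nat.succ (Nat.succ q)) g' y' s' k)
          (Nat.shiftRight n 24) cs k)
        (tr1 q g y s (fun g' y' s' n cs k => ih n cs (Nat.succ q) g' y' s' k)
          (Nat.shiftRight n 24) cs k) (Nat.beq (wd n 1) 1))
      -- 8: contained in another cell, which is checked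
      (fun _ _ => List.rec (motive := fun _ => Bool) false (fun c cs' _ =>
        List.rec (motive := fun _ => Bool) false (fun c' cs'' _ =>
          KC.rec (motive := fun _ => Bool) (fun q' g' y' s' =>
            andB (cellB q' g' y' s') (andB (covC (KC.mk q' g' y' s') (dRws q c') q g y s)
              (ih (Nat.shiftRight n 12) cs'' q' g' y' s' k))) (dKC c)) cs') cs)
      o) o) o) o) o) o) o) (wd n 0)) fuel

/-- the bounds for the constant -/
structure CK (M : ℝ) (cn cd : ℕ) : Prop where
  hcn : cn ≤ 2 ^ 12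
  hcd : cd ≤ 2 ^ 12
  hcd' : 0 < cd
  le : (cn : ℝ) / cd ≤ M

theorem Good.mono {M M' : ℝ} {l : List ℝ} (h : Good M l) (hM : M ≤ M') : Good M' l := by
  obtain ⟨a, b, h1, h2⟩ := h
  exact ⟨a, b, h1, h2.trans (mul_le_mul_of_nonneg_right hM (sumsq_nonneg l))⟩

theorem chk_sound {M : ℝ} {cn cd : ℕ} (hK : CK M cn cd) {kn : List KC}
    (hkn : ∀ c ∈ kn, GoodKC M c) (fuel : ℕ) :
    ∀ (n : ℕ) (cs : List ℕ) (q : ℕ) (g : Gl) (y s : ℕ) (k : ℕ → List ℕ → Bool),
      CellOK q g y s → chk cn cd kn fuel n cs q g y s k = true →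
      GoodCell M q g y s ∧ ∃ n' cs', k n' cs' = true := by
  induction fuel with
  | zero =>
    intro n cs q g y s k _ h
    exact absurd h (by simp [chk])
  | succ fuel ih =>
    intro n cs q g y s k hc h
    unfold chk at h
    dsimp only at h
    change Nat.rec (motive := fun _ => Bool) _ _ (wd n 0) = true at h
    rcases hop : wd n 0 with _ | o
    · -- leaf
      rw [hop] at h
      cases cs with
      | nil => exact absurd h (by simp)
      | cons c cs =>
        dsimp only at h
        cases hd : dLD q c with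
        | mk gg mu l sp =>
          rw [hd] at h
          obtain ⟨h1, h2⟩ := andB_eq_true.1 h
          exact ⟨fun l' _ hsp δ hh => (leafCheck_sound hc hsp hh hK.hcn hK.hcd hK.hcd' h1).mono
            hK.le, _, _, h2⟩
    rw [hop] at h
    dsimp only at h
    rcases o with _ | o
    · -- splitting
      obtain ⟨g1, h⟩ := andB_eq_true.1 h
      obtain ⟨g2, h⟩ := andB_eq_true.1 h
      have g1 : wd n 1 < q := Nat.le_of_ble_eq_true g1
      have g2 : wd n 2 < q := Nat.le_of_ble_eq_true g2
      have hij : wd n 1 ≠ wd n 2 := by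
        intro hij
        rw [hij, Nat.beq_refl] at h
        exact absurd h (by simp)
      rw [beq_false_of_ne hij] at h
      obtain ⟨ga, ya, sa, a1, a2, a3⟩ := split1_sound g1 g2 hij hc h
      obtain ⟨a4, n', cs', a5⟩ := ih _ _ _ _ _ _ _ a2 a1
      obtain ⟨gb, yb, sb, b1, b2, b3⟩ := split1_sound g2 g1 (Ne.symm hij) hc a5
      obtain ⟨b4, b5⟩ := ih _ _ _ _ _ _ _ b2 b1
      refine ⟨fun l hl hsp δ hh => ?_, b5⟩
      rcases le_total ((wd n 3 + 1 : ℝ) * δ (wd n 2)) ((wd n 4 + 1) * δ (wd n 1)) with h5 | h5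
      · obtain ⟨δ', h6⟩ := a3 l δ (by push_cast; exact h5) hh
        exact a4 l hl hsp δ' h6
      · obtain ⟨δ', h6⟩ := b3 l δ (by push_cast; exact h5) hh
        exact b4 l hl hsp δ' h6
    dsimp only at h
    rcases o with _ | o
    · -- new group
      cases hb : Nat.beq (wd n 1) 1 with
      | true =>
        rw [hb] at h
        exact up1_sound hc (fun q' g' y' s' hc' h' => ih _ _ _ _ _ _ _ hc' h') h
      | false =>
        rw [hb] at h
        exact upn_sound hc (fun q' g' y' s' hc' h' => ih _ _ _ _ _ _ _ hc' h') h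
    dsimp only at h
    rcases o with _ | o
    · -- empty cell
      obtain ⟨h1, h2⟩ := andB_eq_true.1 h
      exact ⟨fun l hl hsp δ hh => (emptyCheck_sound hc hsp hh hl h1).elim, _, _, h2⟩
    dsimp only at h
    rcases o with _ | o
    · -- known cell
      obtain ⟨h1, h2⟩ := andB_eq_true.1 h
      obtain ⟨a, ha, h3⟩ := nthKC_sound h1
      exact ⟨eqC_sound (hkn a ha) h3, _, _, h2⟩
    dsimp only at h
    rcases o with _ | o
    · -- contained in a known cell
      cases cs with
      | nil => exact absurd h (by simp)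
      | cons c cs =>
        obtain ⟨h1, h2⟩ := andB_eq_true.1 h
        obtain ⟨a, ha, h3⟩ := nthKC_sound h1
        exact ⟨covC_sound (hkn a ha) h3, _, _, h2⟩
    dsimp only at h
    rcases o with _ | o
    · -- multiple of a ray
      obtain ⟨g1, h⟩ := andB_eq_true.1 h
      have g1 : wd n 1 < q := Nat.le_of_ble_eq_true g1
      obtain ⟨i, hi⟩ : ∃ i, i = (Bool.rec (motive := fun _ => ℕ) 0 1 (Nat.beq (wd n 1) 0) : ℕ) :=
        ⟨_, rfl⟩
      rw [← hi] at h
      have hq := hc.1
      have hne : i < q ∧ i ≠ wd n 1 := by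
        by_cases h0 : wd n 1 = 0
        · rw [h0, Nat.beq_refl] at hi
          have hi : i = 1 := hi
          rw [hi, h0]
          exact ⟨by omega, by norm_num⟩
        · rw [beq_false_of_ne h0] at hi
          have hi : i = 0 := hi
          rw [hi]
          exact ⟨by omega, fun h => h0 h.symm⟩
      obtain ⟨ga, ya, sa, a1, a2, a3⟩ := split1_sound hne.1 g1 hne.2 hc h
      obtain ⟨a4, a5⟩ := ih _ _ _ _ _ _ _ a2 a1
      refine ⟨fun l hl hsp δ hh => ?_, a5⟩
      obtain ⟨δ', h6⟩ := a3 l δ (by
        rw [Nat.cast_zero, zero_mul]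
        exact mul_nonneg (by positivity) (hh.1 _)) hh
      exact a4 l hl hsp δ' h6
    dsimp only at h
    rcases o with _ | o
    · -- new group, triangulated
      cases hb : Nat.beq (wd n 1) 1 with
      | true =>
        rw [hb] at h
        exact tr1_sound hc (fun g' y' s' n cs k hc' h' => ih _ _ _ _ _ _ _ hc' h') h
      | false =>
        rw [hb] at h
        exact trn_sound hc (fun g' y' s' n cs k hc' h' => ih _ _ _ _ _ _ _ hc' h') h
    · -- contained in another cell, which is checked
      cases cs with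
      | nil => exact absurd h (by simp)
      | cons c cs =>
        cases cs with
        | nil => exact absurd h (by simp)
        | cons c' cs =>
          dsimp only at h
          cases hd : dKC c with
          | mk q' g' y' s' =>
            rw [hd] at h
            obtain ⟨h1, h⟩ := andB_eq_true.1 h
            obtain ⟨h2, h⟩ := andB_eq_true.1 h
            obtain ⟨h3, h4⟩ := ih _ _ _ _ _ _ _ (cellB_sound h1) h
            exact ⟨covC_sound (kc := KC.mk q' g' y' s') h3 h2, h4⟩

/-- the check of one piece of the covering tree -/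
noncomputable def chkKC (cn cd : ℕ) (kn : List KC) (fuel n : ℕ) (cs : List ℕ) (kc : KC) : Bool :=
  KC.rec (motive := fun _ => Bool) (fun q g y s => andB (cellB q g y s)
    (chk cn cd kn fuel n cs q g y s (fun _ _ => true))) kc

/-- all cells of a list are good -/
def AllG (M : ℝ) : List KC → Prop
  | [] => True
  | c :: l => GoodKC M c ∧ AllG M l

theorem AllG.mem {M : ℝ} : ∀ {l : List KC}, AllG M l → ∀ c ∈ l, GoodKC M c
  | [], _, c, hc => absurd hc (by simp)
  | a :: l, h, c, hc => by
    rcases List.mem_cons.1 hc with rfl | hc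
    · exact h.1
    · exact AllG.mem h.2 c hc

/-- **Soundness of the check.** -/
theorem chkKC_sound {M : ℝ} {cn cd : ℕ} (hK : CK M cn cd) {kn : List KC} (hkn : AllG M kn)
    {fuel n : ℕ} {cs : List ℕ} {kc : KC} (h : chkKC cn cd kn fuel n cs kc = true) :
    GoodKC M kc := by
  obtain ⟨q, g, y, s⟩ := kc
  obtain ⟨h1, h2⟩ := andB_eq_true.1 h
  exact (chk_sound hK hkn.mem fuel n cs q g y s _ (cellB_sound h1) h2).1

/-- the cone of all collections: the rays `(y, s) = (0, 1)` and `(1, 1)` -/
def rootKC : KC := KC.mk 2 Gl.nil (2 ^ K) (2 ^ K + 1)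

/-- **The covering tree gives the upper bound.** -/
theorem upperBound_of_root {M : ℝ} (h : GoodKC M rootKC) : UpperBound M := by
  intro l hne h0 hs
  have hsp : SP l := ⟨hs, h0⟩
  have d1 : dg (2 ^ K) 0 = 0 ∧ dg (2 ^ K) 1 = 1 := by decide +kernel
  have d2 : dg (2 ^ K + 1) 0 = 1 ∧ dg (2 ^ K + 1) 1 = 1 := by decide +kernel
  have hle : hd l ≤ Real.sqrt (sumsq l) := by
    apply Real.le_sqrt_of_sq_le
    cases l with
    | nil => exact absurd rfl hne
    | cons a l =>
      rw [sumsq_cons]
      have := sumsq_nonneg l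
      show a ^ 2 ≤ _
      linarith
  obtain ⟨δ, hδ⟩ : ∃ δ : ℕ → ℝ, δ = fun i => if i = 0 then Real.sqrt (sumsq l) - hd l else
    if i = 1 then hd l else 0 := ⟨_, rfl⟩
  have hG : Good M l := by
    refine h l hne hsp δ ⟨fun i => ?_, ?_, ?_⟩
    · rw [hδ]
      dsimp only
      split_ifs
      · linarith
      · exact hd_nonneg hsp
      · exact le_rfl
    · show hd l = lin 2 δ (dg (2 ^ K))
      rw [lin, Finset.sum_range_succ, Finset.sum_range_one, d1.1, d1.2, hδ]
      simp
    · rw [lin, Finset.sum_range_succ, Finset.sum_range_one, d2.1, d2.2, hδ]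
      simp
  obtain ⟨a, b, h1, h2⟩ := hG
  exact ⟨a, b, h2, h1⟩

end Pool.Agent.MOS
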