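import Pool.Agent.Lib.MP_b520b2_co.Leaf

/-!
# Operations on cells

Splitting of a cell, introduction of a new group, comparison with a known cell.
-/

namespace Pool.Agent.MOS

open Finset

/-- every collection of the cell is good -/
def GoodCell (M : ℝ) (q : ℕ) (g : Gl) (y s : ℕ) : Prop :=
  ∀ l : List ℝ, l ≠ [] → SP l → ∀ δ, Holds q g y s δ l → Good M l

/-- Apply an operation to all vectors of the groups; `e` replaces the end. -/
noncomputable def mapG (f : ℕ → (ℕ → Bool) → Bool) (e g : Gl) (k : Gl → Bool) : Bool :=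
  Gl.rec (motive := fun _ => (Gl → Bool) → Bool) (fun k => k e)
    (fun n u L _ r k => f u (fun u' => Bool.rec (motive := fun _ => Bool)
      (f L (fun L' => r (fun g' => k (Gl.cons n u' L' g'))))
      (r (fun g' => k (Gl.cons n u' L g'))) (Nat.beq n 1))) g k

theorem beq_false_of_ne {a b : ℕ} (h : a ≠ b) : Nat.beq a b = false := by
  cases hb : Nat.beq a b
  · rfl
  · exact absurd (Nat.eq_of_beq_eq_true hb) h

/-- what an operation on vectors has to guarantee -/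
def OpOK (q q' : ℕ) (F : (ℕ → ℕ) → ℕ → ℕ) (f : ℕ → (ℕ → Bool) → Bool) : Prop :=
  ∀ (v : ℕ) (k : ℕ → Bool), IsVec q v → f v k = true →
    ∃ v', k v' = true ∧ IsVec q' v' ∧ ∀ i < q', dg v' i = F (dg v) i

/-- monotonicity of an operation -/
def Mono (q q' : ℕ) (F : (ℕ → ℕ) → ℕ → ℕ) : Prop :=
  ∀ u v : ℕ → ℕ, (∀ i < q, u i ≤ v i) → ∀ i < q', F u i ≤ F v i

/-- the sides of the groups are given by `δ` -/
def HoldsP (q : ℕ) (δ : ℕ → ℝ) : Gl → List ℝ → Prop
  | .nil, _ => True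
  | .cons n u L g, l => hd l = lin q δ (dg u) ∧ (n ≠ 1 → (l.take n).sum = lin q δ (dg L)) ∧
      HoldsP q δ g (l.drop n)

theorem HoldsG.toP {q y : ℕ} {δ : ℕ → ℝ} {g : Gl} : ∀ {l : List ℝ}, HoldsG q y δ g l →
    HoldsP q δ g l := by
  induction g with
  | nil => exact fun _ => trivial
  | cons n u L g ih => exact fun h => ⟨h.1, h.2.1, ih h.2.2⟩

theorem HoldsG.hd {q y : ℕ} {δ : ℕ → ℝ} {g : Gl} : ∀ {l : List ℝ}, HoldsG q y δ g l →
    hd (g.tl l) = lin q δ (dg y) := by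
  induction g with
  | nil => exact id
  | cons n u L g ih => exact fun h => ih h.2.2

theorem HoldsP.toG {q y : ℕ} {δ : ℕ → ℝ} {g : Gl} : ∀ {l : List ℝ}, HoldsP q δ g l →
    hd (g.tl l) = lin q δ (dg y) → HoldsG q y δ g l := by
  induction g with
  | nil => exact fun _ h => h
  | cons n u L g ih => exact fun h h' => ⟨h.1, h.2.1, ih h.2.2 h'⟩

theorem mapG_sound' {q q' y y' : ℕ} {F : (ℕ → ℕ) → ℕ → ℕ} {f : ℕ → (ℕ → Bool) → Bool}
    (hF : Mono q q' F) (hf : OpOK q q' F f) (e : Gl) (hy : ∀ i < q', dg y' i ≤ F (dg y) i) :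
    ∀ g : Gl, GOK q y g → ∀ k : Gl → Bool, mapG f e g k = true →
    ∃ g', k g' = true ∧ (GOK q' y' e → GOK q' y' g') ∧ g'.len = g.len + e.len ∧
      (∀ l : List ℝ, g'.tl l = e.tl (g.tl l)) ∧
      ∀ (l : List ℝ) (δ δ' : ℕ → ℝ),
        (∀ v : ℕ → ℕ, lin q' δ' (F v) = lin q δ v) → HoldsP q δ g l →
        HoldsP q' δ' e (g.tl l) → HoldsP q' δ' g' l := by
  intro g
  induction g with
  | nil =>
    intro _ k h
    refine ⟨e, h, id, ?_, fun l => rfl, fun l δ δ' _ _ h => h⟩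
    rw [Gl.len, zero_add]
  | cons n u L g ih =>
    rintro ⟨h1, h2, h3, h4, h5⟩ k h
    have hlin : ∀ (v v' : ℕ) (δ δ' : ℕ → ℝ), (∀ i < q', dg v' i = F (dg v) i) →
        (∀ v : ℕ → ℕ, lin q' δ' (F v) = lin q δ v) → lin q' δ' (dg v') = lin q δ (dg v) := by
      intro v v' δ δ' h6 h7
      rw [← h7, lin_congr h6]
    by_cases hn : n = 1
    · subst hn
      have h : f u (fun u' => mapG f e g (fun g' => k (Gl.cons 1 u' L g'))) = true := h
      obtain ⟨u', h, a1, a2⟩ := hf u _ h2 h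
      obtain ⟨g', h, b1, b2, b4, b3⟩ := ih h5 _ h
      refine ⟨_, h, fun he => ⟨h1, a1, fun i hi => ?_, fun hn => absurd rfl hn, b1 he⟩, ?_,
        fun l => b4 _, ?_⟩
      · rw [a2 i hi]
        exact (hy i hi).trans (hF _ _ h3 i hi)
      · rw [Gl.len, Gl.len, b2]
        ring
      · rintro l δ δ' h7 ⟨h8, _, h10⟩ h11
        refine ⟨?_, fun hn => absurd rfl hn, b3 _ δ δ' h7 h10 h11⟩
        rw [h8, hlin u u' δ δ' a2 h7]
    · have h : f u (fun u' => Bool.rec (motive := fun _ => Bool)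
        (f L (fun L' => mapG f e g (fun g' => k (Gl.cons n u' L' g'))))
        (mapG f e g (fun g' => k (Gl.cons n u' L g'))) (Nat.beq n 1)) = true := h
      obtain ⟨u', h, a1, a2⟩ := hf u _ h2 h
      rw [beq_false_of_ne hn] at h
      obtain ⟨L', h, c1, c2⟩ := hf L _ (h4 hn).1 h
      obtain ⟨g', h, b1, b2, b4, b3⟩ := ih h5 _ h
      refine ⟨_, h, fun he => ⟨h1, a1, fun i hi => ?_, fun _ => ⟨c1, fun i hi => ?_⟩, b1 he⟩,
        ?_, fun l => b4 _, ?_⟩
      · rw [a2 i hi]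
        exact (hy i hi).trans (hF _ _ h3 i hi)
      · rw [a2 i hi, c2 i hi]
        exact hF _ _ (h4 hn).2 i hi
      · rw [Gl.len, Gl.len, b2]
        ring
      · rintro l δ δ' h7 ⟨h8, h9, h10⟩ h11
        refine ⟨?_, fun _ => ?_, b3 _ δ δ' h7 h10 h11⟩
        · rw [h8, hlin u u' δ δ' a2 h7]
        · rw [h9 hn, hlin L L' δ δ' c2 h7]

theorem mapG_sound {q q' y y' : ℕ} {F : (ℕ → ℕ) → ℕ → ℕ} {f : ℕ → (ℕ → Bool) → Bool}
    (hF : Mono q q' F) (hf : OpOK q q' F f) (e : Gl) (hy : ∀ i < q', dg y' i ≤ F (dg y) i)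
    (g : Gl) (hg : GOK q y g) (k : Gl → Bool) (h : mapG f e g k = true) :
    ∃ g', k g' = true ∧ (GOK q' y' e → GOK q' y' g') ∧ g'.len = g.len + e.len ∧
      ∀ (l : List ℝ) (δ δ' : ℕ → ℝ),
        (∀ v : ℕ → ℕ, lin q' δ' (F v) = lin q δ v) → HoldsP q δ g l →
        HoldsG q' y' δ' e (g.tl l) → HoldsG q' y' δ' g' l := by
  obtain ⟨g', h, h1, h2, h3, h4⟩ := mapG_sound' hF hf e hy g hg k h
  refine ⟨g', h, h1, h2, fun l δ δ' h5 h6 h7 => (h4 l δ δ' h5 h6 h7.toP).toG ?_⟩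
  rw [h3]
  exact h7.hd

/-! ### splitting -/

/-- Digit at the shift `sh`. -/
def dgS (a sh : ℕ) : ℕ := Nat.land (Nat.shiftRight a sh) (2 ^ K - 1)

/-- Ray `j` is replaced by `a r_i + (b + 1) r_j`. -/
def splV (si sj a b pj v : ℕ) (k : ℕ → Bool) : Bool :=
  andB (Nat.beq (Nat.shiftRight (Nat.add (Nat.add (Nat.mul a (dgS v si)) (Nat.mul b (dgS v sj)))
      (dgS v sj)) KAP) 0)
    (k (Nat.add v (Nat.mul (Nat.add (Nat.mul a (dgS v si)) (Nat.mul b (dgS v sj))) pj)))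

/-- the digits after the operation -/
def splF (i j a b : ℕ) (v : ℕ → ℕ) (m : ℕ) : ℕ := if m = j then a * v i + (b + 1) * v j else v m

theorem digs_add_single {k n : ℕ} {f : ℕ → ℕ} {j : ℕ} (hj : j < n) (d : ℕ) :
    digs k n f + d * 2 ^ (k * j) = digs k n (fun m => if m = j then f m + d else f m) := by
  have h1 : d * 2 ^ (k * j) = digs k n (fun m => if m = j then d else 0) := by
    rw [digs, sum_eq_single j]
    · simp
    · intro b _ hb
      simp [hb]
    · intro h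
      exact absurd (mem_range.2 hj) h
  rw [h1, digs_add]
  apply digs_congr
  intro m _
  split_ifs <;> simp

theorem dgS_eq (a i : ℕ) : dgS a (K * i) = dg a i := rfl

theorem splV_ok {q i j a b : ℕ} (hi : i < q) (hj : j < q) :
    OpOK q q (splF i j a b) (splV (K * i) (K * j) a b (2 ^ (K * j))) := by
  intro v k hv h
  obtain ⟨g1, h⟩ := andB_eq_true.1 h
  have g1 : (a * dg v i + b * dg v j + dg v j) >>> KAP = 0 := Nat.eq_of_beq_eq_true g1
  have h : k (v + (a * dg v i + b * dg v j) * 2 ^ (K * j)) = true := h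
  have hlt : a * dg v i + (b + 1) * dg v j < 2 ^ KAP := by
    rw [Nat.shiftRight_eq_div_pow, Nat.div_eq_zero_iff] at g1
    rcases g1 with g1 | g1
    · exact absurd g1 (Nat.two_pow_pos _).ne'
    · calc a * dg v i + (b + 1) * dg v j = a * dg v i + b * dg v j + dg v j := by ring
        _ < _ := g1
  have e1 : v + (a * dg v i + b * dg v j) * 2 ^ (K * j) = digs K q (splF i j a b (dg v)) := by
    conv_lhs => rw [hv.1]
    rw [digs_add_single hj, ← hv.1]
    apply digs_congr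
    intro m _
    rw [splF]
    split_ifs with h1
    · subst h1
      ring
    · rfl
  have hb : ∀ m < q, splF i j a b (dg v) m < 2 ^ KAP := by
    intro m hm
    rw [splF]
    split_ifs
    · exact hlt
    · exact hv.2 m hm
  have hK : 2 ^ KAP ≤ 2 ^ K := Nat.pow_le_pow_right (by norm_num) (by decide)
  refine ⟨_, h, ?_, ?_⟩
  · rw [e1]
    exact isVec_digs hb
  · intro m hm
    rw [e1]
    exact dg_digs (fun m hm => (hb m hm).trans_le hK) hm

theorem splF_mono {q i j a b : ℕ} (hi : i < q) (hj : j < q) : Mono q q (splF i j a b) := by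
  intro u v h m hm
  rw [splF, splF]
  split_ifs
  · exact Nat.add_le_add (Nat.mul_le_mul_left _ (h i hi)) (Nat.mul_le_mul_left _ (h j hj))
  · exact h m hm

/-- the coefficients after a splitting -/
noncomputable def splD (i j a b : ℕ) (δ : ℕ → ℝ) (m : ℕ) : ℝ :=
  if m = j then δ j / (b + 1) else if m = i then δ i - a * δ j / (b + 1) else δ m

theorem splD_lin {q i j a b : ℕ} (hi : i < q) (hj : j < q) (hij : i ≠ j) (δ : ℕ → ℝ)
    (v : ℕ → ℕ) : lin q (splD i j a b δ) (splF i j a b v) = lin q δ v := by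
  have hb : (b : ℝ) + 1 ≠ 0 := by positivity
  have h1 : ∀ m ∈ range q, splD i j a b δ m * splF i j a b v m = δ m * v m +
      ((if m = j then δ j / (b + 1) * a * v i else 0) +
        (if m = i then - (a * δ j / (b + 1) * v i) else 0)) := by
    intro m _
    rw [splD, splF]
    by_cases h1 : m = j
    · have h2 : m ≠ i := fun h => hij (h ▸ h1)
      rw [if_pos h1, if_pos h1, if_pos h1, if_neg h2, h1]
      push_cast
      field_simp
      ring
    · rw [if_neg h1, if_neg h1, if_neg h1]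
      by_cases h2 : m = i
      · rw [if_pos h2, if_pos h2, h2]
        ring
      · rw [if_neg h2, if_neg h2]
        ring
  rw [lin, sum_congr rfl h1, sum_add_distrib, sum_add_distrib, sum_ite_eq', sum_ite_eq',
    if_pos (mem_range.2 hj), if_pos (mem_range.2 hi), lin]
  ring

theorem splD_nonneg {i j a b : ℕ} {δ : ℕ → ℝ} (hδ : ∀ m, 0 ≤ δ m)
    (h : a * δ j ≤ (b + 1) * δ i) (m : ℕ) : 0 ≤ splD i j a b δ m := by
  have hb : (0 : ℝ) < (b : ℝ) + 1 := by positivity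
  rw [splD]
  split_ifs
  · exact div_nonneg (hδ j) hb.le
  · rw [sub_nonneg, div_le_iff₀ hb]
    linarith
  · exact hδ m

/-- an operation on all vectors of the cell -/
noncomputable def opAll (f : ℕ → (ℕ → Bool) → Bool) (g : Gl) (y s : ℕ)
    (k : Gl → ℕ → ℕ → Bool) : Bool :=
  f y (fun y' => f s (fun s' => mapG f Gl.nil g (fun g' => k g' y' s')))

theorem opAll_sound {q q' y s : ℕ} {F : (ℕ → ℕ) → ℕ → ℕ} {f : ℕ → (ℕ → Bool) → Bool}
    (hF : Mono q q' F) (hf : OpOK q q' F f) {g : Gl} {k : Gl → ℕ → ℕ → Bool}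
    (hc : CellOK q g y s) (hq2 : 2 ≤ q') (hq1000 : q' ≤ 1000) (h : opAll f g y s k = true) :
    ∃ g' y' s', k g' y' s' = true ∧ CellOK q' g' y' s' ∧
      ∀ (l : List ℝ) (δ δ' : ℕ → ℝ), (∀ i, 0 ≤ δ' i) →
        (∀ v : ℕ → ℕ, lin q' δ' (F v) = lin q δ v) → Holds q g y s δ l →
        Holds q' g' y' s' δ' l := by
  obtain ⟨hq, hq', hy, hs, hg, hlen⟩ := hc
  obtain ⟨y', h, a1, a2⟩ := hf y _ hy h
  obtain ⟨s', h, b1, b2⟩ := hf s _ hs h
  obtain ⟨g', h, c1, c2, c3⟩ := mapG_sound (y' := y') hF hf Gl.nil (fun i hi => (a2 i hi).le)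
    g hg _ h
  refine ⟨g', y', s', h, ⟨hq2, hq1000, a1, b1, c1 trivial, ?_⟩, ?_⟩
  · rw [c2, Gl.len, add_zero]
    exact hlen
  · rintro l δ δ' hδ' hl ⟨h1, h2, h3⟩
    refine ⟨hδ', c3 l δ δ' hl h2.toP ?_, ?_⟩
    · show hd (g.tl l) = lin q' δ' (dg y')
      rw [lin_congr a2, hl]
      exact tl_hd g l h2
    · rw [h3, lin_congr b2, hl]

/-- one child of a splitting -/
noncomputable def split1 (i j a b : ℕ) (g : Gl) (y s : ℕ) (k : Gl → ℕ → ℕ → Bool) : Bool :=
  opAll (splV (Nat.mul K i) (Nat.mul K j) a b (Nat.pow 2 (Nat.mul K j))) g y s k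

theorem split1_sound {q i j a b : ℕ} (hi : i < q) (hj : j < q) (hij : i ≠ j) {g : Gl} {y s : ℕ}
    {k : Gl → ℕ → ℕ → Bool} (hc : CellOK q g y s) (h : split1 i j a b g y s k = true) :
    ∃ g' y' s', k g' y' s' = true ∧ CellOK q g' y' s' ∧
      ∀ (l : List ℝ) (δ : ℕ → ℝ), a * δ j ≤ (b + 1) * δ i → Holds q g y s δ l →
        ∃ δ', Holds q g' y' s' δ' l := by
  obtain ⟨g', y', s', h1, h2, h3⟩ := opAll_sound (splF_mono hi hj) (splV_ok hi hj) hc hc.1 hc.2.1 h
  exact ⟨g', y', s', h1, h2, fun l δ h4 h5 => ⟨splD i j a b δ, h3 l δ _ (splD_nonneg h5.1 h4)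
    (splD_lin hi hj hij δ) h5⟩⟩

/-- **Splitting.** -/
noncomputable def splitC (q i j a b : ℕ) (g : Gl) (y s : ℕ)
    (k1 : Gl → ℕ → ℕ → Bool) (k2 : Gl → ℕ → ℕ → Bool) : Bool :=
  andB (Nat.ble (Nat.succ i) q) (andB (Nat.ble (Nat.succ j) q)
    (Bool.rec (motive := fun _ => Bool) (andB (split1 i j (Nat.succ a) b g y s k1)
      (split1 j i (Nat.succ b) a g y s k2)) false (Nat.beq i j)))

theorem splitC_sound {M : ℝ} {q i j a b : ℕ} {g : Gl} {y s : ℕ} {k1 k2 : Gl → ℕ → ℕ → Bool}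
    {P : Prop} (hc : CellOK q g y s)
    (h1 : ∀ g' y' s', CellOK q g' y' s' → k1 g' y' s' = true → GoodCell M q g' y' s')
    (h2 : ∀ g' y' s', CellOK q g' y' s' → k2 g' y' s' = true → GoodCell M q g' y' s' ∧ P)
    (h : splitC q i j a b g y s k1 k2 = true) : GoodCell M q g y s ∧ P := by
  obtain ⟨g1, h⟩ := andB_eq_true.1 h
  obtain ⟨g2, h⟩ := andB_eq_true.1 h
  have g1 : i < q := Nat.le_of_ble_eq_true g1
  have g2 : j < q := Nat.le_of_ble_eq_true g2
  have hij : i ≠ j := by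
    intro hij
    rw [hij, Nat.beq_refl] at h
    exact absurd h (by simp)
  rw [beq_false_of_ne hij] at h
  obtain ⟨g3, g4⟩ := andB_eq_true.1 h
  obtain ⟨ga, ya, sa, a1, a2, a3⟩ := split1_sound g1 g2 hij hc g3
  obtain ⟨gb, yb, sb, b1, b2, b3⟩ := split1_sound g2 g1 (Ne.symm hij) hc g4
  obtain ⟨b4, b5⟩ := h2 _ _ _ b2 b1
  refine ⟨fun l hl hsp δ hh => ?_, b5⟩
  rcases le_total ((a + 1 : ℝ) * δ j) ((b + 1) * δ i) with h5 | h5
  · obtain ⟨δ', h6⟩ := a3 l δ (by push_cast; exact h5) hh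
    exact h1 _ _ _ a2 a1 l hl hsp δ' h6
  · obtain ⟨δ', h6⟩ := b3 l δ (by push_cast; exact h5) hh
    exact b4 l hl hsp δ' h6

end Pool.Agent.MOS
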