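import Pool.Agent.Lib.MP_b520b2_co.Up

/-!
# New groups with triangulated cells

The rays `i < m` have last side `0`, the rays `i > m` keep the last side, and ray `m` is taken twice.
-/

namespace Pool.Agent.MOS

open Finset

/-- appends a copy of a digit -/
def apV (sk pq v : ℕ) (k : ℕ → Bool) : Bool := k (Nat.add v (Nat.mul pq (dgS v sk)))

/-- the digits after `apV` -/
def apF (m q : ℕ) (v : ℕ → ℕ) : ℕ → ℕ := glue q v (fun _ => v m)

/-- the digits above the shift `sk`, and a copy of the digit at `sk` -/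
def triV (sk pq v : ℕ) : ℕ :=
  Nat.add (Nat.shiftLeft (Nat.shiftRight v (Nat.add sk K)) (Nat.add sk K)) (Nat.mul pq (dgS v sk))

/-- the digits of `triV` -/
def triF (m q : ℕ) (v : ℕ → ℕ) : ℕ → ℕ := glue q (fun i => if m < i then v i else 0) (fun _ => v m)

/-- the coefficients -/
noncomputable def triD (m q : ℕ) (θ : ℝ) (δ : ℕ → ℝ) : ℕ → ℝ :=
  glue q (fun i => if i = m then (1 - θ) * δ m else δ i) (fun _ => θ * δ m)

section tri

variable {q m : ℕ}

theorem digs_one_digit (a : ℕ) : digs K 1 (fun _ => a) = a := by simp [digs]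

theorem apV_ok (hm : m < q) : OpOK q (q + 1) (apF m q) (apV (K * m) (2 ^ (K * q))) := by
  intro v k hv h
  have h : k (v + 2 ^ (K * q) * dg v m) = true := h
  have e : v + 2 ^ (K * q) * dg v m = digs K (q + 1) (apF m q (dg v)) := by
    rw [apF, digs_glue, ← hv.1, digs_one_digit]
  obtain ⟨h1, h2⟩ := dg_of_eq (glue_lt hv.2 fun _ _ => hv.2 m hm) e
  exact ⟨_, h, h1, h2⟩

theorem apF_mono (hm : m < q) : Mono q (q + 1) (apF m q) := fun _ _ h =>
  glue_le h fun _ _ => h m hm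

theorem triV_eq {v : ℕ} (hv : IsVec q v) (hm : m < q) :
    triV (K * m) (2 ^ (K * q)) v = digs K (q + 1) (triF m q (dg v)) := by
  have e1 : triV (K * m) (2 ^ (K * q)) v =
      (v >>> (K * m + K)) <<< (K * m + K) + 2 ^ (K * q) * dg v m := rfl
  have e2 : (v >>> (K * m + K)) <<< (K * m + K) = digs K q (fun i => if m < i then dg v i else 0) := by
    rw [Nat.shiftLeft_eq, Nat.shiftRight_eq_div_pow, show K * m + K = K * (m + 1) by ring]
    have h1 := eq_digs_dg v (m + 1)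
    have h2 : digs K q (dg v) = digs K q (fun i => if m < i then 0 else dg v i) +
        digs K q (fun i => if m < i then dg v i else 0) := by
      rw [digs_add]
      apply digs_congr
      intro i _
      split_ifs <;> simp
    have h3 : digs K (m + 1) (dg v) = digs K q (fun i => if m < i then 0 else dg v i) := by
      obtain ⟨r, rfl⟩ : ∃ r, q = m + 1 + r := ⟨q - (m + 1), by omega⟩
      rw [digs_mul_add K (m + 1) r]
      have h4 : digs K r (fun i => if m < m + 1 + i then 0 else dg v (m + 1 + i)) = 0 := by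
        rw [digs, sum_eq_zero]
        intro i _
        rw [if_pos (by omega), zero_mul]
      rw [h4, zero_mul, add_zero]
      apply digs_congr
      intro i hi
      rw [if_neg (by omega)]
    have h5 := hv.1
    rw [h2, ← h3] at h5
    rw [mul_comm]
    omega
  rw [e1, e2, triF, digs_glue, digs_one_digit]

theorem triF_lt {v : ℕ → ℕ} {b : ℕ} (hb : 0 < b) (hv : ∀ i < q, v i < b) (hm : m < q) :
    ∀ i < q + 1, triF m q v i < b :=
  glue_lt (fun i hi => by
    split_ifs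
    · exact hv i hi
    · exact hb) fun _ _ => hv m hm

theorem triF_le_apF (v : ℕ → ℕ) : ∀ i < q + 1, triF m q v i ≤ apF m q v i :=
  glue_le (fun i _ => by
    split_ifs
    · exact le_rfl
    · exact Nat.zero_le _) fun _ _ => le_rfl

theorem triD_nonneg {δ : ℕ → ℝ} {θ : ℝ} (hδ : ∀ i, 0 ≤ δ i) (h0 : 0 ≤ θ) (h1 : θ ≤ 1) (i : ℕ) :
    0 ≤ triD m q θ δ i := by
  rw [triD, glue]
  split_ifs
  · exact mul_nonneg (by linarith) (hδ m)
  · exact hδ i
  · exact mul_nonneg h0 (hδ m)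

theorem lin_one (a : ℝ) (b : ℕ) : lin 1 (fun _ => a) (fun _ => b) = a * b := by simp [lin]

theorem triD_lin (hm : m < q) (θ : ℝ) (δ : ℕ → ℝ) (v : ℕ → ℕ) :
    lin (q + 1) (triD m q θ δ) (apF m q v) = lin q δ v := by
  rw [triD, apF, lin_glue, lin_one]
  have h1 : ∀ i ∈ range q, (if i = m then (1 - θ) * δ m else δ i) * v i =
      δ i * v i - (if i = m then θ * δ m * v m else 0) := by
    intro i _
    by_cases h : i = m
    · rw [if_pos h, if_pos h, h]
      ring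
    · rw [if_neg h, if_neg h, sub_zero]
  rw [lin, sum_congr rfl h1, sum_sub_distrib, sum_ite_eq', if_pos (mem_range.2 hm), lin]
  ring

/-- the value of the new last side -/
noncomputable def stv (q m : ℕ) (θ : ℝ) (δ : ℕ → ℝ) (v : ℕ → ℕ) : ℝ :=
  (∑ i ∈ range q, if m < i then δ i * v i else 0) + θ * δ m * v m

theorem triD_tri (θ : ℝ) (δ : ℕ → ℝ) (v : ℕ → ℕ) :
    lin (q + 1) (triD m q θ δ) (triF m q v) = stv q m θ δ v := by
  rw [triD, triF, lin_glue, lin_one, stv]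
  congr 1
  rw [lin]
  apply sum_congr rfl
  intro i _
  by_cases h : m < i
  · rw [if_pos h, if_pos h, if_neg (by omega)]
  · rw [if_neg h, if_neg h]
    simp

/-- the staircase -/
theorem stair {v : ℕ} {δ : ℕ → ℝ} (hδ : ∀ i, 0 ≤ δ i) (q : ℕ) : ∀ {x : ℝ}, 0 ≤ x →
    x ≤ lin q δ (dg v) → selI v q ≠ [] →
    ∃ m ∈ selI v q, ∃ θ, 0 ≤ θ ∧ θ ≤ 1 ∧ x = stv q m θ δ (dg v) := by
  induction q with
  | zero =>
    intro x _ _ h
    exact absurd rfl h
  | succ q ih =>
    intro x hx0 hx hne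
    rw [selI] at hne ⊢
    by_cases h0 : dg v q = 0
    · rw [if_pos h0] at hne ⊢
      have hx' : x ≤ lin q δ (dg v) := by
        rw [lin, sum_range_succ, h0] at hx
        simpa [lin] using hx
      obtain ⟨m, h1, θ, h2, h3, h4⟩ := ih hx0 hx' hne
      refine ⟨m, h1, θ, h2, h3, ?_⟩
      rw [h4, stv, stv, sum_range_succ, h0]
      simp
    · rw [if_neg h0]
      have hv0 : (0 : ℝ) < dg v q := by exact_mod_cast Nat.pos_of_ne_zero h0
      by_cases hx1 : x ≤ δ q * dg v q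
      · have hs : (∑ i ∈ range (q + 1), if q < i then δ i * (dg v i : ℝ) else 0) = 0 := by
          apply sum_eq_zero
          intro i hi
          rw [mem_range] at hi
          rw [if_neg (by omega)]
        rcases (hδ q).eq_or_lt with h5 | h5
        · refine ⟨q, by simp, 0, le_rfl, zero_le_one, ?_⟩
          rw [stv, hs]
          rw [← h5, zero_mul] at hx1
          rw [le_antisymm hx1 hx0]
          ring
        · have hp : 0 < δ q * dg v q := mul_pos h5 hv0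
          refine ⟨q, by simp, x / (δ q * dg v q), div_nonneg hx0 hp.le, (div_le_one hp).2 hx1, ?_⟩
          rw [stv, hs]
          field_simp
          ring
      · rw [not_le] at hx1
        have hx' : x - δ q * dg v q ≤ lin q δ (dg v) := by
          rw [lin, sum_range_succ] at hx
          rw [lin]
          linarith
        have hne' : selI v q ≠ [] := by
          intro h
          have h6 : lin q δ (dg v) = 0 := by
            have h7 := selI_sum v q (fun m => δ m * dg v m)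
            rw [h] at h7
            simp only [List.length_nil, range_zero, sum_empty] at h7
            rw [lin, h7]
            apply sum_congr rfl
            intro i _
            split_ifs with h8
            · rw [h8]
              simp
            · rfl
          rw [h6] at hx'
          linarith
        obtain ⟨m, h1, θ, h2, h3, h4⟩ := ih (by linarith) hx' hne'
        refine ⟨m, List.mem_cons_of_mem _ h1, θ, h2, h3, ?_⟩
        have hmq := selI_lt m h1
        rw [stv, sum_range_succ, if_pos hmq]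
        rw [stv] at h4
        linarith

end tri

/-- the last step: the last side of the new group is at most the value of `z` -/
noncomputable def stepB (a q : ℕ) (g : Gl) (z s : ℕ) (k : Gl → ℕ → ℕ → Bool) : Bool :=
  apV a (Nat.pow 2 (Nat.mul K q)) s (fun s' =>
    mapG (apV a (Nat.pow 2 (Nat.mul K q))) Gl.nil g (fun g' =>
      k g' (triV a (Nat.pow 2 (Nat.mul K q)) z) s'))

/-- the first step: the sum of the sides of the new group of `n` squares is `y + (n - 1) z` -/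
noncomputable def stepA (a q n : ℕ) (g : Gl) (y s : ℕ) (k : Gl → ℕ → ℕ → Bool) : Bool :=
  apV a (Nat.pow 2 (Nat.mul K q)) s (fun s' => apV a (Nat.pow 2 (Nat.mul K q)) y (fun u' =>
    mapG (apV a (Nat.pow 2 (Nat.mul K q))) (Gl.cons n u' (Nat.add u'
        (Nat.mul (Nat.sub n 1) (triV a (Nat.pow 2 (Nat.mul K q)) y))) Gl.nil) g (fun g' =>
      k g' (triV a (Nat.pow 2 (Nat.mul K q)) y) s')))

section steps

variable {q m : ℕ} {g : Gl} {z s : ℕ}

theorem stepB_sound (hm : m < q) (hc : CellOK q g z s) (hq : q + 1 ≤ 1000)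
    {k : Gl → ℕ → ℕ → Bool} (h : stepB (K * m) q g z s k = true) :
    ∃ g' y' s', k g' y' s' = true ∧ CellOK (q + 1) g' y' s' ∧
      ∀ (l : List ℝ) (δ : ℕ → ℝ) (θ : ℝ), 0 ≤ θ → θ ≤ 1 → (∀ i, 0 ≤ δ i) → HoldsP q δ g l →
        Real.sqrt (sumsq l) = lin q δ (dg s) → hd (g.tl l) = stv q m θ δ (dg z) →
        ∃ δ', Holds (q + 1) g' y' s' δ' l := by
  obtain ⟨hq2, hq', hz, hs, hg, hlen⟩ := hc
  obtain ⟨s', h, a1, a2⟩ := apV_ok hm s _ hs h
  obtain ⟨y', hy'⟩ : ∃ y', y' = triV (K * m) (2 ^ (K * q)) z := ⟨_, rfl⟩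
  have hb := Nat.two_pow_pos KAP
  obtain ⟨c1, c2⟩ := dg_of_eq (triF_lt hb hz.2 hm) (hy'.trans (triV_eq hz hm))
  obtain ⟨g', h, d1, d2, d3⟩ := mapG_sound (y' := y') (apF_mono hm) (apV_ok hm) Gl.nil
    (fun i hi => by
      rw [c2 i hi]
      exact triF_le_apF _ i hi) g hg _ h
  have h : k g' (triV (K * m) (2 ^ (K * q)) z) s' = true := h
  rw [← hy'] at h
  refine ⟨g', y', s', h, ⟨by omega, hq, c1, a1, d1 trivial, ?_⟩, ?_⟩
  · rw [d2, Gl.len, add_zero]
    exact hlen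
  · intro l δ θ h0 h1 hδ hP hS hx
    have hlin := triD_lin hm θ δ
    refine ⟨triD m q θ δ, triD_nonneg hδ h0 h1, d3 l δ _ hlin hP ?_, ?_⟩
    · show hd (g.tl l) = _
      rw [lin_congr c2, triD_tri]
      exact hx
    · rw [lin_congr a2, hlin]
      exact hS

theorem stepA_sound (hm : m < q) {y n : ℕ} (hc : CellOK q g y s) (hq : q + 1 ≤ 1000)
    (hlen' : g.len ≤ 29) (hn : 2 ≤ n) (hn' : n ≤ 961) (hny : ∀ i < q, n * dg y i < 2 ^ KAP)
    {k : Gl → ℕ → ℕ → Bool} (h : stepA (K * m) q n g y s k = true) :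
    ∃ g' z s', k g' z s' = true ∧ CellOK (q + 1) g' z s' ∧
      ∀ (l : List ℝ) (δ : ℕ → ℝ) (θ : ℝ), 0 ≤ θ → θ ≤ 1 → Holds q g y s δ l →
        ((g.tl l).take n).sum = hd (g.tl l) + (n - 1) * stv q m θ δ (dg y) →
        ∃ δ', (∀ i, 0 ≤ δ' i) ∧ HoldsP (q + 1) δ' g' l ∧
          Real.sqrt (sumsq l) = lin (q + 1) δ' (dg s') ∧
          lin (q + 1) δ' (dg z) = stv q m θ δ (dg y) ∧ g'.tl l = (g.tl l).drop n := by
  obtain ⟨hq2, hq', hy, hs, hg, hlen⟩ := hc
  obtain ⟨s', h, a1, a2⟩ := apV_ok hm s _ hs h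
  obtain ⟨u', h, b1, b2⟩ := apV_ok hm y _ hy h
  obtain ⟨z, hz⟩ : ∃ z, z = triV (K * m) (2 ^ (K * q)) y := ⟨_, rfl⟩
  have hb := Nat.two_pow_pos KAP
  have ez : z = digs K (q + 1) (triF m q (dg y)) := hz.trans (triV_eq hy hm)
  obtain ⟨c1, c2⟩ := dg_of_eq (triF_lt hb hy.2 hm) ez
  obtain ⟨L', hL'⟩ : ∃ L', L' = u' + (n - 1) * z := ⟨_, rfl⟩
  have hLb : ∀ i < q + 1, apF m q (dg y) i + (n - 1) * triF m q (dg y) i < 2 ^ KAP := by
    intro i hi
    have h1 := triF_le_apF (m := m) (dg y) i hi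
    have h2 : apF m q (dg y) i + (n - 1) * triF m q (dg y) i ≤ n * apF m q (dg y) i := by
      calc apF m q (dg y) i + (n - 1) * triF m q (dg y) i
          ≤ apF m q (dg y) i + (n - 1) * apF m q (dg y) i :=
          Nat.add_le_add_left (Nat.mul_le_mul_left _ h1) _
        _ = n * apF m q (dg y) i := by
          obtain ⟨r, rfl⟩ : ∃ r, n = r + 1 := ⟨n - 1, by omega⟩
          rw [Nat.add_sub_cancel]
          ring
    refine lt_of_le_of_lt h2 ?_
    rw [apF, glue]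
    split_ifs with h3
    · exact hny i h3
    · exact hny m hm
  have eL : L' = digs K (q + 1) (fun i => apF m q (dg y) i + (n - 1) * triF m q (dg y) i) := by
    rw [hL', ← digs_add, ← digs_const_mul, ← ez]
    congr 1
    rw [b1.1]
    exact digs_congr b2
  obtain ⟨l1, l2⟩ := dg_of_eq hLb eL
  obtain ⟨g', h, d1, d2, d4, d3⟩ := mapG_sound' (y' := z) (apF_mono hm) (apV_ok hm)
    (Gl.cons n u' L' Gl.nil) (fun i hi => by
      rw [c2 i hi]
      exact triF_le_apF _ i hi) g hg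
    (fun g' => k g' (triV (K * m) (2 ^ (K * q)) y) s') (by
      rw [hL', hz]
      exact h)
  rw [← hz] at h
  refine ⟨g', z, s', h, ⟨by omega, hq, c1, a1, d1 ⟨⟨by omega, hn'⟩, b1, fun i hi => ?_,
    fun _ => ⟨l1, fun i hi => ?_⟩, trivial⟩, ?_⟩, ?_⟩
  · rw [c2 i hi, b2 i hi]
    exact triF_le_apF _ i hi
  · rw [b2 i hi, l2 i hi]
    exact Nat.le_add_right _ _
  · rw [d2]
    simp only [Gl.len]
    omega
  · rintro l δ θ h0 h1 ⟨hδ, hG, hS⟩ hx
    have hlin := triD_lin hm θ δ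
    have hzv : lin (q + 1) (triD m q θ δ) (dg z) = stv q m θ δ (dg y) := by
      rw [lin_congr c2, triD_tri]
    have huv : lin (q + 1) (triD m q θ δ) (apF m q (dg y)) = hd (g.tl l) := by
      rw [hlin, hG.hd]
    refine ⟨triD m q θ δ, triD_nonneg hδ h0 h1, d3 l δ _ hlin hG.toP ⟨?_, fun _ => ?_, trivial⟩,
      ?_, hzv, d4 l⟩
    · rw [lin_congr b2, huv]
    · rw [hx, lin_congr l2, lin_add, huv]
      have h5 : lin (q + 1) (triD m q θ δ) (fun i => (n - 1) * triF m q (dg y) i) =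
          ((n - 1 : ℕ) : ℝ) * lin (q + 1) (triD m q θ δ) (triF m q (dg y)) := lin_const_mul _ _
      rw [h5, triD_tri, Nat.cast_sub (by omega), Nat.cast_one]
    · rw [lin_congr a2, hlin]
      exact hS

end steps

/-- one child after the other -/
noncomputable def loop (sh : List ℕ) (body : ℕ → ℕ → List ℕ → (ℕ → List ℕ → Bool) → Bool) :
    ℕ → List ℕ → (ℕ → List ℕ → Bool) → Bool :=
  List.rec (motive := fun _ => ℕ → List ℕ → (ℕ → List ℕ → Bool) → Bool) (fun n cs k => k n cs)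
    (fun a _ r n cs k => body a n cs (fun n' cs' => r n' cs' k)) sh

theorem loop_sound {Q : ℕ → Prop} {body : ℕ → ℕ → List ℕ → (ℕ → List ℕ → Bool) → Bool}
    (sh : List ℕ) (hb : ∀ a ∈ sh, ∀ n cs k, body a n cs k = true →
      Q a ∧ ∃ n' cs', k n' cs' = true) :
    ∀ n cs k, loop sh body n cs k = true → (∀ a ∈ sh, Q a) ∧ ∃ n' cs', k n' cs' = true := by
  induction sh with
  | nil =>
    intro n cs k h
    exact ⟨by simp, n, cs, h⟩
  | cons a sh ih =>
    intro n cs k h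
    have h : body a n cs (fun n' cs' => loop sh body n' cs' k) = true := h
    obtain ⟨h1, n', cs', h2⟩ := hb a (by simp) n cs _ h
    obtain ⟨h3, h4⟩ := ih (fun a ha => hb a (List.mem_cons_of_mem _ ha)) n' cs' k h2
    refine ⟨fun b hb => ?_, h4⟩
    rcases List.mem_cons.1 hb with rfl | hb
    · exact h1
    · exact h3 b hb

/-- all children of the last step -/
noncomputable def trB (q : ℕ) (g : Gl) (z s : ℕ)
    (chi : Gl → ℕ → ℕ → ℕ → List ℕ → (ℕ → List ℕ → Bool) → Bool) :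
    ℕ → List ℕ → (ℕ → List ℕ → Bool) → Bool := fun n cs k =>
  andB (Nat.ble 1 (lenL (selL z q))) (loop (selL z q) (fun a n cs k =>
    stepB a q g z s (fun g' y' s' => chi g' y' s' n cs k)) n cs k)

/-- a new group of one square -/
noncomputable def tr1 (q : ℕ) (g : Gl) (y s : ℕ)
    (chi : Gl → ℕ → ℕ → ℕ → List ℕ → (ℕ → List ℕ → Bool) → Bool)
    (n : ℕ) (cs : List ℕ) (k : ℕ → List ℕ → Bool) : Bool :=
  andB (Nat.ble (Nat.succ q) 1000) (andB (Nat.ble (lenG g) 29)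
    (mapG (fun v k => k v) (Gl.cons 1 y 0 Gl.nil) g (fun g' => trB q g' y s chi n cs k)))

/-- a new group of `N` squares -/
noncomputable def trn (q N : ℕ) (g : Gl) (y s : ℕ)
    (chi : Gl → ℕ → ℕ → ℕ → List ℕ → (ℕ → List ℕ → Bool) → Bool)
    (n : ℕ) (cs : List ℕ) (k : ℕ → List ℕ → Bool) : Bool :=
  andB (Nat.ble (Nat.succ (Nat.succ q)) 1000) (andB (Nat.ble (lenG g) 29) (andB (Nat.ble 2 N)
    (andB (Nat.ble N 961) (andB (leD (mk1 q) (Nat.mul N y) (lowM q))
      (andB (Nat.ble 1 (lenL (selL y q))) (loop (selL y q) (fun a n cs k =>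
        stepA a q N g y s (fun g' z s' => trB (Nat.succ q) g' z s' chi n cs k)) n cs k))))))

section trs

variable {M : ℝ} {q : ℕ} {g : Gl} {s : ℕ}

theorem selL_mem {v q a : ℕ} (ha : a ∈ selL v q) : ∃ m < q, a = K * m := by
  rw [selL_eq] at ha
  obtain ⟨m, h1, h2⟩ := List.mem_map.1 ha
  exact ⟨m, selI_lt m h1, h2.symm⟩

theorem selI_ne {v q : ℕ} (h : 1 ≤ lenL (selL v q)) : selI v q ≠ [] := by
  intro h1
  rw [lenL_eq, selL_eq, h1] at h
  simp at h

theorem trB_sound {z : ℕ} (hc : CellOK q g z s) (hq : q + 1 ≤ 1000)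
    {chi : Gl → ℕ → ℕ → ℕ → List ℕ → (ℕ → List ℕ → Bool) → Bool}
    (hchi : ∀ g' y' s' n cs k, CellOK (q + 1) g' y' s' → chi g' y' s' n cs k = true →
      GoodCell M (q + 1) g' y' s' ∧ ∃ n' cs', k n' cs' = true)
    {n : ℕ} {cs : List ℕ} {k : ℕ → List ℕ → Bool} (h : trB q g z s chi n cs k = true) :
    (∀ l : List ℝ, l ≠ [] → SP l → ∀ δ : ℕ → ℝ, (∀ i, 0 ≤ δ i) → HoldsP q δ g l →
      Real.sqrt (sumsq l) = lin q δ (dg s) → hd (g.tl l) ≤ lin q δ (dg z) → Good M l) ∧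
      ∃ n' cs', k n' cs' = true := by
  obtain ⟨g1, h⟩ := andB_eq_true.1 h
  have hne := selI_ne (Nat.le_of_ble_eq_true g1)
  obtain ⟨h1, h2⟩ := loop_sound (Q := fun a => ∀ m, a = K * m → ∀ l : List ℝ, l ≠ [] → SP l →
      ∀ δ : ℕ → ℝ, ∀ θ, 0 ≤ θ → θ ≤ 1 → (∀ i, 0 ≤ δ i) → HoldsP q δ g l →
      Real.sqrt (sumsq l) = lin q δ (dg s) → hd (g.tl l) = stv q m θ δ (dg z) → Good M l)
      (selL z q) (fun a ha n cs k hk => by
        obtain ⟨m, hm, rfl⟩ := selL_mem ha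
        obtain ⟨g', y', s', a1, a2, a3⟩ := stepB_sound hm hc hq hk
        obtain ⟨a4, a5⟩ := hchi g' y' s' n cs k a2 a1
        refine ⟨fun m' hm' l hl hsp δ θ b1 b2 b3 b4 b5 b6 => ?_, a5⟩
        have hmm : m = m' := Nat.eq_of_mul_eq_mul_left K_pos hm'
        subst hmm
        obtain ⟨δ', h6⟩ := a3 l δ θ b1 b2 b3 b4 b5 b6
        exact a4 l hl hsp δ' h6) n cs k h
  refine ⟨fun l hl hsp δ b1 b2 b3 b4 => ?_, h2⟩
  obtain ⟨m, c1, θ, c2, c3, c4⟩ := stair b1 q (hd_nonneg (tl_sp g l hsp)) b4 hne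
  refine h1 (K * m) ?_ m rfl l hl hsp δ θ c2 c3 b1 b2 b3 c4
  rw [selL_eq]
  exact List.mem_map_of_mem c1

theorem tr1_sound {y : ℕ} (hc : CellOK q g y s)
    {chi : Gl → ℕ → ℕ → ℕ → List ℕ → (ℕ → List ℕ → Bool) → Bool}
    (hchi : ∀ g' y' s' n cs k, CellOK (q + 1) g' y' s' → chi g' y' s' n cs k = true →
      GoodCell M (q + 1) g' y' s' ∧ ∃ n' cs', k n' cs' = true)
    {n : ℕ} {cs : List ℕ} {k : ℕ → List ℕ → Bool} (h : tr1 q g y s chi n cs k = true) :
    GoodCell M q g y s ∧ ∃ n' cs', k n' cs' = true := by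
  obtain ⟨g1, h⟩ := andB_eq_true.1 h
  obtain ⟨g2, h⟩ := andB_eq_true.1 h
  have g1 : q + 1 ≤ 1000 := Nat.le_of_ble_eq_true g1
  have g2 : g.len ≤ 29 := by
    rw [← lenG_eq]
    exact Nat.le_of_ble_eq_true g2
  obtain ⟨hq, hq', hy, hs, hg, hlen⟩ := hc
  have hid : OpOK q q id (fun v k => k v) := fun v k hv hk => ⟨v, hk, hv, fun _ _ => rfl⟩
  obtain ⟨g', h, d1, d2, d4, d3⟩ := mapG_sound' (y' := y) (fun _ _ h => h) hid
    (Gl.cons 1 y 0 Gl.nil) (fun _ _ => le_rfl) g hg _ h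
  have hc' : CellOK q g' y s := ⟨hq, hq', hy, hs, d1 ⟨⟨le_rfl, by norm_num⟩, hy,
    fun _ _ => le_rfl, fun hn => absurd rfl hn, trivial⟩, by rw [d2]; simp only [Gl.len]; omega⟩
  obtain ⟨h1, h2⟩ := trB_sound hc' g1 hchi h
  refine ⟨fun l hl hsp δ hh => ?_, h2⟩
  obtain ⟨hδ, hG, hS⟩ := hh
  have hhd := hG.hd
  obtain ⟨_, f2, _, _⟩ := group_facts (tl_sp g l hsp) (n := 1) le_rfl
  refine h1 l hl hsp δ hδ (d3 l δ δ (fun _ => rfl) hG.toP ⟨hhd, fun hn => absurd rfl hn, trivial⟩)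
    hS ?_
  rw [d4]
  show hd ((g.tl l).drop 1) ≤ _
  rw [← hhd]
  exact f2

theorem trn_sound {y N : ℕ} (hc : CellOK q g y s)
    {chi : Gl → ℕ → ℕ → ℕ → List ℕ → (ℕ → List ℕ → Bool) → Bool}
    (hchi : ∀ g' y' s' n cs k, CellOK (q + 1 + 1) g' y' s' → chi g' y' s' n cs k = true →
      GoodCell M (q + 1 + 1) g' y' s' ∧ ∃ n' cs', k n' cs' = true)
    {n : ℕ} {cs : List ℕ} {k : ℕ → List ℕ → Bool} (h : trn q N g y s chi n cs k = true) :
    GoodCell M q g y s ∧ ∃ n' cs', k n' cs' = true := by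
  obtain ⟨g1, h⟩ := andB_eq_true.1 h
  obtain ⟨g2, h⟩ := andB_eq_true.1 h
  obtain ⟨g3, h⟩ := andB_eq_true.1 h
  obtain ⟨g4, h⟩ := andB_eq_true.1 h
  obtain ⟨g5, h⟩ := andB_eq_true.1 h
  obtain ⟨g6, h⟩ := andB_eq_true.1 h
  have g1 : q + 1 + 1 ≤ 1000 := Nat.le_of_ble_eq_true g1
  have g2 : g.len ≤ 29 := by
    rw [← lenG_eq]
    exact Nat.le_of_ble_eq_true g2
  have g3 : 2 ≤ N := Nat.le_of_ble_eq_true g3
  have g4 : N ≤ 961 := Nat.le_of_ble_eq_true g4
  have hne := selI_ne (Nat.le_of_ble_eq_true g6)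
  have hy := hc.2.2.1
  have g5 : ∀ i < q, N * dg y i < 2 ^ KAP := by
    have e1 : Nat.mul N y = digs K q (fun i => N * dg y i) := by
      conv_lhs => rw [hy.1]
      exact digs_const_mul _ _ _ _
    have e2 : lowM q = digs K q (fun _ => 2 ^ KAP - 1) := (digs_const K_pos q (2 ^ KAP - 1)).symm
    rw [e1, e2] at g5
    intro i hi
    have h1 := le_of_leD K_pos (fun i hi => ?_) (fun i hi => ?_) g5 i hi
    · have := Nat.two_pow_pos KAP
      omega
    · calc N * dg y i ≤ 961 * 2 ^ KAP := Nat.mul_le_mul g4 (hy.2 i hi).le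
        _ < 2 ^ (K - 1) := by norm_num [KAP, K]
    · exact lt_of_le_of_lt (Nat.sub_le _ _) (by norm_num [KAP, K])
  obtain ⟨h1, h2⟩ := loop_sound (Q := fun a => ∀ m, a = K * m → ∀ l : List ℝ, l ≠ [] → SP l →
      ∀ δ : ℕ → ℝ, ∀ θ, 0 ≤ θ → θ ≤ 1 → Holds q g y s δ l →
      ((g.tl l).take N).sum = hd (g.tl l) + (N - 1) * stv q m θ δ (dg y) →
      hd ((g.tl l).drop N) ≤ stv q m θ δ (dg y) → Good M l)
      (selL y q) (fun a ha n cs k hk => by
        obtain ⟨m, hm, rfl⟩ := selL_mem ha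
        obtain ⟨g', z, s', a1, a2, a3⟩ := stepA_sound hm hc (by omega) g2 g3 g4 g5 hk
        obtain ⟨a4, a5⟩ := trB_sound a2 g1 hchi a1
        refine ⟨fun m' hm' l hl hsp δ θ b1 b2 b3 b4 b5 => ?_, a5⟩
        have hmm : m = m' := Nat.eq_of_mul_eq_mul_left K_pos hm'
        subst hmm
        obtain ⟨δ', c1, c2, c3, c4, c5⟩ := a3 l δ θ b1 b2 b3 b4
        refine a4 l hl hsp δ' c1 c2 c3 ?_
        rw [c5, c4]
        exact b5) n cs k h
  refine ⟨fun l hl hsp δ hh => ?_, h2⟩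
  obtain ⟨hδ, hG, hS⟩ := hh
  have hhd := hG.hd
  have hT := tl_sp g l hsp
  obtain ⟨f1, f2, f3, f4⟩ := group_facts hT (n := N) (by omega)
  have hN : (0 : ℝ) < N - 1 := by
    have : (2 : ℝ) ≤ N := by exact_mod_cast g3
    linarith
  obtain ⟨x, hx⟩ : ∃ x, x = (((g.tl l).take N).sum - hd (g.tl l)) / (N - 1) := ⟨_, rfl⟩
  have hx' : ((g.tl l).take N).sum = hd (g.tl l) + (N - 1) * x := by
    rw [hx]
    field_simp
    ring
  have hyx : hd ((g.tl l).drop N) ≤ x := by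
    refine le_of_mul_le_mul_left ?_ hN
    linarith
  have hx1 : x ≤ lin q δ (dg y) := by
    rw [← hhd]
    refine le_of_mul_le_mul_left ?_ hN
    linarith
  obtain ⟨m, c1, θ, c2, c3, c4⟩ := stair hδ q (f1.trans hyx) hx1 hne
  refine h1 (K * m) ?_ m rfl l hl hsp δ θ c2 c3 ⟨hδ, hG, hS⟩ (by rw [← c4]; exact hx')
    (by rw [← c4]; exact hyx)
  rw [selL_eq]
  exact List.mem_map_of_mem c1

end trs

end Pool.Agent.MOS
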