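import Pool.Agent.Lib.MP_b520b2_co.Known
import Pool.Agent.Lib.MP_b520b2_co.Tri

/-!
# Decoding of certificates

The certificates are stored in numbers.  Nothing has to be proved about the decoding: the check is
sound for every certificate.
-/

namespace Pool.Agent.MOS

/-- `w` bits of `n` from position `p` -/
def rd (n p w : ℕ) : ℕ := Nat.land (Nat.shiftRight n p) (Nat.sub (Nat.pow 2 w) 1)

/-- the byte of `n` at position `p` -/
def rb (n p : ℕ) : ℕ := Nat.land (Nat.shiftRight n p) 255

/-- the multiplier which spreads five digits of `w` bits -/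
def spR (w : ℕ) : ℕ :=
  Nat.add 1 (Nat.add (Nat.pow 2 (Nat.sub K w)) (Nat.add (Nat.pow 2 (Nat.mul 2 (Nat.sub K w)))
    (Nat.add (Nat.pow 2 (Nat.mul 3 (Nat.sub K w))) (Nat.pow 2 (Nat.mul 4 (Nat.sub K w))))))

/-- the mask for five digits of `w` bits -/
def spM (w : ℕ) : ℕ := Nat.mul (Nat.sub (Nat.pow 2 w) 1) (rep K 5)

/-- a vector with `m` blocks of five digits of `w` bits, the blocks start at `p + 5 w t` -/
noncomputable def dvec (n w p m : ℕ) : ℕ :=
  Nat.rec (motive := fun _ => ℕ → ℕ) (fun _ => 0) (fun _ ih p =>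
    Nat.add (Nat.land (Nat.mul (rd n p (Nat.mul 5 w)) (spR w)) (spM w))
      (Nat.shiftLeft (ih (Nat.add p (Nat.mul 5 w))) (Nat.mul 5 K))) m p

/-- a vector of `q` digits of `w` bits from position `p` -/
noncomputable def dvq (n q w p : ℕ) : ℕ :=
  dvec (rd n p (Nat.mul q w)) w 0 (Nat.div (Nat.add q 4) 5)

/-- `m` vectors -/
noncomputable def dvs (n q w p m : ℕ) : List ℕ :=
  Nat.rec (motive := fun _ => ℕ → List ℕ) (fun _ => List.nil) (fun _ ih p =>
    List.cons (dvq n q w p) (ih (Nat.add p (Nat.mul q w)))) m p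

/-- pops one template -/
noncomputable def pop1 (st : List Tm) (k : Tm → List Tm → Tm) : Tm :=
  List.rec (motive := fun _ => Tm) (Tm.sq 99) (fun t st' _ => k t st') st

/-- pops two templates -/
noncomputable def pop2 (st : List Tm) (k : Tm → Tm → List Tm → Tm) : Tm :=
  pop1 st (fun t' st' => pop1 st' (fun t st'' => k t t' st''))

/-- a template in postfix form -/
noncomputable def dT (fuel : ℕ) : ℕ → List Tm → Tm :=
  Nat.rec (motive := fun _ => ℕ → List Tm → Tm) (fun _ _ => Tm.sq 99) (fun _ ih n st =>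
    Bool.rec (motive := fun _ => Tm)
      (Nat.rec (motive := fun _ => Tm)
        -- 32: grid
        (ih (Nat.shiftRight n 40) (List.cons (Tm.gr (rb n 8) (rb n 16) (rb n 24)
          (rb n 32)) st))
        (fun o _ => Nat.rec (motive := fun _ => Tm)
        -- 33: row of a group
        (ih (Nat.shiftRight n 24) (List.cons (Tm.rn (rb n 8) (rb n 16)) st))
        (fun o _ => Nat.rec (motive := fun _ => Tm)
        -- 34: column of a group
        (ih (Nat.shiftRight n 24) (List.cons (Tm.rc (rb n 8) (rb n 16)) st))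
        (fun o _ => Nat.rec (motive := fun _ => Tm)
        -- 35: part of a group, row
        (ih (Nat.shiftRight n 40) (List.cons (Tm.rp (rb n 8) (rb n 16) (rb n 24)
          (rd n 32 4) (rd n 36 4)) st))
        (fun o _ => Nat.rec (motive := fun _ => Tm)
        -- 36: part of a group, column
        (ih (Nat.shiftRight n 40) (List.cons (Tm.cp (rb n 8) (rb n 16) (rb n 24)
          (rd n 32 4) (rd n 36 4)) st))
        (fun o _ => Nat.rec (motive := fun _ => Tm)
        -- 37: block
        (ih (Nat.shiftRight n 48) (List.cons (Tm.bk (rb n 8) (rd n 16 16) (rb n 32)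
          (rb n 40)) st))
        (fun o _ => Nat.rec (motive := fun _ => Tm)
        -- 38: side by side
        (pop2 st (fun t t' st => ih (Nat.shiftRight n 8) (List.cons (Tm.hh t t') st)))
        (fun o _ => Nat.rec (motive := fun _ => Tm)
        -- 39: one above the other
        (pop2 st (fun t t' st => ih (Nat.shiftRight n 8) (List.cons (Tm.vv t t') st)))
        (fun o _ => Nat.rec (motive := fun _ => Tm)
        -- 40: side by side, with a block
        (pop2 st (fun t t' st => ih (Nat.shiftRight n 32)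
          (List.cons (Tm.hf (rb n 8) (rd n 16 16) t t') st)))
        (fun o _ => Nat.rec (motive := fun _ => Tm)
        -- 41: one above the other, with a block
        (pop2 st (fun t t' st => ih (Nat.shiftRight n 32)
          (List.cons (Tm.vf (rb n 8) (rd n 16 16) t t') st)))
        (fun o _ => Nat.rec (motive := fun _ => Tm)
        -- 42: a block on the right
        (pop1 st (fun t st => ih (Nat.shiftRight n 40)
          (List.cons (Tm.hs (rb n 8) (rd n 16 16) (rb n 32) t) st)))
        (fun o _ => Nat.rec (motive := fun _ => Tm)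
        -- 43: a block above
        (pop1 st (fun t st => ih (Nat.shiftRight n 40)
          (List.cons (Tm.vs (rb n 8) (rd n 16 16) (rb n 32) t) st)))
        -- 44: end
        (fun _ _ => pop1 st (fun t _ => t))
        o) o) o) o) o) o) o) o) o) o) o)
        (Nat.sub (Nat.land n 255) 32))
      (ih (Nat.shiftRight n 8) (List.cons (Tm.sq (Nat.land n 255)) st))
      (Nat.ble (Nat.land n 255) 31)) fuel

/-- `m` bytes -/
noncomputable def dNs (n p m : ℕ) : List ℕ :=
  Nat.rec (motive := fun _ => ℕ → List ℕ) (fun _ => List.nil) (fun _ ih p =>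
    List.cons (rb n p) (ih (Nat.add p 8))) m p

/-- the pieces of a template -/
noncomputable def dPs (m n : ℕ) : List Pc :=
  Nat.rec (motive := fun _ => ℕ → List Pc) (fun _ => List.nil) (fun _ ih n =>
    List.cons (Pc.mk (dNs n 32 (rb n 0)) (dNs n (Nat.add 32 (Nat.mul 8 (rb n 0))) (rb n 8))
        (dT 127 (Nat.shiftRight n (Nat.add 32 (Nat.mul 8 (Nat.add (rb n 0) (rb n 8))))) List.nil))
      (ih (Nat.shiftRight n (Nat.add (Nat.add 32 (Nat.mul 8 (Nat.add (rb n 0) (rb n 8))))
        (rd n 16 16))))) m n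

/-- squares -/
noncomputable def dSp (q w m n : ℕ) : List PE :=
  Nat.rec (motive := fun _ => ℕ → List PE) (fun _ => List.nil) (fun _ ih n =>
    List.cons (PE.mk (rd n 0 60) (dvq n q w 60) (dvq n q w (Nat.add 60 (Nat.mul q w))))
      (ih (Nat.shiftRight n (Nat.add 60 (Nat.mul 2 (Nat.mul q w)))))) m n

/-- one template of a leaf; the shape `N` has the numbers of pieces, of `wx` and `wy` at the bits
64, 72, 80, followed by `wx`, `wy` and the pieces; it is evaluated first, so that its decoding is
shared -/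
noncomputable def dTE (q w n : ℕ) : TE :=
  Nat.rec (motive := fun _ => TE)
    (TE.mk 0 0 0 0 0 List.nil List.nil List.nil List.nil 0 0 0 List.nil)
    (fun N _ => TE.mk (rd n 0 56) (rb n 56) (rd n 64 16) (rb n 80) (rb n 88)
      (dvs n q w 144 (rb n 96))
      (dPs (rb N 64) (Nat.shiftRight N (Nat.add 88 (Nat.mul 8 (Nat.add (rb N 72) (rb N 80))))))
      (dNs N 88 (rb N 72)) (dNs N (Nat.add 88 (Nat.mul 8 (rb N 72))) (rb N 80))
      (rb n 104) (rb n 112) (rb n 120)
      (dSp q (rb n 136) (rb n 128)
        (Nat.shiftRight n (Nat.add 144 (Nat.mul (rb n 96) (Nat.mul q w))))))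
    (Nat.add (Nat.shiftRight n (Nat.add (Nat.add 144 (Nat.mul (rb n 96) (Nat.mul q w)))
      (Nat.mul (rb n 128) (Nat.add 60 (Nat.mul 2 (Nat.mul q (rb n 136))))))) 1)

/-- the templates of a leaf -/
noncomputable def dTEs (q w m : ℕ) : ℕ → List TE :=
  Nat.rec (motive := fun _ => ℕ → List TE) (fun _ => List.nil) (fun _ ih n =>
    List.cons (dTE q w (rd n 24 (Nat.land n 16777215)))
      (ih (Nat.shiftRight n (Nat.add 24 (Nat.land n 16777215))))) m

/-- a leaf certificate -/
inductive LD where
  | mk (gg mu : ℕ) (l : List TE) (sp : List PE) : LD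

/-- a leaf certificate; the first 64 bits are not used, they have to be different for different
leaves (the cache of the kernel uses them) -/
noncomputable def dLD (q n : ℕ) : LD :=
  LD.mk (rb n 64) (rd n 72 56)
    (dTEs q (rb n 128) (rb n 136)
      (Nat.shiftRight n (Nat.add 160 (Nat.mul (rb n 144)
        (Nat.add 60 (Nat.mul 2 (Nat.mul q (rb n 152))))))))
    (dSp q (rb n 152) (rb n 144) (Nat.shiftRight n 160))

/-- the multiples in a row -/
noncomputable def dPrs (m n : ℕ) : List Pr :=
  Nat.rec (motive := fun _ => ℕ → List Pr) (fun _ => List.nil) (fun _ ih n =>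
    List.cons (Pr.mk (rd n 0 12) (rd n 12 36)) (ih (Nat.shiftRight n 48))) m n

/-- the matrix of a covering -/
noncomputable def dRws (q n : ℕ) : List Rw :=
  Nat.rec (motive := fun _ => ℕ → List Rw) (fun _ => List.nil) (fun _ ih n =>
    List.cons (Rw.mk (rd n 0 36) (dPrs (rd n 36 12) (Nat.shiftRight n 48)))
      (ih (Nat.shiftRight n (Nat.add 48 (Nat.mul 48 (rd n 36 12)))))) q n

/-- groups -/
noncomputable def dGl (q w m n : ℕ) : Gl :=
  Nat.rec (motive := fun _ => ℕ → Gl) (fun _ => Gl.nil) (fun _ ih n =>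
    Bool.rec (motive := fun _ => Gl)
      (Gl.cons (rd n 0 12) (dvq n q w 12) (dvq n q w (Nat.add 12 (Nat.mul q w)))
        (ih (Nat.shiftRight n (Nat.add 12 (Nat.mul 2 (Nat.mul q w))))))
      (Gl.cons 1 (dvq n q w 12) 0 (ih (Nat.shiftRight n (Nat.add 12 (Nat.mul q w)))))
      (Nat.beq (rd n 0 12) 1)) m n

/-- a cell -/
noncomputable def dKC (n : ℕ) : KC :=
  KC.mk (rd n 0 12)
    (dGl (rd n 0 12) (rd n 12 8) (rd n 20 8)
      (Nat.shiftRight n (Nat.add 28 (Nat.mul 2 (Nat.mul (rd n 0 12) (rd n 12 8))))))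
    (dvq n (rd n 0 12) (rd n 12 8) 28)
    (dvq n (rd n 0 12) (rd n 12 8) (Nat.add 28 (Nat.mul (rd n 0 12) (rd n 12 8))))

end Pool.Agent.MOS
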