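import Mathlib.Tactic
import Mathlib.Analysis.SpecialFunctions.Pow.Real
import Mathlib.Topology.MetricSpace.Basic
import Mathlib.Analysis.Normed.Group.InfiniteSum

/-!
# Packing squares into a rectangle (Moser 1966): the definitions of the statement
-/

namespace Pool.Agent.MOS

/-- The closed axis-parallel square with lower left corner `p` and side `s`. -/
def square (p : ℝ × ℝ) (s : ℝ) : Set (ℝ × ℝ) :=
  Set.Icc p.1 (p.1 + s) ×ˢ Set.Icc p.2 (p.2 + s)

/-- The closed rectangle `[0, a] × [0, b]`. -/
def rectangle (a b : ℝ) : Set (ℝ × ℝ) :=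
  Set.Icc 0 a ×ˢ Set.Icc 0 b

/-- The squares with sides `d i` can be placed (by translations) inside the rectangle
`[0, a] × [0, b]` so that they have pairwise disjoint interiors. -/
def PacksInto {ι : Type} (d : ι → ℝ) (a b : ℝ) : Prop :=
  ∃ p : ι → ℝ × ℝ, (∀ i, square (p i) (d i) ⊆ rectangle a b) ∧
    ∀ i j, i ≠ j → Disjoint (interior (square (p i) (d i))) (interior (square (p j) (d j)))

/-- `A` is sufficient: every finite or countably infinite collection of squares of total area `1`
packs into some rectangle of area `A`. -/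
def Sufficient (A : ℝ) : Prop :=
  ∀ (ι : Type) (d : ι → ℝ), Countable ι → (∀ i, 0 < d i) → HasSum (fun i => d i ^ 2) 1 →
    ∃ a b : ℝ, 0 < a ∧ 0 < b ∧ a * b = A ∧ PacksInto d a b

end Pool.Agent.MOS
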