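import Mathlib.Tactic
import Mathlib.Data.Nat.Bitwise
import Mathlib.Data.Nat.Digits.Lemmas
import Mathlib.Analysis.SpecialFunctions.Pow.Real
import Mathlib.Topology.MetricSpace.Basic
import Mathlib.Analysis.Normed.Group.InfiniteSum

/-!
# Packed vectors

A vector `f 0, …, f (n - 1)` of natural numbers smaller than `2 ^ k` is stored as the number
`digs k n f = ∑ i < n, f i * 2 ^ (k * i)`.  Sums, products, the maximum and the comparison of packed
vectors are computed by a few operations on natural numbers.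
-/

namespace Pool.Agent.MOS

open Finset

/-- the number with base `2 ^ k` digits `f 0, …, f (n - 1)` -/
def digs (k n : ℕ) (f : ℕ → ℕ) : ℕ := ∑ i ∈ range n, f i * 2 ^ (k * i)

section digs

variable {k n : ℕ} {f g : ℕ → ℕ}

theorem digs_zero (k : ℕ) (f : ℕ → ℕ) : digs k 0 f = 0 := by simp [digs]

theorem digs_succ (k n : ℕ) (f : ℕ → ℕ) :
    digs k (n + 1) f = digs k n f + f n * 2 ^ (k * n) := by
  rw [digs, sum_range_succ, digs]

theorem digs_succ' (k n : ℕ) (f : ℕ → ℕ) :
    digs k (n + 1) f = f 0 + 2 ^ k * digs k n (fun i => f (i + 1)) := by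
  rw [digs, sum_range_succ', digs, mul_sum, mul_zero, pow_zero, mul_one, add_comm]
  congr 1
  apply sum_congr rfl
  intro i _
  rw [mul_add, mul_one, pow_add]
  ring

theorem digs_congr (h : ∀ i < n, f i = g i) : digs k n f = digs k n g :=
  sum_congr rfl fun i hi => by rw [h i (mem_range.1 hi)]

theorem digs_add (k n : ℕ) (f g : ℕ → ℕ) :
    digs k n f + digs k n g = digs k n (fun i => f i + g i) := by
  simp only [digs, ← sum_add_distrib, add_mul]

theorem digs_const_mul (k n c : ℕ) (f : ℕ → ℕ) :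
    c * digs k n f = digs k n (fun i => c * f i) := by
  simp only [digs, mul_sum, mul_assoc]

theorem digs_sub (h : ∀ i < n, g i ≤ f i) :
    digs k n f - digs k n g = digs k n (fun i => f i - g i) := by
  have h1 : digs k n (fun i => f i - g i) + digs k n g = digs k n f := by
    rw [digs_add]
    exact digs_congr fun i hi => Nat.sub_add_cancel (h i hi)
  omega

theorem digs_lt (h : ∀ i < n, f i < 2 ^ k) : digs k n f < 2 ^ (k * n) := by
  induction n generalizing f with
  | zero => simp [digs]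
  | succ n ih =>
    rw [digs_succ', mul_add, mul_one, pow_add]
    have h0 := h 0 (Nat.succ_pos n)
    have h1 := ih (f := fun i => f (i + 1)) fun i hi => h (i + 1) (Nat.succ_lt_succ hi)
    have h2 : digs k n (fun i => f (i + 1)) + 1 ≤ 2 ^ (k * n) := h1
    calc f 0 + 2 ^ k * digs k n (fun i => f (i + 1))
        < 2 ^ k + 2 ^ k * digs k n (fun i => f (i + 1)) := by omega
      _ = 2 ^ k * (digs k n (fun i => f (i + 1)) + 1) := by ring
      _ ≤ 2 ^ k * 2 ^ (k * n) := Nat.mul_le_mul_left _ h2
      _ = 2 ^ (k * n) * 2 ^ k := by ring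

theorem digs_inj (hf : ∀ i < n, f i < 2 ^ k) (hg : ∀ i < n, g i < 2 ^ k)
    (h : digs k n f = digs k n g) : ∀ i < n, f i = g i := by
  induction n generalizing f g with
  | zero => exact fun i hi => absurd hi (Nat.not_lt_zero i)
  | succ n ih =>
    rw [digs_succ', digs_succ'] at h
    have hf0 := hf 0 (Nat.succ_pos n)
    have hg0 := hg 0 (Nat.succ_pos n)
    have e0 : f 0 = g 0 := by
      have h1 := congrArg (· % 2 ^ k) h
      simpa [Nat.add_mul_mod_self_left, Nat.mod_eq_of_lt hf0, Nat.mod_eq_of_lt hg0] using h1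
    have e1 : digs k n (fun i => f (i + 1)) = digs k n (fun i => g (i + 1)) := by
      rw [e0] at h
      exact Nat.eq_of_mul_eq_mul_left (Nat.two_pow_pos k) (Nat.add_left_cancel h)
    intro i hi
    cases i with
    | zero => exact e0
    | succ i =>
      exact ih (f := fun i => f (i + 1)) (g := fun i => g (i + 1))
        (fun i hi => hf (i + 1) (Nat.succ_lt_succ hi))
        (fun i hi => hg (i + 1) (Nat.succ_lt_succ hi)) e1 i (Nat.lt_of_succ_lt_succ hi)

theorem land_two_pow_mul_add {a b x y : ℕ} (ha : a < 2 ^ k) (hb : b < 2 ^ k) :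
    (a + 2 ^ k * x) &&& (b + 2 ^ k * y) = (a &&& b) + 2 ^ k * (x &&& y) := by
  apply Nat.eq_of_testBit_eq
  intro j
  have hab : a &&& b < 2 ^ k := lt_of_le_of_lt Nat.and_le_left ha
  rw [Nat.testBit_and, add_comm a, add_comm b, add_comm (a &&& b),
    Nat.testBit_two_pow_mul_add _ ha, Nat.testBit_two_pow_mul_add _ hb,
    Nat.testBit_two_pow_mul_add _ hab]
  split_ifs
  · rw [Nat.testBit_and]
  · rw [Nat.testBit_and]

theorem digs_land (hf : ∀ i < n, f i < 2 ^ k) (hg : ∀ i < n, g i < 2 ^ k) :
    digs k n f &&& digs k n g = digs k n (fun i => f i &&& g i) := by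
  induction n generalizing f g with
  | zero => simp [digs]
  | succ n ih =>
    rw [digs_succ', digs_succ', digs_succ', land_two_pow_mul_add (hf 0 (Nat.succ_pos n))
      (hg 0 (Nat.succ_pos n)), ih (f := fun i => f (i + 1)) (g := fun i => g (i + 1))
        (fun i hi => hf (i + 1) (Nat.succ_lt_succ hi))
        (fun i hi => hg (i + 1) (Nat.succ_lt_succ hi))]

/-- the number with all digits `1` -/
def rep (k n : ℕ) : ℕ := (2 ^ (k * n) - 1) / (2 ^ k - 1)

theorem digs_one (hk : 0 < k) (n : ℕ) : digs k n (fun _ => 1) = rep k n := by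
  have h2 : 2 ≤ 2 ^ k := by
    calc 2 = 2 ^ 1 := rfl
      _ ≤ 2 ^ k := Nat.pow_le_pow_right (by norm_num) hk
  have h := Nat.geomSum_eq h2 n
  rw [rep, pow_mul, ← h, digs]
  exact sum_congr rfl fun i _ => by rw [one_mul, pow_mul]

theorem digs_const (hk : 0 < k) (n c : ℕ) : digs k n (fun _ => c) = c * rep k n := by
  rw [← digs_one hk, digs_const_mul]
  simp

end digs

/-! ### comparison and maximum -/

section compare

variable {k n : ℕ} {f g : ℕ → ℕ}

/-- digitwise comparison `A ≤ C`; `mk` is the number with all digits `2 ^ (k - 1)` -/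
def leD (mk A C : ℕ) : Bool := Nat.beq (Nat.land (Nat.sub (Nat.add C mk) A) mk) mk

theorem land_half {x k : ℕ} (h : x &&& 2 ^ (k - 1) = 2 ^ (k - 1)) :
    2 ^ (k - 1) ≤ x := by
  rw [← h]
  exact Nat.and_le_left

theorem le_of_leD (hk : 0 < k) (hf : ∀ i < n, f i < 2 ^ (k - 1)) (hg : ∀ i < n, g i < 2 ^ (k - 1))
    (h : leD (2 ^ (k - 1) * rep k n) (digs k n f) (digs k n g) = true) : ∀ i < n, f i ≤ g i := by
  have h1 : (digs k n g + 2 ^ (k - 1) * rep k n - digs k n f) &&& (2 ^ (k - 1) * rep k n) =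
      2 ^ (k - 1) * rep k n := Nat.eq_of_beq_eq_true h
  have h2k : 2 ^ k = 2 ^ (k - 1) + 2 ^ (k - 1) := by
    obtain ⟨m, rfl⟩ : ∃ m, k = m + 1 := ⟨k - 1, by omega⟩
    rw [Nat.add_sub_cancel, pow_succ]
    ring
  rw [← digs_const hk, digs_add, digs_sub (fun i hi => by have := hf i hi; omega),
    digs_land (fun i hi => by have := hg i hi; omega) (fun i _ => by
      have := Nat.two_pow_pos (k - 1); omega)] at h1
  intro i hi
  have h3 := digs_inj (fun i hi => lt_of_le_of_lt Nat.and_le_right (by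
      have := Nat.two_pow_pos (k - 1); omega)) (fun i _ => by
      have := Nat.two_pow_pos (k - 1); omega) h1 i hi
  have h4 : 2 ^ (k - 1) ≤ g i + 2 ^ (k - 1) - f i := land_half h3
  have h5 := hf i hi
  generalize 2 ^ (k - 1) = H at *
  omega

/-- digitwise maximum, with auxiliary arguments -/
def mxA (k g d v : ℕ) : ℕ :=
  Nat.add v (Nat.land d (Nat.sub g (Nat.shiftRight g (Nat.sub k 1))))

/-- digitwise maximum, with an auxiliary argument -/
def mxB (k mk d v : ℕ) : ℕ := mxA k (Nat.land d mk) d v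

/-- digitwise maximum of `u` and `v`; `mk` is the number with all digits `2 ^ (k - 1)` -/
def mx (k mk u v : ℕ) : ℕ := mxB k mk (Nat.sub (Nat.add u mk) v) v

theorem land_low {x b k : ℕ} (hb : b ≤ 1) :
    x &&& ((2 ^ k - 1) * b) = if b = 1 then x % 2 ^ k else 0 := by
  rcases (by omega : b = 0 ∨ b = 1) with rfl | rfl
  · simp
  · simp [Nat.and_two_pow_sub_one_eq_mod]

theorem land_half_eq {x k : ℕ} (hk : 0 < k) (hx : x < 2 ^ k) :
    x &&& 2 ^ (k - 1) = 2 ^ (k - 1) * (if 2 ^ (k - 1) ≤ x then 1 else 0) := by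
  obtain ⟨m, rfl⟩ : ∃ m, k = m + 1 := ⟨k - 1, by omega⟩
  rw [Nat.add_sub_cancel]
  have h := Nat.and_two_pow x m
  rw [h]
  split_ifs with h1
  · have : x.testBit m = true := by
      rw [Nat.testBit_eq_decide_div_mod_eq]
      have h2 : x / 2 ^ m = 1 := by
        apply Nat.div_eq_of_lt_le
        · simpa using h1
        · rw [pow_succ] at hx
          omega
      simp [h2]
    simp [this]
  · have : x.testBit m = false := Nat.testBit_lt_two_pow (by omega)
    simp [this]

theorem mx_eq (hk : 0 < k) (hf : ∀ i < n, f i < 2 ^ (k - 1)) (hg : ∀ i < n, g i < 2 ^ (k - 1)) :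
    mx k (2 ^ (k - 1) * rep k n) (digs k n f) (digs k n g) = digs k n (fun i => max (f i) (g i)) := by
  have h2k : 2 ^ k = 2 ^ (k - 1) + 2 ^ (k - 1) := by
    obtain ⟨m, rfl⟩ : ∃ m, k = m + 1 := ⟨k - 1, by omega⟩
    rw [Nat.add_sub_cancel, pow_succ]
    ring
  have hpos := Nat.two_pow_pos (k - 1)
  show digs k n g + (digs k n f + 2 ^ (k - 1) * rep k n - digs k n g &&&
    ((digs k n f + 2 ^ (k - 1) * rep k n - digs k n g &&& 2 ^ (k - 1) * rep k n) -
      (digs k n f + 2 ^ (k - 1) * rep k n - digs k n g &&& 2 ^ (k - 1) * rep k n) >>> (k - 1))) = _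
  have e1 : digs k n f + 2 ^ (k - 1) * rep k n - digs k n g =
      digs k n (fun i => f i + 2 ^ (k - 1) - g i) := by
    rw [← digs_const hk, digs_add, digs_sub (fun i hi => by have := hg i hi; omega)]
  have hx : ∀ i < n, f i + 2 ^ (k - 1) - g i < 2 ^ k := fun i hi => by
    have := hf i hi
    omega
  have e2 : (digs k n (fun i => f i + 2 ^ (k - 1) - g i) &&& 2 ^ (k - 1) * rep k n) =
      2 ^ (k - 1) * digs k n (fun i => if 2 ^ (k - 1) ≤ f i + 2 ^ (k - 1) - g i then 1 else 0) := by
    rw [← digs_const hk, digs_land hx (fun i _ => by omega), digs_const_mul]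
    exact digs_congr fun i hi => land_half_eq hk (hx i hi)
  rw [e1, e2, Nat.shiftRight_eq_div_pow, Nat.mul_div_cancel_left _ hpos]
  have e3 : 2 ^ (k - 1) * digs k n (fun i => if 2 ^ (k - 1) ≤ f i + 2 ^ (k - 1) - g i then 1 else 0)
      - digs k n (fun i => if 2 ^ (k - 1) ≤ f i + 2 ^ (k - 1) - g i then 1 else 0) =
      digs k n (fun i => (2 ^ (k - 1) - 1) *
        (if 2 ^ (k - 1) ≤ f i + 2 ^ (k - 1) - g i then 1 else 0)) := by
    rw [← digs_const_mul, Nat.sub_mul, one_mul]
  rw [e3, digs_land hx, digs_add]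
  · apply digs_congr
    intro i hi
    have h1 := hf i hi
    have h2 := hg i hi
    rw [land_low (by split_ifs <;> simp)]
    by_cases hle : g i ≤ f i
    · rw [if_pos (show (2 ^ (k - 1) ≤ f i + 2 ^ (k - 1) - g i) by omega), if_pos rfl,
        show f i + 2 ^ (k - 1) - g i = (f i - g i) + 2 ^ (k - 1) by omega, Nat.add_mod_right,
        Nat.mod_eq_of_lt (by omega)]
      omega
    · rw [if_neg (show ¬ (2 ^ (k - 1) ≤ f i + 2 ^ (k - 1) - g i) by omega), if_neg (by norm_num)]
      omega
  · intro i _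
    split_ifs
    · rw [mul_one]
      omega
    · rw [mul_zero]
      omega

end compare

/-! ### matrices -/

section matrix

variable {k q : ℕ}

theorem digs_mul_add (k n m : ℕ) (f : ℕ → ℕ) :
    digs k (n + m) f = digs k n f + digs k m (fun i => f (n + i)) * 2 ^ (k * n) := by
  rw [digs, sum_range_add, digs, digs, sum_mul]
  congr 1
  exact sum_congr rfl fun i _ => by rw [mul_add, pow_add]; ring

/-- `v` spread to the positions `0, q, 2 q, …` -/
def digsS (k q : ℕ) (v : ℕ → ℕ) : ℕ := ∑ j ∈ range q, v j * 2 ^ (k * (q * j))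

theorem digs_mul_digsS_aux (hq : 0 < q) (u v : ℕ → ℕ) (r : ℕ) :
    digs k q u * (∑ j ∈ range r, v j * 2 ^ (k * (q * j))) =
      digs k (q * r) (fun p => u (p % q) * v (p / q)) := by
  induction r with
  | zero => simp [digs]
  | succ r ih =>
    rw [sum_range_succ, mul_add, ih, mul_add, mul_one, digs_mul_add]
    congr 1
    rw [← mul_assoc]
    congr 1
    rw [mul_comm, digs_const_mul]
    apply digs_congr
    intro i hi
    rw [Nat.mul_add_mod, Nat.mod_eq_of_lt hi, Nat.mul_add_div hq, Nat.div_eq_of_lt hi, add_zero,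
      mul_comm]

theorem digs_mul_digsS (hq : 0 < q) (u v : ℕ → ℕ) :
    digs k q u * digsS k q v = digs k (q * q) (fun p => u (p % q) * v (p / q)) :=
  digs_mul_digsS_aux hq u v q

/-- the multiplier of `spread` -/
def spreadR (k q : ℕ) : ℕ := (2 ^ (k * (q - 1) * q) - 1) / (2 ^ (k * (q - 1)) - 1)

/-- the mask of `spread` -/
def spreadM (k q : ℕ) : ℕ := (2 ^ k - 1) * ((2 ^ (k * q * q) - 1) / (2 ^ (k * q) - 1))

/-- spreads the digits of `w` to the positions `0, q, 2 q, …` -/
def spread (R M w : ℕ) : ℕ := Nat.land (Nat.mul w R) M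

theorem spreadR_eq (hk : 0 < k) (hq : 2 ≤ q) :
    spreadR k q = ∑ i ∈ range q, 2 ^ (k * ((q - 1) * i)) := by
  have h1 : 0 < k * (q - 1) := Nat.mul_pos hk (by omega)
  have h2 : 2 ≤ 2 ^ (k * (q - 1)) := by
    calc 2 = 2 ^ 1 := rfl
      _ ≤ _ := Nat.pow_le_pow_right (by norm_num) h1
  rw [spreadR, pow_mul, ← Nat.geomSum_eq h2 q]
  exact sum_congr rfl fun i _ => by rw [← pow_mul, mul_assoc]

theorem spreadM_eq (hk : 0 < k) (hq : 0 < q) :
    spreadM k q = ∑ i ∈ range q, (2 ^ k - 1) * 2 ^ (k * (q * i)) := by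
  have h1 : 0 < k * q := Nat.mul_pos hk hq
  have h2 : 2 ≤ 2 ^ (k * q) := by
    calc 2 = 2 ^ 1 := rfl
      _ ≤ _ := Nat.pow_le_pow_right (by norm_num) h1
  rw [spreadM, pow_mul, ← Nat.geomSum_eq h2 q, mul_sum]
  exact sum_congr rfl fun i _ => by rw [← pow_mul, mul_assoc]

/-- shifted vectors -/
theorem digs_shift {a n : ℕ} (ha : a + q ≤ n) (v : ℕ → ℕ) :
    digs k q v * 2 ^ (k * a) =
      digs k n (fun p => if a ≤ p ∧ p < a + q then v (p - a) else 0) := by
  obtain ⟨b, rfl⟩ : ∃ b, n = a + q + b := ⟨n - (a + q), by omega⟩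
  rw [digs_mul_add, digs_mul_add]
  have h1 : digs k a (fun p => if a ≤ p ∧ p < a + q then v (p - a) else 0) = 0 := by
    rw [digs]
    apply sum_eq_zero
    intro i hi
    rw [mem_range] at hi
    rw [if_neg (by omega), zero_mul]
  have h2 : digs k b (fun i => if a ≤ a + q + i ∧ a + q + i < a + q then v (a + q + i - a) else 0)
      = 0 := by
    rw [digs]
    apply sum_eq_zero
    intro i _
    rw [if_neg (by omega), zero_mul]
  rw [h1, h2, zero_add, zero_mul, add_zero]
  congr 1
  apply digs_congr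
  intro i hi
  rw [if_pos (by omega), Nat.add_sub_cancel_left]

/-- spread vectors as vectors of length `q * q` -/
theorem digsS_eq (hq : 0 < q) (v : ℕ → ℕ) :
    digsS k q v = digs k (q * q) (fun p => if p % q = 0 then v (p / q) else 0) := by
  have h := digs_mul_digsS (k := k) hq (fun i => if i = 0 then 1 else 0) v
  have h1 : digs k q (fun i => if i = 0 then 1 else 0) = 1 := by
    rw [digs, sum_eq_single 0]
    · simp
    · intro i _ hi
      simp [hi]
    · intro h
      exact absurd (mem_range.2 hq) h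
  rw [h1, one_mul] at h
  rw [h]
  apply digs_congr
  intro p _
  split_ifs <;> simp

theorem spread_eq (hk : 0 < k) (hq : 2 ≤ q) {v : ℕ → ℕ}
    (hv : ∑ i ∈ range q, v i < 2 ^ k) :
    spread (spreadR k q) (spreadM k q) (digs k q v) = digsS k q v := by
  have hq0 : 0 < q := by omega
  -- the product as a vector
  have e1 : digs k q v * spreadR k q = digs k (q * q) (fun p => ∑ i ∈ range q,
      if (q - 1) * i ≤ p ∧ p < (q - 1) * i + q then v (p - (q - 1) * i) else 0) := by
    rw [spreadR_eq hk hq, mul_sum]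
    have : ∀ i ∈ range q, digs k q v * 2 ^ (k * ((q - 1) * i)) =
        digs k (q * q) (fun p => if (q - 1) * i ≤ p ∧ p < (q - 1) * i + q
          then v (p - (q - 1) * i) else 0) := by
      intro i hi
      rw [mem_range] at hi
      apply digs_shift
      obtain ⟨r, rfl⟩ : ∃ r, q = r + 1 := ⟨q - 1, by omega⟩
      have : r * i ≤ r * r := Nat.mul_le_mul_left _ (by omega)
      simp only [Nat.add_sub_cancel]
      nlinarith
    rw [sum_congr rfl this]
    simp only [digs]
    rw [sum_comm]
    apply sum_congr rfl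
    intro p _
    rw [sum_mul]
  have e2 : spreadM k q = digs k (q * q) (fun p => if p % q = 0 then 2 ^ k - 1 else 0) := by
    rw [spreadM_eq hk hq0, ← digsS_eq hq0 (fun _ => 2 ^ k - 1), digsS]
  have hb : ∀ p < q * q, (∑ i ∈ range q,
      if (q - 1) * i ≤ p ∧ p < (q - 1) * i + q then v (p - (q - 1) * i) else 0) < 2 ^ k := by
    intro p _
    refine lt_of_le_of_lt ?_ hv
    -- injection `i ↦ p - (q - 1) * i`
    rw [← sum_filter]
    have hinj : Set.InjOn (fun i => p - (q - 1) * i)
        ((range q).filter fun i => (q - 1) * i ≤ p ∧ p < (q - 1) * i + q : Finset ℕ) := by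
      intro i hi j hj hij
      simp only [coe_filter, mem_range, Set.mem_ofPred_eq] at hi hj hij
      have : (q - 1) * i = (q - 1) * j := by omega
      exact Nat.eq_of_mul_eq_mul_left (by omega) this
    calc ∑ i ∈ (range q).filter (fun i => (q - 1) * i ≤ p ∧ p < (q - 1) * i + q),
          v (p - (q - 1) * i)
        = ∑ t ∈ ((range q).filter fun i => (q - 1) * i ≤ p ∧ p < (q - 1) * i + q).image
            (fun i => p - (q - 1) * i), v t := (sum_image hinj).symm
      _ ≤ ∑ t ∈ range q, v t := by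
          apply sum_le_sum_of_subset
          intro t ht
          rw [mem_image] at ht
          obtain ⟨i, hi, rfl⟩ := ht
          rw [mem_filter] at hi
          rw [mem_range]
          omega
  show digs k q v * spreadR k q &&& spreadM k q = _
  rw [e1, e2, digs_land hb (fun p _ => by
    have := Nat.two_pow_pos k
    split_ifs <;> omega), digsS_eq hq0]
  apply digs_congr
  intro p hp
  split_ifs with h
  · rw [Nat.and_two_pow_sub_one_eq_mod, Nat.mod_eq_of_lt (hb p hp)]
    obtain ⟨j, rfl⟩ : ∃ j, p = q * j := ⟨p / q, by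
      have := Nat.div_add_mod p q
      omega⟩
    have hj : j < q := Nat.lt_of_mul_lt_mul_left hp
    rw [Nat.mul_div_cancel_left _ hq0, sum_eq_single j]
    · obtain ⟨r, rfl⟩ : ∃ r, q = r + 1 := ⟨q - 1, by omega⟩
      simp only [Nat.add_sub_cancel]
      have e : (r + 1) * j - r * j = j := by
        rw [add_mul, one_mul, Nat.add_sub_cancel_left]
      have e' : (r + 1) * j = r * j + j := by ring
      rw [if_pos (by omega), e]
    · intro i hi hij
      rw [mem_range] at hi
      apply if_neg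
      obtain ⟨r, rfl⟩ : ∃ r, q = r + 1 := ⟨q - 1, by omega⟩
      simp only [Nat.add_sub_cancel]
      rintro ⟨h1, h2⟩
      have e' : (r + 1) * j = r * j + j := by ring
      rcases lt_or_gt_of_ne hij with h3 | h3
      · -- `i < j`
        have : r * (i + 1) ≤ r * j := Nat.mul_le_mul_left _ h3
        have e'' : r * (i + 1) = r * i + r := by ring
        omega
      · have : r * (j + 1) ≤ r * i := Nat.mul_le_mul_left _ h3
        have e'' : r * (j + 1) = r * j + r := by ring
        omega
    · intro h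
      exact absurd (mem_range.2 hj) h
  · rw [Nat.and_zero]

end matrix

end Pool.Agent.MOS
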