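import Mathlib.Tactic
import Mathlib.Algebra.Order.Chebyshev
import Mathlib.Analysis.SpecialFunctions.Pow.Real
import Mathlib.Topology.MetricSpace.Basic
import Mathlib.Analysis.Normed.Group.InfiniteSum

/-!
# Packing squares into a rectangle: basic notions

`Packs d a b`: the squares with sides `d i` can be placed, with sides parallel to the axes and with
disjoint interiors, in the rectangle `[0, a] × [0, b]`.  `PacksL l a b`: the same for the list `l`
of sides (`packsL_iff`).
-/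

namespace Pool.Agent.MOS

/-- The squares with lower left corners `p`, `q` and sides `s`, `t` are separated by a horizontal or
by a vertical line. -/
def Apart (p : ℝ × ℝ) (s : ℝ) (q : ℝ × ℝ) (t : ℝ) : Prop :=
  p.1 + s ≤ q.1 ∨ q.1 + t ≤ p.1 ∨ p.2 + s ≤ q.2 ∨ q.2 + t ≤ p.2

/-- The squares with sides `d i` pack into the rectangle `[0, a] × [0, b]`: there are lower left
corners `p i` such that the squares lie in the rectangle and any two of them are separated. -/
def Packs {ι : Type*} (d : ι → ℝ) (a b : ℝ) : Prop :=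
  ∃ p : ι → ℝ × ℝ, (∀ i, 0 ≤ (p i).1 ∧ (p i).1 + d i ≤ a ∧ 0 ≤ (p i).2 ∧ (p i).2 + d i ≤ b) ∧
    Pairwise fun i j => Apart (p i) (d i) (p j) (d j)

theorem Apart.symm {p q : ℝ × ℝ} {s t : ℝ} (h : Apart p s q t) : Apart q t p s := by
  rcases h with h | h | h | h
  · exact Or.inr (Or.inl h)
  · exact Or.inl h
  · exact Or.inr (Or.inr (Or.inr h))
  · exact Or.inr (Or.inr (Or.inl h))

theorem Apart.swap {p q : ℝ × ℝ} {s t : ℝ} (h : Apart p s q t) : Apart p.swap s q.swap t := by
  rcases h with h | h | h | h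
  · exact Or.inr (Or.inr (Or.inl h))
  · exact Or.inr (Or.inr (Or.inr h))
  · exact Or.inl h
  · exact Or.inr (Or.inl h)

theorem Apart.add {p q : ℝ × ℝ} {s t : ℝ} (h : Apart p s q t) (v : ℝ × ℝ) :
    Apart (p + v) s (q + v) t := by
  rcases h with h | h | h | h
  · exact Or.inl (by simp only [Prod.fst_add]; linarith)
  · exact Or.inr (Or.inl (by simp only [Prod.fst_add]; linarith))
  · exact Or.inr (Or.inr (Or.inl (by simp only [Prod.snd_add]; linarith)))
  · exact Or.inr (Or.inr (Or.inr (by simp only [Prod.snd_add]; linarith)))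

theorem Apart.of_le {p q : ℝ × ℝ} {s t s' t' : ℝ} (h : Apart p s q t) (hs : s' ≤ s) (ht : t' ≤ t) :
    Apart p s' q t' := by
  rcases h with h | h | h | h
  · exact Or.inl (by linarith)
  · exact Or.inr (Or.inl (by linarith))
  · exact Or.inr (Or.inr (Or.inl (by linarith)))
  · exact Or.inr (Or.inr (Or.inr (by linarith)))

section Packs

variable {ι κ : Type*} {d : ι → ℝ} {e : κ → ℝ} {a b a' b' : ℝ}

theorem Packs.mono (h : Packs d a b) (ha : a ≤ a') (hb : b ≤ b') : Packs d a' b' := by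
  obtain ⟨p, h1, h2⟩ := h
  exact ⟨p, fun i => ⟨(h1 i).1, (h1 i).2.1.trans ha, (h1 i).2.2.1, (h1 i).2.2.2.trans hb⟩, h2⟩

theorem Packs.comp {f : κ → ι} (hf : Function.Injective f) (h : Packs d a b) :
    Packs (fun j => d (f j)) a b := by
  obtain ⟨p, h1, h2⟩ := h
  exact ⟨fun j => p (f j), fun j => h1 (f j), fun i j hij => h2 fun h => hij (hf h)⟩

theorem Packs.equiv (f : κ ≃ ι) (h : Packs (fun j => d (f j)) a b) : Packs d a b := by
  have := h.comp f.symm.injective
  simpa using this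

theorem Packs.of_isEmpty [IsEmpty ι] (d : ι → ℝ) (a b : ℝ) : Packs d a b :=
  ⟨isEmptyElim, isEmptyElim, fun i => isEmptyElim i⟩

theorem Packs.of_subsingleton [Subsingleton ι] (h0 : ∀ i, d i ≤ a) (h1 : ∀ i, d i ≤ b) :
    Packs d a b :=
  ⟨fun _ => (0, 0), fun i => ⟨le_rfl, by simpa using h0 i, le_rfl, by simpa using h1 i⟩,
    fun i j hij => absurd (Subsingleton.elim i j) hij⟩

/-- transposition -/
theorem Packs.swap (h : Packs d a b) : Packs d b a := by
  obtain ⟨p, h1, h2⟩ := h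
  exact ⟨fun i => (p i).swap, fun i => ⟨(h1 i).2.2.1, (h1 i).2.2.2, (h1 i).1, (h1 i).2.1⟩,
    fun i j hij => (h2 hij).swap⟩

/-- the sides may be decreased -/
theorem Packs.of_le {d' : ι → ℝ} (hd : ∀ i, d' i ≤ d i) (h : Packs d a b) : Packs d' a b := by
  obtain ⟨p, h1, h2⟩ := h
  exact ⟨p, fun i => ⟨(h1 i).1, by linarith [hd i, (h1 i).2.1], (h1 i).2.2.1,
    by linarith [hd i, (h1 i).2.2.2]⟩, fun i j hij => (h2 hij).of_le (hd i) (hd j)⟩

theorem Packs.scale {c : ℝ} (hc : 0 ≤ c) (h : Packs d a b) :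
    Packs (fun i => c * d i) (c * a) (c * b) := by
  obtain ⟨p, h1, h2⟩ := h
  refine ⟨fun i => (c * (p i).1, c * (p i).2), fun i => ⟨mul_nonneg hc (h1 i).1, ?_,
    mul_nonneg hc (h1 i).2.2.1, ?_⟩, fun i j hij => ?_⟩
  · simpa [mul_add] using mul_le_mul_of_nonneg_left (h1 i).2.1 hc
  · simpa [mul_add] using mul_le_mul_of_nonneg_left (h1 i).2.2.2 hc
  rcases h2 hij with h | h | h | h
  · exact Or.inl (by simpa [mul_add] using mul_le_mul_of_nonneg_left h hc)
  · exact Or.inr (Or.inl (by simpa [mul_add] using mul_le_mul_of_nonneg_left h hc))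
  · exact Or.inr (Or.inr (Or.inl (by simpa [mul_add] using mul_le_mul_of_nonneg_left h hc)))
  · exact Or.inr (Or.inr (Or.inr (by simpa [mul_add] using mul_le_mul_of_nonneg_left h hc)))

/-- side by side: `[0, a] × [0, b]` and `[a, a + a'] × [0, b]` -/
theorem Packs.hor (ha : 0 ≤ a) (ha' : 0 ≤ a') (h : Packs d a b) (h' : Packs e a' b) :
    Packs (Sum.elim d e) (a + a') b := by
  obtain ⟨p, h1, h2⟩ := h
  obtain ⟨q, g1, g2⟩ := h'
  refine ⟨Sum.elim p fun j => q j + (a, 0), ?_, ?_⟩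
  · rintro (i | j)
    · exact ⟨(h1 i).1, (h1 i).2.1.trans (by linarith), (h1 i).2.2⟩
    · simp only [Sum.elim_inr, Prod.fst_add, Prod.snd_add, add_zero]
      exact ⟨by linarith [(g1 j).1], by linarith [(g1 j).2.1], (g1 j).2.2⟩
  · rintro (i | j) (i' | j') hij
    · exact h2 fun h => hij (by rw [h])
    · refine Or.inl ?_
      simp only [Sum.elim_inl, Sum.elim_inr, Prod.fst_add]
      linarith [(h1 i).2.1, (g1 j').1]
    · refine Or.inr (Or.inl ?_)
      simp only [Sum.elim_inl, Sum.elim_inr, Prod.fst_add]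
      linarith [(h1 i').2.1, (g1 j).1]
    · exact (g2 fun h => hij (by rw [h])).add (a, 0)

/-- one above the other: `[0, a] × [0, b]` and `[0, a] × [b, b + b']` -/
theorem Packs.ver (hb : 0 ≤ b) (hb' : 0 ≤ b') (h : Packs d a b) (h' : Packs e a b') :
    Packs (Sum.elim d e) a (b + b') :=
  (Packs.hor hb hb' h.swap h'.swap).swap

end Packs

/-- The list `l` of sides packs into `[0, a] × [0, b]`. -/
def PacksL (l : List ℝ) (a b : ℝ) : Prop :=
  ∃ q : List ((ℝ × ℝ) × ℝ), q.map Prod.snd = l ∧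
    (∀ x ∈ q, 0 ≤ x.1.1 ∧ x.1.1 + x.2 ≤ a ∧ 0 ≤ x.1.2 ∧ x.1.2 + x.2 ≤ b) ∧
    q.Pairwise fun x y => Apart x.1 x.2 y.1 y.2

theorem packsL_iff {l : List ℝ} {a b : ℝ} :
    PacksL l a b ↔ Packs (fun i : Fin l.length => l[i]) a b := by
  constructor
  · rintro ⟨q, rfl, h1, h2⟩
    rw [List.pairwise_iff_getElem] at h2
    have hl : ∀ i : Fin (q.map Prod.snd).length, i.1 < q.length := fun i => by
      simpa using i.2
    refine ⟨fun i => (q[i.1]'(hl i)).1, fun i => ?_, fun i j hij => ?_⟩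
    · simpa using h1 (q[i.1]'(hl i)) (List.getElem_mem _)
    · rcases lt_or_gt_of_ne hij with h | h
      · simpa using h2 i.1 j.1 (hl i) (hl j) h
      · simpa using (h2 j.1 i.1 (hl j) (hl i) h).symm
  · rintro ⟨p, h1, h2⟩
    refine ⟨List.ofFn fun i : Fin l.length => (p i, l[i]), ?_, ?_, ?_⟩
    · rw [List.map_ofFn]
      exact List.ofFn_getElem
    · intro x hx
      rw [List.mem_ofFn] at hx
      obtain ⟨i, rfl⟩ := hx
      exact h1 i
    · rw [List.pairwise_ofFn]
      exact fun i j hij => h2 hij.ne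

section PacksL

variable {l l' : List ℝ} {a b a' b' : ℝ}

theorem PacksL.nil (a b : ℝ) : PacksL [] a b :=
  ⟨[], rfl, by simp, List.Pairwise.nil⟩

theorem PacksL.singleton {s : ℝ} (ha : s ≤ a) (hb : s ≤ b) : PacksL [s] a b :=
  ⟨[((0, 0), s)], rfl, by simpa using ⟨ha, hb⟩, List.pairwise_singleton _ _⟩

theorem PacksL.mono (h : PacksL l a b) (ha : a ≤ a') (hb : b ≤ b') : PacksL l a' b' := by
  rw [packsL_iff] at h ⊢
  exact h.mono ha hb

theorem PacksL.swap (h : PacksL l a b) : PacksL l b a := by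
  rw [packsL_iff] at h ⊢
  exact h.swap

theorem PacksL.hor (ha : 0 ≤ a) (ha' : 0 ≤ a') (h : PacksL l a b) (h' : PacksL l' a' b) :
    PacksL (l ++ l') (a + a') b := by
  obtain ⟨q, rfl, h1, h2⟩ := h
  obtain ⟨q', rfl, g1, g2⟩ := h'
  refine ⟨q ++ q'.map fun x => (x.1 + (a, 0), x.2), by simp [Function.comp_def], ?_, ?_⟩
  · intro x hx
    rw [List.mem_append, List.mem_map] at hx
    rcases hx with hx | ⟨y, hy, rfl⟩
    · have := h1 x hx
      exact ⟨this.1, this.2.1.trans (by linarith), this.2.2⟩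
    · have := g1 y hy
      simp only [Prod.fst_add, Prod.snd_add, add_zero]
      exact ⟨by linarith [this.1], by linarith [this.2.1], this.2.2⟩
  · rw [List.pairwise_append]
    refine ⟨h2, ?_, ?_⟩
    · rw [List.pairwise_map]
      exact g2.imp fun {x y} h => h.add (a, 0)
    · intro x hx y hy
      rw [List.mem_map] at hy
      obtain ⟨z, hz, rfl⟩ := hy
      refine Or.inl ?_
      simp only [Prod.fst_add]
      linarith [(h1 x hx).2.1, (g1 z hz).1]

theorem PacksL.ver (hb : 0 ≤ b) (hb' : 0 ≤ b') (h : PacksL l a b) (h' : PacksL l' a b') :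
    PacksL (l ++ l') a (b + b') :=
  (PacksL.hor hb hb' h.swap h'.swap).swap

private theorem perm_lift {α β : Type*} (f : α → β) {l l' : List β} (h : l.Perm l') :
    ∀ q : List α, q.map f = l → ∃ q' : List α, q.Perm q' ∧ q'.map f = l' := by
  induction h with
  | nil => exact fun q hq => ⟨q, List.Perm.refl q, hq⟩
  | cons x _ ih =>
    intro q hq
    obtain ⟨y, q1, rfl, rfl, h1⟩ := List.map_eq_cons_iff.1 hq
    obtain ⟨q', h2, h3⟩ := ih q1 h1
    exact ⟨y :: q', h2.cons y, by rw [List.map_cons, h3]⟩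
  | swap x y l =>
    intro q hq
    obtain ⟨y', q1, rfl, rfl, h1⟩ := List.map_eq_cons_iff.1 hq
    obtain ⟨x', q2, rfl, rfl, h2⟩ := List.map_eq_cons_iff.1 h1
    exact ⟨x' :: y' :: q2, List.Perm.swap _ _ _, by simp [h2]⟩
  | trans _ _ ih1 ih2 =>
    intro q hq
    obtain ⟨q1, h1, h2⟩ := ih1 q hq
    obtain ⟨q2, h3, h4⟩ := ih2 q1 h2
    exact ⟨q2, h1.trans h3, h4⟩

theorem PacksL.perm (hl : l.Perm l') (h : PacksL l a b) : PacksL l' a b := by
  obtain ⟨q, hq, h1, h2⟩ := h
  obtain ⟨q', h3, h4⟩ := perm_lift Prod.snd hl q hq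
  exact ⟨q', h4, fun x hx => h1 x (h3.mem_iff.2 hx),
    (h3.pairwise_iff fun {x y} h => Apart.symm h).1 h2⟩

theorem PacksL.sublist (hl : l'.Sublist l) (h : PacksL l a b) : PacksL l' a b := by
  obtain ⟨q, rfl, h1, h2⟩ := h
  rw [List.sublist_map_iff] at hl
  obtain ⟨q', hq, rfl⟩ := hl
  exact ⟨q', rfl, fun x hx => h1 x (hq.subset hx), h2.sublist hq⟩

/-- a row of squares of total width at most `a` and sides at most `b` -/
theorem PacksL.row (h0 : ∀ s ∈ l, 0 ≤ s) (ha : l.sum ≤ a) (hb : ∀ s ∈ l, s ≤ b) :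
    PacksL l a b := by
  induction l generalizing a with
  | nil => exact PacksL.nil a b
  | cons s l ih =>
    have hs : 0 ≤ s := h0 s (by simp)
    have hl : 0 ≤ l.sum := List.sum_nonneg fun t ht => h0 t (by simp [ht])
    rw [List.sum_cons] at ha
    have := PacksL.hor hs (by linarith : 0 ≤ a - s)
      (PacksL.singleton le_rfl (hb s (by simp)) : PacksL [s] s b)
      (ih (fun t ht => h0 t (by simp [ht])) (by linarith) fun t ht => hb t (by simp [ht]))
    simpa using this

end PacksL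

end Pool.Agent.MOS
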