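import Pool.Agent.Lib.MP_b520b2_co.Defs
import Pool.Agent.Lib.MP_b520b2_co.Packs

/-!
# The geometric definition and the inequality form `Packs` agree
-/

namespace Pool.Agent.MOS

theorem square_subset_rectangle {p : ℝ × ℝ} {s a b : ℝ} (hs : 0 ≤ s) :
    square p s ⊆ rectangle a b ↔ 0 ≤ p.1 ∧ p.1 + s ≤ a ∧ 0 ≤ p.2 ∧ p.2 + s ≤ b := by
  unfold square rectangle
  constructor
  · intro h
    have h1 : ((p.1, p.2) : ℝ × ℝ) ∈ Set.Icc (0 : ℝ) a ×ˢ Set.Icc (0 : ℝ) b := by
      apply h
      simp only [Set.mem_prod, Set.mem_Icc]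
      exact ⟨⟨le_refl _, by linarith⟩, ⟨le_refl _, by linarith⟩⟩
    have h2 : ((p.1 + s, p.2 + s) : ℝ × ℝ) ∈ Set.Icc (0 : ℝ) a ×ˢ Set.Icc (0 : ℝ) b := by
      apply h
      simp only [Set.mem_prod, Set.mem_Icc]
      exact ⟨⟨by linarith, le_refl _⟩, ⟨by linarith, le_refl _⟩⟩
    simp only [Set.mem_prod, Set.mem_Icc] at h1 h2
    exact ⟨h1.1.1, h2.1.2, h1.2.1, h2.2.2⟩
  · rintro ⟨h1, h2, h3, h4⟩
    intro z hz
    simp only [Set.mem_prod, Set.mem_Icc] at hz ⊢
    exact ⟨⟨by linarith [hz.1.1], by linarith [hz.1.2]⟩,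
      ⟨by linarith [hz.2.1], by linarith [hz.2.2]⟩⟩

theorem interior_square (p : ℝ × ℝ) (s : ℝ) :
    interior (square p s) = Set.Ioo p.1 (p.1 + s) ×ˢ Set.Ioo p.2 (p.2 + s) := by
  unfold square
  rw [interior_prod_eq, interior_Icc, interior_Icc]

theorem disjoint_Ioo_iff {x x' s s' : ℝ} (hs : 0 < s) (hs' : 0 < s') :
    Disjoint (Set.Ioo x (x + s)) (Set.Ioo x' (x' + s')) ↔ x + s ≤ x' ∨ x' + s' ≤ x := by
  rw [Set.Ioo_disjoint_Ioo, min_le_iff, le_max_iff, le_max_iff]
  constructor
  · rintro ((h | h) | (h | h))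
    · exact absurd h (by linarith)
    · exact Or.inl h
    · exact Or.inr h
    · exact absurd h (by linarith)
  · rintro (h | h)
    · exact Or.inl (Or.inr h)
    · exact Or.inr (Or.inl h)

theorem disjoint_interior_iff {p q : ℝ × ℝ} {s t : ℝ} (hs : 0 < s) (ht : 0 < t) :
    Disjoint (interior (square p s)) (interior (square q t)) ↔ Apart p s q t := by
  rw [interior_square, interior_square, Set.disjoint_prod, disjoint_Ioo_iff hs ht,
    disjoint_Ioo_iff hs ht]
  unfold Apart
  tauto

/-- The geometric definition and the inequality form agree. -/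
theorem packsInto_iff {ι : Type} {d : ι → ℝ} (hd : ∀ i, 0 < d i) (a b : ℝ) :
    PacksInto d a b ↔ Packs d a b := by
  constructor
  · rintro ⟨p, h1, h2⟩
    exact ⟨p, fun i => (square_subset_rectangle (hd i).le).1 (h1 i),
      fun i j hij => (disjoint_interior_iff (hd i) (hd j)).1 (h2 i j hij)⟩
  · rintro ⟨p, h1, h2⟩
    exact ⟨p, fun i => (square_subset_rectangle (hd i).le).2 (h1 i),
      fun i j hij => (disjoint_interior_iff (hd i) (hd j)).2 (h2 hij)⟩

/-- A finite family packs as soon as a list with the same sides (in any order) packs. -/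
theorem packs_of_packsL {ι : Type} [Fintype ι] {d : ι → ℝ} {a b : ℝ} {l : List ℝ}
    (hl : List.Perm l (List.map d Finset.univ.toList)) (h : PacksL l a b) : Packs d a b := by
  classical
  have h1 : PacksL (List.map d Finset.univ.toList) a b := h.perm hl
  obtain ⟨q, hq, h2, h3⟩ := h1
  have hlen : q.length = (Finset.univ : Finset ι).toList.length := by
    rw [← List.length_map (f := Prod.snd), hq, List.length_map]
  have hnd := Finset.nodup_toList (Finset.univ : Finset ι)
  have hex : ∀ i : ι, ∃ k : ℕ, ∃ hk : k < (Finset.univ : Finset ι).toList.length,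
      (Finset.univ : Finset ι).toList[k] = i := by
    intro i
    have hi : i ∈ (Finset.univ : Finset ι).toList := by simp
    obtain ⟨k, hk, hki⟩ := List.getElem_of_mem hi
    exact ⟨k, hk, hki⟩
  choose k hk hki using hex
  have hside : ∀ i : ι, (q[k i]'(by rw [hlen]; exact hk i)).2 = d i := by
    intro i
    have h4 : (q.map Prod.snd)[k i]'(by rw [List.length_map, hlen]; exact hk i) =
        (q[k i]'(by rw [hlen]; exact hk i)).2 := List.getElem_map _
    have h5 : (List.map d (Finset.univ : Finset ι).toList)[k i]'(by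
        rw [List.length_map]; exact hk i) = d i := by
      rw [List.getElem_map, hki i]
    rw [← h4, ← h5]
    congr 1
  refine ⟨fun i => (q[k i]'(by rw [hlen]; exact hk i)).1, fun i => ?_, fun i j hij => ?_⟩
  · rw [← hside i]
    exact h2 _ (List.getElem_mem _)
  · simp only
    rw [← hside i, ← hside j]
    have hkij : k i ≠ k j := by
      intro e
      apply hij
      rw [← hki i, ← hki j]
      congr 1
    rw [List.pairwise_iff_getElem] at h3
    rcases lt_or_gt_of_ne hkij with h | h
    · exact h3 (k i) (k j) _ _ h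
    · exact (h3 (k j) (k i) _ _ h).symm

end Pool.Agent.MOS
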