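import Pool.Agent.Lib.MP_b520b2_co.Up

/-!
# Known cells

A cell is contained in a known cell if its rays are nonnegative combinations of the rays of the
known cell.
-/

namespace Pool.Agent.MOS

open Finset

/-- a cell -/
inductive KC where
  | mk (q : ℕ) (g : Gl) (y s : ℕ) : KC

/-- every collection of the cell is good -/
def GoodKC (M : ℝ) : KC → Prop
  | .mk q g y s => GoodCell M q g y s

/-- a multiple of a ray -/
inductive Pr where
  | mk (j m : ℕ) : Pr

/-- `c` times a ray is the sum of the multiples -/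
inductive Rw where
  | mk (c : ℕ) (l : List Pr) : Rw

/-- equality of groups -/
noncomputable def eqG (g : Gl) : Gl → Bool :=
  Gl.rec (motive := fun _ => Gl → Bool)
    (fun g' => Gl.rec (motive := fun _ => Bool) true (fun _ _ _ _ _ => false) g')
    (fun n u L _ ih g' => Gl.rec (motive := fun _ => Bool) false
      (fun n' u' L' r' _ => andB (Nat.beq n n') (andB (Nat.beq u u') (andB (Nat.beq L L')
        (ih r')))) g') g

theorem eqG_eq (g g' : Gl) (h : eqG g g' = true) : g = g' := by
  induction g generalizing g' with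
  | nil =>
    cases g' with
    | nil => rfl
    | cons n' u' L' r' => exact absurd h (by simp [eqG])
  | cons n u L r ih =>
    cases g' with
    | nil => exact absurd h (by simp [eqG])
    | cons n' u' L' r' =>
      obtain ⟨h1, h⟩ := andB_eq_true.1 h
      obtain ⟨h2, h⟩ := andB_eq_true.1 h
      obtain ⟨h3, h⟩ := andB_eq_true.1 h
      rw [Nat.eq_of_beq_eq_true h1, Nat.eq_of_beq_eq_true h2, Nat.eq_of_beq_eq_true h3, ih r' h]

/-- equality with a known cell -/
noncomputable def eqC (kc : KC) (q : ℕ) (g : Gl) (y s : ℕ) : Bool :=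
  KC.rec (motive := fun _ => Bool) (fun q' g' y' s' =>
    andB (Nat.beq q q') (andB (Nat.beq y y') (andB (Nat.beq s s') (eqG g g')))) kc

theorem eqC_sound {M : ℝ} {kc : KC} {q : ℕ} {g : Gl} {y s : ℕ} (hk : GoodKC M kc)
    (h : eqC kc q g y s = true) : GoodCell M q g y s := by
  obtain ⟨q', g', y', s'⟩ := kc
  obtain ⟨h1, h⟩ := andB_eq_true.1 h
  obtain ⟨h2, h⟩ := andB_eq_true.1 h
  obtain ⟨h3, h⟩ := andB_eq_true.1 h
  rw [Nat.eq_of_beq_eq_true h1, Nat.eq_of_beq_eq_true h2, Nat.eq_of_beq_eq_true h3,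
    eqG_eq g g' h]
  exact hk

/-- the sum of the multiples -/
noncomputable def rowV (v : ℕ) (l : List Pr) : ℕ :=
  List.rec (motive := fun _ => ℕ) 0 (fun p _ ih =>
    Pr.rec (motive := fun _ => ℕ) (fun j m => Nat.add (Nat.mul m (dgS v (Nat.mul K j))) ih) p) l

/-- the check of the rays for one vector -/
noncomputable def covV (q : ℕ) (rows : List Rw) (v v' : ℕ) : Bool :=
  List.rec (motive := fun _ => ℕ → Bool) (fun i => Nat.beq i q) (fun r _ ih i =>
    Rw.rec (motive := fun _ => Bool) (fun c l =>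
      andB (Nat.beq (Nat.mul c (dgS v (Nat.mul K i))) (rowV v' l)) (ih (Nat.succ i))) r) rows 0

/-- the check of the matrix -/
noncomputable def rowsOK (q' : ℕ) (rows : List Rw) : Bool :=
  List.rec (motive := fun _ => Bool) true (fun r _ ih =>
    Rw.rec (motive := fun _ => Bool) (fun c l => andB (Nat.ble 1 c) (andB
      (List.rec (motive := fun _ => Bool) true (fun p _ ih' =>
        Pr.rec (motive := fun _ => Bool) (fun j _ => andB (Nat.ble (Nat.succ j) q') ih') p) l)
      ih)) r) rows

/-- the check for the groups -/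
noncomputable def covG (q : ℕ) (rows : List Rw) (g : Gl) : Gl → Bool :=
  Gl.rec (motive := fun _ => Gl → Bool)
    (fun g' => Gl.rec (motive := fun _ => Bool) true (fun _ _ _ _ _ => false) g')
    (fun n u L _ ih g' => Gl.rec (motive := fun _ => Bool) false
      (fun n' u' L' r' _ => andB (Nat.beq n n') (andB (covV q rows u u')
        (andB (Bool.rec (motive := fun _ => Bool) (covV q rows L L') true (Nat.beq n 1))
          (ih r')))) g') g

/-- the check that a cell is contained in a known cell -/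
noncomputable def covC (kc : KC) (rows : List Rw) (q : ℕ) (g : Gl) (y s : ℕ) : Bool :=
  KC.rec (motive := fun _ => Bool) (fun q' g' y' s' =>
    andB (rowsOK q' rows) (andB (covV q rows y y') (andB (covV q rows s s')
      (covG q rows g g')))) kc

/-- the entries of a row -/
def Pr.ent : Pr → ℕ → ℕ
  | .mk j m, i => if i = j then m else 0

/-- the entries of the matrix -/
def entL (l : List Pr) (i : ℕ) : ℕ := (l.map fun p => p.ent i).sum

theorem rowV_eq (v : ℕ) {q' : ℕ} (l : List Pr)
    (h : List.rec (motive := fun _ => Bool) true (fun p _ ih' =>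
        Pr.rec (motive := fun _ => Bool) (fun j _ => andB (Nat.ble (Nat.succ j) q') ih') p) l
        = true) :
    rowV v l = ∑ i ∈ range q', entL l i * dg v i := by
  induction l with
  | nil => simp [rowV, entL]
  | cons p l ih =>
    obtain ⟨j, m⟩ := p
    obtain ⟨h1, h2⟩ := andB_eq_true.1 h
    have h1 : j < q' := Nat.le_of_ble_eq_true h1
    have e : rowV v (.mk j m :: l) = m * dg v j + rowV v l := rfl
    have e2 : ∀ i ∈ range q', entL (.mk j m :: l) i * dg v i =
        (if i = j then m * dg v i else 0) + entL l i * dg v i := by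
      intro i _
      have : entL (.mk j m :: l) i = (if i = j then m else 0) + entL l i := by
        simp [entL, Pr.ent]
      rw [this, add_mul]
      split_ifs <;> simp
    rw [e, ih h2, sum_congr rfl e2, sum_add_distrib, sum_ite_eq', if_pos (mem_range.2 h1)]

/-- the factor of a row -/
def Rw.c : Rw → ℕ
  | .mk c _ => c

/-- the multiples of a row -/
def Rw.l : Rw → List Pr
  | .mk _ l => l

theorem rowsOK_sound {q' : ℕ} {rows : List Rw} (h : rowsOK q' rows = true) :
    ∀ r ∈ rows, 1 ≤ r.c ∧ List.rec (motive := fun _ => Bool) true (fun p _ ih' =>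
        Pr.rec (motive := fun _ => Bool) (fun j _ => andB (Nat.ble (Nat.succ j) q') ih') p) r.l
        = true := by
  induction rows with
  | nil => simp
  | cons r rows ih =>
    obtain ⟨c, l⟩ := r
    obtain ⟨h1, h⟩ := andB_eq_true.1 h
    obtain ⟨h2, h3⟩ := andB_eq_true.1 h
    intro r hr
    rcases List.mem_cons.1 hr with rfl | hr
    · exact ⟨Nat.le_of_ble_eq_true h1, h2⟩
    · exact ih h3 r hr

theorem covV_sound' {q q' : ℕ} {v v' : ℕ} (rows : List Rw) (h0 : rowsOK q' rows = true) :
    ∀ i, List.rec (motive := fun _ => ℕ → Bool) (fun i => Nat.beq i q) (fun r _ ih i =>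
      Rw.rec (motive := fun _ => Bool) (fun c l =>
        andB (Nat.beq (Nat.mul c (dgS v (Nat.mul K i))) (rowV v' l)) (ih (Nat.succ i))) r) rows i
        = true →
      rows.length + i = q ∧ ∀ t < rows.length, (rows.getD t (.mk 1 [])).c * dg v (i + t) =
        ∑ j ∈ range q', entL (rows.getD t (.mk 1 [])).l j * dg v' j := by
  induction rows with
  | nil =>
    intro i h
    have : i = q := Nat.eq_of_beq_eq_true h
    exact ⟨by simpa using this, fun t ht => absurd ht (Nat.not_lt_zero t)⟩
  | cons r rows ih =>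
    intro i h
    obtain ⟨c, l⟩ := r
    obtain ⟨g1, g2⟩ := andB_eq_true.1 h0
    obtain ⟨g2, g3⟩ := andB_eq_true.1 g2
    obtain ⟨h1, h2⟩ := andB_eq_true.1 h
    have h1 : c * dg v i = rowV v' l := Nat.eq_of_beq_eq_true h1
    obtain ⟨h3, h4⟩ := ih g3 (i + 1) h2
    refine ⟨by rw [List.length_cons]; omega, fun t ht => ?_⟩
    cases t with
    | zero =>
      rw [List.getD_cons_zero, add_zero]
      show c * dg v i = ∑ j ∈ range q', entL l j * dg v' j
      rw [← rowV_eq v' l g2]
      exact h1
    | succ t =>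
      rw [List.getD_cons_succ]
      have := h4 t (by rw [List.length_cons] at ht; omega)
      rw [show i + (t + 1) = i + 1 + t by ring]
      exact this

theorem covV_sound {q q' : ℕ} {v v' : ℕ} {rows : List Rw} (h0 : rowsOK q' rows = true)
    (h : covV q rows v v' = true) :
    rows.length = q ∧ ∀ t < q, (rows.getD t (.mk 1 [])).c * dg v t =
        ∑ j ∈ range q', entL (rows.getD t (.mk 1 [])).l j * dg v' j := by
  obtain ⟨h1, h2⟩ := covV_sound' rows h0 0 h
  rw [add_zero] at h1
  refine ⟨h1, fun t ht => ?_⟩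
  have := h2 t (by omega)
  rwa [zero_add] at this

/-- the new coefficients -/
noncomputable def covD (q : ℕ) (rows : List Rw) (δ : ℕ → ℝ) (j : ℕ) : ℝ :=
  ∑ t ∈ range q, δ t / (rows.getD t (.mk 1 [])).c * entL (rows.getD t (.mk 1 [])).l j

theorem covD_lin {q q' : ℕ} {v v' : ℕ} {rows : List Rw} (h0 : rowsOK q' rows = true)
    (h : covV q rows v v' = true) (δ : ℕ → ℝ) :
    lin q' (covD q rows δ) (dg v') = lin q δ (dg v) := by
  obtain ⟨h1, h2⟩ := covV_sound h0 h
  rw [lin, lin]
  have e : ∀ j ∈ range q', covD q rows δ j * (dg v' j : ℝ) =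
      ∑ t ∈ range q, δ t / (rows.getD t (.mk 1 [])).c *
        ((entL (rows.getD t (.mk 1 [])).l j * dg v' j : ℕ) : ℝ) := by
    intro j _
    rw [covD, sum_mul]
    apply sum_congr rfl
    intro t _
    push_cast
    ring
  rw [sum_congr rfl e, sum_comm]
  apply sum_congr rfl
  intro t ht
  rw [← mul_sum, ← Nat.cast_sum, ← h2 t (mem_range.1 ht)]
  have hc : 1 ≤ (rows.getD t (.mk 1 [])).c := by
    rw [List.getD_eq_getElem _ _ (by rw [h1]; exact mem_range.1 ht)]
    exact (rowsOK_sound h0 _ (List.getElem_mem _)).1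
  have hc' : (((rows.getD t (.mk 1 [])).c : ℕ) : ℝ) ≠ 0 := by
    have : (0 : ℝ) < ((rows.getD t (.mk 1 [])).c : ℕ) := by exact_mod_cast hc
    exact this.ne'
  push_cast
  field_simp

theorem covG_sound {q q' y y' : ℕ} {rows : List Rw} (h0 : rowsOK q' rows = true)
    (hy : covV q rows y y' = true) {δ : ℕ → ℝ} : ∀ (g g' : Gl), covG q rows g g' = true →
    ∀ l, HoldsG q y δ g l → HoldsG q' y' (covD q rows δ) g' l := by
  intro g
  induction g with
  | nil =>
    intro g' h l hl
    cases g' with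
    | nil =>
      show hd l = _
      rw [covD_lin h0 hy]
      exact hl
    | cons n' u' L' r' => exact absurd h (by simp [covG])
  | cons n u L r ih =>
    intro g' h l hl
    cases g' with
    | nil => exact absurd h (by simp [covG])
    | cons n' u' L' r' =>
      obtain ⟨h1, h⟩ := andB_eq_true.1 h
      obtain ⟨h2, h⟩ := andB_eq_true.1 h
      obtain ⟨h3, h7⟩ := andB_eq_true.1 h
      have h1 : n = n' := Nat.eq_of_beq_eq_true h1
      subst h1
      obtain ⟨h4, h5, h6⟩ := hl
      refine ⟨?_, fun hn => ?_, ih r' h7 _ h6⟩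
      · rw [covD_lin h0 h2]
        exact h4
      · rw [beq_false_of_ne hn] at h3
        rw [covD_lin h0 h3]
        exact h5 hn

theorem covC_sound {M : ℝ} {kc : KC} {rows : List Rw} {q : ℕ} {g : Gl} {y s : ℕ}
    (hk : GoodKC M kc) (h : covC kc rows q g y s = true) : GoodCell M q g y s := by
  obtain ⟨q', g', y', s'⟩ := kc
  obtain ⟨h1, h⟩ := andB_eq_true.1 h
  obtain ⟨h2, h⟩ := andB_eq_true.1 h
  obtain ⟨h3, h⟩ := andB_eq_true.1 h
  rintro l hl hsp δ ⟨hδ, hG, hS⟩
  refine hk l hl hsp (covD q rows δ) ⟨fun j => ?_, covG_sound h1 h2 g g' h l hG, ?_⟩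
  · exact sum_nonneg fun t _ => mul_nonneg (div_nonneg (hδ t) (Nat.cast_nonneg _))
      (Nat.cast_nonneg _)
  · rw [covD_lin h1 h3]
    exact hS

/-- the check that a number is a vector -/
def isVecB (q v : ℕ) : Bool := Nat.beq (san (lowM q) v) v

theorem isVecB_sound {q v : ℕ} (h : isVecB q v = true) : IsVec q v := by
  have h1 : san (lowM q) v = v := Nat.eq_of_beq_eq_true h
  rw [san_eq] at h1
  rw [← h1]
  exact isVec_digs fun i _ => sd_lt v i

/-- the check of the groups of a cell -/
noncomputable def gokB (q y : ℕ) (g : Gl) : Bool :=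
  Gl.rec (motive := fun _ => Bool) true (fun n u L _ ih =>
    andB (Nat.ble 1 n) (andB (Nat.ble n 961) (andB (isVecB q u) (andB (leD (mk1 q) y u)
      (andB (Bool.rec (motive := fun _ => Bool) (andB (isVecB q L) (leD (mk1 q) u L)) true
        (Nat.beq n 1)) ih))))) g

theorem leV_sound {q u v : ℕ} (hu : IsVec q u) (hv : IsVec q v) (h : leD (mk1 q) u v = true) :
    ∀ i < q, dg u i ≤ dg v i := by
  rw [hu.1, hv.1] at h
  have h1 := le_of_leD K_pos (fun i hi => (hu.2 i hi).trans (by norm_num [KAP, K]))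
    (fun i hi => (hv.2 i hi).trans (by norm_num [KAP, K])) h
  exact h1

theorem gokB_sound {q y : ℕ} (hy : IsVec q y) (g : Gl) (h : gokB q y g = true) : GOK q y g := by
  induction g with
  | nil => trivial
  | cons n u L g ih =>
    obtain ⟨h1, h⟩ := andB_eq_true.1 h
    obtain ⟨h2, h⟩ := andB_eq_true.1 h
    obtain ⟨h3, h⟩ := andB_eq_true.1 h
    obtain ⟨h4, h⟩ := andB_eq_true.1 h
    obtain ⟨h5, h⟩ := andB_eq_true.1 h
    have hu := isVecB_sound h3
    refine ⟨⟨Nat.le_of_ble_eq_true h1, Nat.le_of_ble_eq_true h2⟩, hu, leV_sound hy hu h4,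
      fun hn => ?_, ih h⟩
    rw [beq_false_of_ne hn] at h5
    obtain ⟨h6, h7⟩ := andB_eq_true.1 h5
    exact ⟨isVecB_sound h6, leV_sound hu (isVecB_sound h6) h7⟩

/-- the check of a cell -/
noncomputable def cellB (q : ℕ) (g : Gl) (y s : ℕ) : Bool :=
  andB (Nat.ble 2 q) (andB (Nat.ble q 1000) (andB (isVecB q y) (andB (isVecB q s)
    (andB (Nat.ble (lenG g) 30) (gokB q y g)))))

theorem cellB_sound {q : ℕ} {g : Gl} {y s : ℕ} (h : cellB q g y s = true) : CellOK q g y s := by
  obtain ⟨h1, h⟩ := andB_eq_true.1 h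
  obtain ⟨h2, h⟩ := andB_eq_true.1 h
  obtain ⟨h3, h⟩ := andB_eq_true.1 h
  obtain ⟨h4, h⟩ := andB_eq_true.1 h
  obtain ⟨h5, h⟩ := andB_eq_true.1 h
  refine ⟨Nat.le_of_ble_eq_true h1, Nat.le_of_ble_eq_true h2, isVecB_sound h3, isVecB_sound h4,
    gokB_sound (isVecB_sound h3) g h, ?_⟩
  rw [← lenG_eq]
  exact Nat.le_of_ble_eq_true h5

end Pool.Agent.MOS
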