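import Pool.Agent.Lib.MP_b520b2_co.Psd

/-!
# Certificates of leaves

A leaf certificate is a list of templates with weights.  The weighted mean of the areas of the
packings is at most `(cn / cd) * sumsq l` for every collection `l` in the cell.
-/

namespace Pool.Agent.MOS

open Finset

/-- A template with its weight `lam`, the kind `top` of the last block (`0`: none, `4 c`: rows above,
`4 c + 1`: columns on the right, `2`: block above, its height is bounded by the vector `bt`, `3`: the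
same on the right), the common denominator `D` of the capacities, the number of blocks, the number of
leaves, a table of vectors, the pieces, the pieces at the right and at the upper edge, `0` or one
more than the index of a lower bound for the width and for the height, the index `bt`, and squares. -/
inductive TE where
  | mk (lam top D nb cnt : ℕ) (vs : List ℕ) (ps : List Pc) (wx wy : List ℕ) (ww wh bt : ℕ)
    (sp : List PE) : TE

/-- no last block: the capacity has to be sufficient -/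
noncomputable def noTop (q D gg y S2 NG lam nb aL aR Lam : ℕ) (sp : List PE) (w h P N : ℕ)
    (k : ℕ → ℕ → ℕ → Bool) : Bool :=
  andB (Bool.rec (motive := fun _ => Bool)
      (andB (Nat.ble 1 nb) (psdGo q sp 0 (Nat.add (Nat.mul (Nat.mul D gg) S2) (Nat.mul gg N))
        (Nat.add (Nat.mul gg P) (Nat.mul D NG)))) true (Nat.beq y 0))
    (k (Nat.add aL (Nat.mul lam (outQ q w h))) aR (Nat.add Lam lam))

/-- auxiliary function for `topK` -/
def topK2 (q lam nb aL aR Lam E1 wh V R : ℕ) (k : ℕ → ℕ → ℕ → Bool) : Bool :=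
  andB (Bool.rec (motive := fun _ => Bool) (leD (mk2 q) R V) true (Nat.beq nb 0))
    (k (Nat.add aL (Nat.mul lam (Nat.add V (Nat.mul E1 wh)))) (Nat.add aR (Nat.mul lam R))
      (Nat.add Lam (Nat.mul lam E1)))

/-- a last block of width `w` above the rectangle `w × h`, with at least `c` squares in every row -/
def topK (q D gg y S2 NG lam nb aL aR Lam c w h P N : ℕ) (k : ℕ → ℕ → ℕ → Bool) : Bool :=
  andB (Nat.ble 1 c) (andB (Nat.ble c 15) (andB (leD (mk1 q) (Nat.mul c y) w)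
    (topK2 q lam nb aL aR Lam (Nat.mul (Nat.mul gg D) (Nat.mul (Nat.mul c c) (Nat.succ c)))
      (outQ q w h)
      (Nat.add (Nat.mul (Nat.mul (Nat.mul gg D) (Nat.mul (Nat.mul c c) (Nat.succ c))) (outQ q w y))
        (Nat.add (Nat.mul (Nat.mul c (Nat.mul (Nat.succ c) (Nat.succ c)))
          (Nat.add (Nat.mul (Nat.mul gg D) S2) (Nat.mul gg N)))
          (Nat.mul (Nat.mul gg D) (sqQ q w))))
      (Nat.mul (Nat.mul c (Nat.mul (Nat.succ c) (Nat.succ c)))
        (Nat.add (Nat.mul D NG) (Nat.mul gg P))) k)))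

/-- a last block of width `w` above the rectangle `w × h`; the vector `b` bounds the quotient of the
remaining area and `w - y` -/
noncomputable def topB (q D gg y S2 NG lam nb aL aR Lam b : ℕ) (sp : List PE) (w h P N : ℕ)
    (k : ℕ → ℕ → ℕ → Bool) : Bool :=
  andB (leD (mk1 q) y w)
    (andB (psdGo q sp 0
        (Nat.add (Nat.mul (Nat.mul gg D) S2)
          (Nat.add (Nat.mul gg N) (Nat.mul (Nat.mul gg D) (outQ q y b))))
        (Nat.add (Nat.mul D NG) (Nat.add (Nat.mul gg P) (Nat.mul (Nat.mul gg D) (outQ q w b)))))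
      (topK2 q lam nb aL aR Lam (Nat.mul gg D) (outQ q w h)
        (Nat.add (Nat.mul (Nat.mul gg D) (Nat.add (outQ q w y) (outQ q y b)))
          (Nat.add (Nat.mul (Nat.mul gg D) S2) (Nat.mul gg N)))
        (Nat.add (Nat.mul D NG) (Nat.mul gg P)) k))

/-- the four kinds of last blocks -/
noncomputable def topD (q D gg y S2 NG lam nb aL aR Lam b : ℕ) (sp : List PE) (top w h P N : ℕ)
    (k : ℕ → ℕ → ℕ → Bool) : Bool :=
  Bool.rec (motive := fun _ => Bool)
    (Bool.rec (motive := fun _ => Bool)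
      (Bool.rec (motive := fun _ => Bool)
        (topB q D gg y S2 NG lam nb aL aR Lam b sp h w P N k)
        (topB q D gg y S2 NG lam nb aL aR Lam b sp w h P N k)
        (Nat.beq (Nat.mod top 4) 2))
      (topK q D gg y S2 NG lam nb aL aR Lam (Nat.div top 4) h w P N k)
      (Nat.beq (Nat.mod top 4) 1))
    (Bool.rec (motive := fun _ => Bool)
      (topK q D gg y S2 NG lam nb aL aR Lam (Nat.div top 4) w h P N k)
      (noTop q D gg y S2 NG lam nb aL aR Lam sp w h P N k)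
      (Nat.beq top 0))
    (Nat.beq (Nat.mod top 4) 0)

/-- the maximum of a vector and a vector of the table -/
noncomputable def minV (q : ℕ) (vs : List ℕ) (ww w : ℕ) (k : ℕ → Bool) : Bool :=
  Bool.rec (motive := fun _ => Bool)
    (k (mx K (mk1 q) w (san (lowM q) (nthR 0 vs (Nat.sub ww 1))))) (k w) (Nat.beq ww 0)

/-- check of one template -/
noncomputable def teCheck (q y : ℕ) (rows lrows ms : List ℕ) (S2 NG gg QS : ℕ) (te : TE)
    (aL aR Lam : ℕ) (k : ℕ → ℕ → ℕ → Bool) : Bool :=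
  TE.rec (motive := fun _ => Bool) (fun lam top D nb cnt vs ps wx wy ww wh bt sp =>
    andB (Nat.beq (ordT (toTm ps) 0) (Nat.add (Nat.add nb QS) (Nat.mul cnt TC)))
      (andB (Nat.ble nb 63) (andB (Nat.ble cnt 63) (andB (Nat.ble 1 D) (andB (Nat.ble D 4096)
        (spK q D y rows lrows ms vs wx wy ps 1 List.nil List.nil List.nil List.nil 0 0
          (fun w h P N => minV q vs ww w (fun w => minV q vs wh h (fun h =>
            topD q D gg y S2 NG lam nb aL aR Lam (san (lowM q) (nthR 0 vs bt)) sp top w h P N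
              k))))))))) te

/-- check of a list of templates -/
noncomputable def leafGo (q y : ℕ) (rows lrows ms : List ℕ) (S2 NG gg QS : ℕ) (l : List TE) :
    ℕ → ℕ → ℕ → (ℕ → ℕ → ℕ → Bool) → Bool :=
  List.rec (motive := fun _ => ℕ → ℕ → ℕ → (ℕ → ℕ → ℕ → Bool) → Bool)
    (fun aL aR Lam k => k aL aR Lam)
    (fun te _ ih aL aR Lam k => teCheck q y rows lrows ms S2 NG gg QS te aL aR Lam
      (fun aL aR Lam => ih aL aR Lam k)) l

/-- the last inequality -/
noncomputable def finalC (q cn cd gg mu : ℕ) (sp : List PE) (S2 NG aL aR Lam : ℕ) : Bool :=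
  andB (Nat.ble 1 Lam) (andB (Nat.ble Lam (2 ^ 50)) (psdGo q sp 0
    (Nat.add (Nat.mul cd aL) (Nat.mul (Nat.mul mu gg) S2))
    (Nat.add (Nat.mul (Nat.mul cn Lam) S2) (Nat.add (Nat.mul mu NG) (Nat.mul cd aR)))))

/-- check of a leaf -/
noncomputable def leafCheck (cn cd q : ℕ) (g : Gl) (y s gg mu : ℕ) (l : List TE) (sp : List PE) :
    Bool :=
  andB (Nat.ble 1 gg) (andB (Nat.ble gg 64) (andB (Nat.ble mu (2 ^ 50))
    (ngGo q gg g (Nat.mul gg (sqQ q y)) (fun NG =>
      leafGo q y (us g) (ls g) (mls g) (sqQ q s) NG gg (qsGo g) l 0 0 0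
        (finalC q cn cd gg mu sp (sqQ q s) NG)))))

/-- check that a cell contains no collection -/
noncomputable def emptyCheck (q : ℕ) (g : Gl) (y s gg : ℕ) : Bool :=
  andB (Nat.ble 1 gg) (andB (Nat.ble gg 64)
    (ngGo q gg g (Nat.mul gg (sqQ q y)) (fun NG =>
      leD (mk2 q) (Nat.add (Nat.mul gg (sqQ q s)) (rep K (Nat.mul q q))) NG)))

/-- the bound for the entries of the accumulators, per unit of `Lam` -/
def BB : ℕ := 256 * PB

section leaf

variable {q : ℕ} {g : Gl} {y s : ℕ} {δ : ℕ → ℝ} {l : List ℝ}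

/-- The blocks take the tail. -/
theorem tail_parts {Bs : List (ℝ × ℝ × ℝ)} {tl : List ℝ} {Y : ℝ} (h1 : SP tl) (h2 : hd tl = Y)
    (h3 : ∀ B ∈ Bs, Cap B.1 B.2.1 Y B.2.2)
    (h4 : tl = [] ∨ (Bs ≠ [] ∧ sumsq tl ≤ Y ^ 2 + (Bs.map fun B => B.2.2).sum)) :
    ∃ parts : List (List ℝ), parts.flatten = tl ∧
      List.Forall₂ (fun p (B : ℝ × ℝ × ℝ) => PacksL p B.1 B.2.1) parts Bs := by
  cases tl with
  | nil =>
    refine ⟨Bs.map fun _ => [], by simp, ?_⟩
    rw [List.forall₂_map_left_iff]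
    exact List.forall₂_same.2 fun B _ => PacksL.nil _ _
  | cons a tl =>
    rcases h4 with h4 | ⟨h4, h5⟩
    · exact absurd h4 (by simp)
    have h2 : a = Y := h2
    subst h2
    exact packs_blocks Bs a tl h4 h1.1 h1.2 h3 (by rw [sumsq_cons] at h5; linarith)

theorem tl_nonneg {tl : List ℝ} {Y : ℝ} (h2 : hd tl = Y) : 0 ≤ sumsq tl - Y ^ 2 := by
  cases tl with
  | nil =>
    have : Y = 0 := h2.symm
    simp [this]
  | cons a tl =>
    have : a = Y := h2
    subst this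
    rw [sumsq_cons]
    have := sumsq_nonneg tl
    linarith

theorem tl_cases {tl : List ℝ} {Y : ℝ} (h1 : SP tl) (h2 : hd tl = Y) : tl = [] ∨ 0 < Y := by
  cases tl with
  | nil => exact Or.inl rfl
  | cons a tl =>
    have : a = Y := h2
    subst this
    exact Or.inr (h1.2 a (by simp))

/-- the squares of the groups and the tail are put together -/
theorem tm_packs (hc : CellOK q g y s) (hl : SP l) (hh : Holds q g y s δ l) {t : Tm}
    {Bs : List (ℝ × ℝ × ℝ)} {W H : ℝ} (hp : ∀ j < 31, places t.slots j = g.mult j)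
    (ho : OrdOK t.slots (fun _ => 0))
    (hpk : ∀ Ls parts : List (List ℝ), List.Forall₂ (SlotOK q (fun j => dg (nthR y (us g) j))
      (fun j => dg (nthR y (ls g) j)) g.mult δ) Ls t.slots →
      List.Forall₂ (fun p (B : ℝ × ℝ × ℝ) => PacksL p B.1 B.2.1) parts Bs →
      PacksL (Ls.flatten ++ parts.flatten) W H) :
    ∃ G : List ℝ, (∀ T : List ℝ, T.Perm (g.tl l) → (G ++ T).Perm l) ∧
      ∀ parts : List (List ℝ), List.Forall₂ (fun p (B : ℝ × ℝ × ℝ) => PacksL p B.1 B.2.1) parts Bs →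
        PacksL (G ++ parts.flatten) W H := by
  obtain ⟨hq, hq', hy, hs, hg, hlen⟩ := hc
  obtain ⟨hδ, hG, _⟩ := hh
  obtain ⟨Ls, h1, h2⟩ := assign (q := q) (xv := fun j => dg (nthR y (us g) j))
    (lv := fun j => dg (nthR y (ls g) j)) (mv := g.mult) (δ := δ) (F := g.grp l)
    (grp_ok hδ g hg l hl hG) (fun j hj => grp_nil g l j (by omega)) t.slots (fun _ => 0)
    (fun j => by
      rw [List.drop_zero]
      by_cases hj : j < 31
      · rw [hp j hj]
        exact grp_length g l j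
      · rw [grp_nil g l j (by omega)]
        exact Nat.zero_le _) ho
  refine ⟨Ls.flatten, fun T hT => ?_, fun parts hparts => hpk Ls parts h1 hparts⟩
  have h3 := h2 g.len fun j hj => grp_nil g l j hj
  simp only [List.drop_zero] at h3
  have h4 := grp_sum g l
  rw [← h3] at h4
  have h5 : (T : Multiset ℝ) = (g.tl l : Multiset ℝ) := Quotient.sound hT
  rw [← h5, Multiset.coe_add] at h4
  exact (Quotient.exact h4).symm

/-- the area of a packing with a last block -/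
theorem top_area {l tl : List ℝ} {W H Y T cap : ℝ} {nb c : ℕ} (hc : 1 ≤ c) (hY : 0 ≤ Y)
    (hYW : Y ≤ W) (hcY : c * Y ≤ W) (h1 : SP tl) (h2 : hd tl = Y)
    (hT : sumsq tl - Y ^ 2 ≤ T) (hnb : nb = 0 → cap = 0)
    (hP0 : tl = [] ∨ (nb ≠ 0 ∧ sumsq tl - Y ^ 2 ≤ cap) → PacksL l W H)
    (hP1 : ∀ b f, 0 ≤ b → Cap W b Y f → sumsq tl - Y ^ 2 ≤ cap + f → PacksL l W (H + b))
    (hch : nb ≠ 0 → W * H ≤ W * H + W * Y + ((c + 1) / c * (T - cap) + W ^ 2 / (c ^ 2 * (c + 1)))) :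
    ∃ a b, PacksL l a b ∧
      a * b ≤ W * H + W * Y + ((c + 1) / c * (T - cap) + W ^ 2 / (c ^ 2 * (c + 1))) := by
  have hT0 := (tl_nonneg h2).trans hT
  have hc0 : (0 : ℝ) < c := by exact_mod_cast hc
  have hW : 0 ≤ W := hY.trans hYW
  have hP0' : (tl = [] ∨ (nb ≠ 0 ∧ sumsq tl - Y ^ 2 ≤ cap)) → ∃ a b, PacksL l a b ∧
      a * b ≤ W * H + W * Y + ((c + 1) / c * (T - cap) + W ^ 2 / (c ^ 2 * (c + 1))) := by
    intro h
    refine ⟨W, H, hP0 h, ?_⟩
    by_cases hn : nb = 0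
    · rw [hnb hn, sub_zero]
      have : 0 ≤ W * Y + ((c + 1) / c * T + W ^ 2 / (c ^ 2 * (c + 1))) := by positivity
      linarith
    · exact hch hn
  rcases tl_cases h1 h2 with h3 | h3
  · exact hP0' (Or.inl h3)
  have hW0 : 0 < W := h3.trans_le hYW
  obtain ⟨N, hN⟩ : ∃ N : ℝ, N = (c + 1) / c * (T - cap) + W ^ 2 / (c ^ 2 * (c + 1)) := ⟨_, rfl⟩
  rw [← hN] at hP0' ⊢
  by_cases hN0 : 0 ≤ N
  · refine ⟨W, H + (Y + N / W), ?_, ?_⟩
    · have hN1 : 0 ≤ N / W := div_nonneg hN0 hW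
      refine hP1 (Y + N / W) _ (by linarith) (cap_row c hc hcY (by linarith)) ?_
      have e : cap + (c / (c + 1) * W * (Y + N / W - Y) - W ^ 2 / (c * (c + 1) ^ 2)) = T := by
        rw [hN]
        field_simp
        ring
      rw [e]
      exact hT
    · apply le_of_eq
      field_simp
      ring
  · have hn : nb ≠ 0 := by
      intro hn
      apply hN0
      rw [hN, hnb hn, sub_zero]
      positivity
    have hTc : T ≤ cap := by
      by_contra hcon
      apply hN0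
      rw [hN]
      have : 0 ≤ T - cap := by linarith
      positivity
    exact hP0' (Or.inr ⟨hn, hT.trans hTc⟩)

/-- the area of a packing with a last block whose height is bounded by `Y + β` -/
theorem topB_area {l tl : List ℝ} {W H Y T cap β : ℝ} {nb : ℕ} (hY : 0 ≤ Y) (hYW : Y ≤ W)
    (hβ : 0 ≤ β) (hX : T - cap ≤ β * (W - Y)) (h1 : SP tl) (h2 : hd tl = Y)
    (hT : sumsq tl - Y ^ 2 ≤ T) (hnb : nb = 0 → cap = 0)
    (hP0 : tl = [] ∨ (nb ≠ 0 ∧ sumsq tl - Y ^ 2 ≤ cap) → PacksL l W H)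
    (hP1 : ∀ b f, 0 ≤ b → Cap W b Y f → sumsq tl - Y ^ 2 ≤ cap + f → PacksL l W (H + b))
    (hch : nb ≠ 0 → W * H ≤ W * H + W * Y + ((T - cap) + Y * β)) :
    ∃ a b, PacksL l a b ∧ a * b ≤ W * H + W * Y + ((T - cap) + Y * β) := by
  have hT0 := (tl_nonneg h2).trans hT
  have hW : 0 ≤ W := hY.trans hYW
  have hYβ : 0 ≤ Y * β := mul_nonneg hY hβ
  have hWY : 0 ≤ W * Y := mul_nonneg hW hY
  have hP0' : (tl = [] ∨ (nb ≠ 0 ∧ sumsq tl - Y ^ 2 ≤ cap)) → ∃ a b, PacksL l a b ∧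
      a * b ≤ W * H + W * Y + ((T - cap) + Y * β) := by
    intro h
    refine ⟨W, H, hP0 h, ?_⟩
    by_cases hn : nb = 0
    · rw [hnb hn, sub_zero]
      linarith
    · exact hch hn
  rcases tl_cases h1 h2 with h3 | h3
  · exact hP0' (Or.inl h3)
  by_cases hX0 : 0 < T - cap
  · have hWY' : 0 < W - Y := by
      by_contra hcon
      have h4 : W - Y = 0 := le_antisymm (not_lt.1 hcon) (by linarith)
      rw [h4, mul_zero] at hX
      linarith
    have h5 : (T - cap) / (W - Y) ≤ β := by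
      rw [div_le_iff₀ hWY']
      exact hX
    have h6 : 0 ≤ (T - cap) / (W - Y) := (div_pos hX0 hWY').le
    refine ⟨W, H + (Y + (T - cap) / (W - Y)), ?_, ?_⟩
    · refine hP1 (Y + (T - cap) / (W - Y)) _ (by linarith) (cap_mm hYW (by linarith)) ?_
      have e : cap + ((W - Y) * (Y + (T - cap) / (W - Y) - Y)) = T := by
        field_simp
        ring
      rw [e]
      exact hT
    · have e : W * (H + (Y + (T - cap) / (W - Y))) =
          W * H + W * Y + ((T - cap) + Y * ((T - cap) / (W - Y))) := by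
        field_simp
        ring
      rw [e]
      have := mul_le_mul_of_nonneg_left h5 hY
      linarith
  · rw [not_lt] at hX0
    by_cases hn : nb = 0
    · have hc := hnb hn
      rw [hc, sub_zero] at hX0
      refine ⟨W, H + Y, hP1 Y _ hY (cap_mm hYW le_rfl) ?_, ?_⟩
      · rw [hc, sub_self, mul_zero, add_zero]
        linarith
      · rw [hc, sub_zero]
        linarith
    · exact hP0' (Or.inr ⟨hn, by linarith⟩)

/-- the conclusion of the check of one template -/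
def TEOK (q : ℕ) (δ : ℕ → ℝ) (l : List ℝ) (aL aR : ℕ → ℕ) (Lam : ℕ) (k : ℕ → ℕ → ℕ → Bool) :
    Prop :=
  ∃ (aL' aR' : ℕ → ℕ) (E : ℕ) (A : ℝ),
    k (digs K (q * q) aL') (digs K (q * q) aR') (Lam + E) = true ∧
    (∃ a b, PacksL l a b ∧ a * b ≤ A) ∧
    bil q δ aL' - bil q δ aR' = bil q δ aL - bil q δ aR + 2 * E * A ∧
    (∀ p < q * q, aL' p ≤ aL p + E * BB) ∧ (∀ p < q * q, aR' p ≤ aR p + E * BB)

theorem noTop_sound (hq : 2 ≤ q) (hq' : q ≤ 1000) {D gg lam nb Lam : ℕ} {sp : List PE}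
    {S2 NG aL aR W H P N : ℕ → ℕ} {k : ℕ → ℕ → ℕ → Bool} {tl : List ℝ} {cap : ℝ}
    (hδ : ∀ i, 0 ≤ δ i) (hD : 0 < D) (hD' : D ≤ 4096) (hgg : 0 < gg) (hgg' : gg ≤ 64)
    (hW : ∀ i < q, W i ≤ WB) (hH : ∀ i < q, H i ≤ WB) (hS : ∀ p < q * q, S2 p ≤ PB)
    (hNG : ∀ p < q * q, NG p ≤ PB) (hP : ∀ p < q * q, P p ≤ 63 * (D * PB))
    (hN : ∀ p < q * q, N p ≤ 63 * (D * PB)) (hcap : 2 * D * cap = bil q δ P - bil q δ N)
    (hT : 2 * gg * (sumsq tl - lin q δ (dg y) ^ 2) ≤ gg * bil q δ S2 - bil q δ NG)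
    (h1 : SP tl) (h2 : hd tl = lin q δ (dg y))
    (hP0 : tl = [] ∨ (nb ≠ 0 ∧ sumsq tl - lin q δ (dg y) ^ 2 ≤ cap) →
      PacksL l (lin q δ W) (lin q δ H))
    (h : noTop q D gg y (digs K (q * q) S2) (digs K (q * q) NG) lam nb (digs K (q * q) aL)
      (digs K (q * q) aR) Lam sp (digs K q W) (digs K q H) (digs K (q * q) P) (digs K (q * q) N) k
        = true) : TEOK q δ l aL aR Lam k := by
  obtain ⟨g1, g2⟩ := andB_eq_true.1 h
  have hq0 : 0 < q := by omega
  have e1 : outQ q (digs K q W) (digs K q H) = digs K (q * q) (sym q W H) := outQ_eq hq hq' hW hH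
  have g2 : k (digs K (q * q) aL + lam * outQ q (digs K q W) (digs K q H)) (digs K (q * q) aR)
    (Lam + lam) = true := g2
  rw [e1, digs_const_mul, digs_add] at g2
  refine ⟨_, aR, lam, lin q δ W * lin q δ H, g2, ⟨_, _, hP0 ?_, le_rfl⟩, ?_, ?_, ?_⟩
  · cases hy : Nat.beq y 0 with
    | true =>
      left
      have hy0 : y = 0 := Nat.eq_of_beq_eq_true hy
      rcases tl_cases h1 h2 with h3 | h3
      · exact h3
      · exfalso
        have : lin q δ (dg y) = 0 := by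
          rw [lin]
          apply sum_eq_zero
          intro i _
          rw [hy0, dg_eq]
          simp
        linarith
    | false =>
      right
      rw [hy] at g1
      obtain ⟨g3, g4⟩ := andB_eq_true.1 g1
      have g3 : 1 ≤ nb := Nat.le_of_ble_eq_true g3
      refine ⟨by omega, ?_⟩
      have g4 : psdGo q sp 0 (D * gg * digs K (q * q) S2 + gg * digs K (q * q) N)
        (gg * digs K (q * q) P + D * digs K (q * q) NG) = true := g4
      rw [digs_const_mul, digs_const_mul, digs_const_mul, digs_const_mul, digs_add, digs_add] at g4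
      have b1 : ∀ p < q * q, D * gg * S2 p + gg * N p ≤ FB := by
        intro p hp
        calc D * gg * S2 p + gg * N p ≤ 4096 * 64 * PB + 64 * (63 * (4096 * PB)) :=
            Nat.add_le_add (Nat.mul_le_mul (Nat.mul_le_mul hD' hgg') (hS p hp))
              (Nat.mul_le_mul hgg' ((hN p hp).trans (Nat.mul_le_mul_left _
                (Nat.mul_le_mul_right _ hD'))))
          _ ≤ FB := by norm_num [PB, WB, KAP, FB]
      have b2 : ∀ p < q * q, gg * P p + D * NG p ≤ FB := by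
        intro p hp
        calc gg * P p + D * NG p ≤ 64 * (63 * (4096 * PB)) + 4096 * PB :=
            Nat.add_le_add (Nat.mul_le_mul hgg' ((hP p hp).trans (Nat.mul_le_mul_left _
                (Nat.mul_le_mul_right _ hD')))) (Nat.mul_le_mul hD' (hNG p hp))
          _ ≤ FB := by norm_num [PB, WB, KAP, FB]
      have g5 := psdGo_sound hq hq' hδ b1 b2 g4
      rw [bil_add, bil_add, bil_const_mul, bil_const_mul, bil_const_mul, bil_const_mul] at g5
      push_cast at g5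
      have hDr : (0 : ℝ) < D := by exact_mod_cast hD
      have hgr : (0 : ℝ) < gg := by exact_mod_cast hgg
      by_contra hcon
      rw [not_le] at hcon
      have k1 : 2 * gg * D * cap < 2 * gg * D * (sumsq tl - lin q δ (dg y) ^ 2) :=
        mul_lt_mul_of_pos_left hcon (by positivity)
      have k2 : D * (2 * gg * (sumsq tl - lin q δ (dg y) ^ 2)) ≤
          D * (gg * bil q δ S2 - bil q δ NG) := mul_le_mul_of_nonneg_left hT hDr.le
      have k3 : gg * (2 * D * cap) = gg * (bil q δ P - bil q δ N) := by rw [hcap]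
      nlinarith
  · rw [bil_add, bil_const_mul, bil_sym hq0]
    ring
  · intro p hp
    refine Nat.add_le_add_left (Nat.mul_le_mul_left _ ((sym_le hW hH hp).trans ?_)) _
    exact Nat.le_mul_of_pos_left _ (by norm_num)
  · exact fun p _ => Nat.le_add_right _ _

theorem top_V_le {c gg D E1 x1 x2 x3 x4 : ℕ}
    (hE2 : c * ((c + 1) * (c + 1)) * (gg * D) ≤ 2 * E1) (hE3 : gg * D ≤ E1) (h1 : x1 ≤ PB)
    (h2 : x2 ≤ PB) (h3 : x3 ≤ PB) (h4 : x4 ≤ 63 * (D * PB)) :
    E1 * x1 + (c * ((c + 1) * (c + 1)) * (gg * D * x3 + gg * x4) + gg * D * x2) ≤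
      E1 * (131 * PB) := by
  have b1 : E1 * x1 ≤ E1 * PB := Nat.mul_le_mul_left _ h1
  have b2 : gg * D * x3 + gg * x4 ≤ gg * D * (64 * PB) := by
    calc gg * D * x3 + gg * x4 ≤ gg * D * PB + gg * (63 * (D * PB)) :=
        Nat.add_le_add (Nat.mul_le_mul_left _ h3) (Nat.mul_le_mul_left _ h4)
      _ = _ := by ring
  have b3 : c * ((c + 1) * (c + 1)) * (gg * D * x3 + gg * x4) ≤ 2 * E1 * (64 * PB) := by
    calc _ ≤ c * ((c + 1) * (c + 1)) * (gg * D * (64 * PB)) := Nat.mul_le_mul_left _ b2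
      _ = c * ((c + 1) * (c + 1)) * (gg * D) * (64 * PB) := by ring
      _ ≤ _ := Nat.mul_le_mul_right _ hE2
  have b4 : gg * D * x2 ≤ E1 * PB := Nat.mul_le_mul hE3 h2
  calc _ ≤ E1 * PB + (2 * E1 * (64 * PB) + E1 * PB) := Nat.add_le_add b1 (Nat.add_le_add b3 b4)
    _ ≤ E1 * (131 * PB) := by
      have : E1 * PB + (2 * E1 * (64 * PB) + E1 * PB) = E1 * (130 * PB) := by ring
      rw [this]
      exact Nat.mul_le_mul_left _ (Nat.mul_le_mul_right _ (by norm_num))

theorem top_R_le {c gg D E1 x1 x2 : ℕ} (hgg : 0 < gg)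
    (hE2 : c * ((c + 1) * (c + 1)) * (gg * D) ≤ 2 * E1) (h1 : x1 ≤ PB)
    (h2 : x2 ≤ 63 * (D * PB)) :
    c * ((c + 1) * (c + 1)) * (D * x1 + gg * x2) ≤ E1 * (128 * PB) := by
  have b2 : D * x1 + gg * x2 ≤ gg * D * (64 * PB) := by
    calc D * x1 + gg * x2 ≤ gg * D * PB + gg * (63 * (D * PB)) :=
        Nat.add_le_add (Nat.mul_le_mul (Nat.le_mul_of_pos_left _ hgg) h1)
          (Nat.mul_le_mul_left _ h2)
      _ = _ := by ring
  calc c * ((c + 1) * (c + 1)) * (D * x1 + gg * x2)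
      ≤ c * ((c + 1) * (c + 1)) * (gg * D * (64 * PB)) := Nat.mul_le_mul_left _ b2
    _ = c * ((c + 1) * (c + 1)) * (gg * D) * (64 * PB) := by ring
    _ ≤ 2 * E1 * (64 * PB) := Nat.mul_le_mul_right _ hE2
    _ = _ := by ring

theorem top_alg {c W H Y T cap G : ℝ} (hc : 0 < c) :
    2 * (G * (c * c * (c + 1))) * (W * H + W * Y +
      ((c + 1) / c * (T - cap) + W ^ 2 / (c ^ 2 * (c + 1))) - W * H) =
    G * (c * c * (c + 1)) * (2 * (W * Y)) +
      (c * ((c + 1) * (c + 1)) * (2 * G * (T - cap)) + G * (2 * (W * W))) := by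
  field_simp
  ring

theorem topK_sound (hq : 2 ≤ q) (hq' : q ≤ 1000) {D gg lam nb Lam c : ℕ}
    {S2 NG aL aR W H P N : ℕ → ℕ} {k : ℕ → ℕ → ℕ → Bool} {tl : List ℝ} {cap : ℝ}
    (hδ : ∀ i, 0 ≤ δ i) (hD : 0 < D) (hD' : D ≤ 4096) (hgg : 0 < gg) (hgg' : gg ≤ 64)
    (hy : IsVec q y)
    (hW0 : ∀ i < q, W i ≤ WB) (hH : ∀ i < q, H i ≤ WB)
    (hS : ∀ p < q * q, S2 p ≤ PB)
    (hNG : ∀ p < q * q, NG p ≤ PB) (hP : ∀ p < q * q, P p ≤ 63 * (D * PB))
    (hN : ∀ p < q * q, N p ≤ 63 * (D * PB)) (hcap : 2 * D * cap = bil q δ P - bil q δ N)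
    (hT : 2 * gg * (sumsq tl - lin q δ (dg y) ^ 2) ≤ gg * bil q δ S2 - bil q δ NG)
    (h1 : SP tl) (h2 : hd tl = lin q δ (dg y)) (hnb : nb = 0 → cap = 0)
    (hP0 : tl = [] ∨ (nb ≠ 0 ∧ sumsq tl - lin q δ (dg y) ^ 2 ≤ cap) →
      PacksL l (lin q δ W) (lin q δ H))
    (hP1 : ∀ b f, 0 ≤ b → Cap (lin q δ W) b (lin q δ (dg y)) f →
      sumsq tl - lin q δ (dg y) ^ 2 ≤ cap + f → PacksL l (lin q δ W) (lin q δ H + b))
    (h : topK q D gg y (digs K (q * q) S2) (digs K (q * q) NG) lam nb (digs K (q * q) aL)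
      (digs K (q * q) aR) Lam c (digs K q W) (digs K q H) (digs K (q * q) P) (digs K (q * q) N) k
        = true) : TEOK q δ l aL aR Lam k := by
  obtain ⟨g1, h⟩ := andB_eq_true.1 h
  obtain ⟨g2, h⟩ := andB_eq_true.1 h
  obtain ⟨g3, h⟩ := andB_eq_true.1 h
  have g1 : 1 ≤ c := Nat.le_of_ble_eq_true g1
  have g2 : c ≤ 15 := Nat.le_of_ble_eq_true g2
  have hq0 : 0 < q := by omega
  have hyd : y = digs K q (dg y) := hy.1
  have hyW : ∀ i < q, dg y i ≤ WB := fun i hi => (hy.2 i hi).le.trans pow_KAP_le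
  have hcy : ∀ i < q, c * dg y i ≤ W i := by
    have e0 : Nat.mul c y = digs K q (fun i => c * dg y i) := by
      conv_lhs => rw [hyd]
      exact digs_const_mul _ _ _ _
    rw [e0] at g3
    refine le_of_leD K_pos (fun i hi => ?_) (fun i hi => ?_) g3
    · calc c * dg y i ≤ 15 * 2 ^ KAP := Nat.mul_le_mul g2 (hy.2 i hi).le
        _ < 2 ^ (K - 1) := by norm_num [KAP, K]
    · exact lt_of_le_of_lt (hW0 i hi) WB_lt
  have hW : ∀ i < q, dg y i ≤ W i ∧ W i ≤ WB := fun i hi =>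
    ⟨(Nat.le_mul_of_pos_left _ g1).trans (hcy i hi), hW0 i hi⟩
  obtain ⟨E1, hE1⟩ : ∃ E1, E1 = gg * D * (c * c * (c + 1)) := ⟨_, rfl⟩
  have h : topK2 q lam nb (digs K (q * q) aL) (digs K (q * q) aR) Lam (gg * D * (c * c * (c + 1)))
    (outQ q (digs K q W) (digs K q H))
    (gg * D * (c * c * (c + 1)) * outQ q (digs K q W) y +
      (c * ((c + 1) * (c + 1)) * (gg * D * digs K (q * q) S2 + gg * digs K (q * q) N) +
        gg * D * sqQ q (digs K q W)))
    (c * ((c + 1) * (c + 1)) * (D * digs K (q * q) NG + gg * digs K (q * q) P)) k = true := h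
  rw [← hE1] at h
  have e1 : outQ q (digs K q W) (digs K q H) = digs K (q * q) (sym q W H) :=
    outQ_eq hq hq' (fun i hi => (hW i hi).2) hH
  have e2 : outQ q (digs K q W) y = digs K (q * q) (sym q W (dg y)) := by
    conv_lhs => rw [hyd]
    exact outQ_eq hq hq' (fun i hi => (hW i hi).2) hyW
  have e3 : sqQ q (digs K q W) = digs K (q * q) (sym q W W) :=
    sqQ_eq hq hq' (fun i hi => (hW i hi).2)
  rw [e1, e2, e3] at h
  simp only [digs_const_mul, digs_add] at h
  obtain ⟨V, hV⟩ : ∃ V : ℕ → ℕ, V = fun p => E1 * sym q W (dg y) p +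
    (c * ((c + 1) * (c + 1)) * (gg * D * S2 p + gg * N p) + gg * D * sym q W W p) := ⟨_, rfl⟩
  obtain ⟨R, hR⟩ : ∃ R : ℕ → ℕ, R = fun p =>
    c * ((c + 1) * (c + 1)) * (D * NG p + gg * P p) := ⟨_, rfl⟩
  rw [← hV, ← hR] at h
  obtain ⟨g4, h⟩ := andB_eq_true.1 h
  have h : k (digs K (q * q) aL + lam * (digs K (q * q) V + E1 * digs K (q * q) (sym q W H)))
    (digs K (q * q) aR + lam * digs K (q * q) R) (Lam + lam * E1) = true := h
  simp only [digs_const_mul, digs_add] at h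
  have hc2 : c * ((c + 1) * (c + 1)) ≤ 2 * (c * c * (c + 1)) := by nlinarith
  have hE2 : c * ((c + 1) * (c + 1)) * (gg * D) ≤ 2 * E1 := by
    rw [hE1]
    nlinarith [Nat.mul_le_mul_right (gg * D) hc2]
  have hE3 : gg * D ≤ E1 := by
    rw [hE1]
    exact Nat.le_mul_of_pos_right _ (by positivity)
  have hE1' : E1 ≤ 2 ^ 30 := by
    rw [hE1]
    calc gg * D * (c * c * (c + 1)) ≤ 64 * 4096 * (15 * 15 * 16) :=
        Nat.mul_le_mul (Nat.mul_le_mul hgg' hD') (Nat.mul_le_mul (Nat.mul_le_mul g2 g2) (by omega))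
      _ ≤ 2 ^ 30 := by norm_num
  have sWH : ∀ p < q * q, sym q W H p ≤ PB := fun p hp => sym_le (fun i hi => (hW i hi).2) hH hp
  have sWW : ∀ p < q * q, sym q W W p ≤ PB := fun p hp =>
    sym_le (fun i hi => (hW i hi).2) (fun i hi => (hW i hi).2) hp
  have sWy : ∀ p < q * q, sym q W (dg y) p ≤ PB := fun p hp =>
    sym_le (fun i hi => (hW i hi).2) hyW hp
  have hVb : ∀ p < q * q, V p ≤ E1 * (131 * PB) := fun p hp => by
    rw [hV]
    exact top_V_le hE2 hE3 (sWy p hp) (sWW p hp) (hS p hp) (hN p hp)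
  have hRb : ∀ p < q * q, R p ≤ E1 * (128 * PB) := fun p hp => by
    rw [hR]
    exact top_R_le hgg hE2 (hNG p hp) (hP p hp)
  have hPB : 2 ^ 30 * (131 * PB) < 2 ^ (K - 1) := by norm_num [PB, WB, KAP, K]
  have hPB' : 2 ^ 30 * (128 * PB) < 2 ^ (K - 1) := by norm_num [PB, WB, KAP, K]
  have hcr : (0 : ℝ) < c := by exact_mod_cast g1
  have hDr : (0 : ℝ) < D := by exact_mod_cast hD
  have hgr : (0 : ℝ) < gg := by exact_mod_cast hgg
  have hE1r : (E1 : ℝ) = gg * D * (c * c * (c + 1)) := by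
    rw [hE1]
    push_cast
    ring
  obtain ⟨T, hTd⟩ : ∃ T : ℝ, T = (gg * bil q δ S2 - bil q δ NG) / (2 * gg) := ⟨_, rfl⟩
  have hTd' : gg * bil q δ S2 - bil q δ NG = 2 * gg * T := by
    rw [hTd]
    field_simp
  obtain ⟨A, hA⟩ : ∃ A : ℝ, A = lin q δ W * lin q δ H + lin q δ W * lin q δ (dg y) +
    ((c + 1) / c * (T - cap) + lin q δ W ^ 2 / (c ^ 2 * (c + 1))) := ⟨_, rfl⟩
  have hVR : bil q δ V - bil q δ R = 2 * E1 * (A - lin q δ W * lin q δ H) := by
    have eV : bil q δ V = E1 * (2 * (lin q δ W * lin q δ (dg y))) +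
        (((c * ((c + 1) * (c + 1)) : ℕ) : ℝ) * (((gg * D : ℕ) : ℝ) * bil q δ S2 +
          gg * bil q δ N) + ((gg * D : ℕ) : ℝ) * (2 * (lin q δ W * lin q δ W))) := by
      rw [hV, bil_add, bil_add, bil_const_mul, bil_const_mul, bil_const_mul, bil_add,
        bil_const_mul, bil_const_mul, bil_sym hq0, bil_sym hq0]
    have eR : bil q δ R = ((c * ((c + 1) * (c + 1)) : ℕ) : ℝ) * (D * bil q δ NG +
        gg * bil q δ P) := by
      rw [hR, bil_const_mul, bil_add, bil_const_mul, bil_const_mul]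
    have k1 : (((gg * D : ℕ) : ℝ) * bil q δ S2 + gg * bil q δ N) -
        (D * bil q δ NG + gg * bil q δ P) = 2 * gg * D * (T - cap) := by
      push_cast
      have k2 : D * (gg * bil q δ S2 - bil q δ NG) = D * (2 * gg * T) := by rw [hTd']
      have k3 : gg * (2 * D * cap) = gg * (bil q δ P - bil q δ N) := by rw [hcap]
      linarith
    have k4 : bil q δ V - bil q δ R = E1 * (2 * (lin q δ W * lin q δ (dg y))) +
        (((c * ((c + 1) * (c + 1)) : ℕ) : ℝ) * (2 * gg * D * (T - cap)) +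
          ((gg * D : ℕ) : ℝ) * (2 * (lin q δ W * lin q δ W))) := by
      rw [← k1, eV, eR]
      ring
    rw [k4, hA, hE1r, top_alg hcr]
    push_cast
    ring
  refine ⟨_, _, lam * E1, A, h, ?_, ?_, ?_, ?_⟩
  · have hYW : lin q δ (dg y) ≤ lin q δ W := lin_mono hδ fun i hi => (hW i hi).1
    rw [hA]
    refine top_area (nb := nb) g1 (lin_nonneg hδ _) hYW ?_ h1 h2 ?_ hnb hP0 hP1 ?_
    · rw [← lin_const_mul]
      exact lin_mono hδ hcy
    · have := hT
      rw [hTd'] at this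
      have h2g : (0 : ℝ) < 2 * gg := by positivity
      exact le_of_mul_le_mul_left this h2g
    · intro hn
      rw [← hA]
      have hb : Nat.beq nb 0 = false := by
        cases hb : Nat.beq nb 0
        · rfl
        · exact absurd (Nat.eq_of_beq_eq_true hb) hn
      rw [hb] at g4
      have g4 : leD (mk2 q) (digs K (q * q) R) (digs K (q * q) V) = true := g4
      have g5 := leM_sound (fun p hp => lt_of_le_of_lt ((hRb p hp).trans
        (Nat.mul_le_mul_right _ hE1')) hPB') (fun p hp => lt_of_le_of_lt ((hVb p hp).trans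
        (Nat.mul_le_mul_right _ hE1')) hPB) g4 hδ
      have hE1p : (0 : ℝ) < 2 * E1 := by
        rw [hE1r]
        positivity
      have : 0 ≤ 2 * E1 * (A - lin q δ W * lin q δ H) := by
        rw [← hVR]
        linarith
      have := nonneg_of_mul_nonneg_right this hE1p
      linarith
  · rw [bil_add, bil_const_mul, bil_add, bil_const_mul, bil_add, bil_const_mul, bil_sym hq0]
    have : (lam : ℝ) * (bil q δ V - bil q δ R) = lam * (2 * E1 * (A - lin q δ W * lin q δ H)) := by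
      rw [hVR]
    push_cast
    linarith
  · intro p hp
    have b1 := hVb p hp
    have b2 := sWH p hp
    refine Nat.add_le_add_left ?_ _
    rw [mul_assoc]
    apply Nat.mul_le_mul_left
    calc V p + E1 * sym q W H p ≤ E1 * (131 * PB) + E1 * PB :=
        Nat.add_le_add b1 (Nat.mul_le_mul_left _ b2)
      _ = E1 * (132 * PB) := by ring
      _ ≤ E1 * BB := Nat.mul_le_mul_left _ (Nat.mul_le_mul_right _ (by norm_num))
  · intro p hp
    have b1 := hRb p hp
    refine Nat.add_le_add_left ?_ _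
    rw [mul_assoc]
    apply Nat.mul_le_mul_left
    calc R p ≤ E1 * (128 * PB) := b1
      _ ≤ E1 * BB := Nat.mul_le_mul_left _ (Nat.mul_le_mul_right _ (by norm_num))

theorem topB_sound (hq : 2 ≤ q) (hq' : q ≤ 1000) {D gg lam nb Lam : ℕ} {sp : List PE}
    {S2 NG aL aR W H P N b : ℕ → ℕ} {k : ℕ → ℕ → ℕ → Bool} {tl : List ℝ} {cap : ℝ}
    (hδ : ∀ i, 0 ≤ δ i) (hD : 0 < D) (hD' : D ≤ 4096) (hgg : 0 < gg) (hgg' : gg ≤ 64)
    (hy : IsVec q y) (hb : ∀ i < q, b i ≤ WB)
    (hW0 : ∀ i < q, W i ≤ WB) (hH : ∀ i < q, H i ≤ WB)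
    (hS : ∀ p < q * q, S2 p ≤ PB)
    (hNG : ∀ p < q * q, NG p ≤ PB) (hP : ∀ p < q * q, P p ≤ 63 * (D * PB))
    (hN : ∀ p < q * q, N p ≤ 63 * (D * PB)) (hcap : 2 * D * cap = bil q δ P - bil q δ N)
    (hT : 2 * gg * (sumsq tl - lin q δ (dg y) ^ 2) ≤ gg * bil q δ S2 - bil q δ NG)
    (h1 : SP tl) (h2 : hd tl = lin q δ (dg y)) (hnb : nb = 0 → cap = 0)
    (hP0 : tl = [] ∨ (nb ≠ 0 ∧ sumsq tl - lin q δ (dg y) ^ 2 ≤ cap) →
      PacksL l (lin q δ W) (lin q δ H))
    (hP1 : ∀ b f, 0 ≤ b → Cap (lin q δ W) b (lin q δ (dg y)) f →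
      sumsq tl - lin q δ (dg y) ^ 2 ≤ cap + f → PacksL l (lin q δ W) (lin q δ H + b))
    (h : topB q D gg y (digs K (q * q) S2) (digs K (q * q) NG) lam nb (digs K (q * q) aL)
      (digs K (q * q) aR) Lam (digs K q b) sp (digs K q W) (digs K q H) (digs K (q * q) P)
      (digs K (q * q) N) k = true) : TEOK q δ l aL aR Lam k := by
  obtain ⟨g1, h⟩ := andB_eq_true.1 h
  obtain ⟨g2, h⟩ := andB_eq_true.1 h
  have hq0 : 0 < q := by omega
  have hyd : y = digs K q (dg y) := hy.1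
  have hyW : ∀ i < q, dg y i ≤ WB := fun i hi => (hy.2 i hi).le.trans pow_KAP_le
  have hyW' : ∀ i < q, dg y i ≤ W i := by
    have e0 : leD (mk1 q) y (digs K q W) = leD (mk1 q) (digs K q (dg y)) (digs K q W) :=
      congrArg (fun z => leD (mk1 q) z (digs K q W)) hyd
    rw [e0] at g1
    exact le_of_leD K_pos (fun i hi => lt_of_le_of_lt (hyW i hi) WB_lt)
      (fun i hi => lt_of_le_of_lt (hW0 i hi) WB_lt) g1
  obtain ⟨E1, hE1⟩ : ∃ E1, E1 = gg * D := ⟨_, rfl⟩
  have g2 : psdGo q sp 0 (gg * D * digs K (q * q) S2 + (gg * digs K (q * q) N +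
      gg * D * outQ q y (digs K q b))) (D * digs K (q * q) NG + (gg * digs K (q * q) P +
      gg * D * outQ q (digs K q W) (digs K q b))) = true := g2
  have h : topK2 q lam nb (digs K (q * q) aL) (digs K (q * q) aR) Lam (gg * D)
    (outQ q (digs K q W) (digs K q H))
    (gg * D * (outQ q (digs K q W) y + outQ q y (digs K q b)) +
      (gg * D * digs K (q * q) S2 + gg * digs K (q * q) N))
    (D * digs K (q * q) NG + gg * digs K (q * q) P) k = true := h
  have e1 : outQ q (digs K q W) (digs K q H) = digs K (q * q) (sym q W H) :=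
    outQ_eq hq hq' hW0 hH
  have e2 : outQ q (digs K q W) y = digs K (q * q) (sym q W (dg y)) := by
    conv_lhs => rw [hyd]
    exact outQ_eq hq hq' hW0 hyW
  have e3 : outQ q y (digs K q b) = digs K (q * q) (sym q (dg y) b) := by
    conv_lhs => rw [hyd]
    exact outQ_eq hq hq' hyW hb
  have e4 : outQ q (digs K q W) (digs K q b) = digs K (q * q) (sym q W b) :=
    outQ_eq hq hq' hW0 hb
  rw [e3, e4, ← hE1] at g2
  rw [e1, e2, e3, ← hE1] at h
  simp only [digs_const_mul, digs_add] at h g2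
  have hE1' : E1 ≤ 2 ^ 18 := by
    rw [hE1]
    calc gg * D ≤ 64 * 4096 := Nat.mul_le_mul hgg' hD'
      _ ≤ 2 ^ 18 := by norm_num
  have hDE : D ≤ E1 := by
    rw [hE1]
    exact Nat.le_mul_of_pos_left _ hgg
  have sWH : ∀ p < q * q, sym q W H p ≤ PB := fun p hp => sym_le hW0 hH hp
  have sWy : ∀ p < q * q, sym q W (dg y) p ≤ PB := fun p hp => sym_le hW0 hyW hp
  have syb : ∀ p < q * q, sym q (dg y) b p ≤ PB := fun p hp => sym_le hyW hb hp
  have sWb : ∀ p < q * q, sym q W b p ≤ PB := fun p hp => sym_le hW0 hb hp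
  have hgP : ∀ p < q * q, gg * P p ≤ E1 * (63 * PB) := fun p hp => by
    calc gg * P p ≤ gg * (63 * (D * PB)) := Nat.mul_le_mul_left _ (hP p hp)
      _ = E1 * (63 * PB) := by
        rw [hE1]
        ring
  have hgN : ∀ p < q * q, gg * N p ≤ E1 * (63 * PB) := fun p hp => by
    calc gg * N p ≤ gg * (63 * (D * PB)) := Nat.mul_le_mul_left _ (hN p hp)
      _ = E1 * (63 * PB) := by
        rw [hE1]
        ring
  obtain ⟨V, hV⟩ : ∃ V : ℕ → ℕ, V = fun p => E1 * (sym q W (dg y) p + sym q (dg y) b p) +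
    (E1 * S2 p + gg * N p) := ⟨_, rfl⟩
  obtain ⟨R, hR⟩ : ∃ R : ℕ → ℕ, R = fun p => D * NG p + gg * P p := ⟨_, rfl⟩
  rw [← hV, ← hR] at h
  obtain ⟨g4, h⟩ := andB_eq_true.1 h
  have h : k (digs K (q * q) aL + lam * (digs K (q * q) V + E1 * digs K (q * q) (sym q W H)))
    (digs K (q * q) aR + lam * digs K (q * q) R) (Lam + lam * E1) = true := h
  simp only [digs_const_mul, digs_add] at h
  have hVb : ∀ p < q * q, V p ≤ E1 * (131 * PB) := fun p hp => by
    rw [hV]
    calc E1 * (sym q W (dg y) p + sym q (dg y) b p) + (E1 * S2 p + gg * N p)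
        ≤ E1 * (PB + PB) + (E1 * PB + E1 * (63 * PB)) :=
        Nat.add_le_add (Nat.mul_le_mul_left _ (Nat.add_le_add (sWy p hp) (syb p hp)))
          (Nat.add_le_add (Nat.mul_le_mul_left _ (hS p hp)) (hgN p hp))
      _ = E1 * (66 * PB) := by ring
      _ ≤ E1 * (131 * PB) := Nat.mul_le_mul_left _ (Nat.mul_le_mul_right _ (by norm_num))
  have hRb : ∀ p < q * q, R p ≤ E1 * (128 * PB) := fun p hp => by
    rw [hR]
    calc D * NG p + gg * P p ≤ E1 * PB + E1 * (63 * PB) :=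
        Nat.add_le_add (Nat.mul_le_mul hDE (hNG p hp)) (hgP p hp)
      _ = E1 * (64 * PB) := by ring
      _ ≤ E1 * (128 * PB) := Nat.mul_le_mul_left _ (Nat.mul_le_mul_right _ (by norm_num))
  have hPB : 2 ^ 18 * (131 * PB) < 2 ^ (K - 1) := by norm_num [PB, WB, KAP, K]
  have hPB' : 2 ^ 18 * (128 * PB) < 2 ^ (K - 1) := by norm_num [PB, WB, KAP, K]
  have hPF : 2 ^ 18 * (128 * PB) ≤ FB := by norm_num [PB, WB, KAP, FB]
  have hDr : (0 : ℝ) < D := by exact_mod_cast hD
  have hgr : (0 : ℝ) < gg := by exact_mod_cast hgg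
  have hE1r : (E1 : ℝ) = gg * D := by
    rw [hE1]
    push_cast
    ring
  obtain ⟨T, hTd⟩ : ∃ T : ℝ, T = (gg * bil q δ S2 - bil q δ NG) / (2 * gg) := ⟨_, rfl⟩
  have hTd' : gg * bil q δ S2 - bil q δ NG = 2 * gg * T := by
    rw [hTd]
    field_simp
  have k1 : (E1 * bil q δ S2 + gg * bil q δ N) -
      (D * bil q δ NG + gg * bil q δ P) = 2 * E1 * (T - cap) := by
    have k2 : D * (gg * bil q δ S2 - bil q δ NG) = D * (2 * gg * T) := by rw [hTd']
    have k3 : gg * (2 * D * cap) = gg * (bil q δ P - bil q δ N) := by rw [hcap]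
    rw [hE1r]
    linarith
  obtain ⟨A, hA⟩ : ∃ A : ℝ, A = lin q δ W * lin q δ H + lin q δ W * lin q δ (dg y) +
    ((T - cap) + lin q δ (dg y) * lin q δ b) := ⟨_, rfl⟩
  have hVR : bil q δ V - bil q δ R = 2 * E1 * (A - lin q δ W * lin q δ H) := by
    have eV : bil q δ V = E1 * (2 * (lin q δ W * lin q δ (dg y)) +
        2 * (lin q δ (dg y) * lin q δ b)) + (E1 * bil q δ S2 + gg * bil q δ N) := by
      rw [hV, bil_add, bil_add, bil_const_mul, bil_const_mul, bil_const_mul, bil_add,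
        bil_sym hq0, bil_sym hq0]
    have eR : bil q δ R = D * bil q δ NG + gg * bil q δ P := by
      rw [hR, bil_add, bil_const_mul, bil_const_mul]
    rw [eV, eR, hA]
    linarith
  have hE1p : (0 : ℝ) < 2 * E1 := by
    rw [hE1r]
    positivity
  have hX : T - cap ≤ lin q δ b * (lin q δ W - lin q δ (dg y)) := by
    have g3 := psdGo_sound hq hq' hδ (fun p hp => ?_) (fun p hp => ?_) g2
    · rw [bil_add, bil_add, bil_add, bil_add, bil_const_mul, bil_const_mul, bil_const_mul,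
        bil_const_mul, bil_const_mul, bil_const_mul, bil_sym hq0, bil_sym hq0] at g3
      have k4 : 2 * E1 * (T - cap) ≤
          2 * E1 * (lin q δ b * (lin q δ W - lin q δ (dg y))) := by
        linarith
      exact le_of_mul_le_mul_left k4 hE1p
    · calc E1 * S2 p + (gg * N p + E1 * sym q (dg y) b p)
          ≤ E1 * PB + (E1 * (63 * PB) + E1 * PB) :=
          Nat.add_le_add (Nat.mul_le_mul_left _ (hS p hp))
            (Nat.add_le_add (hgN p hp) (Nat.mul_le_mul_left _ (syb p hp)))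
        _ = E1 * (65 * PB) := by ring
        _ ≤ 2 ^ 18 * (128 * PB) := Nat.mul_le_mul hE1' (Nat.mul_le_mul_right _ (by norm_num))
        _ ≤ FB := hPF
    · calc D * NG p + (gg * P p + E1 * sym q W b p)
          ≤ E1 * PB + (E1 * (63 * PB) + E1 * PB) :=
          Nat.add_le_add (Nat.mul_le_mul hDE (hNG p hp))
            (Nat.add_le_add (hgP p hp) (Nat.mul_le_mul_left _ (sWb p hp)))
        _ = E1 * (65 * PB) := by ring
        _ ≤ 2 ^ 18 * (128 * PB) := Nat.mul_le_mul hE1' (Nat.mul_le_mul_right _ (by norm_num))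
        _ ≤ FB := hPF
  refine ⟨_, _, lam * E1, A, h, ?_, ?_, ?_, ?_⟩
  · have hYW : lin q δ (dg y) ≤ lin q δ W := lin_mono hδ hyW'
    rw [hA]
    refine topB_area (nb := nb) (lin_nonneg hδ _) hYW (lin_nonneg hδ _) hX h1 h2 ?_ hnb hP0 hP1 ?_
    · have := hT
      rw [hTd'] at this
      have h2g : (0 : ℝ) < 2 * gg := by positivity
      exact le_of_mul_le_mul_left this h2g
    · intro hn
      rw [← hA]
      have hb : Nat.beq nb 0 = false := by
        cases hb : Nat.beq nb 0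
        · rfl
        · exact absurd (Nat.eq_of_beq_eq_true hb) hn
      rw [hb] at g4
      have g4 : leD (mk2 q) (digs K (q * q) R) (digs K (q * q) V) = true := g4
      have g5 := leM_sound (fun p hp => lt_of_le_of_lt ((hRb p hp).trans
        (Nat.mul_le_mul_right _ hE1')) hPB') (fun p hp => lt_of_le_of_lt ((hVb p hp).trans
        (Nat.mul_le_mul_right _ hE1')) hPB) g4 hδ
      have : 0 ≤ 2 * E1 * (A - lin q δ W * lin q δ H) := by
        rw [← hVR]
        linarith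
      have := nonneg_of_mul_nonneg_right this hE1p
      linarith
  · rw [bil_add, bil_const_mul, bil_add, bil_const_mul, bil_add, bil_const_mul, bil_sym hq0]
    have : (lam : ℝ) * (bil q δ V - bil q δ R) = lam * (2 * E1 * (A - lin q δ W * lin q δ H)) := by
      rw [hVR]
    push_cast
    linarith
  · intro p hp
    have b1 := hVb p hp
    have b2 := sWH p hp
    refine Nat.add_le_add_left ?_ _
    rw [mul_assoc]
    apply Nat.mul_le_mul_left
    calc V p + E1 * sym q W H p ≤ E1 * (131 * PB) + E1 * PB :=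
        Nat.add_le_add b1 (Nat.mul_le_mul_left _ b2)
      _ = E1 * (132 * PB) := by ring
      _ ≤ E1 * BB := Nat.mul_le_mul_left _ (Nat.mul_le_mul_right _ (by norm_num))
  · intro p hp
    have b1 := hRb p hp
    refine Nat.add_le_add_left ?_ _
    rw [mul_assoc]
    apply Nat.mul_le_mul_left
    calc R p ≤ E1 * (128 * PB) := b1
      _ ≤ E1 * BB := Nat.mul_le_mul_left _ (Nat.mul_le_mul_right _ (by norm_num))

/-- all kinds of last blocks -/
theorem topD_sound (hq : 2 ≤ q) (hq' : q ≤ 1000) {D gg lam nb Lam top : ℕ} {sp : List PE}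
    {S2 NG aL aR W H P N b : ℕ → ℕ} {k : ℕ → ℕ → ℕ → Bool} {tl : List ℝ} {cap : ℝ}
    (hδ : ∀ i, 0 ≤ δ i) (hD : 0 < D) (hD' : D ≤ 4096) (hgg : 0 < gg) (hgg' : gg ≤ 64)
    (hy : IsVec q y) (hb : ∀ i < q, b i ≤ WB)
    (hW : ∀ i < q, W i ≤ WB) (hH : ∀ i < q, H i ≤ WB)
    (hS : ∀ p < q * q, S2 p ≤ PB)
    (hNG : ∀ p < q * q, NG p ≤ PB) (hP : ∀ p < q * q, P p ≤ 63 * (D * PB))
    (hN : ∀ p < q * q, N p ≤ 63 * (D * PB)) (hcap : 2 * D * cap = bil q δ P - bil q δ N)
    (hT : 2 * gg * (sumsq tl - lin q δ (dg y) ^ 2) ≤ gg * bil q δ S2 - bil q δ NG)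
    (h1 : SP tl) (h2 : hd tl = lin q δ (dg y)) (hnb : nb = 0 → cap = 0)
    (hP0 : tl = [] ∨ (nb ≠ 0 ∧ sumsq tl - lin q δ (dg y) ^ 2 ≤ cap) →
      PacksL l (lin q δ W) (lin q δ H))
    (hlast : ∀ W' b f : ℝ, Cap W' b (lin q δ (dg y)) f →
      sumsq tl - lin q δ (dg y) ^ 2 ≤ cap + f → ∃ G1 G2 : List ℝ, (G1 ++ G2).Perm l ∧
        PacksL G1 (lin q δ W) (lin q δ H) ∧ PacksL G2 W' b)
    (h : topD q D gg y (digs K (q * q) S2) (digs K (q * q) NG) lam nb (digs K (q * q) aL)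
      (digs K (q * q) aR) Lam (digs K q b) sp top (digs K q W) (digs K q H) (digs K (q * q) P)
      (digs K (q * q) N) k = true) : TEOK q δ l aL aR Lam k := by
  have hP1 : ∀ b f, 0 ≤ b → Cap (lin q δ W) b (lin q δ (dg y)) f →
      sumsq tl - lin q δ (dg y) ^ 2 ≤ cap + f → PacksL l (lin q δ W) (lin q δ H + b) := by
    intro b f hb hf hf'
    obtain ⟨G1, G2, c1, c2, c3⟩ := hlast _ b f hf hf'
    exact PacksL.perm c1 (PacksL.ver (lin_nonneg hδ _) hb c2 c3)
  have hP2 : ∀ b f, 0 ≤ b → Cap (lin q δ H) b (lin q δ (dg y)) f →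
      sumsq tl - lin q δ (dg y) ^ 2 ≤ cap + f → PacksL l (lin q δ H) (lin q δ W + b) := by
    intro b f hb hf hf'
    obtain ⟨G1, G2, c1, c2, c3⟩ := hlast b (lin q δ H) f (cap_swap hf) hf'
    exact (PacksL.perm c1 (PacksL.hor (lin_nonneg hδ _) hb c2 c3)).swap
  unfold topD at h
  cases ht : Nat.beq (Nat.mod top 4) 0 with
  | true =>
    simp only [ht] at h
    cases ht : Nat.beq top 0 with
    | true =>
      simp only [ht] at h
      exact noTop_sound hq hq' hδ hD hD' hgg hgg' hW hH hS hNG hP hN hcap hT h1 h2 hP0 h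
    | false =>
      simp only [ht] at h
      exact topK_sound hq hq' hδ hD hD' hgg hgg' hy hW hH hS hNG hP hN hcap hT h1 h2 hnb hP0 hP1 h
  | false =>
    simp only [ht] at h
    cases ht : Nat.beq (Nat.mod top 4) 1 with
    | true =>
      simp only [ht] at h
      exact topK_sound (l := l) hq hq' hδ hD hD' hgg hgg' hy hH hW hS hNG hP hN hcap hT h1 h2 hnb
        (fun h => (hP0 h).swap) hP2 h
    | false =>
      simp only [ht] at h
      cases ht : Nat.beq (Nat.mod top 4) 2 with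
      | true =>
        simp only [ht] at h
        exact topB_sound hq hq' hδ hD hD' hgg hgg' hy hb hW hH hS hNG hP hN hcap hT h1 h2 hnb hP0
          hP1 h
      | false =>
        simp only [ht] at h
        exact topB_sound (l := l) hq hq' hδ hD hD' hgg hgg' hy hb hH hW hS hNG hP hN hcap hT h1 h2
          hnb (fun h => (hP0 h).swap) hP2 h

theorem minV_sound (hδ : ∀ i, 0 ≤ δ i) {vs : List ℕ} {ww : ℕ} {W : ℕ → ℕ} {k : ℕ → Bool}
    (hW : ∀ i < q, W i ≤ WB) (h : minV q vs ww (digs K q W) k = true) :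
    ∃ W' : ℕ → ℕ, k (digs K q W') = true ∧ (∀ i < q, W' i ≤ WB) ∧ lin q δ W ≤ lin q δ W' := by
  unfold minV at h
  cases hb : Nat.beq ww 0 with
  | true =>
    simp only [hb] at h
    exact ⟨W, h, hW, le_rfl⟩
  | false =>
    simp only [hb] at h
    rw [san_eq, mk1, show Nat.mul (2 ^ (K - 1)) (rep K q) = 2 ^ (K - 1) * rep K q from rfl,
      mx_eq K_pos (fun i hi => lt_of_le_of_lt (hW i hi) WB_lt)
        (fun i _ => lt_of_le_of_lt ((sd_lt _ i).le.trans pow_KAP_le) WB_lt)] at h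
    exact ⟨_, h, fun i hi => max_le (hW i hi) ((sd_lt _ i).le.trans pow_KAP_le),
      lin_mono hδ fun i _ => le_max_left _ _⟩

theorem teCheck_sound (hc : CellOK q g y s) (hl : SP l) (hh : Holds q g y s δ l) {gg Lam : ℕ}
    {S2 NG aL aR : ℕ → ℕ} {k : ℕ → ℕ → ℕ → Bool} (hgg : 0 < gg) (hgg' : gg ≤ 64)
    (hS : ∀ p < q * q, S2 p ≤ PB) (hNG : ∀ p < q * q, NG p ≤ PB)
    (hT : 2 * gg * (sumsq (g.tl l) - lin q δ (dg y) ^ 2) ≤ gg * bil q δ S2 - bil q δ NG)
    (te : TE)
    (h : teCheck q y (us g) (ls g) (mls g) (digs K (q * q) S2) (digs K (q * q) NG) gg (qsGo g) te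
      (digs K (q * q) aL) (digs K (q * q) aR) Lam k = true) : TEOK q δ l aL aR Lam k := by
  obtain ⟨lam, top, D, nb, cnt, vs, ps, wx, wy, ww, wh, bt, sp⟩ := te
  have hc' := hc
  obtain ⟨hq, hq', hy, hs, hg, hlen⟩ := hc'
  have hh' := hh
  obtain ⟨hδ, hG, _⟩ := hh'
  obtain ⟨g1, h⟩ := andB_eq_true.1 (show andB (Nat.beq (ordT (toTm ps) 0)
    (Nat.add (Nat.add nb (qsGo g)) (Nat.mul cnt TC))) _ = true from h)
  obtain ⟨g2, h⟩ := andB_eq_true.1 h
  obtain ⟨g3, h⟩ := andB_eq_true.1 h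
  obtain ⟨g4, h⟩ := andB_eq_true.1 h
  obtain ⟨g5, h⟩ := andB_eq_true.1 h
  have g1 : ordT (toTm ps) 0 = nb + qsGo g + cnt * TC := Nat.eq_of_beq_eq_true g1
  have g2 : nb ≤ 63 := Nat.le_of_ble_eq_true g2
  have g3 : cnt ≤ 63 := Nat.le_of_ble_eq_true g3
  have g4 : 1 ≤ D := Nat.le_of_ble_eq_true g4
  have g5 : D ≤ 4096 := Nat.le_of_ble_eq_true g5
  rw [qsGo_eq g (by omega)] at g1
  obtain ⟨g6, g7⟩ := counts g2 g3 (fun j _ => mult_le g hg j) g1
  have h0 : (0 : ℕ) = digs K (q * q) (fun _ => 0) := by simp [digs]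
  have hx := nth_isVec hy g hg
  have key : ∀ kk : ℕ → ℕ → ℕ → ℕ → Bool,
      spK q D y (us g) (ls g) (mls g) vs wx wy ps 1 [] [] [] [] 0 0 kk = true →
      spK q D y (us g) (ls g) (mls g) vs wx wy ps (2 ^ 0) [] [] [] [] (digs K (q * q) fun _ => 0)
        (digs K (q * q) fun _ => 0) kk = true := by
    intro kk h
    rw [← h0, pow_zero]
    exact h
  replace h := key _ h
  have htab : TabOK q δ 0 0 [] [] (fun _ => 0) := by
    refine ⟨fun d hd => absurd hd (Nat.not_lt_zero _), fun d _ => ?_, fun d hd =>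
      absurd hd (Nat.not_lt_zero _)⟩
    rw [nthR_eq]
    simp
  obtain ⟨W, H, P, N, Bs, h, a1, a2, a3, a4, a5, a6, a7, a8, a9⟩ := spK_sound
    (xv := fun j => dg (nthR y (us g) j)) (lv := fun j => dg (nthR y (ls g) j)) hq hq' hδ g4 g5
    hy.1 hy.2 (fun j => (hx j).1.1) (fun j i hi => ⟨(hx j).2.2.1 i hi, (hx j).1.2 i hi⟩)
    (fun j => (hx j).2.1.1) (fun j i hi => ⟨(hx j).2.2.2 i hi, (hx j).2.1.2 i hi⟩)
    (mv := g.mult) (fun j => ⟨mls_eq g j, mult_le g hg j⟩) wx wy ps 0 0 [] [] [] [] [] _ _ _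
    (by omega) rfl List.Pairwise.nil (by simp) ⟨_, htab, by simp⟩ ⟨_, htab, by simp⟩ h
  obtain ⟨g8, g9, g10⟩ := g7 a8
  have hcntW : ∀ {f : ℕ → ℕ}, (∀ i < q, f i ≤ (0 + (toTm ps).cnt) * LB) → ∀ i < q, f i ≤ WB :=
    fun h i hi => le_WB (by omega) (h i hi)
  obtain ⟨W', h, a1', d1⟩ := minV_sound hδ (hcntW a1) h
  obtain ⟨H', h, a2', d2⟩ := minV_sound hδ (hcntW a2) h
  have hb : ∀ i < q, sd (nthR 0 vs bt) i ≤ WB := fun i _ => (sd_lt _ i).le.trans pow_KAP_le
  rw [san_eq] at h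
  obtain ⟨G, b1, b2'⟩ := tm_packs (W := lin q δ W) (H := lin q δ H) hc hl hh g9 g10
    (fun Ls parts c1 c2 => by
      have := a9 [] List.Forall₂.nil Ls parts c1 c2
      simpa using this)
  have b2 : ∀ parts : List (List ℝ),
      List.Forall₂ (fun p (B : ℝ × ℝ × ℝ) => PacksL p B.1 B.2.1) parts Bs →
        PacksL (G ++ parts.flatten) (lin q δ W') (lin q δ H') := fun parts hp =>
    (b2' parts hp).mono d1 d2
  have htl := tl_sp g l hl
  have hhd := tl_hd g l hG
  obtain ⟨cap, hcap⟩ : ∃ cap : ℝ, cap = (Bs.map fun B => B.2.2).sum := ⟨_, rfl⟩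
  have hb0 : bil q δ (fun _ => 0) = 0 := by simp [bil]
  rw [← hcap, hb0, sub_zero, sub_zero] at a5
  have hBs : Bs ≠ [] ↔ nb ≠ 0 := by
    rw [← g8, ← a3, Ne, Ne, List.length_eq_zero_iff]
  have hnb : nb = 0 → cap = 0 := by
    intro hn
    have : Bs = [] := by
      by_contra hcon
      exact hBs.1 hcon hn
    rw [hcap, this]
    simp
  have hP0 : g.tl l = [] ∨ (nb ≠ 0 ∧ sumsq (g.tl l) - lin q δ (dg y) ^ 2 ≤ cap) →
      PacksL l (lin q δ W') (lin q δ H') := by
    intro h3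
    obtain ⟨parts, c1, c2⟩ := tail_parts (Bs := Bs) htl hhd a4 (by
      rcases h3 with h3 | ⟨h3, h4⟩
      · exact Or.inl h3
      · refine Or.inr ⟨hBs.2 h3, ?_⟩
        rw [← hcap]
        linarith)
    have c3 := b2 parts c2
    rw [c1] at c3
    exact c3.perm (b1 _ (List.Perm.refl _))
  have hlast : ∀ W'' b f : ℝ, Cap W'' b (lin q δ (dg y)) f →
      sumsq (g.tl l) - lin q δ (dg y) ^ 2 ≤ cap + f → ∃ G1 G2 : List ℝ, (G1 ++ G2).Perm l ∧
        PacksL G1 (lin q δ W') (lin q δ H') ∧ PacksL G2 W'' b := by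
    intro W'' b f h3 h4
    obtain ⟨parts, c1, c2⟩ := tail_parts (Bs := Bs ++ [(W'', b, f)]) htl hhd (by
      intro B hB
      rcases List.mem_append.1 hB with hB | hB
      · exact a4 B hB
      · rw [List.mem_singleton] at hB
        rw [hB]
        exact h3) (Or.inr ⟨by simp, by
          rw [List.map_append, List.sum_append, ← hcap]
          simp only [List.map_cons, List.map_nil, List.sum_cons, List.sum_nil, add_zero]
          linarith⟩)
    obtain ⟨p1, p2, rfl, c3, c4⟩ := forall₂_split c2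
    rw [List.forall₂_cons_right_iff] at c4
    obtain ⟨r, rs, c5, c6, rfl⟩ := c4
    obtain rfl := List.forall₂_nil_right_iff.1 c6
    refine ⟨G ++ p1.flatten, r, ?_, b2 p1 c3, c5⟩
    rw [List.flatten_append, List.flatten_singleton] at c1
    rw [List.append_assoc, c1]
    exact b1 _ (List.Perm.refl _)
  have hcnt : (toTm ps).cnt * (D * PB) ≤ 63 * (D * PB) := Nat.mul_le_mul_right _ (by omega)
  have hP : ∀ p < q * q, P p ≤ 63 * (D * PB) := fun p hp => by
    have h3 : P p ≤ 0 + (toTm ps).cnt * (D * PB) := a6 p hp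
    omega
  have hN : ∀ p < q * q, N p ≤ 63 * (D * PB) := fun p hp => by
    have h3 : N p ≤ 0 + (toTm ps).cnt * (D * PB) := a7 p hp
    omega
  exact topD_sound hq hq' hδ g4 g5 hgg hgg' hy hb a1' a2' hS hNG hP hN a5 hT htl hhd hnb hP0
    hlast h

theorem leafGo_sound (hc : CellOK q g y s) (hl : SP l) (hh : Holds q g y s δ l) {gg : ℕ}
    {S2 NG : ℕ → ℕ} (hgg : 0 < gg) (hgg' : gg ≤ 64)
    (hS : ∀ p < q * q, S2 p ≤ PB) (hNG : ∀ p < q * q, NG p ≤ PB)
    (hT : 2 * gg * (sumsq (g.tl l) - lin q δ (dg y) ^ 2) ≤ gg * bil q δ S2 - bil q δ NG)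
    {M : ℝ} (hM : ∀ a b, PacksL l a b → M < a * b) {k : ℕ → ℕ → ℕ → Bool} (tes : List TE) :
    ∀ (aL aR : ℕ → ℕ) (Lam : ℕ), 2 * Lam * M ≤ bil q δ aL - bil q δ aR →
      (0 < Lam → 2 * Lam * M < bil q δ aL - bil q δ aR) →
      (∀ p < q * q, aL p ≤ Lam * BB) → (∀ p < q * q, aR p ≤ Lam * BB) →
      leafGo q y (us g) (ls g) (mls g) (digs K (q * q) S2) (digs K (q * q) NG) gg (qsGo g) tes
        (digs K (q * q) aL) (digs K (q * q) aR) Lam k = true →
      ∃ (aL' aR' : ℕ → ℕ) (Lam' : ℕ), k (digs K (q * q) aL') (digs K (q * q) aR') Lam' = true ∧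
        (0 < Lam' → 2 * Lam' * M < bil q δ aL' - bil q δ aR') ∧
        (∀ p < q * q, aL' p ≤ Lam' * BB) ∧ (∀ p < q * q, aR' p ≤ Lam' * BB) := by
  induction tes with
  | nil =>
    intro aL aR Lam _ h2 h3 h4 h
    exact ⟨aL, aR, Lam, h, h2, h3, h4⟩
  | cons te tes ih =>
    intro aL aR Lam h1 h2 h3 h4 h
    have h : teCheck q y (us g) (ls g) (mls g) (digs K (q * q) S2) (digs K (q * q) NG) gg (qsGo g) te
      (digs K (q * q) aL) (digs K (q * q) aR) Lam (fun aL aR Lam =>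
        leafGo q y (us g) (ls g) (mls g) (digs K (q * q) S2) (digs K (q * q) NG) gg (qsGo g) tes
          aL aR Lam k) = true := h
    obtain ⟨aL', aR', E, A, h5, ⟨a, b, h6, h7⟩, h8, h9, h10⟩ :=
      teCheck_sound hc hl hh hgg hgg' hS hNG hT te h
    have hMA := (hM a b h6).trans_le h7
    have hE : (0 : ℝ) ≤ E := Nat.cast_nonneg _
    have hEM : E * M ≤ E * A := mul_le_mul_of_nonneg_left hMA.le hE
    refine ih aL' aR' (Lam + E) ?_ ?_ ?_ ?_ h5
    · rw [h8]
      push_cast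
      nlinarith
    · intro hpos
      rw [h8]
      push_cast
      rcases Nat.eq_zero_or_pos Lam with h0 | h0
      · have hE' : (0 : ℝ) < E := by
          have : 0 < E := by omega
          exact_mod_cast this
        have := mul_lt_mul_of_pos_left hMA hE'
        nlinarith
      · have := h2 h0
        nlinarith
    · intro p hp
      have := h9 p hp
      have := h3 p hp
      rw [add_mul]
      omega
    · intro p hp
      have := h10 p hp
      have := h4 p hp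
      rw [add_mul]
      omega

/-- bounds for the area of the groups -/
theorem ngGo_cell (hc : CellOK q g y s) (hl : SP l) (hh : Holds q g y s δ l) {gg : ℕ}
    (hgg' : gg ≤ 64) {k : ℕ → Bool}
    (h : ngGo q gg g (Nat.mul gg (sqQ q y)) k = true) :
    ∃ NG : ℕ → ℕ, k (digs K (q * q) NG) = true ∧ (∀ p < q * q, NG p ≤ PB) ∧
      2 * gg * (sumsq (g.tl l) - lin q δ (dg y) ^ 2) ≤ 2 * gg * sumsq l - bil q δ NG := by
  obtain ⟨hq, hq', hy, hs, hg, hlen⟩ := hc
  obtain ⟨hδ, hG, _⟩ := hh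
  have hq0 : 0 < q := by omega
  have e1 : sqQ q y = digs K (q * q) (sym q (dg y) (dg y)) := by
    conv_lhs => rw [hy.1]
    exact sqQ_eq hq hq' fun i hi => (hy.2 i hi).le.trans pow_KAP_le
  have h : ngGo q gg g (gg * sqQ q y) k = true := h
  rw [e1, digs_const_mul] at h
  obtain ⟨NG, h1, h2, h3⟩ := ngGo_sound hq hq' hgg' g hg _ k l hl hG h
  refine ⟨NG, h1, fun p hp => ?_, ?_⟩
  · have b1 := h3 p hp
    have b2 : gg * sym q (dg y) (dg y) p ≤ 64 * (2 * (2 ^ KAP * 2 ^ KAP)) :=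
      Nat.mul_le_mul hgg' (sym_le (fun i hi => (hy.2 i hi).le) (fun i hi => (hy.2 i hi).le) hp)
    have b3 : g.len * NB ≤ 30 * NB := Nat.mul_le_mul_right _ hlen
    calc NG p ≤ 64 * (2 * (2 ^ KAP * 2 ^ KAP)) + 30 * NB := by omega
      _ ≤ PB := by norm_num [KAP, NB, PB, WB]
  · rw [bil_const_mul, bil_sym hq0] at h2
    nlinarith

theorem s_sq (hh : Holds q g y s δ l) : lin q δ (dg s) ^ 2 = sumsq l := by
  rw [← hh.2.2]
  exact Real.sq_sqrt (sumsq_nonneg l)

/-- the conclusion for one cell -/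
def Good (M : ℝ) (l : List ℝ) : Prop := ∃ a b, PacksL l a b ∧ a * b ≤ M * sumsq l

/-- **Soundness of the check of a leaf.** -/
theorem leafCheck_sound (hc : CellOK q g y s) (hl : SP l) (hh : Holds q g y s δ l)
    {cn cd gg mu : ℕ} {tes : List TE} {sp : List PE} (hcn : cn ≤ 2 ^ 12) (hcd : cd ≤ 2 ^ 12)
    (hcd' : 0 < cd) (h : leafCheck cn cd q g y s gg mu tes sp = true) : Good (cn / cd) l := by
  have hc' := hc
  obtain ⟨hq, hq', hy, hs, hg, hlen⟩ := hc'
  have hh' := hh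
  obtain ⟨hδ, hG, _⟩ := hh'
  have hq0 : 0 < q := by omega
  obtain ⟨g1, h⟩ := andB_eq_true.1 h
  obtain ⟨g2, h⟩ := andB_eq_true.1 h
  obtain ⟨g3, h⟩ := andB_eq_true.1 h
  have g1 : 1 ≤ gg := Nat.le_of_ble_eq_true g1
  have g2 : gg ≤ 64 := Nat.le_of_ble_eq_true g2
  have g3 : mu ≤ 2 ^ 50 := Nat.le_of_ble_eq_true g3
  obtain ⟨NG, h, h1, h2⟩ := ngGo_cell hc hl hh g2 h
  have e1 : sqQ q s = digs K (q * q) (sym q (dg s) (dg s)) := by
    conv_lhs => rw [hs.1]
    exact sqQ_eq hq hq' fun i hi => (hs.2 i hi).le.trans pow_KAP_le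
  rw [e1] at h
  obtain ⟨S2, hS2⟩ : ∃ S2, S2 = sym q (dg s) (dg s) := ⟨_, rfl⟩
  rw [← hS2] at h
  have hS2b : ∀ p < q * q, S2 p ≤ 2 * (2 ^ KAP * 2 ^ KAP) := by
    rw [hS2]
    exact fun p hp => sym_le (fun i hi => (hs.2 i hi).le) (fun i hi => (hs.2 i hi).le) hp
  have hS2v : bil q δ S2 = 2 * sumsq l := by
    rw [hS2, bil_sym hq0, ← s_sq hh]
    ring
  have hT : 2 * gg * (sumsq (g.tl l) - lin q δ (dg y) ^ 2) ≤ gg * bil q δ S2 - bil q δ NG := by
    rw [hS2v]
    linarith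
  by_contra hcon
  obtain ⟨M, hMd⟩ : ∃ M : ℝ, M = cn / cd * sumsq l := ⟨_, rfl⟩
  have hM : ∀ a b, PacksL l a b → M < a * b := by
    intro a b hab
    by_contra hle
    rw [not_lt, hMd] at hle
    exact hcon ⟨a, b, hab, hle⟩
  have hbil0 : bil q δ (fun _ => 0) = 0 := by simp [bil]
  have h0 : (0 : ℕ) = digs K (q * q) (fun _ => 0) := by simp [digs]
  rw [show leafGo q y (us g) (ls g) (mls g) (digs K (q * q) S2) (digs K (q * q) NG) gg (qsGo g) tes 0 0 0
    = leafGo q y (us g) (ls g) (mls g) (digs K (q * q) S2) (digs K (q * q) NG) gg (qsGo g) tes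
      (digs K (q * q) (fun _ => 0)) (digs K (q * q) (fun _ => 0)) 0 by rw [← h0]] at h
  obtain ⟨aL, aR, Lam, h3, h4, h5, h6⟩ := leafGo_sound hc hl hh (Nat.pos_of_ne_zero (by omega)) g2
    (fun p hp => (hS2b p hp).trans (by norm_num [KAP, PB, WB])) h1 hT hM tes _ _ 0
    (by simp [hbil0]) (fun h => absurd h (lt_irrefl _)) (fun p _ => Nat.zero_le _)
    (fun p _ => Nat.zero_le _) h
  obtain ⟨g4, h3⟩ := andB_eq_true.1 h3
  obtain ⟨g5, h3⟩ := andB_eq_true.1 h3
  have g4 : 1 ≤ Lam := Nat.le_of_ble_eq_true g4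
  have g5 : Lam ≤ 2 ^ 50 := Nat.le_of_ble_eq_true g5
  have h3 : psdGo q sp 0 (cd * digs K (q * q) aL + mu * gg * digs K (q * q) S2)
    (cn * Lam * digs K (q * q) S2 + (mu * digs K (q * q) NG + cd * digs K (q * q) aR))
      = true := h3
  rw [digs_const_mul, digs_const_mul, digs_const_mul, digs_const_mul, digs_const_mul, digs_add,
    digs_add, digs_add] at h3
  have c1 : ∀ p < q * q, cd * aL p + mu * gg * S2 p ≤ FB := by
    intro p hp
    calc cd * aL p + mu * gg * S2 p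
        ≤ 2 ^ 12 * (2 ^ 50 * BB) + 2 ^ 50 * 64 * (2 * (2 ^ KAP * 2 ^ KAP)) :=
        Nat.add_le_add (Nat.mul_le_mul hcd ((h5 p hp).trans (Nat.mul_le_mul_right _ g5)))
          (Nat.mul_le_mul (Nat.mul_le_mul g3 g2) (hS2b p hp))
      _ ≤ FB := by norm_num [BB, PB, WB, KAP, FB]
  have c2 : ∀ p < q * q, cn * Lam * S2 p + (mu * NG p + cd * aR p) ≤ FB := by
    intro p hp
    calc cn * Lam * S2 p + (mu * NG p + cd * aR p)
        ≤ 2 ^ 12 * 2 ^ 50 * (2 * (2 ^ KAP * 2 ^ KAP)) + (2 ^ 50 * PB + 2 ^ 12 * (2 ^ 50 * BB)) :=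
        Nat.add_le_add (Nat.mul_le_mul (Nat.mul_le_mul hcn g5) (hS2b p hp))
          (Nat.add_le_add (Nat.mul_le_mul g3 (h1 p hp))
            (Nat.mul_le_mul hcd ((h6 p hp).trans (Nat.mul_le_mul_right _ g5))))
      _ ≤ FB := by norm_num [BB, PB, WB, KAP, FB]
  have h7 := psdGo_sound hq hq' hδ c1 c2 h3
  rw [bil_add, bil_add, bil_add, bil_const_mul, bil_const_mul, bil_const_mul, bil_const_mul,
    bil_const_mul, hS2v] at h7
  rw [hS2v] at hT
  have h8 := h4 (by omega)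
  have hcdr : (0 : ℝ) < cd := by exact_mod_cast hcd'
  have hLr : (0 : ℝ) < Lam := by exact_mod_cast g4
  have hmu : (0 : ℝ) ≤ mu := Nat.cast_nonneg _
  have hgr : (0 : ℝ) ≤ gg := Nat.cast_nonneg _
  have hTnn : 0 ≤ 2 * gg * (sumsq (g.tl l) - lin q δ (dg y) ^ 2) :=
    mul_nonneg (by positivity) (tl_nonneg (tl_hd g l hG))
  have h9 : 0 ≤ mu * (gg * (2 * sumsq l) - bil q δ NG) := mul_nonneg hmu (hTnn.trans hT)
  have h10 : cd * (2 * Lam * M) < cd * (bil q δ aL - bil q δ aR) :=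
    mul_lt_mul_of_pos_left h8 hcdr
  have h11 : cd * M = cn * sumsq l := by
    rw [hMd]
    field_simp
  have h12 : cd * (2 * Lam * M) = 2 * Lam * (cn * sumsq l) := by
    rw [← h11]
    ring
  push_cast at h7
  nlinarith

/-- **Soundness of the check that a cell is empty.** -/
theorem emptyCheck_sound (hc : CellOK q g y s) (hl : SP l) (hh : Holds q g y s δ l) (hne : l ≠ [])
    {gg : ℕ} (h : emptyCheck q g y s gg = true) : False := by
  have hc' := hc
  obtain ⟨hq, hq', hy, hs, hg, hlen⟩ := hc'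
  have hh' := hh
  obtain ⟨hδ, hG, _⟩ := hh'
  have hq0 : 0 < q := by omega
  obtain ⟨g1, h⟩ := andB_eq_true.1 h
  obtain ⟨g2, h⟩ := andB_eq_true.1 h
  have g1 : 1 ≤ gg := Nat.le_of_ble_eq_true g1
  have g2 : gg ≤ 64 := Nat.le_of_ble_eq_true g2
  obtain ⟨NG, h, h1, h2⟩ := ngGo_cell hc hl hh g2 h
  have e1 : sqQ q s = digs K (q * q) (sym q (dg s) (dg s)) := by
    conv_lhs => rw [hs.1]
    exact sqQ_eq hq hq' fun i hi => (hs.2 i hi).le.trans pow_KAP_le
  have h : leD (mk2 q) (gg * sqQ q s + rep K (q * q)) (digs K (q * q) NG) = true := h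
  rw [e1, ← digs_one K_pos, digs_const_mul, digs_add] at h
  have h3 := leM_sound (fun p hp => ?_) (fun p hp => lt_of_le_of_lt (h1 p hp)
    (by norm_num [PB, WB, KAP, K])) h hδ
  · rw [bil_add, bil_const_mul, bil_sym hq0] at h3
    have h4 : bil q δ (fun _ => 1) = lin q δ (fun _ => 1) * lin q δ (fun _ => 1) := by
      rw [← bil_mul hq0]
    have h5 := s_sq hh
    have hgr : (0 : ℝ) < gg := by exact_mod_cast g1
    have hTnn : 0 ≤ 2 * gg * (sumsq (g.tl l) - lin q δ (dg y) ^ 2) :=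
      mul_nonneg (by positivity) (tl_nonneg (tl_hd g l hG))
    rw [h4] at h3
    have h6 : lin q δ (fun _ => 1) * lin q δ (fun _ => 1) ≤ 0 := by nlinarith
    have h7 : lin q δ (fun _ => 1) = 0 := by nlinarith [lin_nonneg (q := q) hδ (fun _ => 1)]
    have h8 : lin q δ (dg s) = 0 := by
      rw [lin] at h7 ⊢
      have h9 := (sum_eq_zero_iff_of_nonneg (fun i _ => by
        have := hδ i
        positivity)).1 h7
      apply sum_eq_zero
      intro i hi
      have := h9 i hi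
      simp only [Nat.cast_one, mul_one] at this
      rw [this, zero_mul]
    rw [h8] at h5
    cases l with
    | nil => exact hne rfl
    | cons a l =>
      rw [sumsq_cons] at h5
      have := hl.2 a (by simp)
      have := sumsq_nonneg l
      nlinarith
  · calc gg * sym q (dg s) (dg s) p + 1 ≤ 64 * (2 * (2 ^ KAP * 2 ^ KAP)) + 1 :=
        Nat.add_le_add_right (Nat.mul_le_mul g2 (sym_le (fun i hi => (hs.2 i hi).le)
          (fun i hi => (hs.2 i hi).le) hp)) _
      _ < 2 ^ (K - 1) := by norm_num [KAP, K]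

end leaf

end Pool.Agent.MOS
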