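import Pool.Agent.Lib.MP_b520b2_co.Geom

/-!
Lower bound: squares with sides `√3, 1, 1, 1` do not pack into a rectangle of area less than
`2 (2 + √3)`.
-/

namespace Pool.Agent.MOS

theorem three_intervals {h a b c : ℝ} (ha : 0 ≤ a) (ha' : a + 1 ≤ h) (hb : 0 ≤ b)
    (hb' : b + 1 ≤ h) (hc : 0 ≤ c) (hc' : c + 1 ≤ h) (hab : a + 1 ≤ b ∨ b + 1 ≤ a)
    (hac : a + 1 ≤ c ∨ c + 1 ≤ a) (hbc : b + 1 ≤ c ∨ c + 1 ≤ b) : 3 ≤ h := by
  rcases hab with h1 | h1 <;> rcases hac with h2 | h2 <;> rcases hbc with h3 | h3 <;> linarith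

theorem four_intervals {h s z a b c : ℝ} (hz : 0 ≤ z) (hz' : z + s ≤ h) (ha : 0 ≤ a)
    (ha' : a + 1 ≤ h) (hb : 0 ≤ b) (hb' : b + 1 ≤ h) (hc : 0 ≤ c) (hc' : c + 1 ≤ h)
    (hza : z + s ≤ a ∨ a + 1 ≤ z) (hzb : z + s ≤ b ∨ b + 1 ≤ z) (hzc : z + s ≤ c ∨ c + 1 ≤ z)
    (hab : a + 1 ≤ b ∨ b + 1 ≤ a) (hac : a + 1 ≤ c ∨ c + 1 ≤ a)
    (hbc : b + 1 ≤ c ∨ c + 1 ≤ b) (hs : 0 ≤ s) : 3 + s ≤ h := by
  rcases hza with g1 | g1 <;> rcases hzb with g2 | g2 <;> rcases hzc with g3 | g3 <;>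
  rcases hab with h1 | h1 <;> rcases hac with h2 | h2 <;> rcases hbc with h3 | h3 <;> linarith

/-- The case of height less than `1 + √3`. -/
theorem lower_aux {s : ℝ} (hs0 : 0 < s) (hs : s * s = 3) {a b : ℝ}
    {x0 y0 x1 y1 x2 y2 x3 y3 : ℝ}
    (i0 : 0 ≤ x0 ∧ x0 + s ≤ a ∧ 0 ≤ y0 ∧ y0 + s ≤ b)
    (i1 : 0 ≤ x1 ∧ x1 + 1 ≤ a ∧ 0 ≤ y1 ∧ y1 + 1 ≤ b)
    (i2 : 0 ≤ x2 ∧ x2 + 1 ≤ a ∧ 0 ≤ y2 ∧ y2 + 1 ≤ b)
    (i3 : 0 ≤ x3 ∧ x3 + 1 ≤ a ∧ 0 ≤ y3 ∧ y3 + 1 ≤ b)
    (h01 : Apart (x0, y0) s (x1, y1) 1) (h02 : Apart (x0, y0) s (x2, y2) 1)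
    (h03 : Apart (x0, y0) s (x3, y3) 1) (h12 : Apart (x1, y1) 1 (x2, y2) 1)
    (h13 : Apart (x1, y1) 1 (x3, y3) 1) (h23 : Apart (x2, y2) 1 (x3, y3) 1)
    (hb : b < 1 + s) : 2 * (2 + s) ≤ a * b := by
  have hs1 : 1.7 < s := by nlinarith
  have hs2 : s < 1.8 := by nlinarith
  obtain ⟨a0, a0', b0, b0'⟩ := i0
  obtain ⟨a1, a1', b1, b1'⟩ := i1
  obtain ⟨a2, a2', b2, b2'⟩ := i2
  obtain ⟨a3, a3', b3, b3'⟩ := i3
  unfold Apart at *
  simp only at *
  have k1 : x0 + s ≤ x1 ∨ x1 + 1 ≤ x0 := by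
    rcases h01 with h | h | h | h
    · exact Or.inl h
    · exact Or.inr h
    · exfalso; linarith
    · exfalso; linarith
  have k2 : x0 + s ≤ x2 ∨ x2 + 1 ≤ x0 := by
    rcases h02 with h | h | h | h
    · exact Or.inl h
    · exact Or.inr h
    · exfalso; linarith
    · exfalso; linarith
  have k3 : x0 + s ≤ x3 ∨ x3 + 1 ≤ x0 := by
    rcases h03 with h | h | h | h
    · exact Or.inl h
    · exact Or.inr h
    · exfalso; linarith
    · exfalso; linarith
  by_cases hb2 : b < 2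
  · have l12 : x1 + 1 ≤ x2 ∨ x2 + 1 ≤ x1 := by
      rcases h12 with h | h | h | h
      · exact Or.inl h
      · exact Or.inr h
      · exfalso; linarith
      · exfalso; linarith
    have l13 : x1 + 1 ≤ x3 ∨ x3 + 1 ≤ x1 := by
      rcases h13 with h | h | h | h
      · exact Or.inl h
      · exact Or.inr h
      · exfalso; linarith
      · exfalso; linarith
    have l23 : x2 + 1 ≤ x3 ∨ x3 + 1 ≤ x2 := by
      rcases h23 with h | h | h | h
      · exact Or.inl h
      · exact Or.inr h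
      · exfalso; linarith
      · exfalso; linarith
    have h4 : 3 + s ≤ a := four_intervals a0 a0' a1 a1' a2 a2' a3 a3' k1 k2 k3 l12 l13 l23 hs0.le
    have h5 : s ≤ b := by linarith
    nlinarith
  · rw [not_lt] at hb2
    have key : 2 + s ≤ a := by
      by_contra hcon
      rw [not_le] at hcon
      have hb3 : b < 3 := by linarith
      rcases k1 with k1 | k1 <;> rcases k2 with k2 | k2 <;> rcases k3 with k3 | k3
      · have l12 : y1 + 1 ≤ y2 ∨ y2 + 1 ≤ y1 := by
          rcases h12 with h | h | h | h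
          · exfalso; linarith
          · exfalso; linarith
          · exact Or.inl h
          · exact Or.inr h
        have l13 : y1 + 1 ≤ y3 ∨ y3 + 1 ≤ y1 := by
          rcases h13 with h | h | h | h
          · exfalso; linarith
          · exfalso; linarith
          · exact Or.inl h
          · exact Or.inr h
        have l23 : y2 + 1 ≤ y3 ∨ y3 + 1 ≤ y2 := by
          rcases h23 with h | h | h | h
          · exfalso; linarith
          · exfalso; linarith
          · exact Or.inl h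
          · exact Or.inr h
        linarith [three_intervals b1 b1' b2 b2' b3 b3' l12 l13 l23]
      · linarith
      · linarith
      · linarith
      · linarith
      · linarith
      · linarith
      · have l12 : y1 + 1 ≤ y2 ∨ y2 + 1 ≤ y1 := by
          rcases h12 with h | h | h | h
          · exfalso; linarith
          · exfalso; linarith
          · exact Or.inl h
          · exact Or.inr h
        have l13 : y1 + 1 ≤ y3 ∨ y3 + 1 ≤ y1 := by
          rcases h13 with h | h | h | h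
          · exfalso; linarith
          · exfalso; linarith
          · exact Or.inl h
          · exact Or.inr h
        have l23 : y2 + 1 ≤ y3 ∨ y3 + 1 ≤ y2 := by
          rcases h23 with h | h | h | h
          · exfalso; linarith
          · exfalso; linarith
          · exact Or.inl h
          · exact Or.inr h
        linarith [three_intervals b1 b1' b2 b2' b3 b3' l12 l13 l23]
    nlinarith

/-- The critical collection. -/
noncomputable def critical : Fin 4 → ℝ := ![Real.sqrt 3, 1, 1, 1]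

theorem critical_pos (i : Fin 4) : 0 < critical i := by
  fin_cases i <;> simp [critical]

theorem lower_critical {a b : ℝ} (h : Packs critical a b) : 2 * (2 + Real.sqrt 3) ≤ a * b := by
  have hs0 : (0 : ℝ) < Real.sqrt 3 := by positivity
  have hs : Real.sqrt 3 * Real.sqrt 3 = 3 := Real.mul_self_sqrt (by norm_num)
  by_cases hb : b < 1 + Real.sqrt 3
  · obtain ⟨p, h1, h2⟩ := h
    exact lower_aux hs0 hs (h1 0) (h1 1) (h1 2) (h1 3)
      (h2 (show (0 : Fin 4) ≠ 1 by decide)) (h2 (show (0 : Fin 4) ≠ 2 by decide))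
      (h2 (show (0 : Fin 4) ≠ 3 by decide)) (h2 (show (1 : Fin 4) ≠ 2 by decide))
      (h2 (show (1 : Fin 4) ≠ 3 by decide)) (h2 (show (2 : Fin 4) ≠ 3 by decide)) hb
  · by_cases ha : a < 1 + Real.sqrt 3
    · obtain ⟨p, h1, h2⟩ := h.swap
      rw [mul_comm a b]
      exact lower_aux hs0 hs (h1 0) (h1 1) (h1 2) (h1 3)
        (h2 (show (0 : Fin 4) ≠ 1 by decide)) (h2 (show (0 : Fin 4) ≠ 2 by decide))
        (h2 (show (0 : Fin 4) ≠ 3 by decide)) (h2 (show (1 : Fin 4) ≠ 2 by decide))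
        (h2 (show (1 : Fin 4) ≠ 3 by decide)) (h2 (show (2 : Fin 4) ≠ 3 by decide)) ha
    · rw [not_lt] at ha hb
      nlinarith

/-- Lower bound for sufficient areas. -/
theorem lower_bound {A : ℝ} (hA : Sufficient A) : (2 + Real.sqrt 3) / 3 ≤ A := by
  have h6 : (0 : ℝ) < Real.sqrt 6 := by positivity
  have h66 : Real.sqrt 6 * Real.sqrt 6 = 6 := Real.mul_self_sqrt (by norm_num)
  have hs : Real.sqrt 3 * Real.sqrt 3 = 3 := Real.mul_self_sqrt (by norm_num)
  set d : Fin 4 → ℝ := fun i => (Real.sqrt 6)⁻¹ * critical i with hd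
  have hdpos : ∀ i, 0 < d i := fun i => mul_pos (inv_pos.2 h6) (critical_pos i)
  have hsum : HasSum (fun i => d i ^ 2) 1 := by
    have h1 : ∑ i, d i ^ 2 = 1 := by
      simp only [hd, critical, Fin.sum_univ_four, Matrix.cons_val_zero, Matrix.cons_val_one,
        Matrix.cons_val, mul_one]
      have h2 : (Real.sqrt 6)⁻¹ ^ 2 = 1 / 6 := by
        rw [inv_pow, sq, h66]; norm_num
      rw [mul_pow, h2, sq, hs]
      norm_num
    rw [← h1]
    exact hasSum_fintype _
  obtain ⟨a, b, ha, hb, hab, hp⟩ := hA (Fin 4) d inferInstance hdpos hsum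
  have h1 := ((packsInto_iff hdpos a b).1 hp).scale h6.le
  have h2 : (fun i => Real.sqrt 6 * d i) = critical := by
    funext i
    simp only [hd]
    rw [← mul_assoc, mul_inv_cancel₀ h6.ne', one_mul]
  rw [h2] at h1
  have h3 := lower_critical h1
  have h4 : Real.sqrt 6 * a * (Real.sqrt 6 * b) = 6 * A := by
    rw [← hab]
    have : Real.sqrt 6 * a * (Real.sqrt 6 * b) = (Real.sqrt 6 * Real.sqrt 6) * (a * b) := by ring
    rw [this, h66]
  rw [h4] at h3
  linarith

end Pool.Agent.MOS
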