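import Pool.Agent.Lib.MP_b520b2_co.Packs

/-!
# The theorem of Meir and Moser for several blocks, and a variant for wide blocks

`Cap a b Y f` says: whenever a sorted list `y :: l` of positive sides with `y ≤ Y` is given, an
initial segment of it packs into the block `a × b`, and if this is not the whole list then the total
area of the segment and of the next square is larger than `y ^ 2 + f`.

* `cap_mm` (Meir and Moser): `Cap a b Y ((a - Y) * (b - Y))` for `Y ≤ a`, `Y ≤ b`;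
* `cap_row`: `Cap a b Y (k / (k + 1) * a * (b - Y) - a ^ 2 / (k * (k + 1) ^ 2))` for `k * Y ≤ a`,
  `Y ≤ b`;
* `cap_swap`, `cap_mono`;
* `packs_blocks`: a sorted list with largest side `y` packs into the blocks `(a, b, f)` with
  `Cap a b y f` if the area of the other squares is at most the sum of the numbers `f`.
-/

namespace Pool.Agent.MOS

/-- the sum of the squares of a list -/
def sumsq (l : List ℝ) : ℝ := (l.map fun s => s ^ 2).sum

@[simp] theorem sumsq_nil : sumsq [] = 0 := rfl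

@[simp] theorem sumsq_cons (s : ℝ) (l : List ℝ) : sumsq (s :: l) = s ^ 2 + sumsq l := by
  simp [sumsq]

@[simp] theorem sumsq_append (l l' : List ℝ) : sumsq (l ++ l') = sumsq l + sumsq l' := by
  simp [sumsq]

theorem sumsq_nonneg (l : List ℝ) : 0 ≤ sumsq l :=
  List.sum_nonneg fun x hx => by
    obtain ⟨s, _, rfl⟩ := List.mem_map.1 hx
    positivity

/-- The longest initial segment of total width at most `a`. -/
theorem exists_shelf : ∀ (l : List ℝ) (a : ℝ), 0 ≤ a → ∃ l₁ l₂ : List ℝ, l = l₁ ++ l₂ ∧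
    l₁.sum ≤ a ∧ (l₂ = [] ∨ ∃ s t, l₂ = s :: t ∧ a < l₁.sum + s) := by
  intro l
  induction l with
  | nil => exact fun a ha => ⟨[], [], rfl, by simpa using ha, Or.inl rfl⟩
  | cons s l ih =>
    intro a ha
    by_cases hs : s ≤ a
    · obtain ⟨l₁, l₂, rfl, h1, h2⟩ := ih (a - s) (by linarith)
      refine ⟨s :: l₁, l₂, rfl, by rw [List.sum_cons]; linarith, ?_⟩
      rcases h2 with h2 | ⟨s', t, rfl, h2⟩
      · exact Or.inl h2
      · exact Or.inr ⟨s', t, rfl, by rw [List.sum_cons]; linarith⟩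
    · exact ⟨[], s :: l, rfl, by simpa using ha, Or.inr ⟨s, l, rfl, by simpa using hs⟩⟩

theorem sum_mul_le_sumsq {s : ℝ} : ∀ {l : List ℝ}, (∀ r ∈ l, s ≤ r) → (∀ r ∈ l, 0 ≤ r) →
    l.sum * s ≤ sumsq l := by
  intro l
  induction l with
  | nil => simp
  | cons r l ih =>
    intro h h0
    have h1 := ih (fun r' hr' => h r' (by simp [hr'])) fun r' hr' => h0 r' (by simp [hr'])
    have hr : s ≤ r := h r (by simp)
    have hr0 : 0 ≤ r := h0 r (by simp)
    rw [List.sum_cons, sumsq_cons]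
    nlinarith

theorem length_mul_le_sumsq {s : ℝ} (hs : 0 ≤ s) : ∀ {l : List ℝ}, (∀ r ∈ l, s ≤ r) →
    l.length * s ^ 2 ≤ sumsq l := by
  intro l
  induction l with
  | nil => simp
  | cons r l ih =>
    intro h
    have h1 := ih fun r' hr' => h r' (by simp [hr'])
    have hr : s ≤ r := h r (by simp)
    rw [List.length_cons, sumsq_cons]
    push_cast
    nlinarith

theorem sum_le_length_mul {y : ℝ} : ∀ {l : List ℝ}, (∀ r ∈ l, r ≤ y) →
    l.sum ≤ l.length * y := by
  intro l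
  induction l with
  | nil => simp
  | cons r l ih =>
    intro h
    have h1 := ih fun r' hr' => h r' (by simp [hr'])
    have hr : r ≤ y := h r (by simp)
    rw [List.length_cons, List.sum_cons]
    push_cast
    linarith

/-- The first shelf, of width at most `a`: if it is not the whole list, `s` is the next side and
`k * y ≤ a`, then its area is larger than `y ^ 2 + (a - y - s) * s` and at least
`y ^ 2 + (k - 1) * s ^ 2`. -/
theorem exists_first_shelf {y a : ℝ} {l : List ℝ} (hl : (y :: l).Pairwise (· ≥ ·))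
    (h0 : ∀ s ∈ y :: l, 0 < s) (hya : y ≤ a) : ∃ l₁ l₂ : List ℝ, l = l₁ ++ l₂ ∧
    PacksL (y :: l₁) a y ∧ (l₂ = [] ∨ ∃ s t, l₂ = s :: t ∧
      y ^ 2 + (a - y - s) * s < sumsq (y :: l₁) ∧
      ∀ k : ℕ, k * y ≤ a → y ^ 2 + (k - 1) * s ^ 2 ≤ sumsq (y :: l₁)) := by
  obtain ⟨l₁, l₂, rfl, h1, h2⟩ := exists_shelf l (a - y) (by linarith)
  have hy : 0 < y := h0 y (by simp)
  rw [List.pairwise_cons] at hl
  refine ⟨l₁, l₂, rfl, PacksL.row (fun s hs => ?_) (by rw [List.sum_cons]; linarith)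
    (fun s hs => ?_), ?_⟩
  · rcases List.mem_cons.1 hs with rfl | hs
    · exact hy.le
    · exact (h0 s (by simp [hs])).le
  · rcases List.mem_cons.1 hs with rfl | hs
    · exact le_rfl
    · exact hl.1 s (by simp [hs])
  rcases h2 with h2 | ⟨s, t, rfl, h2⟩
  · exact Or.inl h2
  have hs : 0 < s := h0 s (by simp)
  have hsy : s ≤ y := hl.1 s (by simp)
  have h3 : ∀ r ∈ l₁, s ≤ r := fun r hr => (List.pairwise_append.1 hl.2).2.2 r hr s (by simp)
  have h3' : ∀ r ∈ l₁, 0 ≤ r := fun r hr => (h0 r (by simp [hr])).le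
  refine Or.inr ⟨s, t, rfl, ?_, fun k hk => ?_⟩
  · have h4 := sum_mul_le_sumsq h3 h3'
    rw [sumsq_cons]
    nlinarith
  · have h4 := length_mul_le_sumsq hs.le h3
    have h5 : l₁.sum ≤ l₁.length * y := sum_le_length_mul fun r hr => hl.1 r (by simp [hr])
    have h6 : k ≤ l₁.length + 1 := by
      have h7 : (k : ℝ) * y < (l₁.length + 2) * y := by nlinarith
      have h8 : (k : ℝ) < ((l₁.length + 2 : ℕ) : ℝ) := by
        push_cast
        exact lt_of_mul_lt_mul_right h7 hy.le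
      have := Nat.cast_lt.1 h8
      omega
    have h9 : (k : ℝ) ≤ l₁.length + 1 := by exact_mod_cast h6
    rw [sumsq_cons]
    nlinarith [sq_nonneg s]

/-- `Cap a b Y f`: an initial segment of every sorted list `y :: l` of positive sides with `y ≤ Y`
packs into `a × b`, and if it is not the whole list then the total area of the segment and of the next
square is larger than `y ^ 2 + f`. -/
def Cap (a b Y f : ℝ) : Prop :=
  ∀ (y : ℝ) (l : List ℝ), (y :: l).Pairwise (· ≥ ·) → (∀ s ∈ y :: l, 0 < s) → y ≤ Y →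
    ∃ l₁ l₂ : List ℝ, l = l₁ ++ l₂ ∧ PacksL (y :: l₁) a b ∧ (l₂ = [] ∨ ∃ s t, l₂ = s :: t ∧
      y ^ 2 + f < sumsq (y :: l₁) + s ^ 2)

theorem cap_mono {a b Y f a' b' Y' f' : ℝ} (h : Cap a b Y f) (ha : a ≤ a') (hb : b ≤ b')
    (hY : Y' ≤ Y) (hf : f' ≤ f) : Cap a' b' Y' f' := by
  intro y l h1 h2 h3
  obtain ⟨l₁, l₂, h4, h5, h6⟩ := h y l h1 h2 (h3.trans hY)
  refine ⟨l₁, l₂, h4, h5.mono ha hb, ?_⟩
  rcases h6 with h6 | ⟨s, t, h6, h7⟩
  · exact Or.inl h6
  · exact Or.inr ⟨s, t, h6, by linarith⟩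

theorem cap_swap {a b Y f : ℝ} (h : Cap a b Y f) : Cap b a Y f := by
  intro y l h1 h2 h3
  obtain ⟨l₁, l₂, h4, h5, h6⟩ := h y l h1 h2 h3
  exact ⟨l₁, l₂, h4, h5.swap, h6⟩

/-- Shelves: if the function `F` satisfies the inequality for one shelf then the capacity of the
shelf packing is at least `F`. -/
theorem shelves (a : ℝ) (k : ℕ) (F : ℝ → ℝ → ℝ) (Y : ℝ) (hY : Y ≤ a) (hkY : k * Y ≤ a)
    (hF : ∀ y s b A : ℝ, 0 < s → s ≤ y → y ≤ Y → y ≤ b → y ^ 2 + (a - y - s) * s < A →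
      y ^ 2 + (k - 1) * s ^ 2 ≤ A → (s ≤ b - y → F y b ≤ A - y ^ 2 + s ^ 2 + F s (b - y)) ∧
      (b - y < s → F y b < A - y ^ 2 + s ^ 2)) :
    ∀ (n : ℕ) (y b : ℝ) (l : List ℝ), l.length ≤ n → (y :: l).Pairwise (· ≥ ·) →
      (∀ s ∈ y :: l, 0 < s) → y ≤ Y → y ≤ b →
      ∃ l₁ l₂ : List ℝ, l = l₁ ++ l₂ ∧ PacksL (y :: l₁) a b ∧ (l₂ = [] ∨ ∃ s t, l₂ = s :: t ∧
        y ^ 2 + F y b < sumsq (y :: l₁) + s ^ 2) := by
  intro n
  induction n with
  | zero =>
    intro y b l hn hl h0 hy hb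
    obtain rfl : l = [] := List.length_eq_zero_iff.1 (Nat.le_zero.1 hn)
    exact ⟨[], [], rfl, PacksL.singleton (hy.trans hY) hb, Or.inl rfl⟩
  | succ n ih =>
    intro y b l hn hl h0 hyY hb
    obtain ⟨l₁, l₂, rfl, h1, h2⟩ := exists_first_shelf hl h0 (hyY.trans hY)
    have hy : 0 < y := h0 y (by simp)
    rcases h2 with rfl | ⟨s, t, rfl, h2, h2'⟩
    · exact ⟨l₁, [], rfl, h1.mono le_rfl hb, Or.inl rfl⟩
    have hs : 0 < s := h0 s (by simp)
    have hsy : s ≤ y := (List.pairwise_cons.1 hl).1 s (by simp)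
    have hky : k * y ≤ a := (mul_le_mul_of_nonneg_left hyY (Nat.cast_nonneg k)).trans hkY
    obtain ⟨hF1, hF2⟩ := hF y s b _ hs hsy hyY hb h2 (h2' k hky)
    by_cases hsb : s ≤ b - y
    · have hsub : (s :: t).Sublist (y :: (l₁ ++ s :: t)) :=
        (List.sublist_append_right l₁ (s :: t)).trans (List.sublist_cons_self y _)
      obtain ⟨l₃, l₄, rfl, h3, h4⟩ := ih s (b - y) t
        (by simp only [List.length_append, List.length_cons] at hn; omega)
        (hl.sublist hsub) (fun r hr => h0 r (hsub.subset hr)) (hsy.trans hyY) hsb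
      refine ⟨l₁ ++ s :: l₃, l₄, by simp, ?_, ?_⟩
      · have := PacksL.ver hy.le (by linarith) h1 h3
        simpa using this
      rcases h4 with h4 | ⟨r, t', rfl, h4⟩
      · exact Or.inl h4
      refine Or.inr ⟨r, t', rfl, ?_⟩
      have h5 := hF1 hsb
      rw [sumsq_cons] at h4 h5 ⊢
      rw [sumsq_append, sumsq_cons]
      linarith
    · refine ⟨l₁, s :: t, rfl, h1.mono le_rfl hb, Or.inr ⟨s, t, rfl, ?_⟩⟩
      linarith [hF2 (not_le.1 hsb)]

/-- **Meir and Moser.** -/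
theorem cap_mm {a b Y : ℝ} (ha : Y ≤ a) (hb : Y ≤ b) : Cap a b Y ((a - Y) * (b - Y)) := by
  intro y l hl h0 hy
  obtain ⟨l₁, l₂, h1, h2, h3⟩ := shelves a 0 (fun y b => (a - y) * (b - y)) Y ha
    (by simpa using (h0 y (by simp)).le.trans (hy.trans ha))
    (fun y s b A hs hsy hyY hyb hA _ => ⟨fun hsb => by
      nlinarith [mul_nonneg (sub_nonneg.2 hsy) (sub_nonneg.2 hsb)], fun hsb => by
      nlinarith [mul_nonneg (sub_nonneg.2 (hyY.trans ha)) (sub_nonneg.2 hsb.le)]⟩)
    _ y b l le_rfl hl h0 hy (hy.trans hb)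
  refine ⟨l₁, l₂, h1, h2, ?_⟩
  rcases h3 with h3 | ⟨s, t, h3, h4⟩
  · exact Or.inl h3
  · refine Or.inr ⟨s, t, h3, lt_of_le_of_lt ?_ h4⟩
    have : (a - Y) * (b - Y) ≤ (a - y) * (b - y) :=
      mul_le_mul (by linarith) (by linarith) (by linarith) (by linarith)
    simpa using this

/-- **Wide blocks.**  If `k` squares fit into a row of the block, the density of a full row is at
least `k / (k + 1)`, with one exception. -/
theorem cap_row {a b Y : ℝ} (k : ℕ) (hk : 1 ≤ k) (ha : k * Y ≤ a) (hb : Y ≤ b) :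
    Cap a b Y (k / (k + 1) * a * (b - Y) - a ^ 2 / (k * (k + 1) ^ 2)) := by
  intro y l hl h0 hy
  have hY : 0 < Y := (h0 y (by simp)).trans_le hy
  have hk1 : (1 : ℝ) ≤ k := by exact_mod_cast hk
  have hYa : Y ≤ a := by nlinarith
  obtain ⟨w, hw⟩ : ∃ w : ℝ, w = a / (k + 1) := ⟨_, rfl⟩
  have haw : a = w * (k + 1) := by
    rw [hw]
    field_simp
  have hw0 : 0 < w := by
    rw [hw]
    exact div_pos (by linarith) (by linarith)
  have hc : (k : ℝ) / (k + 1) * a = k * w := by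
    rw [hw]
    ring
  have hL : a ^ 2 / (k * (k + 1) ^ 2) = w ^ 2 / k := by
    rw [hw]
    field_simp
  rw [hc, hL]
  have hkw : 0 ≤ w ^ 2 / k := by positivity
  -- the inequality for one shelf
  have key : ∀ y s A : ℝ, 0 < s → s ≤ y → y ≤ Y → y ^ 2 + (a - y - s) * s < A →
      y ^ 2 + (k - 1) * s ^ 2 ≤ A →
      k * w * s - (if y ≤ w then 0 else w ^ 2 / k) ≤
        A - y ^ 2 + s ^ 2 - (if s ≤ w then 0 else w ^ 2 / k) := by
    intro y s A hs hsy hyY hA hA'
    by_cases h1 : y ≤ w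
    · rw [if_pos h1, if_pos (hsy.trans h1)]
      nlinarith
    · rw [if_neg h1]
      by_cases h2 : s ≤ w
      · rw [if_pos h2]
        have h3 : (y - w) * k ≤ w := by nlinarith
        have h4 : s * (y - w) ≤ w ^ 2 / k := by
          rw [le_div_iff₀ (by linarith)]
          push Not at h1
          nlinarith [mul_nonneg hs.le (sub_nonneg.2 h1.le)]
        nlinarith
      · rw [if_neg h2]
        push Not at h2
        nlinarith [mul_pos hs (sub_pos.2 h2)]
  have key2 : ∀ y s A : ℝ, 0 < s → s ≤ y → y ≤ Y → y ^ 2 + (a - y - s) * s < A →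
      y ^ 2 + (k - 1) * s ^ 2 ≤ A →
      k * w * s - (if y ≤ w then 0 else w ^ 2 / k) < A - y ^ 2 + s ^ 2 := by
    intro y s A hs hsy hyY hA hA'
    by_cases h1 : y ≤ w
    · rw [if_pos h1]
      nlinarith
    · rw [if_neg h1]
      by_cases h2 : s ≤ w
      · have h3 : (y - w) * k ≤ w := by nlinarith
        have h4 : s * (y - w) ≤ w ^ 2 / k := by
          rw [le_div_iff₀ (by linarith)]
          push Not at h1
          nlinarith [mul_nonneg hs.le (sub_nonneg.2 h1.le)]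
        nlinarith
      · push Not at h2
        have h5 : 0 < w ^ 2 / k := by positivity
        nlinarith [mul_pos hs (sub_pos.2 h2)]
  obtain ⟨l₁, l₂, h1, h2, h3⟩ := shelves a k
    (fun y b => k * w * (b - y) - if y ≤ w then 0 else w ^ 2 / k) Y hYa ha
    (fun y s b A hs hsy hyY hyb hA hA' => ⟨fun hsb => by
      have := key y s A hs hsy hyY hA hA'
      linarith, fun hsb => by
      have := key2 y s A hs hsy hyY hA hA'
      have h6 : (k : ℝ) * w * (b - y) ≤ k * w * s :=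
        mul_le_mul_of_nonneg_left hsb.le (by positivity)
      linarith⟩)
    _ y b l le_rfl hl h0 hy (hy.trans hb)
  refine ⟨l₁, l₂, h1, h2, ?_⟩
  rcases h3 with h3 | ⟨s, t, h3, h4⟩
  · exact Or.inl h3
  · refine Or.inr ⟨s, t, h3, lt_of_le_of_lt ?_ h4⟩
    have h5 : (k : ℝ) * w * (b - Y) ≤ k * w * (b - y) :=
      mul_le_mul_of_nonneg_left (by linarith) (by positivity)
    split_ifs <;> linarith

/-- **Several blocks.**  A sorted list `y :: l` of positive sides, with `y ≤ Y`, packs into the blocks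
`B = (a, b, f)` with `Cap a b Y f` (consecutive parts of the list, one for each block) if
`sumsq l ≤ ∑ f`. -/
theorem packs_blocks' (Y : ℝ) : ∀ (Bs : List (ℝ × ℝ × ℝ)) (y : ℝ) (l : List ℝ), Bs ≠ [] →
    (y :: l).Pairwise (· ≥ ·) → (∀ s ∈ y :: l, 0 < s) → y ≤ Y →
    (∀ B ∈ Bs, Cap B.1 B.2.1 Y B.2.2) →
    sumsq l ≤ (Bs.map fun B => B.2.2).sum →
    ∃ parts : List (List ℝ), parts.flatten = y :: l ∧
      List.Forall₂ (fun p (B : ℝ × ℝ × ℝ) => PacksL p B.1 B.2.1) parts Bs := by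
  intro Bs
  induction Bs with
  | nil => exact fun _ _ h => absurd rfl h
  | cons B Bs ih =>
    intro y l _ hl h0 hy hB hsum
    obtain ⟨l₁, l₂, rfl, h1, h2⟩ := hB B (by simp) y l hl h0 hy
    have hrep : List.Forall₂ (fun p (B : ℝ × ℝ × ℝ) => PacksL p B.1 B.2.1)
        (List.replicate Bs.length []) Bs := by
      clear ih hB hsum
      induction Bs with
      | nil => exact List.Forall₂.nil
      | cons C Bs ih => exact List.Forall₂.cons (PacksL.nil _ _) (ih (by simp))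
    rcases h2 with rfl | ⟨s, t, rfl, h2⟩
    · exact ⟨(y :: l₁) :: List.replicate Bs.length [], by simp, List.Forall₂.cons h1 hrep⟩
    have hs : 0 < s := h0 s (by simp)
    have hsy : s ≤ y := (List.pairwise_cons.1 hl).1 s (by simp)
    have hsub : (s :: t).Sublist (y :: (l₁ ++ s :: t)) :=
      (List.sublist_append_right l₁ (s :: t)).trans (List.sublist_cons_self y _)
    rw [List.map_cons, List.sum_cons, sumsq_append, sumsq_cons] at hsum
    rw [sumsq_cons] at h2
    have h4 : sumsq t < (Bs.map fun B => B.2.2).sum := by linarith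
    have hne : Bs ≠ [] := by
      rintro rfl
      exact absurd h4 (not_lt.2 (by simpa using sumsq_nonneg t))
    obtain ⟨parts, h5, h6⟩ := ih s t hne (hl.sublist hsub) (fun r hr => h0 r (hsub.subset hr))
      (hsy.trans hy) (fun C hC => hB C (by simp [hC])) h4.le
    exact ⟨(y :: l₁) :: parts, by simp [h5], List.Forall₂.cons h1 h6⟩

theorem packs_blocks (Bs : List (ℝ × ℝ × ℝ)) (y : ℝ) (l : List ℝ) (hne : Bs ≠ [])
    (hl : (y :: l).Pairwise (· ≥ ·)) (h0 : ∀ s ∈ y :: l, 0 < s)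
    (hB : ∀ B ∈ Bs, Cap B.1 B.2.1 y B.2.2)
    (hsum : sumsq l ≤ (Bs.map fun B => B.2.2).sum) :
    ∃ parts : List (List ℝ), parts.flatten = y :: l ∧
      List.Forall₂ (fun p (B : ℝ × ℝ × ℝ) => PacksL p B.1 B.2.1) parts Bs :=
  packs_blocks' y Bs y l hne hl h0 le_rfl hB hsum

/-- **Meir and Moser, several blocks.**  A sorted list with largest side `y` packs into the blocks
`B ∈ Bs` if `y ≤ B.1, B.2` for all blocks and the area of the other squares is at most
`∑ (B.1 - y) (B.2 - y)`. -/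
theorem meir_moser_blocks (Bs : List (ℝ × ℝ)) (y : ℝ) (l : List ℝ) (hne : Bs ≠ [])
    (hl : (y :: l).Pairwise (· ≥ ·)) (h0 : ∀ s ∈ y :: l, 0 < s)
    (hB : ∀ B ∈ Bs, y ≤ B.1 ∧ y ≤ B.2)
    (hsum : sumsq l ≤ (Bs.map fun B => (B.1 - y) * (B.2 - y)).sum) :
    ∃ parts : List (List ℝ), parts.flatten = y :: l ∧
      List.Forall₂ (fun p (B : ℝ × ℝ) => PacksL p B.1 B.2) parts Bs := by
  obtain ⟨parts, h1, h2⟩ := packs_blocks (Bs.map fun B => (B.1, B.2, (B.1 - y) * (B.2 - y))) y l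
    (by simpa using hne) hl h0 (fun B hB' => by
      obtain ⟨C, hC, rfl⟩ := List.mem_map.1 hB'
      exact cap_mm (hB C hC).1 (hB C hC).2) (by simpa [Function.comp_def] using hsum)
  exact ⟨parts, h1, List.forall₂_map_right_iff.1 h2⟩

/-- **Meir and Moser**: one block. -/
theorem meir_moser {y a b : ℝ} {l : List ℝ} (hl : (y :: l).Pairwise (· ≥ ·))
    (h0 : ∀ s ∈ y :: l, 0 < s) (ha : y ≤ a) (hb : y ≤ b)
    (hsum : sumsq l ≤ (a - y) * (b - y)) : PacksL (y :: l) a b := by
  obtain ⟨parts, h1, h2⟩ := meir_moser_blocks [(a, b)] y l (by simp) hl h0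
    (by simpa using ⟨ha, hb⟩) (by simpa using hsum)
  cases h2 with
  | cons h2 h3 =>
    cases h3
    simp only [List.flatten_cons, List.flatten_nil, List.append_nil] at h1
    rwa [h1] at h2

end Pool.Agent.MOS
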