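import Pool.Agent.Lib.MP_b520b2_co.Slots

/-!
# Templates which are not guillotine trees

A template is a list of pieces (guillotine trees).  The pieces `px` are to the left of the new piece,
the pieces `py` are below it; the position of the new piece is given by the maxima of the right and
upper edges.  Every earlier piece has to be (transitively) to the left of or below the new piece.
-/

namespace Pool.Agent.MOS

open Finset

/-- the rectangle `(x, y, w, h)` -/
structure Rect where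
  x : ℝ
  y : ℝ
  w : ℝ
  h : ℝ

/-- `b` is to the left of or below `a` -/
def Rect.Sep (a b : Rect) : Prop := b.x + b.w ≤ a.x ∨ b.y + b.h ≤ a.y

/-- packings of separated rectangles are put together -/
theorem packs_rects {W H : ℝ} : ∀ (rs : List Rect) (cs : List (List ℝ)),
    List.Forall₂ (fun c (r : Rect) => PacksL c r.w r.h) cs rs → rs.Pairwise Rect.Sep →
    (∀ r ∈ rs, 0 ≤ r.x ∧ r.x + r.w ≤ W ∧ 0 ≤ r.y ∧ r.y + r.h ≤ H) →
    PacksL cs.flatten W H := by
  intro rs cs h1 h2 h3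
  suffices key : ∃ q : List ((ℝ × ℝ) × ℝ), q.map Prod.snd = cs.flatten ∧
      (∀ z ∈ q, ∃ r ∈ rs, r.x ≤ z.1.1 ∧ z.1.1 + z.2 ≤ r.x + r.w ∧ r.y ≤ z.1.2 ∧
        z.1.2 + z.2 ≤ r.y + r.h) ∧ q.Pairwise fun x y => Apart x.1 x.2 y.1 y.2 by
    obtain ⟨q, k1, k2, k3⟩ := key
    refine ⟨q, k1, fun z hz => ?_, k3⟩
    obtain ⟨r, hr, g1, g2, g3, g4⟩ := k2 z hz
    obtain ⟨g5, g6, g7, g8⟩ := h3 r hr
    exact ⟨by linarith, by linarith, by linarith, by linarith⟩
  clear h3
  induction h1 with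
  | nil => exact ⟨[], rfl, by simp, List.Pairwise.nil⟩
  | @cons c r cs rs h1 _ ih =>
    obtain ⟨h2, h3⟩ := List.pairwise_cons.1 h2
    obtain ⟨q, k1, k2, k3⟩ := ih h3
    obtain ⟨q', g1, g2, g3⟩ := h1
    refine ⟨(q'.map fun x => (x.1 + (r.x, r.y), x.2)) ++ q, ?_, ?_, ?_⟩
    · rw [List.map_append, k1, List.flatten_cons, ← g1, List.map_map]
      rfl
    · intro z hz
      rcases List.mem_append.1 hz with hz | hz
      · obtain ⟨x, hx, rfl⟩ := List.mem_map.1 hz
        obtain ⟨e1, e2, e3, e4⟩ := g2 x hx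
        refine ⟨r, by simp, ?_⟩
        simp only [Prod.fst_add, Prod.snd_add]
        exact ⟨by linarith, by linarith, by linarith, by linarith⟩
      · obtain ⟨r', hr', e⟩ := k2 z hz
        exact ⟨r', List.mem_cons_of_mem _ hr', e⟩
    · rw [List.pairwise_append]
      refine ⟨?_, k3, ?_⟩
      · rw [List.pairwise_map]
        exact g3.imp fun {x y} h => h.add (r.x, r.y)
      · intro z hz z' hz'
        obtain ⟨x, hx, rfl⟩ := List.mem_map.1 hz
        obtain ⟨e1, e2, e3, e4⟩ := g2 x hx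
        obtain ⟨r', hr', f1, f2, f3, f4⟩ := k2 z' hz'
        rcases h2 r' hr' with h | h
        · refine Or.inr (Or.inl ?_)
          simp only [Prod.fst_add]
          linarith
        · refine Or.inr (Or.inr (Or.inr ?_))
          simp only [Prod.snd_add]
          linarith

/-- a piece: the earlier pieces to the left of it and below it (`0` is the last one), and the
template -/
inductive Pc where
  | mk (px py : List ℕ) (t : Tm) : Pc

/-- the maximum of the vectors `px` of the table `R` -/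
noncomputable def maxL (q : ℕ) (R px : List ℕ) : ℕ :=
  List.rec (motive := fun _ => ℕ) 0 (fun d ds ih => List.rec (motive := fun _ => ℕ) (nthR 0 R d)
    (fun _ _ _ => mx K (mk1 q) (nthR 0 R d) ih) ds) px

/-- the union of the sets `px` of the table `A` -/
noncomputable def orL (A px : List ℕ) : ℕ :=
  List.rec (motive := fun _ => ℕ) 0 (fun d _ ih => Nat.lor (nthR 0 A d) ih) px

/-- evaluation of a list of pieces; `b` is `2 ^ k` for the number `k` of earlier pieces, `RX`, `TY`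
are the right and upper edges, `AX`, `BY` the sets of the pieces which are known to end before -/
noncomputable def spK (q D y : ℕ) (rows lrows ms vs wx wy : List ℕ) (ps : List Pc) :
    ℕ → List ℕ → List ℕ → List ℕ → List ℕ → ℕ → ℕ → (ℕ → ℕ → ℕ → ℕ → Bool) → Bool :=
  List.rec (motive := fun _ => ℕ → List ℕ → List ℕ → List ℕ → List ℕ → ℕ → ℕ →
      (ℕ → ℕ → ℕ → ℕ → Bool) → Bool)
    (fun b RX TY AX BY P N k => andB (Nat.beq (Nat.succ (orL AX wx)) b)
      (andB (Nat.beq (Nat.succ (orL BY wy)) b) (k (maxL q RX wx) (maxL q TY wy) P N)))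
    (fun p _ ih b RX TY AX BY P N k => Pc.rec (motive := fun _ => Bool) (fun px py t =>
      andB (Nat.beq (Nat.succ (Nat.lor (orL AX px) (orL BY py))) b)
        (evalK q D y rows lrows ms vs t P N (fun w h P N =>
          ih (Nat.mul 2 b) (List.cons (Nat.add (maxL q RX px) w) RX)
            (List.cons (Nat.add (maxL q TY py) h) TY) (List.cons (Nat.lor (orL AX px) b) AX)
            (List.cons (Nat.lor (orL BY py) b) BY) P N k))) p) ps

/-- the template which represents a list of pieces -/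
noncomputable def toTm (ps : List Pc) : Tm :=
  List.rec (motive := fun _ => Tm) (Tm.gr 99 0 0 0)
    (fun p _ ih => Pc.rec (motive := fun _ => Tm) (fun _ _ t => Tm.hh t ih) p) ps

theorem toTm_cons (px py : List ℕ) (t : Tm) (ps : List Pc) :
    toTm (.mk px py t :: ps) = .hh t (toTm ps) := rfl

/-- The tables `R`, `A` describe the edges `e`; `k` is the number of pieces. -/
def TabOK (q : ℕ) (δ : ℕ → ℝ) (B k : ℕ) (R A : List ℕ) (e : ℕ → ℝ) : Prop :=
  (∀ d < k, ∃ f : ℕ → ℕ, nthR 0 R d = digs K q f ∧ lin q δ f = e d ∧ ∀ i < q, f i ≤ B * LB) ∧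
  (∀ d, k ≤ d → nthR 0 R d = 0 ∧ nthR 0 A d = 0) ∧
  ∀ d < k, ∀ t, (nthR 0 A d).testBit t = true → t < k ∧ e (k - 1 - t) ≤ e d

section tab

variable {q : ℕ} {δ : ℕ → ℝ} {B k : ℕ} {R A : List ℕ} {e : ℕ → ℝ}

theorem TabOK.mono (h : TabOK q δ B k R A e) {B' : ℕ} (hB : B ≤ B') : TabOK q δ B' k R A e := by
  obtain ⟨h1, h2, h3⟩ := h
  refine ⟨fun d hd => ?_, h2, h3⟩
  obtain ⟨f, g1, g2, g3⟩ := h1 d hd
  exact ⟨f, g1, g2, fun i hi => (g3 i hi).trans (Nat.mul_le_mul_right _ hB)⟩

theorem TabOK.get (h : TabOK q δ B k R A e) (d : ℕ) :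
    ∃ f : ℕ → ℕ, nthR 0 R d = digs K q f ∧ (d < k → lin q δ f = e d) ∧ ∀ i < q, f i ≤ B * LB := by
  by_cases hd : d < k
  · obtain ⟨f, g1, g2, g3⟩ := h.1 d hd
    exact ⟨f, g1, fun _ => g2, g3⟩
  · refine ⟨fun _ => 0, ?_, fun h => absurd h hd, fun _ _ => Nat.zero_le _⟩
    rw [(h.2.1 d (not_lt.1 hd)).1]
    simp [digs]

/-- the maximum of edges -/
theorem maxL_ok (hδ : ∀ i, 0 ≤ δ i) (hB : B ≤ 64) (h : TabOK q δ B k R A e) (px : List ℕ) :
    ∃ f : ℕ → ℕ, maxL q R px = digs K q f ∧ (∀ i < q, f i ≤ B * LB) ∧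
      ∀ d ∈ px, d < k → e d ≤ lin q δ f := by
  induction px with
  | nil => exact ⟨fun _ => 0, by simp [maxL, digs], fun _ _ => Nat.zero_le _, by simp⟩
  | cons d ds ih =>
    obtain ⟨f, h1, h2, h3⟩ := ih
    obtain ⟨f', g1, g2, g3⟩ := h.get d
    cases ds with
    | nil =>
      refine ⟨f', g1, g3, fun d' hd' hk => ?_⟩
      rw [List.mem_singleton] at hd'
      rw [hd'] at hk ⊢
      exact (g2 hk).ge
    | cons d2 ds =>
      have e1 : maxL q R (d :: d2 :: ds) = mx K (mk1 q) (nthR 0 R d) (maxL q R (d2 :: ds)) := rfl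
      rw [e1, g1, h1, mk1, show Nat.mul (2 ^ (K - 1)) (rep K q) = 2 ^ (K - 1) * rep K q from rfl,
        mx_eq K_pos (fun i hi => lt_of_le_of_lt (le_WB hB (g3 i hi)) WB_lt)
          (fun i hi => lt_of_le_of_lt (le_WB hB (h2 i hi)) WB_lt)]
      refine ⟨_, rfl, fun i hi => max_le (g3 i hi) (h2 i hi), fun d' hd' hk => ?_⟩
      rcases List.mem_cons.1 hd' with rfl | hd'
      · rw [← g2 hk]
        exact lin_mono hδ fun i _ => le_max_left _ _
      · exact (h3 d' hd' hk).trans (lin_mono hδ fun i _ => le_max_right _ _)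

theorem orL_ok (h : TabOK q δ B k R A e) (px : List ℕ) (t : ℕ)
    (ht : (orL A px).testBit t = true) : t < k ∧ ∃ d ∈ px, d < k ∧ e (k - 1 - t) ≤ e d := by
  induction px with
  | nil =>
    have : orL A [] = 0 := rfl
    rw [this, Nat.zero_testBit] at ht
    exact absurd ht (by simp)
  | cons d ds ih =>
    have e1 : orL A (d :: ds) = nthR 0 A d ||| orL A ds := rfl
    rw [e1, Nat.testBit_or, Bool.or_eq_true] at ht
    rcases ht with ht | ht
    · have hd : d < k := by
        by_contra hd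
        rw [(h.2.1 d (not_lt.1 hd)).2, Nat.zero_testBit] at ht
        exact absurd ht (by simp)
      obtain ⟨h1, h2⟩ := h.2.2 d hd t ht
      exact ⟨h1, d, by simp, hd, h2⟩
    · obtain ⟨h1, d', h2, h3⟩ := ih ht
      exact ⟨h1, d', List.mem_cons_of_mem _ h2, h3⟩

/-- a new piece -/
theorem TabOK.cons (h : TabOK q δ B k R A e) {px : List ℕ} {f w : ℕ → ℕ} {c : ℕ}
    (h2 : ∀ i < q, f i ≤ B * LB) (h3 : ∀ d ∈ px, d < k → e d ≤ lin q δ f)
    (hw : ∀ i < q, w i ≤ c * LB) (hw0 : 0 ≤ lin q δ w) :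
    TabOK q δ (B + c) (k + 1) ((digs K q f + digs K q w) :: R) ((orL A px ||| 2 ^ k) :: A)
      (fun d => if d = 0 then lin q δ f + lin q δ w else e (d - 1)) := by
  refine ⟨fun d hd => ?_, fun d hd => ?_, fun d hd t ht => ?_⟩
  · cases d with
    | zero =>
      refine ⟨fun i => f i + w i, ?_, ?_, fun i hi => ?_⟩
      · show digs K q f + digs K q w = _
        rw [digs_add]
      · dsimp only
        rw [if_pos rfl, lin_add]
      · rw [add_mul]
        exact Nat.add_le_add (h2 i hi) (hw i hi)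
    | succ d =>
      obtain ⟨f', g1, g2, g3⟩ := h.1 d (by omega)
      exact ⟨f', g1, by simpa using g2, fun i hi => (g3 i hi).trans
        (Nat.mul_le_mul_right _ (Nat.le_add_right _ _))⟩
  · obtain ⟨d, rfl⟩ : ∃ d', d = d' + 1 := ⟨d - 1, by omega⟩
    exact h.2.1 d (by omega)
  · cases d with
    | zero =>
      have ht : (orL A px ||| 2 ^ k).testBit t = true := ht
      rw [Nat.testBit_or, Bool.or_eq_true] at ht
      rcases ht with ht | ht
      · obtain ⟨g1, d, g2, g3, g4⟩ := orL_ok h px t ht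
        refine ⟨by omega, ?_⟩
        dsimp only
        rw [if_neg (by omega), if_pos rfl, show k + 1 - 1 - t - 1 = k - 1 - t by omega]
        have := h3 d g2 g3
        linarith
      · rw [Nat.testBit_two_pow] at ht
        have : k = t := by simpa using ht
        subst this
        exact ⟨by omega, by simp⟩
    | succ d =>
      have ht : (nthR 0 A d).testBit t = true := ht
      obtain ⟨g1, g2⟩ := h.2.2 d (by omega) t ht
      refine ⟨by omega, ?_⟩
      dsimp only
      rw [if_neg (by omega), if_neg (by omega), show k + 1 - 1 - t - 1 = k - 1 - t by omega]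
      simpa using g2

end tab

theorem testBit_pow_sub_one {k t m : ℕ} (hm : m + 1 = 2 ^ k) (ht : t < k) :
    m.testBit t = true := by
  have : m = 2 ^ k - 1 := by omega
  rw [this, Nat.testBit_two_pow_sub_one]
  simpa using ht

/-- what the evaluation of a list of pieces guarantees -/
def SpOK (q D : ℕ) (xv lv : ℕ → ℕ → ℕ) (mv : ℕ → ℕ) (δ : ℕ → ℝ) (Y : ℝ) (B : ℕ) (rs : List Rect)
    (ps : List Pc) (P N : ℕ → ℕ) (k : ℕ → ℕ → ℕ → ℕ → Bool) : Prop :=
  ∃ (W H P' N' : ℕ → ℕ) (Bs : List (ℝ × ℝ × ℝ)),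
    k (digs K q W) (digs K q H) (digs K (q * q) P') (digs K (q * q) N') = true ∧
    (∀ i < q, W i ≤ (B + (toTm ps).cnt) * LB) ∧ (∀ i < q, H i ≤ (B + (toTm ps).cnt) * LB) ∧
    Bs.length = (toTm ps).nb ∧ (∀ b ∈ Bs, Cap b.1 b.2.1 Y b.2.2) ∧
    2 * D * (Bs.map fun B => B.2.2).sum = (bil q δ P' - bil q δ P) - (bil q δ N' - bil q δ N) ∧
    (∀ p < q * q, P' p ≤ P p + (toTm ps).cnt * (D * PB)) ∧
    (∀ p < q * q, N' p ≤ N p + (toTm ps).cnt * (D * PB)) ∧
    (∀ jn ∈ (toTm ps).slots, jn.2.2 ≤ 961) ∧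
    ∀ cs : List (List ℝ), List.Forall₂ (fun c (r : Rect) => PacksL c r.w r.h) cs rs →
      ∀ Ls parts : List (List ℝ), List.Forall₂ (SlotOK q xv lv mv δ) Ls (toTm ps).slots →
      List.Forall₂ (fun p (B : ℝ × ℝ × ℝ) => PacksL p B.1 B.2.1) parts Bs →
      PacksL (cs.flatten ++ (Ls.flatten ++ parts.flatten)) (lin q δ W) (lin q δ H)

section sp

variable {q D : ℕ} {yv : ℕ → ℕ} {xv lv : ℕ → ℕ → ℕ} {mv : ℕ → ℕ} {δ : ℕ → ℝ} {y : ℕ}
  {rows lrows ms vs : List ℕ}

theorem spK_sound (hq : 2 ≤ q) (hq' : q ≤ 1000) (hδ : ∀ i, 0 ≤ δ i) (hD : 0 < D)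
    (hD' : D ≤ 2 ^ 12) (hy : y = digs K q yv) (hyl : ∀ i < q, yv i < 2 ^ KAP)
    (hx : ∀ j, nthR y rows j = digs K q (xv j)) (hxl : ∀ j, ∀ i < q, yv i ≤ xv j i ∧
      xv j i < 2 ^ KAP) (hl : ∀ j, nthR y lrows j = digs K q (lv j))
    (hll : ∀ j, ∀ i < q, yv i ≤ lv j i ∧ lv j i < 2 ^ KAP)
    (hm : ∀ j, nthR 0 ms j = mv j ∧ mv j ≤ 961) (wx wy : List ℕ) (ps : List Pc) :
    ∀ (n B : ℕ) (rs : List Rect) (RX TY AX BY : List ℕ) (P N : ℕ → ℕ)
      (k : ℕ → ℕ → ℕ → ℕ → Bool), B + (toTm ps).cnt ≤ 64 → rs.length = n →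
      rs.Pairwise Rect.Sep → (∀ r ∈ rs, 0 ≤ r.x ∧ 0 ≤ r.y ∧ 0 ≤ r.w ∧ 0 ≤ r.h) →
      (∃ e, TabOK q δ B n RX AX e ∧ ∀ d < n, ∀ r, rs[d]? = some r → r.x + r.w = e d) →
      (∃ e, TabOK q δ B n TY BY e ∧ ∀ d < n, ∀ r, rs[d]? = some r → r.y + r.h = e d) →
      spK q D y rows lrows ms vs wx wy ps (2 ^ n) RX TY AX BY (digs K (q * q) P)
        (digs K (q * q) N) k = true →
      SpOK q D xv lv mv δ (lin q δ yv) B rs ps P N k := by
  induction ps with
  | nil =>
    rintro n B rs RX TY AX BY P N k hc hn hsep hr ⟨ex, hx1, hx2⟩ ⟨ey, hy1, hy2⟩ h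
    obtain ⟨g1, h⟩ := andB_eq_true.1 h
    obtain ⟨g2, h⟩ := andB_eq_true.1 h
    have g1 : orL AX wx + 1 = 2 ^ n := Nat.eq_of_beq_eq_true g1
    have g2 : orL BY wy + 1 = 2 ^ n := Nat.eq_of_beq_eq_true g2
    obtain ⟨W, w1, w2, w3⟩ := maxL_ok hδ (by omega) hx1 wx
    obtain ⟨H, h1, h2, h3⟩ := maxL_ok hδ (by omega) hy1 wy
    rw [w1, h1] at h
    have e0 : toTm [] = Tm.gr 99 0 0 0 := rfl
    have hBc : B * LB ≤ (B + (toTm []).cnt) * LB := Nat.mul_le_mul_right _ (Nat.le_add_right _ _)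
    refine ⟨W, H, P, N, [], h, fun i hi => (w2 i hi).trans hBc, fun i hi => (h2 i hi).trans hBc,
      rfl, by simp, by simp, fun p _ => Nat.le_add_right _ _, fun p _ => Nat.le_add_right _ _, ?_,
      ?_⟩
    · rw [e0]
      intro jn hjn
      rw [Tm.slots, List.mem_singleton] at hjn
      rw [hjn]
      exact Nat.zero_le _
    · intro cs hcs Ls parts k1 k2
      obtain rfl := List.forall₂_nil_right_iff.1 k2
      rw [e0, Tm.slots, List.forall₂_cons_right_iff] at k1
      obtain ⟨L, Ls', ⟨k3, _⟩, k5, rfl⟩ := k1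
      obtain rfl := List.forall₂_nil_right_iff.1 k5
      have k3 : L.length ≤ 0 := k3
      have hL : L = [] := List.length_eq_zero_iff.1 (Nat.le_zero.1 k3)
      subst hL
      simp only [List.flatten_cons, List.flatten_nil, List.append_nil]
      refine packs_rects rs cs hcs hsep fun r hrr => ?_
      obtain ⟨r1, r2, r3, r4⟩ := hr r hrr
      obtain ⟨d, hd⟩ := List.mem_iff_getElem?.1 hrr
      have hdn : d < n := by
        rw [← hn]
        exact (List.getElem?_eq_some_iff.1 hd).1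
      refine ⟨r1, ?_, r2, ?_⟩
      · obtain ⟨t1, d', t2, t3, t4⟩ := orL_ok hx1 wx (n - 1 - d)
          (testBit_pow_sub_one g1 (by omega))
        rw [show n - 1 - (n - 1 - d) = d by omega] at t4
        rw [hx2 d hdn r hd]
        exact t4.trans (w3 d' t2 t3)
      · obtain ⟨t1, d', t2, t3, t4⟩ := orL_ok hy1 wy (n - 1 - d)
          (testBit_pow_sub_one g2 (by omega))
        rw [show n - 1 - (n - 1 - d) = d by omega] at t4
        rw [hy2 d hdn r hd]
        exact t4.trans (h3 d' t2 t3)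
  | cons p ps ih =>
    obtain ⟨px, py, t⟩ := p
    rintro n B rs RX TY AX BY P N k hc hn hsep hr ⟨ex, hx1, hx2⟩ ⟨ey, hy1, hy2⟩ h
    rw [toTm_cons, Tm.cnt] at hc
    obtain ⟨g1, h⟩ := andB_eq_true.1 h
    have g1 : (orL AX px ||| orL BY py) + 1 = 2 ^ n := Nat.eq_of_beq_eq_true g1
    obtain ⟨X, x1, x2, x3⟩ := maxL_ok hδ (by omega) hx1 px
    obtain ⟨Z, z1, z2, z3⟩ := maxL_ok hδ (by omega) hy1 py
    obtain ⟨W, H, P1, N1, Bs, h, a1, a2, a3, a4, a5, a6, a7, a9, a8⟩ :=
      evalK_sound hq hq' hδ hD hD' hy hyl hx hxl hl hll hm t P N _ (by omega) h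
    have e2 : Nat.mul 2 (2 ^ n) = 2 ^ (n + 1) := by
      show 2 * 2 ^ n = 2 ^ (n + 1)
      rw [pow_succ]
      ring
    have h : spK q D y rows lrows ms vs wx wy ps (Nat.mul 2 (2 ^ n))
      ((maxL q RX px + digs K q W) :: RX) ((maxL q TY py + digs K q H) :: TY)
      ((orL AX px ||| 2 ^ n) :: AX) ((orL BY py ||| 2 ^ n) :: BY) (digs K (q * q) P1)
      (digs K (q * q) N1) k = true := h
    rw [e2, x1, z1] at h
    have hW0 := lin_nonneg (q := q) hδ W
    have hH0 := lin_nonneg (q := q) hδ H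
    have hX0 := lin_nonneg (q := q) hδ X
    have hZ0 := lin_nonneg (q := q) hδ Z
    obtain ⟨r0, hr0⟩ : ∃ r0 : Rect, r0 = ⟨lin q δ X, lin q δ Z, lin q δ W, lin q δ H⟩ := ⟨_, rfl⟩
    have s1 : ∀ r ∈ rs, r0.Sep r := by
      intro r hrr
      obtain ⟨d, hd⟩ := List.mem_iff_getElem?.1 hrr
      have hdn : d < n := by
        rw [← hn]
        exact (List.getElem?_eq_some_iff.1 hd).1
      have hb := testBit_pow_sub_one g1 (show n - 1 - d < n by omega)
      rw [Nat.testBit_or, Bool.or_eq_true] at hb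
      rcases hb with hb | hb
      · left
        obtain ⟨t1, d', t2, t3, t4⟩ := orL_ok hx1 px (n - 1 - d) hb
        rw [show n - 1 - (n - 1 - d) = d by omega] at t4
        rw [hx2 d hdn r hd, hr0]
        exact t4.trans (x3 d' t2 t3)
      · right
        obtain ⟨t1, d', t2, t3, t4⟩ := orL_ok hy1 py (n - 1 - d) hb
        rw [show n - 1 - (n - 1 - d) = d by omega] at t4
        rw [hy2 d hdn r hd, hr0]
        exact t4.trans (z3 d' t2 t3)
    have s2 : ∀ r ∈ r0 :: rs, 0 ≤ r.x ∧ 0 ≤ r.y ∧ 0 ≤ r.w ∧ 0 ≤ r.h := by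
      intro r hrr
      rcases List.mem_cons.1 hrr with rfl | hrr
      · rw [hr0]
        exact ⟨hX0, hZ0, hW0, hH0⟩
      · exact hr r hrr
    have s3 : ∀ d < n + 1, ∀ r, (r0 :: rs)[d]? = some r → r.x + r.w =
        (fun d => if d = 0 then lin q δ X + lin q δ W else ex (d - 1)) d := by
      intro d hd r hrd
      cases d with
      | zero =>
        have : r0 = r := by simpa using hrd
        rw [← this, hr0]
        simp
      | succ d =>
        have := hx2 d (by omega) r (by simpa using hrd)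
        simpa using this
    have s4 : ∀ d < n + 1, ∀ r, (r0 :: rs)[d]? = some r → r.y + r.h =
        (fun d => if d = 0 then lin q δ Z + lin q δ H else ey (d - 1)) d := by
      intro d hd r hrd
      cases d with
      | zero =>
        have : r0 = r := by simpa using hrd
        rw [← this, hr0]
        simp
      | succ d =>
        have := hy2 d (by omega) r (by simpa using hrd)
        simpa using this
    obtain ⟨W2, H2, P2, N2, Bs2, h, b1, b2, b3, b4, b5, b6, b7, b9, b8⟩ :=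
      ih (n + 1) (B + t.cnt) (r0 :: rs) _ _ _ _ P1 N1 k (by omega) (by rw [List.length_cons, hn])
        (List.pairwise_cons.2 ⟨s1, hsep⟩) s2
        ⟨_, hx1.cons x2 x3 (fun i hi => (a1 i hi).2) hW0, s3⟩
        ⟨_, hy1.cons z2 z3 (fun i hi => (a2 i hi).2) hH0, s4⟩ h
    have hcc : B + t.cnt + (toTm ps).cnt = B + (t.cnt + (toTm ps).cnt) := by ring
    refine ⟨W2, H2, P2, N2, Bs ++ Bs2, h, ?_, ?_, ?_, ?_, ?_, ?_, ?_, ?_, ?_⟩
    · rw [toTm_cons, Tm.cnt, ← hcc]
      exact b1
    · rw [toTm_cons, Tm.cnt, ← hcc]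
      exact b2
    · rw [List.length_append, a3, b3, toTm_cons, Tm.nb]
    · intro b hb
      rcases List.mem_append.1 hb with hb | hb
      · exact a4 b hb
      · exact b4 b hb
    · rw [List.map_append, List.sum_append, mul_add, a5, b5]
      ring
    · intro p hp
      have := a6 p hp
      have := b6 p hp
      rw [toTm_cons, Tm.cnt, Nat.add_mul]
      omega
    · intro p hp
      have := a7 p hp
      have := b7 p hp
      rw [toTm_cons, Tm.cnt, Nat.add_mul]
      omega
    · rw [toTm_cons, Tm.slots]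
      intro jn hjn
      rcases List.mem_append.1 hjn with hjn | hjn
      · exact a9 jn hjn
      · exact b9 jn hjn
    · intro cs hcs Ls parts g3 g4
      rw [toTm_cons, Tm.slots] at g3
      obtain ⟨L1, L2, rfl, g5, g6⟩ := forall₂_split g3
      obtain ⟨p1, p2, rfl, g7, g8⟩ := forall₂_split g4
      have c1 := a8 L1 p1 g5 g7
      have c2 := b8 ((L1.flatten ++ p1.flatten) :: cs) (List.Forall₂.cons (by
        rw [hr0]
        exact c1) hcs) L2 p2 g6 g8
      refine PacksL.perm ?_ c2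
      rw [List.flatten_cons, List.flatten_append, List.flatten_append]
      have k1 := comb_perm L1.flatten L2.flatten p1.flatten p2.flatten
      have k2 : ((L1.flatten ++ p1.flatten ++ cs.flatten) ++ (L2.flatten ++ p2.flatten)).Perm
          (cs.flatten ++ ((L1.flatten ++ p1.flatten) ++ (L2.flatten ++ p2.flatten))) := by
        rw [← List.append_assoc cs.flatten]
        exact List.perm_append_comm.append_right _
      exact k2.trans (k1.append_left _)

end sp

end Pool.Agent.MOS
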