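import Pool.Agent.Lib.MP_b520b2_co.Cell
import Pool.Agent.Lib.MP_b520b2_co.Seq

/-!
# Squares of differences

An inequality between the values of two matrices is checked entry by entry, after adding squares of
differences of two vectors: `w * (p ⊗ p + m ⊗ m)` on the left and `w * (p ⊗ m + m ⊗ p)` on the
right.
-/

namespace Pool.Agent.MOS

open Finset

/-- a weight and two vectors -/
inductive PE where
  | mk (w p m : ℕ) : PE

/-- one square -/
def psd1 (q w p m n A C : ℕ) (k : ℕ → ℕ → ℕ → Bool) : Bool :=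
  andB (Nat.ble n 255) (andB (Nat.ble w (2 ^ 60))
    (k (Nat.succ n) (Nat.add A (Nat.mul w (Nat.add (sqQ q p) (sqQ q m))))
      (Nat.add C (Nat.mul (Nat.mul 2 w) (outQ q p m)))))

/-- adds squares to the two sides -/
noncomputable def psdGo (q : ℕ) (sp : List PE) : ℕ → ℕ → ℕ → Bool :=
  List.rec (motive := fun _ => ℕ → ℕ → ℕ → Bool) (fun _ A C => leD (mk2 q) A C)
    (fun e _ ih n A C => PE.rec (motive := fun _ => Bool) (fun w p m =>
      psd1 q w (san (lowM q) p) (san (lowM q) m) n A C ih) e) sp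

/-- a bound for the entries -/
def FB : ℕ := 2 ^ 157

section psd

variable {q : ℕ} {δ : ℕ → ℝ}

theorem leM_sound {f h : ℕ → ℕ} (hf : ∀ p < q * q, f p < 2 ^ (K - 1))
    (hh : ∀ p < q * q, h p < 2 ^ (K - 1))
    (H : leD (mk2 q) (digs K (q * q) f) (digs K (q * q) h) = true) (hδ : ∀ i, 0 ≤ δ i) :
    bil q δ f ≤ bil q δ h :=
  bil_mono hδ (le_of_leD K_pos hf hh H)

theorem psdGo_sound' (hq : 2 ≤ q) (hq' : q ≤ 1000) (hδ : ∀ i, 0 ≤ δ i) (sp : List PE) :
    ∀ (n : ℕ) (f h : ℕ → ℕ), (∀ p < q * q, f p ≤ FB + n * 2 ^ 119) →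
      (∀ p < q * q, h p ≤ FB + n * 2 ^ 119) → n ≤ 256 →
      psdGo q sp n (digs K (q * q) f) (digs K (q * q) h) = true → bil q δ f ≤ bil q δ h := by
  have hq0 : 0 < q := by omega
  induction sp with
  | nil =>
    intro n f h hf hh hn H
    have hb : FB + n * 2 ^ 119 < 2 ^ (K - 1) := by
      calc FB + n * 2 ^ 119 ≤ FB + 256 * 2 ^ 119 :=
          Nat.add_le_add_left (Nat.mul_le_mul_right _ hn) _
        _ < 2 ^ (K - 1) := by norm_num [FB, K]
    exact leM_sound (fun p hp => lt_of_le_of_lt (hf p hp) hb)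
      (fun p hp => lt_of_le_of_lt (hh p hp) hb) H hδ
  | cons e sp ih =>
    obtain ⟨w, p, m⟩ := e
    intro n f h hf hh _ H
    obtain ⟨g1, H⟩ := andB_eq_true.1 H
    obtain ⟨g2, H⟩ := andB_eq_true.1 H
    have g1 : n ≤ 255 := Nat.le_of_ble_eq_true g1
    have g2 : w ≤ 2 ^ 60 := Nat.le_of_ble_eq_true g2
    have hs : ∀ a i, i < q → sd a i ≤ WB := fun a i _ => (sd_lt a i).le.trans pow_KAP_le
    have e1 : sqQ q (san (lowM q) p) = digs K (q * q) (sym q (sd p) (sd p)) := by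
      rw [san_eq]
      exact sqQ_eq hq hq' (hs p)
    have e2 : sqQ q (san (lowM q) m) = digs K (q * q) (sym q (sd m) (sd m)) := by
      rw [san_eq]
      exact sqQ_eq hq hq' (hs m)
    have e3 : outQ q (san (lowM q) p) (san (lowM q) m) = digs K (q * q) (sym q (sd p) (sd m)) := by
      rw [san_eq, san_eq]
      exact outQ_eq hq hq' (hs p) (hs m)
    have H : psdGo q sp (n + 1)
      (digs K (q * q) f + w * (sqQ q (san (lowM q) p) + sqQ q (san (lowM q) m)))
      (digs K (q * q) h + 2 * w * outQ q (san (lowM q) p) (san (lowM q) m)) = true := H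
    rw [e1, e2, e3, digs_add, digs_const_mul, digs_const_mul, digs_add, digs_add] at H
    have hsy : ∀ a b, ∀ r < q * q, sym q (sd a) (sd b) r ≤ 2 ^ 57 := by
      intro a b r hr
      refine (sym_le (a := 2 ^ KAP) (b := 2 ^ KAP) (fun i _ => (sd_lt a i).le)
        (fun i _ => (sd_lt b i).le) hr).trans (le_of_eq ?_)
      norm_num [KAP]
    have h1 := ih (n + 1) _ _ (fun r hr => ?_) (fun r hr => ?_) (by omega) H
    · rw [bil_add, bil_const_mul, bil_add, bil_sym hq0, bil_sym hq0, bil_add, bil_const_mul,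
        bil_sym hq0] at h1
      push_cast at h1
      have h2 : 0 ≤ (w : ℝ) * (lin q δ (sd p) - lin q δ (sd m)) ^ 2 :=
        mul_nonneg (Nat.cast_nonneg _) (sq_nonneg _)
      nlinarith
    · have := hf r hr
      have h3 : w * (sym q (sd p) (sd p) r + sym q (sd m) (sd m) r) ≤ 2 ^ 60 * (2 ^ 57 + 2 ^ 57) :=
        Nat.mul_le_mul g2 (Nat.add_le_add (hsy p p r hr) (hsy m m r hr))
      have h4 : (2 : ℕ) ^ 60 * (2 ^ 57 + 2 ^ 57) ≤ 2 ^ 119 := by norm_num
      show f r + w * (sym q (sd p) (sd p) r + sym q (sd m) (sd m) r) ≤ _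
      rw [add_mul, one_mul]
      omega
    · have := hh r hr
      have h3 : 2 * w * sym q (sd p) (sd m) r ≤ 2 * 2 ^ 60 * 2 ^ 57 :=
        Nat.mul_le_mul (Nat.mul_le_mul_left _ g2) (hsy p m r hr)
      have h4 : (2 : ℕ) * 2 ^ 60 * 2 ^ 57 ≤ 2 ^ 119 := by norm_num
      show h r + 2 * w * sym q (sd p) (sd m) r ≤ _
      rw [add_mul, one_mul]
      omega

/-- **Soundness of an inequality with squares.** -/
theorem psdGo_sound (hq : 2 ≤ q) (hq' : q ≤ 1000) (hδ : ∀ i, 0 ≤ δ i) {sp : List PE}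
    {f h : ℕ → ℕ} (hf : ∀ p < q * q, f p ≤ FB) (hh : ∀ p < q * q, h p ≤ FB)
    (H : psdGo q sp 0 (digs K (q * q) f) (digs K (q * q) h) = true) : bil q δ f ≤ bil q δ h :=
  psdGo_sound' hq hq' hδ sp 0 f h (fun p hp => by have := hf p hp; omega)
    (fun p hp => by have := hh p hp; omega) (by omega) H

end psd

end Pool.Agent.MOS
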