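import Pool.Agent.Lib.MP_b520b2_co.Tmpl

/-!
# Every square of a group gets a place

`ordT t 0` is a number whose digits are the number of blocks and, for every group, the number of
places in the template `t`; the slots with a position are in order.
-/

namespace Pool.Agent.MOS

open Finset

set_option exponentiation.threshold 1000 in
/-- the unit of the number of leaves in `ordT` -/
@[irreducible] def TC : ℕ := 2 ^ 640

theorem TC_eq : TC = 2 ^ (20 * 32) := by
  rw [TC]

theorem TC_pos : 0 < TC := by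
  rw [TC_eq]
  exact Nat.two_pow_pos _

set_option exponentiation.threshold 1000 in
/-- the sign of an error in `ordT` -/
@[irreducible] def FLAG : ℕ := 2 ^ 700

theorem FLAG_eq : FLAG = 2 ^ 60 * TC := by
  rw [FLAG, TC_eq, ← pow_add]

/-- the number of squares of group `j` in the packed counts `acc` -/
def cnt20 (acc j : ℕ) : ℕ := Nat.land (Nat.shiftRight acc (Nat.mul 20 (Nat.succ j))) 1048575

/-- packed counts of a part of a group -/
def ordP (j i n acc : ℕ) : ℕ :=
  Bool.rec (motive := fun _ => ℕ) (Nat.add acc (Nat.add TC FLAG))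
    (Nat.add acc (Nat.add (Nat.mul n (Nat.pow 2 (Nat.mul 20 (Nat.succ j)))) TC))
    (Nat.beq (cnt20 acc j) i)

/-- packed counts -/
noncomputable def ordT (t : Tm) : ℕ → ℕ :=
  Tm.rec (motive := fun _ => ℕ → ℕ)
    (fun j acc => Nat.add acc (Nat.add (Nat.pow 2 (Nat.mul 20 (Nat.succ j))) TC))
    (fun j _ _ n acc => Nat.add acc (Nat.add (Nat.mul n (Nat.pow 2 (Nat.mul 20 (Nat.succ j)))) TC))
    (fun j n acc => Nat.add acc (Nat.add (Nat.mul n (Nat.pow 2 (Nat.mul 20 (Nat.succ j)))) TC))
    (fun j n acc => Nat.add acc (Nat.add (Nat.mul n (Nat.pow 2 (Nat.mul 20 (Nat.succ j)))) TC))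
    (fun j i n _ _ acc => ordP j i n acc)
    (fun j i n _ _ acc => ordP j i n acc)
    (fun _ _ _ _ acc => Nat.add acc (Nat.succ TC))
    (fun _ _ r r' acc => r' (r acc))
    (fun _ _ r r' acc => r' (r acc))
    (fun _ _ _ _ r r' acc => Nat.add (r' (r acc)) (Nat.succ TC))
    (fun _ _ _ _ r r' acc => Nat.add (r' (r acc)) (Nat.succ TC))
    (fun _ _ _ _ r acc => Nat.add (r acc) (Nat.succ TC))
    (fun _ _ _ _ r acc => Nat.add (r acc) (Nat.succ TC))
    t

/-- the number of places for group `j` -/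
def places (S : List (ℕ × ℕ × ℕ)) (j : ℕ) : ℕ :=
  (S.map fun jn => if jn.1 = j then jn.2.2 else 0).sum

theorem places_cons (a : ℕ × ℕ × ℕ) (S : List (ℕ × ℕ × ℕ)) (j : ℕ) :
    places (a :: S) j = (if a.1 = j then a.2.2 else 0) + places S j := by
  simp [places]

theorem places_append (S S' : List (ℕ × ℕ × ℕ)) (j : ℕ) :
    places (S ++ S') j = places S j + places S' j := by
  simp [places]

/-- The slots with a position are in order; `pre j` is the number of earlier squares of group `j`. -/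
def OrdOK : List (ℕ × ℕ × ℕ) → (ℕ → ℕ) → Prop
  | [], _ => True
  | a :: S, pre => (∀ i, a.2.1 = i + 1 → a.1 < 31 → pre a.1 = i) ∧
      OrdOK S (fun j => pre j + if a.1 = j then a.2.2 else 0)

theorem ordOK_append (S S' : List (ℕ × ℕ × ℕ)) : ∀ pre : ℕ → ℕ, OrdOK S pre →
    OrdOK S' (fun j => pre j + places S j) → OrdOK (S ++ S') pre := by
  induction S with
  | nil =>
    intro pre _ h
    simpa [places] using h
  | cons a S ih =>
    rintro pre ⟨h1, h2⟩ h
    refine ⟨h1, ih _ h2 ?_⟩
    have e : (fun j => pre j + places (a :: S) j) =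
        fun j => (pre j + if a.1 = j then a.2.2 else 0) + places S j := by
      funext j
      rw [places_cons]
      ring
    rw [← e]
    exact h

/-- the packed number -/
@[irreducible] def pkd (b : ℕ) (pre : ℕ → ℕ) (R : ℕ) : ℕ :=
  b + (∑ j ∈ range 31, pre j * 2 ^ (20 * (j + 1))) + R * TC

theorem pkd_eq (b : ℕ) (pre : ℕ → ℕ) (R : ℕ) :
    pkd b pre R = digs 20 32 (fun i => if i = 0 then b else pre (i - 1)) + 2 ^ (20 * 32) * R := by
  rw [pkd, digs, sum_range_succ' _ 31, TC_eq]
  simp only [Nat.add_eq_zero_iff, one_ne_zero, and_false, if_false, Nat.add_sub_cancel, if_true,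
    mul_zero, pow_zero, mul_one]
  ring

theorem digs_digit {k n : ℕ} {f : ℕ → ℕ} (hf : ∀ i < n, f i < 2 ^ k) {i : ℕ} (hi : i < n)
    (R : ℕ) : (digs k n f + 2 ^ (k * n) * R) / 2 ^ (k * i) % 2 ^ k = f i := by
  induction i generalizing n f with
  | zero =>
    obtain ⟨n, rfl⟩ : ∃ m, n = m + 1 := ⟨n - 1, by omega⟩
    rw [mul_zero, pow_zero, Nat.div_one, digs_succ', mul_add, mul_one, pow_add]
    have : f 0 + 2 ^ k * digs k n (fun i => f (i + 1)) + 2 ^ (k * n) * 2 ^ k * R =
        f 0 + 2 ^ k * (digs k n (fun i => f (i + 1)) + 2 ^ (k * n) * R) := by ring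
    rw [this, Nat.add_mul_mod_self_left, Nat.mod_eq_of_lt (hf 0 hi)]
  | succ i ih =>
    obtain ⟨n, rfl⟩ : ∃ m, n = m + 1 := ⟨n - 1, by omega⟩
    rw [digs_succ']
    have : f 0 + 2 ^ k * digs k n (fun i => f (i + 1)) + 2 ^ (k * (n + 1)) * R =
        f 0 + 2 ^ k * (digs k n (fun i => f (i + 1)) + 2 ^ (k * n) * R) := by
      rw [mul_add k n 1, mul_one, pow_add]
      ring
    rw [this, mul_add k i 1, mul_one, add_comm (k * i), pow_add, ← Nat.div_div_eq_div_mul,
      Nat.add_mul_div_left _ _ (Nat.two_pow_pos k), Nat.div_eq_of_lt (hf 0 (Nat.succ_pos n)),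
      zero_add]
    exact ih (fun i hi => hf (i + 1) (by omega)) (by omega)

theorem cnt20_pkd {b : ℕ} {pre : ℕ → ℕ} {R j : ℕ} (hb : b < 2 ^ 20) (hp : ∀ j < 31, pre j < 2 ^ 20)
    (hj : j < 31) : cnt20 (pkd b pre R) j = pre j := by
  show ((pkd b pre R) >>> (20 * (j + 1))) &&& 1048575 = pre j
  rw [show (1048575 : ℕ) = 2 ^ 20 - 1 by norm_num, Nat.and_two_pow_sub_one_eq_mod,
    Nat.shiftRight_eq_div_pow, pkd_eq, digs_digit _ (by omega)]
  · simp
  · intro i hi
    split_ifs
    · exact hb
    · exact hp _ (by omega)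

/-- adding places -/
theorem pkd_slot (b : ℕ) (pre : ℕ → ℕ) (R j n : ℕ) :
    ∃ R', pkd b pre R + (n * 2 ^ (20 * (j + 1)) + TC) =
      pkd b (fun i => pre i + if j = i then n else 0) (R + 1 + R') := by
  by_cases hj : j < 31
  · refine ⟨0, ?_⟩
    have h2 : ∀ i ∈ range 31, (pre i + if j = i then n else 0) * 2 ^ (20 * (i + 1)) =
        pre i * 2 ^ (20 * (i + 1)) + if j = i then n * 2 ^ (20 * (i + 1)) else 0 := by
      intro i _
      split_ifs <;> ring
    rw [pkd, pkd, sum_congr rfl h2, sum_add_distrib, sum_ite_eq, if_pos (mem_range.2 hj)]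
    ring
  · refine ⟨n * 2 ^ (20 * (j + 1) - 640), ?_⟩
    have h1 : ∀ i ∈ range 31, (pre i + if j = i then n else 0) * 2 ^ (20 * (i + 1)) =
        pre i * 2 ^ (20 * (i + 1)) := by
      intro i hi
      rw [mem_range] at hi
      rw [if_neg (by omega), add_zero]
    have h2 : 2 ^ (20 * (j + 1)) = TC * 2 ^ (20 * (j + 1) - 640) := by
      obtain ⟨r, hr⟩ : ∃ r, 20 * (j + 1) = 20 * 32 + r := ⟨20 * (j + 1) - 640, by omega⟩
      have hr' : 20 * (j + 1) - 640 = r := by omega
      rw [hr', TC_eq, hr, pow_add]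
    rw [pkd, pkd, sum_congr rfl h1, h2]
    ring

theorem ordP_ge (j i n acc : ℕ) : acc + TC ≤ ordP j i n acc := by
  rw [ordP]
  cases Nat.beq (cnt20 acc j) i
  · show acc + TC ≤ acc + (TC + FLAG)
    omega
  · show acc + TC ≤ acc + (n * 2 ^ (20 * (j + 1)) + TC)
    omega

theorem ordT_ge (t : Tm) : ∀ acc, acc + t.cnt * TC ≤ ordT t acc := by
  induction t with
  | sq j =>
    intro acc
    show acc + 1 * TC ≤ acc + (2 ^ (20 * (j + 1)) + TC)
    have := Nat.zero_le (2 ^ (20 * (j + 1)))
    rw [one_mul]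
    exact Nat.add_le_add_left (Nat.le_add_left _ _) _
  | gr j c1 c2 n =>
    intro acc
    show acc + 1 * TC ≤ acc + (n * 2 ^ (20 * (j + 1)) + TC)
    omega
  | rn j n =>
    intro acc
    show acc + 1 * TC ≤ acc + (n * 2 ^ (20 * (j + 1)) + TC)
    omega
  | rc j n =>
    intro acc
    show acc + 1 * TC ≤ acc + (n * 2 ^ (20 * (j + 1)) + TC)
    omega
  | rp j i n fw fh =>
    intro acc
    rw [Tm.cnt, one_mul]
    exact ordP_ge j i n acc
  | cp j i n fw fh =>
    intro acc
    rw [Tm.cnt, one_mul]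
    exact ordP_ge j i n acc
  | bk kd e a b =>
    intro acc
    show acc + 1 * TC ≤ acc + (TC + 1)
    omega
  | hh t t' ih ih' =>
    intro acc
    have h1 := ih acc
    have h2 : ordT t acc + t'.cnt * TC ≤ ordT (.hh t t') acc := ih' (ordT t acc)
    rw [Tm.cnt, add_mul]
    omega
  | vv t t' ih ih' =>
    intro acc
    have h1 := ih acc
    have h2 : ordT t acc + t'.cnt * TC ≤ ordT (.vv t t') acc := ih' (ordT t acc)
    rw [Tm.cnt, add_mul]
    omega
  | hf kd e t t' ih ih' =>
    intro acc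
    have h1 := ih acc
    have h2 := ih' (ordT t acc)
    show _ ≤ ordT t' (ordT t acc) + (TC + 1)
    rw [Tm.cnt, add_mul, add_mul, one_mul]
    omega
  | vf kd e t t' ih ih' =>
    intro acc
    have h1 := ih acc
    have h2 := ih' (ordT t acc)
    show _ ≤ ordT t' (ordT t acc) + (TC + 1)
    rw [Tm.cnt, add_mul, add_mul, one_mul]
    omega
  | hs kd e b t ih =>
    intro acc
    have h1 := ih acc
    show _ ≤ ordT t acc + (TC + 1)
    rw [Tm.cnt, add_mul, one_mul]
    omega
  | vs kd e b t ih =>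
    intro acc
    have h1 := ih acc
    show _ ≤ ordT t acc + (TC + 1)
    rw [Tm.cnt, add_mul, one_mul]
    omega

theorem nb_le_cnt (t : Tm) : t.nb + t.slots.length ≤ t.cnt := by
  induction t <;> simp only [Tm.nb, Tm.slots, Tm.cnt, List.length_append, List.length_cons,
    List.length_nil] <;> omega

theorem places_le {S : List (ℕ × ℕ × ℕ)} {b : ℕ} (h : ∀ jn ∈ S, jn.2.2 ≤ b) (j : ℕ) :
    places S j ≤ S.length * b := by
  induction S with
  | nil => simp [places]
  | cons a S ih =>
    rw [places_cons, List.length_cons, add_mul, one_mul]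
    have h1 := ih fun jn hjn => h jn (List.mem_cons_of_mem _ hjn)
    have h2 := h a List.mem_cons_self
    split_ifs <;> omega

theorem ordT_hh (t t' : Tm) (acc : ℕ) : ordT (.hh t t') acc = ordT t' (ordT t acc) := rfl

theorem ordT_vv (t t' : Tm) (acc : ℕ) : ordT (.vv t t') acc = ordT t' (ordT t acc) := rfl

theorem ordT_hf (kd e : ℕ) (t t' : Tm) (acc : ℕ) :
    ordT (.hf kd e t t') acc = ordT t' (ordT t acc) + (TC + 1) := rfl

theorem ordT_vf (kd e : ℕ) (t t' : Tm) (acc : ℕ) :
    ordT (.vf kd e t t') acc = ordT t' (ordT t acc) + (TC + 1) := rfl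

theorem ordT_hs (kd e b : ℕ) (t : Tm) (acc : ℕ) :
    ordT (.hs kd e b t) acc = ordT t acc + (TC + 1) := rfl

theorem ordT_vs (kd e b : ℕ) (t : Tm) (acc : ℕ) :
    ordT (.vs kd e b t) acc = ordT t acc + (TC + 1) := rfl

/-- the state after a template -/
def Aft (t : Tm) (b : ℕ) (pre : ℕ → ℕ) (R : ℕ) : Prop :=
  ∃ R', ordT t (pkd b pre R) = pkd (b + t.nb) (fun j => pre j + places t.slots j)
    (R + t.cnt + R') ∧ OrdOK t.slots pre

theorem aft_slot (t : Tm) (j n : ℕ) (b : ℕ) (pre : ℕ → ℕ) (R : ℕ)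
    (h1 : ordT t (pkd b pre R) = pkd b pre R + (n * 2 ^ (20 * (j + 1)) + TC)) (h2 : t.nb = 0)
    (h3 : t.cnt = 1) {o : ℕ} (h4 : t.slots = [(j, o, n)])
    (h5 : ∀ i, o = i + 1 → j < 31 → pre j = i) : Aft t b pre R := by
  obtain ⟨R', hR'⟩ := pkd_slot b pre R j n
  refine ⟨R', ?_, ?_⟩
  · rw [h1, hR', h2, h3, h4]
    simp [places]
  · rw [h4]
    exact ⟨h5, trivial⟩

theorem ordT_spec (t : Tm) : ∀ (b : ℕ) (pre : ℕ → ℕ) (R : ℕ), b + t.nb < 2 ^ 20 →
    (∀ j < 31, pre j + places t.slots j < 2 ^ 20) → ordT t (pkd b pre R) < FLAG →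
    Aft t b pre R := by
  have hflag : ∀ (acc X : ℕ), acc + (TC + FLAG) = X → ¬ X < FLAG := by
    intro acc X h1
    omega
  have key : ∀ (t : Tm) (j i n : ℕ) (b : ℕ) (pre : ℕ → ℕ) (R : ℕ),
      (∀ acc, ordT t acc = ordP j i n acc) → t.nb = 0 → t.cnt = 1 → t.slots = [(j, i + 1, n)] →
      b < 2 ^ 20 → (∀ j < 31, pre j < 2 ^ 20) → ordT t (pkd b pre R) < FLAG → Aft t b pre R := by
    intro t j i n b pre R h1 h2 h3 h4 hb hp h5
    rw [h1, ordP] at h5
    by_cases hc : cnt20 (pkd b pre R) j = i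
    · refine aft_slot t j n b pre R ?_ h2 h3 h4 ?_
      · rw [h1, ordP, hc, Nat.beq_refl]
        rfl
      · intro i' hi' hj
        have : i' = i := by omega
        rw [this, ← hc, cnt20_pkd hb hp hj]
    · exfalso
      have hbf : Nat.beq (cnt20 (pkd b pre R) j) i = false := by
        cases hb : Nat.beq (cnt20 (pkd b pre R) j) i
        · rfl
        · exact absurd (Nat.eq_of_beq_eq_true hb) hc
      rw [hbf] at h5
      exact hflag _ _ rfl h5
  induction t with
  | sq j =>
    intro b pre R _ _ _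
    refine aft_slot _ j 1 b pre R ?_ rfl rfl rfl (by simp)
    show _ + (2 ^ (20 * (j + 1)) + TC) = _
    rw [one_mul]
  | gr j c1 c2 n =>
    intro b pre R _ _ _
    exact aft_slot _ j n b pre R rfl rfl rfl rfl (by simp)
  | rn j n =>
    intro b pre R _ _ _
    exact aft_slot _ j n b pre R rfl rfl rfl rfl (by simp)
  | rc j n =>
    intro b pre R _ _ _
    exact aft_slot _ j n b pre R rfl rfl rfl rfl (by simp)
  | rp j i n fw fh =>
    intro b pre R hb hp h
    exact key _ j i n b pre R (fun _ => rfl) rfl rfl rfl hb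
      (fun j hj => lt_of_le_of_lt (Nat.le_add_right _ _) (hp j hj)) h
  | cp j i n fw fh =>
    intro b pre R hb hp h
    exact key _ j i n b pre R (fun _ => rfl) rfl rfl rfl hb
      (fun j hj => lt_of_le_of_lt (Nat.le_add_right _ _) (hp j hj)) h
  | bk kd e a b' =>
    intro b pre R _ _ _
    refine ⟨0, ?_, trivial⟩
    show pkd b pre R + (TC + 1) = _
    rw [pkd, pkd, Tm.nb, Tm.cnt]
    simp only [Tm.slots, places, List.map_nil, List.sum_nil, add_zero]
    ring
  | hh t t' ih ih' =>
    intro b pre R hb hp h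
    rw [Tm.nb] at hb
    rw [Tm.slots] at hp
    simp only [places_append] at hp
    rw [ordT_hh] at h
    obtain ⟨R1, h1, h2⟩ := ih b pre R (by omega) (fun j hj => by have := hp j hj; omega)
      (lt_of_le_of_lt ((Nat.le_add_right _ _).trans (ordT_ge t' _)) h)
    rw [h1] at h
    obtain ⟨R2, h3, h4⟩ := ih' _ _ _ (by omega) (fun j hj => by have := hp j hj; omega) h
    refine ⟨R1 + R2, ?_, ordOK_append _ _ _ h2 h4⟩
    rw [ordT_hh, h1, h3, Tm.nb, Tm.cnt, Tm.slots]
    simp only [places_append, pkd]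
    have e : ∀ j, pre j + places t.slots j + places t'.slots j =
        pre j + (places t.slots j + places t'.slots j) := fun j => add_assoc _ _ _
    simp only [e]
    ring
  | vv t t' ih ih' =>
    intro b pre R hb hp h
    rw [Tm.nb] at hb
    rw [Tm.slots] at hp
    simp only [places_append] at hp
    rw [ordT_vv] at h
    obtain ⟨R1, h1, h2⟩ := ih b pre R (by omega) (fun j hj => by have := hp j hj; omega)
      (lt_of_le_of_lt ((Nat.le_add_right _ _).trans (ordT_ge t' _)) h)
    rw [h1] at h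
    obtain ⟨R2, h3, h4⟩ := ih' _ _ _ (by omega) (fun j hj => by have := hp j hj; omega) h
    refine ⟨R1 + R2, ?_, ordOK_append _ _ _ h2 h4⟩
    rw [ordT_vv, h1, h3, Tm.nb, Tm.cnt, Tm.slots]
    simp only [places_append, pkd]
    have e : ∀ j, pre j + places t.slots j + places t'.slots j =
        pre j + (places t.slots j + places t'.slots j) := fun j => add_assoc _ _ _
    simp only [e]
    ring
  | hf kd e t t' ih ih' =>
    intro b pre R hb hp h
    rw [Tm.nb] at hb
    rw [Tm.slots] at hp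
    simp only [places_append] at hp
    rw [ordT_hf] at h
    obtain ⟨R1, h1, h2⟩ := ih b pre R (by omega) (fun j hj => by have := hp j hj; omega)
      (lt_of_le_of_lt ((Nat.le_add_right _ _).trans ((ordT_ge t' _).trans
        (Nat.le_add_right _ _))) h)
    rw [h1] at h
    obtain ⟨R2, h3, h4⟩ := ih' _ _ _ (by omega) (fun j hj => by have := hp j hj; omega)
      (lt_of_le_of_lt (Nat.le_add_right _ _) h)
    refine ⟨R1 + R2, ?_, ordOK_append _ _ _ h2 h4⟩
    rw [ordT_hf, h1, h3, Tm.nb, Tm.cnt, Tm.slots]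
    simp only [places_append, pkd]
    have e : ∀ j, pre j + places t.slots j + places t'.slots j =
        pre j + (places t.slots j + places t'.slots j) := fun j => add_assoc _ _ _
    simp only [e]
    ring
  | vf kd e t t' ih ih' =>
    intro b pre R hb hp h
    rw [Tm.nb] at hb
    rw [Tm.slots] at hp
    simp only [places_append] at hp
    rw [ordT_vf] at h
    obtain ⟨R1, h1, h2⟩ := ih b pre R (by omega) (fun j hj => by have := hp j hj; omega)
      (lt_of_le_of_lt ((Nat.le_add_right _ _).trans ((ordT_ge t' _).trans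
        (Nat.le_add_right _ _))) h)
    rw [h1] at h
    obtain ⟨R2, h3, h4⟩ := ih' _ _ _ (by omega) (fun j hj => by have := hp j hj; omega)
      (lt_of_le_of_lt (Nat.le_add_right _ _) h)
    refine ⟨R1 + R2, ?_, ordOK_append _ _ _ h2 h4⟩
    rw [ordT_vf, h1, h3, Tm.nb, Tm.cnt, Tm.slots]
    simp only [places_append, pkd]
    have e : ∀ j, pre j + places t.slots j + places t'.slots j =
        pre j + (places t.slots j + places t'.slots j) := fun j => add_assoc _ _ _
    simp only [e]
    ring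
  | hs kd e b' t ih =>
    intro b pre R hb hp h
    rw [Tm.nb] at hb
    rw [Tm.slots] at hp
    rw [ordT_hs] at h
    obtain ⟨R1, h1, h2⟩ := ih b pre R (by omega) hp (lt_of_le_of_lt (Nat.le_add_right _ _) h)
    refine ⟨R1, ?_, h2⟩
    rw [ordT_hs, h1, Tm.nb, Tm.cnt, Tm.slots]
    simp only [pkd]
    ring
  | vs kd e b' t ih =>
    intro b pre R hb hp h
    rw [Tm.nb] at hb
    rw [Tm.slots] at hp
    rw [ordT_vs] at h
    obtain ⟨R1, h1, h2⟩ := ih b pre R (by omega) hp (lt_of_le_of_lt (Nat.le_add_right _ _) h)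
    refine ⟨R1, ?_, h2⟩
    rw [ordT_vs, h1, Tm.nb, Tm.cnt, Tm.slots]
    simp only [pkd]
    ring

/-- The counts are read off from `ordT`. -/
theorem counts {t : Tm} {nb cnt : ℕ} {ms : ℕ → ℕ} (hnb : nb ≤ 63) (hcnt : cnt ≤ 63)
    (hms : ∀ j < 31, ms j ≤ 961)
    (hT : ordT t 0 = nb + (∑ j ∈ range 31, ms j * 2 ^ (20 * (j + 1))) + cnt * TC) :
    t.cnt ≤ 63 ∧ ((∀ jn ∈ t.slots, jn.2.2 ≤ 961) → t.nb = nb ∧
      (∀ j < 31, places t.slots j = ms j) ∧ OrdOK t.slots (fun _ => 0)) := by
  have h0 : digs 20 32 (fun i => if i = 0 then nb else ms (i - 1)) < TC := by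
    rw [TC_eq]
    apply digs_lt
    intro i hi
    split_ifs with h
    · omega
    · have := hms (i - 1) (by omega)
      omega
  have hT' : ordT t 0 = digs 20 32 (fun i => if i = 0 then nb else ms (i - 1)) + TC * cnt := by
    rw [hT]
    have := pkd_eq nb ms cnt
    rw [pkd] at this
    rw [this, TC_eq]
  have hlt : ordT t 0 < 64 * TC := by
    rw [hT']
    have : TC * cnt ≤ TC * 63 := Nat.mul_le_mul_left _ hcnt
    omega
  have hc : t.cnt ≤ 63 := by
    by_contra hcon
    have h1 := ordT_ge t 0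
    have h2 : 64 * TC ≤ t.cnt * TC := Nat.mul_le_mul_right _ (by omega)
    omega
  refine ⟨hc, fun hs => ?_⟩
  have hb := nb_le_cnt t
  have hp : ∀ j, places t.slots j < 2 ^ 20 := by
    intro j
    calc places t.slots j ≤ t.slots.length * 961 := places_le hs j
      _ ≤ 63 * 961 := Nat.mul_le_mul_right _ (by omega)
      _ < 2 ^ 20 := by norm_num
  have e0 : (0 : ℕ) = pkd 0 (fun _ => 0) 0 := by simp [pkd]
  have hfl : ordT t (pkd 0 (fun _ => 0) 0) < FLAG := by
    rw [← e0, FLAG_eq]
    have : 64 * TC ≤ 2 ^ 60 * TC := Nat.mul_le_mul_right _ (by norm_num)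
    omega
  obtain ⟨R, hR, hO⟩ := ordT_spec t 0 (fun _ => 0) 0 (by omega) (fun j _ => by
    rw [zero_add]
    exact hp j) hfl
  rw [← e0, pkd_eq, hT', ← TC_eq] at hR
  simp only [zero_add] at hR
  have h1 : digs 20 32 (fun i => if i = 0 then t.nb else places t.slots (i - 1)) < TC := by
    rw [TC_eq]
    apply digs_lt
    intro i _
    split_ifs
    · omega
    · exact hp _
  have h2 : digs 20 32 (fun i => if i = 0 then nb else ms (i - 1)) =
      digs 20 32 (fun i => if i = 0 then t.nb else places t.slots (i - 1)) := by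
    have h3 := congrArg (· % TC) hR
    simpa [Nat.add_mul_mod_self_left, Nat.mod_eq_of_lt h1, Nat.mod_eq_of_lt h0] using h3
  have h3 := digs_inj (k := 20) (n := 32) (fun i hi => by
    split_ifs with h
    · omega
    · have := hms (i - 1) (by omega)
      omega) (fun i _ => by
    split_ifs
    · omega
    · exact hp _) h2
  refine ⟨by simpa using (h3 0 (by norm_num)).symm, fun j hj => ?_, hO⟩
  have := h3 (j + 1) (by omega)
  simpa using this.symm

/-- what is known about a group -/
def GroupOK (q : ℕ) (xv lv : ℕ → ℕ → ℕ) (mv : ℕ → ℕ) (δ : ℕ → ℝ) (j : ℕ) (L : List ℝ) : Prop :=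
  (∀ s ∈ L, 0 ≤ s ∧ s ≤ lin q δ (xv j)) ∧ L.sum ≤ lin q δ (lv j) ∧
    ∀ i n, PosOK q xv lv mv δ j i n ((L.drop i).take n)

/-- the squares are distributed to the places -/
theorem assign {q : ℕ} {xv lv : ℕ → ℕ → ℕ} {mv : ℕ → ℕ} {δ : ℕ → ℝ} {F : ℕ → List ℝ}
    (hF : ∀ j, GroupOK q xv lv mv δ j (F j)) (hF31 : ∀ j, 31 ≤ j → F j = [])
    (S : List (ℕ × ℕ × ℕ)) :
    ∀ pre : ℕ → ℕ, (∀ j, ((F j).drop (pre j)).length ≤ places S j) → OrdOK S pre →
    ∃ Ls : List (List ℝ), List.Forall₂ (SlotOK q xv lv mv δ) Ls S ∧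
      ∀ M, (∀ j, M ≤ j → F j = []) →
        (Ls.flatten : Multiset ℝ) = ∑ j ∈ range M, ((F j).drop (pre j) : Multiset ℝ) := by
  induction S with
  | nil =>
    intro pre h1 _
    refine ⟨[], List.Forall₂.nil, fun M _ => ?_⟩
    have : ∀ j ∈ range M, ((F j).drop (pre j) : Multiset ℝ) = 0 := by
      intro j _
      have := h1 j
      simp only [places, List.map_nil, List.sum_nil, Nat.le_zero, List.length_eq_zero_iff] at this
      rw [this]
      rfl
    rw [sum_eq_zero this]
    rfl
  | cons a S ih =>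
    intro pre h1 h2
    obtain ⟨j0, o, n⟩ := a
    obtain ⟨h2, h3⟩ := h2
    have h2 : ∀ i, o = i + 1 → j0 < 31 → pre j0 = i := h2
    have hd : ∀ j, (F j).drop (pre j + if j0 = j then n else 0) =
        if j0 = j then ((F j).drop (pre j)).drop n else (F j).drop (pre j) := by
      intro j
      split_ifs
      · rw [List.drop_drop]
      · rw [add_zero]
    obtain ⟨Ls, h4, h5⟩ := ih (fun j => pre j + if j0 = j then n else 0) (by
      intro j
      have := h1 j
      rw [places_cons] at this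
      rw [hd]
      split_ifs with h6
      · rw [if_pos h6] at this
        rw [List.length_drop]
        have : ((F j).drop (pre j)).length ≤ n + places S j := this
        omega
      · rw [if_neg h6, zero_add] at this
        exact this) h3
    have hnn : ∀ T : List ℝ, (∀ s ∈ T, s ∈ F j0) → 0 ≤ T.sum := fun T hT =>
      List.sum_nonneg fun s hs => ((hF j0).1 s (hT s hs)).1
    refine ⟨((F j0).drop (pre j0)).take n :: Ls, List.Forall₂.cons ⟨?_, ?_, ?_, ?_⟩ h4, ?_⟩
    · rw [List.length_take]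
      exact min_le_left _ _
    · exact fun s hs => (hF j0).1 s (List.mem_of_mem_drop (List.mem_of_mem_take hs))
    · refine le_trans ?_ (hF j0).2.1
      have e1 : (F j0).sum = ((F j0).take (pre j0)).sum + ((F j0).drop (pre j0)).sum := by
        rw [← List.sum_append, List.take_append_drop]
      have e2 : ((F j0).drop (pre j0)).sum = (((F j0).drop (pre j0)).take n).sum +
          (((F j0).drop (pre j0)).drop n).sum := by
        rw [← List.sum_append, List.take_append_drop]
      have n1 := hnn ((F j0).take (pre j0)) fun s hs => List.mem_of_mem_take hs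
      have n2 := hnn (((F j0).drop (pre j0)).drop n) fun s hs =>
        List.mem_of_mem_drop (List.mem_of_mem_drop hs)
      linarith
    · intro i hi
      have hi : o = i + 1 := hi
      show PosOK q xv lv mv δ j0 i n (((F j0).drop (pre j0)).take n)
      by_cases hj : j0 < 31
      · rw [h2 i hi hj]
        exact (hF j0).2.2 i n
      · have h6 := (hF j0).2.2 i n
        rw [hF31 j0 (by omega)] at h6 ⊢
        simpa using h6
    · intro M hM
      have h6 := h5 M hM
      rw [List.flatten_cons, ← Multiset.coe_add, h6]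
      simp only [hd]
      by_cases hj : j0 < M
      · rw [← add_sum_erase (range M) _ (mem_range.2 hj),
          ← add_sum_erase (range M) (fun j => (((F j).drop (pre j) : List ℝ) : Multiset ℝ))
            (mem_range.2 hj), ← add_assoc]
        congr 1
        · rw [if_pos rfl, Multiset.coe_add, List.take_append_drop]
        · apply sum_congr rfl
          intro j hj'
          rw [if_neg (fun h => ne_of_mem_erase hj' h.symm)]
      · have e0 : F j0 = [] := hM j0 (not_lt.1 hj)
        rw [e0, List.drop_nil, List.take_nil]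
        have : ((([] : List ℝ)) : Multiset ℝ) = 0 := rfl
        rw [this, zero_add]
        apply sum_congr rfl
        intro j hj'
        rw [mem_range] at hj'
        rw [if_neg (by omega)]

end Pool.Agent.MOS
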