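import Pool.Agent.Lib.MP_b520b2_co.Vec
import Pool.Agent.Lib.MP_b520b2_co.MeirMoser

/-!
# Packing templates

The squares are divided into groups of consecutive squares and a tail.  A cell is a cone of vectors
`(u_0, L_0, …, u_(m-1), L_(m-1), y, s)`: `u_j` is the first side of the group `j`, `L_j` the sum of
the sides, `y` the first side of the tail.  A template is a guillotine tree; its leaves
are squares, grids of equal squares and blocks for the tail.  `evalK` computes (packed) the widths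
and heights at the rays of the cell and the capacity of the blocks.
-/

namespace Pool.Agent.MOS

open Finset

/-- guillotine trees -/
inductive Tm where
  /-- one square of group `j` -/
  | sq (j : ℕ) : Tm
  /-- `n ≤ (c1 + 1) * (c2 + 1)` squares of group `j` in a `(c1 + 1) × (c2 + 1)` grid -/
  | gr (j c1 c2 n : ℕ) : Tm
  /-- `n` squares of group `j` in a row -/
  | rn (j n : ℕ) : Tm
  /-- `n` squares of group `j` in a column -/
  | rc (j n : ℕ) : Tm
  /-- the squares `i, …, i + n - 1` of group `j` in a row; `fw` and `fh` choose the bounds -/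
  | rp (j i n fw fh : ℕ) : Tm
  /-- the squares `i, …, i + n - 1` of group `j` in a column -/
  | cp (j i n fw fh : ℕ) : Tm
  /-- a block for the tail -/
  | bk (kd e a b : ℕ) : Tm
  /-- side by side -/
  | hh (t t' : Tm) : Tm
  /-- one above the other -/
  | vv (t t' : Tm) : Tm
  /-- side by side, and a block above `t'` -/
  | hf (kd e : ℕ) (t t' : Tm) : Tm
  /-- one above the other, and a block to the right of `t'` -/
  | vf (kd e : ℕ) (t t' : Tm) : Tm
  /-- `t` and a block to its right -/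
  | hs (kd e b : ℕ) (t : Tm) : Tm
  /-- `t` and a block above -/
  | vs (kd e b : ℕ) (t : Tm) : Tm

/-- conjunction, in a form the kernel evaluates fast -/
def andB (a b : Bool) : Bool := Bool.rec (motive := fun _ => Bool) false b a

theorem andB_eq_true {a b : Bool} : andB a b = true ↔ a = true ∧ b = true := by
  cases a <;> cases b <;> simp [andB]

/-- the `n`-th entry of a list, or `d` -/
def nthR (d : ℕ) (l : List ℕ) : ℕ → ℕ :=
  List.rec (motive := fun _ => ℕ → ℕ) (fun _ => d)
    (fun a _ ih n => Nat.rec (motive := fun _ => ℕ) a (fun n _ => ih n) n) l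

theorem nthR_eq (d : ℕ) (l : List ℕ) (n : ℕ) : nthR d l n = l.getD n d := by
  induction l generalizing n with
  | nil => simp [nthR]
  | cons a l ih =>
    cases n with
    | zero => simp [nthR]
    | succ n =>
      rw [List.getD_cons_succ, ← ih]
      rfl

/-- the mask with digits `2 ^ (K - 1)` -/
def mk1 (q : ℕ) : ℕ := Nat.mul (2 ^ (K - 1)) (rep K q)

/-- the mask for matrices -/
def mk2 (q : ℕ) : ℕ := mk1 (Nat.mul q q)

/-- the packed matrix `u ⊗ v + v ⊗ u` -/
def outQ (q u v : ℕ) : ℕ := outD (spreadR K q) (spreadM K q) u v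

/-- capacity of a Meir-Moser block with dimensions `A × B` -/
def capM (q D y A B P N : ℕ) (k : ℕ → ℕ → Bool) : Bool :=
  k (Nat.add P (Nat.mul D (outQ q (Nat.sub A y) (Nat.sub B y)))) N

/-- capacity of a block with dimensions `A × B` and at least `c` squares in every full row -/
def capR (q D y c e A B P N : ℕ) (k : ℕ → ℕ → Bool) : Bool :=
  andB (Nat.beq (Nat.mul e (Nat.mul c (Nat.mul (Nat.succ c) (Nat.succ c)))) D)
    (andB (leD (mk1 q) (Nat.mul c y) A)
      (k (Nat.add P (Nat.mul (Nat.mul e (Nat.mul (Nat.mul c c) (Nat.succ c)))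
        (outQ q A (Nat.sub B y)))) (Nat.add N (Nat.mul e (outQ q A A)))))

/-- capacity of a block of kind `kd`: `0` Meir-Moser, `2 c` rows, `2 c + 1` columns -/
def capK (q D y kd e A B P N : ℕ) (k : ℕ → ℕ → Bool) : Bool :=
  Bool.rec (motive := fun _ => Bool)
    (Bool.rec (motive := fun _ => Bool) (capR q D y (Nat.div kd 2) e B A P N k)
      (capR q D y (Nat.div kd 2) e A B P N k) (Nat.beq (Nat.mod kd 2) 0))
    (capM q D y A B P N k) (Nat.beq kd 0)

/-- `m (L - u - c up) / d`, exactly divisible -/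
def frmK (q u L up c m d : ℕ) (k : ℕ → Bool) : Bool :=
  andB (Nat.ble 1 d) (andB (leD (mk1 q) (Nat.add u (Nat.mul c up)) L)
    (andB (leD (mk1 q) (Nat.mul m (Nat.sub L (Nat.add u (Nat.mul c up))))
      (Nat.mul d (san (lowM q) (Nat.div (Nat.mul m (Nat.sub L (Nat.add u (Nat.mul c up)))) d))))
      (k (san (lowM q) (Nat.div (Nat.mul m (Nat.sub L (Nat.add u (Nat.mul c up)))) d)))))

/-- the width of a part of a group -/
def wK (q y u L up nn i n fw : ℕ) (k : ℕ → Bool) : Bool :=
  Bool.rec (motive := fun _ => Bool)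
    (Bool.rec (motive := fun _ => Bool)
      (frmK q u L up (Nat.sub nn (Nat.add i n)) n (Nat.sub (Nat.add i n) 1) (fun w =>
        andB (leD (mk1 q) y w) (k w)))
      (frmK q u L up (Nat.sub nn n) (Nat.sub n 1) (Nat.sub n 1) (fun w => k (Nat.add u w)))
      (Nat.beq i 0))
    (andB (Nat.ble n 31) (andB (Nat.ble 1 n) (k (Nat.mul n u)))) (Nat.beq fw 0)

/-- the height of a part of a group -/
def hK (q y u L up nn i fh : ℕ) (k : ℕ → Bool) : Bool :=
  Bool.rec (motive := fun _ => Bool)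
    (frmK q u L up (Nat.sub nn (Nat.succ i)) 1 i (fun h => andB (leD (mk1 q) y h) (k h)))
    (k u) (Nat.beq fh 0)

/-- width and height of a part of a group in a row -/
def rpK (q y : ℕ) (rows lrows ms : List ℕ) (j i n fw fh : ℕ) (k : ℕ → ℕ → Bool) : Bool :=
  andB (Nat.ble n 961) (andB (Nat.ble i 961)
    (wK q y (nthR y rows j) (nthR y lrows j) (nthR y rows (Nat.succ j)) (nthR 0 ms j) i n fw
      (fun w => hK q y (nthR y rows j) (nthR y lrows j) (nthR y rows (Nat.succ j)) (nthR 0 ms j)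
        i fh (fun h => k w h))))

/-- evaluation of a template; the continuation `k` gets the width, the height and the two parts of
the capacity -/
noncomputable def evalK (q D y : ℕ) (rows lrows ms vs : List ℕ) (t : Tm) :
    ℕ → ℕ → (ℕ → ℕ → ℕ → ℕ → Bool) → Bool :=
  Tm.rec (motive := fun _ => ℕ → ℕ → (ℕ → ℕ → ℕ → ℕ → Bool) → Bool)
    (fun j P N k => k (nthR y rows j) (nthR y rows j) P N)
    (fun j c1 c2 n P N k => andB (Nat.ble n (Nat.mul (Nat.succ c1) (Nat.succ c2)))
      (andB (Nat.ble c1 30) (andB (Nat.ble c2 30) (k (Nat.mul (Nat.succ c1) (nthR y rows j))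
        (Nat.mul (Nat.succ c2) (nthR y rows j)) P N))))
    (fun j n P N k => andB (Nat.ble n 961) (k (nthR y lrows j) (nthR y rows j) P N))
    (fun j n P N k => andB (Nat.ble n 961) (k (nthR y rows j) (nthR y lrows j) P N))
    (fun j i n fw fh P N k => rpK q y rows lrows ms j i n fw fh (fun w h => k w h P N))
    (fun j i n fw fh P N k => rpK q y rows lrows ms j i n fw fh (fun w h => k h w P N))
    (fun kd e a b P N k => capK q D y kd e (Nat.add y (san (lowM q) (nthR 0 vs a)))
      (Nat.add y (san (lowM q) (nthR 0 vs b))) P N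
      (k (Nat.add y (san (lowM q) (nthR 0 vs a))) (Nat.add y (san (lowM q) (nthR 0 vs b)))))
    (fun _ _ r r' P N k => r P N (fun w h P N => r' P N (fun w' h' P N =>
      k (Nat.add w w') (mx K (mk1 q) h h') P N)))
    (fun _ _ r r' P N k => r P N (fun w h P N => r' P N (fun w' h' P N =>
      k (mx K (mk1 q) w w') (Nat.add h h') P N)))
    (fun kd e _ _ r r' P N k => r P N (fun w h P N => r' P N (fun w' h' P N =>
      capK q D y kd e w' (Nat.sub (mx K (mk1 q) h (Nat.add h' y)) h') P N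
        (k (Nat.add w w') (mx K (mk1 q) h (Nat.add h' y))))))
    (fun kd e _ _ r r' P N k => r P N (fun w h P N => r' P N (fun w' h' P N =>
      capK q D y kd e (Nat.sub (mx K (mk1 q) w (Nat.add w' y)) w') h' P N
        (k (mx K (mk1 q) w (Nat.add w' y)) (Nat.add h h')))))
    (fun kd e b _ r P N k => r P N (fun w h P N =>
      capK q D y kd e (Nat.add y (san (lowM q) (nthR 0 vs b))) h P N
        (k (Nat.add w (Nat.add y (san (lowM q) (nthR 0 vs b)))) h)))
    (fun kd e b _ r P N k => r P N (fun w h P N =>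
      capK q D y kd e w (Nat.add y (san (lowM q) (nthR 0 vs b))) P N
        (k w (Nat.add h (Nat.add y (san (lowM q) (nthR 0 vs b)))))))
    t

/-- the slots of a template: group, `0` or the number of squares of the group in earlier slots plus
one, and number of squares -/
def Tm.slots : Tm → List (ℕ × ℕ × ℕ)
  | .sq j => [(j, 0, 1)]
  | .gr j _ _ n => [(j, 0, n)]
  | .rn j n => [(j, 0, n)]
  | .rc j n => [(j, 0, n)]
  | .rp j i n _ _ => [(j, i + 1, n)]
  | .cp j i n _ _ => [(j, i + 1, n)]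
  | .bk _ _ _ _ => []
  | .hh t t' => t.slots ++ t'.slots
  | .vv t t' => t.slots ++ t'.slots
  | .hf _ _ t t' => t.slots ++ t'.slots
  | .vf _ _ t t' => t.slots ++ t'.slots
  | .hs _ _ _ t => t.slots
  | .vs _ _ _ t => t.slots

/-- the number of blocks -/
def Tm.nb : Tm → ℕ
  | .sq _ => 0
  | .gr _ _ _ _ => 0
  | .rn _ _ => 0
  | .rc _ _ => 0
  | .rp _ _ _ _ _ => 0
  | .cp _ _ _ _ _ => 0
  | .bk _ _ _ _ => 1
  | .hh t t' => t.nb + t'.nb
  | .vv t t' => t.nb + t'.nb
  | .hf _ _ t t' => t.nb + t'.nb + 1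
  | .vf _ _ t t' => t.nb + t'.nb + 1
  | .hs _ _ _ t => t.nb + 1
  | .vs _ _ _ t => t.nb + 1

/-- the number of leaves -/
def Tm.cnt : Tm → ℕ
  | .sq _ => 1
  | .gr _ _ _ _ => 1
  | .rn _ _ => 1
  | .rc _ _ => 1
  | .rp _ _ _ _ _ => 1
  | .cp _ _ _ _ _ => 1
  | .bk _ _ _ _ => 1
  | .hh t t' => t.cnt + t'.cnt
  | .vv t t' => t.cnt + t'.cnt
  | .hf _ _ t t' => t.cnt + t'.cnt + 1
  | .vf _ _ t t' => t.cnt + t'.cnt + 1
  | .hs _ _ _ t => t.cnt + 1
  | .vs _ _ _ t => t.cnt + 1

theorem Tm.cnt_pos (t : Tm) : 0 < t.cnt := by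
  induction t <;> simp only [Tm.cnt] <;> omega

/-! ### soundness of the capacities -/

/-- bound for the entries of widths and heights, per leaf -/
def LB : ℕ := 2 ^ (KAP + 5)

/-- bound for the entries of widths and heights -/
def WB : ℕ := 2 ^ (KAP + 11)

section cap

variable {q D : ℕ} {yv : ℕ → ℕ} {δ : ℕ → ℝ}

theorem sum_lt_of_le {q : ℕ} {u : ℕ → ℕ} {b : ℕ} (hq : q ≤ 1000) (hu : ∀ i < q, u i ≤ b)
    (hb : b ≤ WB) : ∑ i ∈ range q, u i < 2 ^ K := by
  calc ∑ i ∈ range q, u i ≤ ∑ _i ∈ range q, b := sum_le_sum fun i hi => hu i (mem_range.1 hi)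
    _ = q * b := by simp
    _ ≤ 1000 * WB := Nat.mul_le_mul hq hb
    _ < 2 ^ K := by norm_num [WB, KAP, K]

theorem outQ_eq (hq : 2 ≤ q) (hq' : q ≤ 1000) {u v : ℕ → ℕ} (hu : ∀ i < q, u i ≤ WB)
    (hv : ∀ i < q, v i ≤ WB) :
    outQ q (digs K q u) (digs K q v) = digs K (q * q) (sym q u v) :=
  outD_eq hq (sum_lt_of_le hq' hu le_rfl) (sum_lt_of_le hq' hv le_rfl)

/-- the bound for the capacities, per block and unit of `D` -/
def PB : ℕ := 2 * (WB * WB)

/-- what the functions `capM`, `capR` and `capK` guarantee -/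
def CapOK (q D : ℕ) (yv : ℕ → ℕ) (δ : ℕ → ℝ) (a b P N : ℕ → ℕ) (k : ℕ → ℕ → Bool) : Prop :=
  ∃ (P' N' : ℕ → ℕ) (f : ℝ), k (digs K (q * q) P') (digs K (q * q) N') = true ∧
    Cap (lin q δ a) (lin q δ b) (lin q δ yv) f ∧
    2 * D * f = (bil q δ P' - bil q δ P) - (bil q δ N' - bil q δ N) ∧
    (∀ p < q * q, P' p ≤ P p + D * PB) ∧ (∀ p < q * q, N' p ≤ N p + D * PB)

theorem lin_sub {u v : ℕ → ℕ} (h : ∀ i < q, v i ≤ u i) :
    lin q δ (fun i => u i - v i) = lin q δ u - lin q δ v := by
  rw [eq_sub_iff_add_eq, ← lin_add]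
  exact lin_congr fun i hi => Nat.sub_add_cancel (h i hi)

theorem capM_sound (hq : 2 ≤ q) (hq' : q ≤ 1000) (hδ : ∀ i, 0 ≤ δ i) {a b P N : ℕ → ℕ}
    {k : ℕ → ℕ → Bool} (ha : ∀ i < q, yv i ≤ a i ∧ a i ≤ WB) (hb : ∀ i < q, yv i ≤ b i ∧ b i ≤ WB)
    (h : capM q D (digs K q yv) (digs K q a) (digs K q b) (digs K (q * q) P) (digs K (q * q) N) k
      = true) : CapOK q D yv δ a b P N k := by
  have e1 : outQ q (Nat.sub (digs K q a) (digs K q yv)) (Nat.sub (digs K q b) (digs K q yv)) =
      digs K (q * q) (sym q (fun i => a i - yv i) (fun i => b i - yv i)) := by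
    show outQ q (digs K q a - digs K q yv) (digs K q b - digs K q yv) = _
    rw [digs_sub fun i hi => (ha i hi).1, digs_sub fun i hi => (hb i hi).1]
    exact outQ_eq hq hq' (fun i hi => (Nat.sub_le _ _).trans (ha i hi).2)
      (fun i hi => (Nat.sub_le _ _).trans (hb i hi).2)
  refine ⟨fun p => P p + D * sym q (fun i => a i - yv i) (fun i => b i - yv i) p, N,
    (lin q δ a - lin q δ yv) * (lin q δ b - lin q δ yv), ?_, ?_, ?_, ?_, ?_⟩
  · rw [← digs_add, ← digs_const_mul, ← e1]
    exact h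
  · exact cap_mm (lin_mono hδ fun i hi => (ha i hi).1) (lin_mono hδ fun i hi => (hb i hi).1)
  · rw [bil_add, bil_const_mul, bil_sym (by omega), lin_sub fun i hi => (ha i hi).1,
      lin_sub fun i hi => (hb i hi).1]
    ring
  · intro p hp
    exact Nat.add_le_add_left (Nat.mul_le_mul_left _ (sym_le
      (fun i hi => (Nat.sub_le _ _).trans (ha i hi).2)
      (fun i hi => (Nat.sub_le _ _).trans (hb i hi).2) hp)) _
  · exact fun p _ => Nat.le_add_right _ _

theorem capR_sound (hq : 2 ≤ q) (hq' : q ≤ 1000) (hδ : ∀ i, 0 ≤ δ i) (hD : 0 < D)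
    (hD' : D ≤ 2 ^ 12) {c e : ℕ} {a b P N : ℕ → ℕ} {k : ℕ → ℕ → Bool}
    (hy : ∀ i < q, yv i < 2 ^ KAP)
    (ha : ∀ i < q, yv i ≤ a i ∧ a i ≤ WB) (hb : ∀ i < q, yv i ≤ b i ∧ b i ≤ WB)
    (h : capR q D (digs K q yv) c e (digs K q a) (digs K q b) (digs K (q * q) P)
      (digs K (q * q) N) k = true) : CapOK q D yv δ a b P N k := by
  obtain ⟨h1, h⟩ := andB_eq_true.1 h
  obtain ⟨h2, h3⟩ := andB_eq_true.1 h
  have h1 : e * (c * ((c + 1) * (c + 1))) = D := Nat.eq_of_beq_eq_true h1
  have hc : 0 < c := by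
    rcases Nat.eq_zero_or_pos c with rfl | h
    · simp at h1
      omega
    · exact h
  have he : 0 < e := by
    rcases Nat.eq_zero_or_pos e with rfl | h
    · simp at h1
      omega
    · exact h
  have hcD : c ≤ D := by
    rw [← h1]
    calc c = 1 * (c * (1 * 1)) := by ring
      _ ≤ _ := Nat.mul_le_mul he (Nat.mul_le_mul_left _ (Nat.mul_le_mul (by omega) (by omega)))
  have heD : e ≤ D := by
    rw [← h1]
    calc e = e * (1 * (1 * 1)) := by ring
      _ ≤ _ := Nat.mul_le_mul_left _ (Nat.mul_le_mul hc (Nat.mul_le_mul (by omega) (by omega)))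
  have heD' : e * (c * c * (c + 1)) ≤ D := by
    rw [← h1]
    apply Nat.mul_le_mul_left
    rw [mul_assoc]
    exact Nat.mul_le_mul_left _ (Nat.mul_le_mul_right _ (by omega))
  have hcy : ∀ i < q, c * yv i ≤ a i := by
    have e0 : Nat.mul c (digs K q yv) = digs K q (fun i => c * yv i) := digs_const_mul _ _ _ _
    rw [e0] at h2
    refine le_of_leD K_pos (fun i hi => ?_) (fun i hi => ?_) h2
    · calc c * yv i ≤ 2 ^ 12 * 2 ^ KAP := Nat.mul_le_mul (hcD.trans hD') (hy i hi).le
        _ < 2 ^ (K - 1) := by norm_num [KAP, K]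
    · exact lt_of_le_of_lt (ha i hi).2 (by norm_num [WB, KAP, K])
  have e1 : outQ q (digs K q a) (Nat.sub (digs K q b) (digs K q yv)) =
      digs K (q * q) (sym q a (fun i => b i - yv i)) := by
    show outQ q (digs K q a) (digs K q b - digs K q yv) = _
    rw [digs_sub fun i hi => (hb i hi).1]
    exact outQ_eq hq hq' (fun i hi => (ha i hi).2)
      (fun i hi => (Nat.sub_le _ _).trans (hb i hi).2)
  have e2 : outQ q (digs K q a) (digs K q a) = digs K (q * q) (sym q a a) :=
    outQ_eq hq hq' (fun i hi => (ha i hi).2) (fun i hi => (ha i hi).2)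
  refine ⟨fun p => P p + (e * (c * c * (c + 1))) * sym q a (fun i => b i - yv i) p,
    fun p => N p + e * sym q a a p,
    c / (c + 1) * lin q δ a * (lin q δ b - lin q δ yv) - lin q δ a ^ 2 / (c * (c + 1) ^ 2),
    ?_, ?_, ?_, ?_, ?_⟩
  · rw [← digs_add, ← digs_const_mul, ← digs_add, ← digs_const_mul, ← e1, ← e2]
    exact h3
  · refine cap_row c hc ?_ (lin_mono hδ fun i hi => (hb i hi).1)
    rw [← lin_const_mul]
    exact lin_mono hδ hcy
  · rw [bil_add, bil_add, bil_const_mul, bil_const_mul, bil_sym (by omega), bil_sym (by omega),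
      lin_sub fun i hi => (hb i hi).1, ← h1]
    have hc' : (c : ℝ) ≠ 0 := by exact_mod_cast hc.ne'
    have hc1 : (c : ℝ) + 1 ≠ 0 := by positivity
    push_cast
    field_simp
    ring
  · intro p hp
    exact Nat.add_le_add_left (Nat.mul_le_mul heD' (sym_le (fun i hi => (ha i hi).2)
      (fun i hi => (Nat.sub_le _ _).trans (hb i hi).2) hp)) _
  · intro p hp
    exact Nat.add_le_add_left (Nat.mul_le_mul heD (sym_le (fun i hi => (ha i hi).2)
      (fun i hi => (ha i hi).2) hp)) _

theorem CapOK.swap {a b P N : ℕ → ℕ} {k : ℕ → ℕ → Bool} (h : CapOK q D yv δ b a P N k) :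
    CapOK q D yv δ a b P N k := by
  obtain ⟨P', N', f, h1, h2, h3⟩ := h
  exact ⟨P', N', f, h1, cap_swap h2, h3⟩

theorem capK_sound (hq : 2 ≤ q) (hq' : q ≤ 1000) (hδ : ∀ i, 0 ≤ δ i) (hD : 0 < D)
    (hD' : D ≤ 2 ^ 12) {kd e : ℕ} {a b P N : ℕ → ℕ} {k : ℕ → ℕ → Bool}
    (hy : ∀ i < q, yv i < 2 ^ KAP)
    (ha : ∀ i < q, yv i ≤ a i ∧ a i ≤ WB) (hb : ∀ i < q, yv i ≤ b i ∧ b i ≤ WB)
    (h : capK q D (digs K q yv) kd e (digs K q a) (digs K q b) (digs K (q * q) P)
      (digs K (q * q) N) k = true) : CapOK q D yv δ a b P N k := by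
  rw [capK] at h
  cases h1 : Nat.beq kd 0 with
  | true =>
    rw [h1] at h
    exact capM_sound hq hq' hδ ha hb h
  | false =>
    rw [h1] at h
    cases h2 : Nat.beq (Nat.mod kd 2) 0 with
    | true =>
      rw [h2] at h
      exact capR_sound hq hq' hδ hD hD' hy ha hb h
    | false =>
      rw [h2] at h
      exact (capR_sound hq hq' hδ hD hD' hy hb ha h).swap

end cap

/-! ### soundness of the evaluation -/

/-- the sum of the sides of group `j` without the first one and without the squares from number `k`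
on -/
def VV (q : ℕ) (xv lv : ℕ → ℕ → ℕ) (mv : ℕ → ℕ) (δ : ℕ → ℝ) (j k : ℕ) : ℝ :=
  lin q δ (lv j) - lin q δ (xv j) - (mv j - k : ℕ) * lin q δ (xv (j + 1))

/-- bounds for the squares `i, …, i + n - 1` of group `j` -/
def PosOK (q : ℕ) (xv lv : ℕ → ℕ → ℕ) (mv : ℕ → ℕ) (δ : ℕ → ℝ) (j i n : ℕ) (L : List ℝ) : Prop :=
  (i = 0 → 2 ≤ n → L.sum ≤ lin q δ (xv j) + VV q xv lv mv δ j n) ∧
  (1 ≤ i → ((i + n - 1 : ℕ) : ℝ) * L.sum ≤ n * VV q xv lv mv δ j (i + n)) ∧
  (1 ≤ i → ∀ s ∈ L, i * s ≤ VV q xv lv mv δ j (i + 1))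

/-- the list `L` of sides fits into the slot `jn` -/
def SlotOK (q : ℕ) (xv lv : ℕ → ℕ → ℕ) (mv : ℕ → ℕ) (δ : ℕ → ℝ) (L : List ℝ) (jn : ℕ × ℕ × ℕ) :
    Prop :=
  L.length ≤ jn.2.2 ∧ (∀ s ∈ L, 0 ≤ s ∧ s ≤ lin q δ (xv jn.1)) ∧ L.sum ≤ lin q δ (lv jn.1) ∧
    ∀ i, jn.2.1 = i + 1 → PosOK q xv lv mv δ jn.1 i jn.2.2 L

/-- what the evaluation of a template guarantees -/
def TmOK (q D : ℕ) (yv : ℕ → ℕ) (xv lv : ℕ → ℕ → ℕ) (mv : ℕ → ℕ) (δ : ℕ → ℝ) (t : Tm)
    (P N : ℕ → ℕ) (k : ℕ → ℕ → ℕ → ℕ → Bool) : Prop :=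
  ∃ (W H P' N' : ℕ → ℕ) (Bs : List (ℝ × ℝ × ℝ)),
    k (digs K q W) (digs K q H) (digs K (q * q) P') (digs K (q * q) N') = true ∧
    (∀ i < q, yv i ≤ W i ∧ W i ≤ t.cnt * LB) ∧ (∀ i < q, yv i ≤ H i ∧ H i ≤ t.cnt * LB) ∧
    Bs.length = t.nb ∧ (∀ B ∈ Bs, Cap B.1 B.2.1 (lin q δ yv) B.2.2) ∧
    2 * D * (Bs.map fun B => B.2.2).sum = (bil q δ P' - bil q δ P) - (bil q δ N' - bil q δ N) ∧
    (∀ p < q * q, P' p ≤ P p + t.cnt * (D * PB)) ∧
    (∀ p < q * q, N' p ≤ N p + t.cnt * (D * PB)) ∧
    (∀ jn ∈ t.slots, jn.2.2 ≤ 961) ∧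
    ∀ Ls parts : List (List ℝ), List.Forall₂ (SlotOK q xv lv mv δ) Ls t.slots →
      List.Forall₂ (fun p (B : ℝ × ℝ × ℝ) => PacksL p B.1 B.2.1) parts Bs →
      PacksL (Ls.flatten ++ parts.flatten) (lin q δ W) (lin q δ H)

theorem comb_perm (L L' P P' : List ℝ) :
    ((L ++ P) ++ (L' ++ P')).Perm ((L ++ L') ++ (P ++ P')) := by
  rw [List.append_assoc, List.append_assoc, List.perm_append_left_iff, ← List.append_assoc,
    ← List.append_assoc]
  exact List.Perm.append_right _ List.perm_append_comm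

/-- a grid of squares -/
theorem packs_grid {u : ℝ} (hu : 0 ≤ u) (c1 : ℕ) : ∀ (c2 : ℕ) (L : List ℝ), L.length ≤ c1 * c2 →
    (∀ s ∈ L, 0 ≤ s ∧ s ≤ u) → PacksL L (c1 * u) (c2 * u) := by
  intro c2
  induction c2 with
  | zero =>
    intro L hL _
    rw [mul_zero, Nat.le_zero, List.length_eq_zero_iff] at hL
    subst hL
    exact PacksL.nil _ _
  | succ c2 ih =>
    intro L hL h
    have h1 : PacksL (L.take c1) (c1 * u) u := by
      apply PacksL.row (fun s hs => (h s (List.mem_of_mem_take hs)).1)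
      · calc (L.take c1).sum ≤ (L.take c1).length • u :=
            List.sum_le_card_nsmul _ _ fun s hs => (h s (List.mem_of_mem_take hs)).2
          _ = (L.take c1).length * u := by rw [nsmul_eq_mul]
          _ ≤ c1 * u := by
            apply mul_le_mul_of_nonneg_right _ hu
            exact_mod_cast List.length_take_le _ _
      · exact fun s hs => (h s (List.mem_of_mem_take hs)).2
    have h2 := ih (L.drop c1) (by rw [List.length_drop]; rw [mul_add, mul_one] at hL; omega)
      (fun s hs => h s (List.mem_of_mem_drop hs))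
    have h3 := PacksL.ver hu (by positivity) h1 h2
    rw [List.take_append_drop] at h3
    have e : ((c2 + 1 : ℕ) : ℝ) * u = u + c2 * u := by push_cast; ring
    rw [e]
    exact h3

section eval

variable {q D : ℕ} {yv : ℕ → ℕ} {xv lv : ℕ → ℕ → ℕ} {mv : ℕ → ℕ} {δ : ℕ → ℝ} {y : ℕ}
  {rows lrows ms vs : List ℕ}

theorem le_WB {c x : ℕ} (hc : c ≤ 64) (hx : x ≤ c * LB) : x ≤ WB := by
  calc x ≤ c * LB := hx
    _ ≤ 64 * LB := Nat.mul_le_mul_right _ hc
    _ ≤ WB := by norm_num [LB, WB, KAP]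

theorem WB_lt : WB < 2 ^ (K - 1) := by norm_num [WB, KAP, K]

theorem forall₂_split {α β : Type*} {R : α → β → Prop} {l : List α} {l₁ l₂ : List β}
    (h : List.Forall₂ R l (l₁ ++ l₂)) : ∃ a b, l = a ++ b ∧ List.Forall₂ R a l₁ ∧
      List.Forall₂ R b l₂ :=
  ⟨l.take l₁.length, l.drop l₁.length, (List.take_append_drop _ _).symm,
    List.forall₂_take_append _ _ _ h, List.forall₂_drop_append _ _ _ h⟩

theorem leD_sound {a b : ℕ → ℕ} (ha : ∀ i < q, a i < 2 ^ (K - 1)) (hb : ∀ i < q, b i < 2 ^ (K - 1))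
    (h : leD (mk1 q) (digs K q a) (digs K q b) = true) : ∀ i < q, a i ≤ b i :=
  le_of_leD K_pos ha hb h

theorem frmK_sound (hδ : ∀ i, 0 ≤ δ i) {u L up : ℕ → ℕ} {c m d : ℕ} {k : ℕ → Bool}
    (hc : c ≤ 961) (hm : m ≤ 961) (hd : d ≤ 1922) (hu : ∀ i < q, u i < 2 ^ KAP)
    (hL : ∀ i < q, L i < 2 ^ KAP) (hup : ∀ i < q, up i < 2 ^ KAP)
    (h : frmK q (digs K q u) (digs K q L) (digs K q up) c m d k = true) :
    ∃ w : ℕ → ℕ, k (digs K q w) = true ∧ (∀ i < q, w i < 2 ^ KAP) ∧ 1 ≤ d ∧
      m * (lin q δ L - lin q δ u - c * lin q δ up) ≤ d * lin q δ w := by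
  obtain ⟨g1, h⟩ := andB_eq_true.1 h
  obtain ⟨g2, h⟩ := andB_eq_true.1 h
  obtain ⟨g3, h⟩ := andB_eq_true.1 h
  have g1 : 1 ≤ d := Nat.le_of_ble_eq_true g1
  have e1 : Nat.add (digs K q u) (Nat.mul c (digs K q up)) =
      digs K q (fun i => u i + c * up i) := by
    show digs K q u + c * digs K q up = _
    rw [digs_const_mul, digs_add]
  have hb1 : ∀ i < q, u i + c * up i < 2 ^ (K - 1) := by
    intro i hi
    calc u i + c * up i ≤ 2 ^ KAP + 961 * 2 ^ KAP :=
        Nat.add_le_add (hu i hi).le (Nat.mul_le_mul hc (hup i hi).le)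
      _ < 2 ^ (K - 1) := by norm_num [KAP, K]
  have hb2 : ∀ i < q, L i < 2 ^ (K - 1) := fun i hi =>
    (hL i hi).trans (by norm_num [KAP, K])
  rw [e1] at g2 g3 h
  have g2 := leD_sound hb1 hb2 g2
  have e2 : Nat.mul m (Nat.sub (digs K q L) (digs K q fun i => u i + c * up i)) =
      digs K q (fun i => m * (L i - (u i + c * up i))) := by
    show m * (digs K q L - digs K q fun i => u i + c * up i) = _
    rw [digs_sub g2, digs_const_mul]
  rw [e2] at g3 h
  obtain ⟨w, hw⟩ : ∃ w : ℕ, w = Nat.div (digs K q (fun i => m * (L i - (u i + c * up i)))) d :=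
    ⟨_, rfl⟩
  rw [← hw, san_eq] at g3 h
  have e3 : Nat.mul d (digs K q (sd w)) = digs K q (fun i => d * sd w i) := digs_const_mul _ _ _ _
  rw [e3] at g3
  have g3 := leD_sound (fun i hi => ?_) (fun i hi => ?_) g3
  · refine ⟨sd w, h, fun i _ => sd_lt w i, g1, ?_⟩
    have h1 := lin_mono hδ g3
    rw [lin_const_mul, lin_const_mul, lin_sub g2, lin_add, lin_const_mul] at h1
    calc (m : ℝ) * (lin q δ L - lin q δ u - c * lin q δ up)
        = m * (lin q δ L - (lin q δ u + c * lin q δ up)) := by ring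
      _ ≤ _ := h1
  · calc m * (L i - (u i + c * up i)) ≤ 961 * 2 ^ KAP :=
        Nat.mul_le_mul hm ((Nat.sub_le _ _).trans (hL i hi).le)
      _ < 2 ^ (K - 1) := by norm_num [KAP, K]
  · calc d * sd w i ≤ 1922 * 2 ^ KAP := Nat.mul_le_mul hd (sd_lt w i).le
      _ < 2 ^ (K - 1) := by norm_num [KAP, K]

theorem rpK_sound (hδ : ∀ i, 0 ≤ δ i) (hy : y = digs K q yv) (hyl : ∀ i < q, yv i < 2 ^ KAP)
    (hx : ∀ j, nthR y rows j = digs K q (xv j)) (hxl : ∀ j, ∀ i < q, yv i ≤ xv j i ∧
      xv j i < 2 ^ KAP) (hl : ∀ j, nthR y lrows j = digs K q (lv j))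
    (hll : ∀ j, ∀ i < q, yv i ≤ lv j i ∧ lv j i < 2 ^ KAP)
    (hm : ∀ j, nthR 0 ms j = mv j ∧ mv j ≤ 961) {j i n fw fh : ℕ} {k : ℕ → ℕ → Bool}
    (h : rpK q y rows lrows ms j i n fw fh k = true) :
    n ≤ 961 ∧ ∃ W H : ℕ → ℕ, k (digs K q W) (digs K q H) = true ∧
      (∀ i < q, yv i ≤ W i ∧ W i ≤ 1 * LB) ∧ (∀ i < q, yv i ≤ H i ∧ H i ≤ 1 * LB) ∧
      ∀ L, SlotOK q xv lv mv δ L (j, i + 1, n) → PacksL L (lin q δ W) (lin q δ H) := by
  obtain ⟨g1, h⟩ := andB_eq_true.1 h
  obtain ⟨g2, h⟩ := andB_eq_true.1 h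
  have g1 : n ≤ 961 := Nat.le_of_ble_eq_true g1
  have g2 : i ≤ 961 := Nat.le_of_ble_eq_true g2
  have h : wK q y (nthR y rows j) (nthR y lrows j) (nthR y rows (j + 1)) (nthR 0 ms j) i n fw
      (fun w => hK q y (nthR y rows j) (nthR y lrows j) (nthR y rows (j + 1)) (nthR 0 ms j)
        i fh (fun h => k w h)) = true := h
  rw [hx j, hx (j + 1), hl j, (hm j).1] at h
  have hmj := (hm j).2
  have hLB1 : 2 ^ KAP + 2 ^ KAP ≤ LB := by norm_num [LB, KAP]
  have hLB31 : 31 * 2 ^ KAP ≤ LB := by norm_num [LB, KAP]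
  have hyK : ∀ i < q, yv i < 2 ^ (K - 1) := fun i hi => (hyl i hi).trans (by norm_num [KAP, K])
  have hKK : ∀ {w : ℕ → ℕ}, (∀ i < q, w i < 2 ^ KAP) → ∀ i < q, w i < 2 ^ (K - 1) :=
    fun hw i hi => (hw i hi).trans (by norm_num [KAP, K])
  have hlxj : 0 ≤ lin q δ (xv j) := lin_nonneg hδ _
  -- the width
  have key1 : ∃ W : ℕ → ℕ, hK q y (digs K q (xv j)) (digs K q (lv j)) (digs K q (xv (j + 1)))
      (mv j) i fh (fun h => k (digs K q W) h) = true ∧ (∀ i < q, yv i ≤ W i ∧ W i ≤ 1 * LB) ∧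
      ∀ L, SlotOK q xv lv mv δ L (j, i + 1, n) → L.sum ≤ lin q δ W := by
    rw [wK] at h
    by_cases hfw : fw = 0
    · rw [hfw, Nat.beq_refl] at h
      obtain ⟨k1, h⟩ := andB_eq_true.1 h
      obtain ⟨k2, h⟩ := andB_eq_true.1 h
      have k1 : n ≤ 31 := Nat.le_of_ble_eq_true k1
      have k2 : 1 ≤ n := Nat.le_of_ble_eq_true k2
      have h : hK q y (digs K q (xv j)) (digs K q (lv j)) (digs K q (xv (j + 1)))
        (mv j) i fh (fun h => k (n * digs K q (xv j)) h) = true := h
      rw [digs_const_mul] at h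
      refine ⟨_, h, fun m hm => ⟨?_, ?_⟩, ?_⟩
      · exact (hxl j m hm).1.trans (Nat.le_mul_of_pos_left _ k2)
      · rw [one_mul]
        exact (Nat.mul_le_mul k1 (hxl j m hm).2.le).trans hLB31
      · rintro L ⟨h1, h2, _, _⟩
        rw [lin_const_mul]
        calc L.sum ≤ L.length • lin q δ (xv j) := List.sum_le_card_nsmul _ _ fun s hs => (h2 s hs).2
          _ = L.length * lin q δ (xv j) := by rw [nsmul_eq_mul]
          _ ≤ n * lin q δ (xv j) := by
            apply mul_le_mul_of_nonneg_right _ hlxj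
            exact_mod_cast h1
    · have hfb : Nat.beq fw 0 = false := by
        cases hb : Nat.beq fw 0
        · rfl
        · exact absurd (Nat.eq_of_beq_eq_true hb) hfw
      rw [hfb] at h
      rcases Nat.eq_zero_or_pos i with hi | hi
      · rw [hi, Nat.beq_refl] at h
        obtain ⟨w, h, a1, a2, a3⟩ := frmK_sound (δ := δ) hδ ((Nat.sub_le _ _).trans hmj)
          ((Nat.sub_le _ _).trans g1) ((Nat.sub_le _ _).trans (by omega))
          (fun i hi => (hxl j i hi).2) (fun i hi => (hll j i hi).2)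
          (fun i hi => (hxl (j + 1) i hi).2) h
        have h : hK q y (digs K q (xv j)) (digs K q (lv j)) (digs K q (xv (j + 1)))
          (mv j) 0 fh (fun h => k (digs K q (xv j) + digs K q w) h) = true := h
        rw [digs_add, ← hi] at h
        refine ⟨_, h, fun m hm => ⟨(hxl j m hm).1.trans (Nat.le_add_right _ _), ?_⟩, ?_⟩
        · rw [one_mul]
          exact (Nat.add_le_add (hxl j m hm).2.le (a1 m hm).le).trans hLB1
        · rintro L ⟨_, _, _, h4⟩
          obtain ⟨h5, _, _⟩ := h4 i rfl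
          have h6 := h5 hi (by
            have : 1 ≤ n - 1 := a2
            show 2 ≤ n
            omega)
          rw [lin_add]
          refine h6.trans (add_le_add le_rfl ?_)
          have hn : (0 : ℝ) < (n - 1 : ℕ) := by
            exact_mod_cast a2
          exact le_of_mul_le_mul_left a3 hn
      · have hib : Nat.beq i 0 = false := by
          cases hb : Nat.beq i 0
          · rfl
          · exact absurd (Nat.eq_of_beq_eq_true hb) (by omega)
        rw [hib] at h
        obtain ⟨w, h, a1, a2, a3⟩ := frmK_sound (δ := δ) hδ ((Nat.sub_le _ _).trans hmj)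
          g1 ((Nat.sub_le _ _).trans (show i + n ≤ 1922 by omega))
          (fun i hi => (hxl j i hi).2) (fun i hi => (hll j i hi).2)
          (fun i hi => (hxl (j + 1) i hi).2) h
        obtain ⟨k1, h⟩ := andB_eq_true.1 h
        rw [hy] at k1
        have k1 := leD_sound hyK (hKK a1) k1
        refine ⟨w, h, fun m hm => ⟨k1 m hm, ?_⟩, ?_⟩
        · rw [one_mul]
          exact (a1 m hm).le.trans (le_trans (Nat.le_add_right _ _) hLB1)
        · rintro L ⟨_, _, _, h4⟩
          obtain ⟨_, h5, _⟩ := h4 i rfl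
          have h6 := h5 hi
          have hn : (0 : ℝ) < (i + n - 1 : ℕ) := by
            exact_mod_cast a2
          exact le_of_mul_le_mul_left (h6.trans a3) hn
  obtain ⟨W, h, hW, hW'⟩ := key1
  refine ⟨g1, W, ?_⟩
  rw [hK] at h
  by_cases hfh : fh = 0
  · rw [hfh, Nat.beq_refl] at h
    refine ⟨xv j, h, hW, fun m hm => ⟨(hxl j m hm).1, ?_⟩, fun L hL => ?_⟩
    · rw [one_mul]
      exact (hxl j m hm).2.le.trans (le_trans (Nat.le_add_right _ _) hLB1)
    · exact PacksL.row (fun s hs => (hL.2.1 s hs).1) (hW' L hL) (fun s hs => (hL.2.1 s hs).2)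
  · have hfb : Nat.beq fh 0 = false := by
      cases hb : Nat.beq fh 0
      · rfl
      · exact absurd (Nat.eq_of_beq_eq_true hb) hfh
    rw [hfb] at h
    obtain ⟨w, h, a1, a2, a3⟩ := frmK_sound (δ := δ) hδ ((Nat.sub_le _ _).trans hmj)
      (by norm_num) (g2.trans (by norm_num))
      (fun i hi => (hxl j i hi).2) (fun i hi => (hll j i hi).2)
      (fun i hi => (hxl (j + 1) i hi).2) h
    obtain ⟨k1, h⟩ := andB_eq_true.1 h
    rw [hy] at k1
    have k1 := leD_sound hyK (hKK a1) k1
    refine ⟨w, h, hW, fun m hm => ⟨k1 m hm, ?_⟩, fun L hL => ?_⟩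
    · rw [one_mul]
      exact (a1 m hm).le.trans (le_trans (Nat.le_add_right _ _) hLB1)
    · refine PacksL.row (fun s hs => (hL.2.1 s hs).1) (hW' L hL) (fun s hs => ?_)
      obtain ⟨_, _, h5⟩ := hL.2.2.2 i rfl
      have h6 := h5 a2 s hs
      have hn : (0 : ℝ) < i := by exact_mod_cast a2
      have e : ((1 : ℕ) : ℝ) * VV q xv lv mv δ j (i + 1) ≤ i * lin q δ w := a3
      rw [Nat.cast_one, one_mul] at e
      exact le_of_mul_le_mul_left (h6.trans e) hn

theorem evalK_sound (hq : 2 ≤ q) (hq' : q ≤ 1000) (hδ : ∀ i, 0 ≤ δ i) (hD : 0 < D)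
    (hD' : D ≤ 2 ^ 12) (hy : y = digs K q yv) (hyl : ∀ i < q, yv i < 2 ^ KAP)
    (hx : ∀ j, nthR y rows j = digs K q (xv j)) (hxl : ∀ j, ∀ i < q, yv i ≤ xv j i ∧
      xv j i < 2 ^ KAP) (hl : ∀ j, nthR y lrows j = digs K q (lv j))
    (hll : ∀ j, ∀ i < q, yv i ≤ lv j i ∧ lv j i < 2 ^ KAP)
    (hm : ∀ j, nthR 0 ms j = mv j ∧ mv j ≤ 961) (t : Tm) :
    ∀ (P N : ℕ → ℕ) (k : ℕ → ℕ → ℕ → ℕ → Bool), t.cnt ≤ 64 →
      evalK q D y rows lrows ms vs t (digs K (q * q) P) (digs K (q * q) N) k = true →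
      TmOK q D yv xv lv mv δ t P N k := by
  have hq0 : 0 < q := by omega
  have hLB : 2 ^ KAP ≤ LB := by norm_num [LB, KAP]
  have hLB1 : 2 ^ KAP + 2 ^ KAP ≤ LB := by norm_num [LB, KAP]
  have hLB31 : 31 * 2 ^ KAP ≤ LB := by norm_num [LB, KAP]
  have hlx : ∀ j, 0 ≤ lin q δ (xv j) := fun j => lin_nonneg hδ _
  have hsd : ∀ a : ℕ, ∀ i < q, yv i ≤ yv i + sd a i ∧ yv i + sd a i ≤ 1 * LB := by
    intro a i hi
    refine ⟨Nat.le_add_right _ _, ?_⟩
    rw [one_mul]
    exact (Nat.add_le_add (hyl i hi).le (sd_lt a i).le).trans hLB1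
  induction t with
  | sq j =>
    intro P N k _ h
    have h : k (nthR y rows j) (nthR y rows j) (digs K (q * q) P) (digs K (q * q) N) = true := h
    rw [hx j] at h
    refine ⟨xv j, xv j, P, N, [], h, fun i hi => ⟨(hxl j i hi).1, ?_⟩,
      fun i hi => ⟨(hxl j i hi).1, ?_⟩, rfl, by simp, by simp, fun p _ => Nat.le_add_right _ _,
      fun p _ => Nat.le_add_right _ _, by simp [Tm.slots], ?_⟩
    · rw [Tm.cnt, one_mul]
      exact (hxl j i hi).2.le.trans hLB
    · rw [Tm.cnt, one_mul]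
      exact (hxl j i hi).2.le.trans hLB
    · intro Ls parts h1 h2
      obtain rfl := List.forall₂_nil_right_iff.1 h2
      rw [Tm.slots, List.forall₂_cons_right_iff] at h1
      obtain ⟨L, Ls', ⟨h3, h4, _, _⟩, h5, rfl⟩ := h1
      obtain rfl := List.forall₂_nil_right_iff.1 h5
      simp only [List.flatten_cons, List.flatten_nil, List.append_nil]
      have := packs_grid (hlx j) 1 1 L (by simpa using h3) h4
      simpa using this
  | gr j c1 c2 n =>
    intro P N k _ h
    obtain ⟨g1, h⟩ := andB_eq_true.1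
      (show andB (Nat.ble n (Nat.mul (Nat.succ c1) (Nat.succ c2))) _ = true from h)
    obtain ⟨g2, h⟩ := andB_eq_true.1 h
    obtain ⟨g3, h⟩ := andB_eq_true.1 h
    have g1 : n ≤ (c1 + 1) * (c2 + 1) := Nat.le_of_ble_eq_true g1
    have g2 : c1 ≤ 30 := Nat.le_of_ble_eq_true g2
    have g3 : c2 ≤ 30 := Nat.le_of_ble_eq_true g3
    have h : k ((c1 + 1) * nthR y rows j) ((c2 + 1) * nthR y rows j) (digs K (q * q) P)
      (digs K (q * q) N) = true := h
    rw [hx j, digs_const_mul, digs_const_mul] at h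
    have hb : ∀ c ≤ 30, ∀ i < q, yv i ≤ (c + 1) * xv j i ∧ (c + 1) * xv j i ≤ 1 * LB := by
      intro c hc i hi
      refine ⟨(hxl j i hi).1.trans (Nat.le_mul_of_pos_left _ (Nat.succ_pos c)), ?_⟩
      rw [one_mul]
      exact (Nat.mul_le_mul (by omega : c + 1 ≤ 31) (hxl j i hi).2.le).trans hLB31
    refine ⟨_, _, P, N, [], h, hb c1 g2, hb c2 g3, rfl, by simp, by simp,
      fun p _ => Nat.le_add_right _ _, fun p _ => Nat.le_add_right _ _, ?_, ?_⟩
    · intro jn hjn
      rw [Tm.slots, List.mem_singleton] at hjn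
      rw [hjn]
      exact g1.trans (Nat.mul_le_mul (by omega : c1 + 1 ≤ 31) (by omega : c2 + 1 ≤ 31))
    intro Ls parts h1 h2
    obtain rfl := List.forall₂_nil_right_iff.1 h2
    rw [Tm.slots, List.forall₂_cons_right_iff] at h1
    obtain ⟨L, Ls', ⟨h3, h4, _, _⟩, h5, rfl⟩ := h1
    obtain rfl := List.forall₂_nil_right_iff.1 h5
    simp only [List.flatten_cons, List.flatten_nil, List.append_nil]
    rw [lin_const_mul, lin_const_mul]
    exact packs_grid (hlx j) (c1 + 1) (c2 + 1) L (h3.trans g1) h4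
  | rn j n =>
    intro P N k _ h
    obtain ⟨g1, h⟩ := andB_eq_true.1 (show andB (Nat.ble n 961) _ = true from h)
    have g1 : n ≤ 961 := Nat.le_of_ble_eq_true g1
    rw [hx j, hl j] at h
    refine ⟨lv j, xv j, P, N, [], h, fun i hi => ⟨(hll j i hi).1, ?_⟩,
      fun i hi => ⟨(hxl j i hi).1, ?_⟩, rfl, by simp, by simp, fun p _ => Nat.le_add_right _ _,
      fun p _ => Nat.le_add_right _ _, by simpa [Tm.slots] using g1, ?_⟩
    · rw [Tm.cnt, one_mul]
      exact (hll j i hi).2.le.trans hLB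
    · rw [Tm.cnt, one_mul]
      exact (hxl j i hi).2.le.trans hLB
    · intro Ls parts h1 h2
      obtain rfl := List.forall₂_nil_right_iff.1 h2
      rw [Tm.slots, List.forall₂_cons_right_iff] at h1
      obtain ⟨L, Ls', ⟨_, h4, h4', _⟩, h5, rfl⟩ := h1
      obtain rfl := List.forall₂_nil_right_iff.1 h5
      simp only [List.flatten_cons, List.flatten_nil, List.append_nil]
      exact PacksL.row (fun s hs => (h4 s hs).1) h4' (fun s hs => (h4 s hs).2)
  | rc j n =>
    intro P N k _ h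
    obtain ⟨g1, h⟩ := andB_eq_true.1 (show andB (Nat.ble n 961) _ = true from h)
    have g1 : n ≤ 961 := Nat.le_of_ble_eq_true g1
    rw [hx j, hl j] at h
    refine ⟨xv j, lv j, P, N, [], h, fun i hi => ⟨(hxl j i hi).1, ?_⟩,
      fun i hi => ⟨(hll j i hi).1, ?_⟩, rfl, by simp, by simp, fun p _ => Nat.le_add_right _ _,
      fun p _ => Nat.le_add_right _ _, by simpa [Tm.slots] using g1, ?_⟩
    · rw [Tm.cnt, one_mul]
      exact (hxl j i hi).2.le.trans hLB
    · rw [Tm.cnt, one_mul]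
      exact (hll j i hi).2.le.trans hLB
    · intro Ls parts h1 h2
      obtain rfl := List.forall₂_nil_right_iff.1 h2
      rw [Tm.slots, List.forall₂_cons_right_iff] at h1
      obtain ⟨L, Ls', ⟨_, h4, h4', _⟩, h5, rfl⟩ := h1
      obtain rfl := List.forall₂_nil_right_iff.1 h5
      simp only [List.flatten_cons, List.flatten_nil, List.append_nil]
      exact (PacksL.row (fun s hs => (h4 s hs).1) h4' (fun s hs => (h4 s hs).2)).swap
  | rp j i n fw fh =>
    intro P N k _ h
    obtain ⟨g1, W, H, h, hW, hH, hp⟩ := rpK_sound hδ hy hyl hx hxl hl hll hm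
      (show rpK q y rows lrows ms j i n fw fh
        (fun w h => k w h (digs K (q * q) P) (digs K (q * q) N)) = true from h)
    refine ⟨W, H, P, N, [], h, hW, hH, rfl, by simp, by simp,
      fun p _ => Nat.le_add_right _ _, fun p _ => Nat.le_add_right _ _,
      by simpa [Tm.slots] using g1, ?_⟩
    intro Ls parts h1 h2
    obtain rfl := List.forall₂_nil_right_iff.1 h2
    rw [Tm.slots, List.forall₂_cons_right_iff] at h1
    obtain ⟨L, Ls', h3, h5, rfl⟩ := h1
    obtain rfl := List.forall₂_nil_right_iff.1 h5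
    simp only [List.flatten_cons, List.flatten_nil, List.append_nil]
    exact hp L h3
  | cp j i n fw fh =>
    intro P N k _ h
    obtain ⟨g1, W, H, h, hW, hH, hp⟩ := rpK_sound hδ hy hyl hx hxl hl hll hm
      (show rpK q y rows lrows ms j i n fw fh
        (fun w h => k h w (digs K (q * q) P) (digs K (q * q) N)) = true from h)
    refine ⟨H, W, P, N, [], h, hH, hW, rfl, by simp, by simp,
      fun p _ => Nat.le_add_right _ _, fun p _ => Nat.le_add_right _ _,
      by simpa [Tm.slots] using g1, ?_⟩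
    intro Ls parts h1 h2
    obtain rfl := List.forall₂_nil_right_iff.1 h2
    rw [Tm.slots, List.forall₂_cons_right_iff] at h1
    obtain ⟨L, Ls', h3, h5, rfl⟩ := h1
    obtain rfl := List.forall₂_nil_right_iff.1 h5
    simp only [List.flatten_cons, List.flatten_nil, List.append_nil]
    exact (hp L h3).swap
  | bk kd e a b =>
    intro P N k _ h
    have h : capK q D y kd e (y + san (lowM q) (nthR 0 vs a)) (y + san (lowM q) (nthR 0 vs b))
      (digs K (q * q) P) (digs K (q * q) N) (k (y + san (lowM q) (nthR 0 vs a))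
        (y + san (lowM q) (nthR 0 vs b))) = true := h
    obtain ⟨a, ha⟩ : ∃ a', a' = nthR 0 vs a := ⟨_, rfl⟩
    obtain ⟨b, hb⟩ : ∃ b', b' = nthR 0 vs b := ⟨_, rfl⟩
    rw [← ha, ← hb, san_eq, san_eq, hy, digs_add, digs_add] at h
    clear ha hb
    have hb := hsd
    obtain ⟨P', N', f, h1, h2, h3, h4, h5⟩ := capK_sound hq hq' hδ hD hD' hyl
      (fun i hi => ⟨(hb a i hi).1, le_WB (by norm_num) (hb a i hi).2⟩)
      (fun i hi => ⟨(hb b i hi).1, le_WB (by norm_num) (hb b i hi).2⟩) h
    refine ⟨_, _, P', N', [(lin q δ fun i => yv i + sd a i, lin q δ fun i => yv i + sd b i, f)],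
      h1, hb a, hb b, rfl, ?_, ?_, ?_, ?_, by simp [Tm.slots], ?_⟩
    · intro B hB
      rw [List.mem_singleton] at hB
      rw [hB]
      exact h2
    · simpa using h3
    · intro p hp
      rw [Tm.cnt, one_mul]
      exact h4 p hp
    · intro p hp
      rw [Tm.cnt, one_mul]
      exact h5 p hp
    · intro Ls parts g1 g2
      obtain rfl := List.forall₂_nil_right_iff.1 g1
      rw [List.forall₂_cons_right_iff] at g2
      obtain ⟨p, ps, g3, g4, rfl⟩ := g2
      obtain rfl := List.forall₂_nil_right_iff.1 g4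
      simpa using g3
  | hh t t' ih ih' =>
    intro P N k hc h
    rw [Tm.cnt] at hc
    obtain ⟨W, H, P1, N1, Bs, h, a1, a2, a3, a4, a5, a6, a7, a9, a8⟩ :=
      ih P N (fun w h P N => evalK q D y rows lrows ms vs t' P N (fun w' h' P N =>
        k (Nat.add w w') (mx K (mk1 q) h h') P N)) (by omega) h
    obtain ⟨W', H', P2, N2, Bs', h, b1, b2, b3, b4, b5, b6, b7, b9, b8⟩ :=
      ih' P1 N1 _ (by omega) h
    have h : k (digs K q W + digs K q W') (mx K (mk1 q) (digs K q H) (digs K q H'))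
      (digs K (q * q) P2) (digs K (q * q) N2) = true := h
    rw [digs_add, mk1, show Nat.mul (2 ^ (K - 1)) (rep K q) = 2 ^ (K - 1) * rep K q from rfl,
      mx_eq K_pos (fun i hi => lt_of_le_of_lt (le_WB (by omega) (a2 i hi).2) WB_lt)
        (fun i hi => lt_of_le_of_lt (le_WB (by omega) (b2 i hi).2) WB_lt)] at h
    refine ⟨_, _, P2, N2, Bs ++ Bs', h, ?_, ?_, ?_, ?_, ?_, ?_, ?_, ?_, ?_⟩
    · intro i hi
      have := a1 i hi
      have := b1 i hi
      rw [Tm.cnt, Nat.add_mul]
      omega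
    · intro i hi
      have := a2 i hi
      have := b2 i hi
      rw [Tm.cnt, Nat.add_mul]
      omega
    · rw [List.length_append, a3, b3, Tm.nb]
    · intro B hB
      rcases List.mem_append.1 hB with hB | hB
      · exact a4 B hB
      · exact b4 B hB
    · rw [List.map_append, List.sum_append, mul_add, a5, b5]
      ring
    · intro p hp
      have := a6 p hp
      have := b6 p hp
      rw [Tm.cnt, Nat.add_mul]
      omega
    · intro p hp
      have := a7 p hp
      have := b7 p hp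
      rw [Tm.cnt, Nat.add_mul]
      omega
    · intro jn hjn
      rcases List.mem_append.1 hjn with hjn | hjn
      · exact a9 jn hjn
      · exact b9 jn hjn
    · intro Ls parts g1 g2
      obtain ⟨L1, L2, rfl, g3, g4⟩ := forall₂_split g1
      obtain ⟨p1, p2, rfl, g5, g6⟩ := forall₂_split g2
      have c1 := a8 L1 p1 g3 g5
      have c2 := b8 L2 p2 g4 g6
      rw [lin_add, List.flatten_append, List.flatten_append]
      refine PacksL.perm (comb_perm _ _ _ _) (PacksL.hor (lin_nonneg hδ _) (lin_nonneg hδ _)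
        (c1.mono le_rfl ?_) (c2.mono le_rfl ?_))
      · exact lin_mono hδ fun i _ => le_max_left _ _
      · exact lin_mono hδ fun i _ => le_max_right _ _
  | vv t t' ih ih' =>
    intro P N k hc h
    rw [Tm.cnt] at hc
    obtain ⟨W, H, P1, N1, Bs, h, a1, a2, a3, a4, a5, a6, a7, a9, a8⟩ :=
      ih P N (fun w h P N => evalK q D y rows lrows ms vs t' P N (fun w' h' P N =>
        k (mx K (mk1 q) w w') (Nat.add h h') P N)) (by omega) h
    obtain ⟨W', H', P2, N2, Bs', h, b1, b2, b3, b4, b5, b6, b7, b9, b8⟩ :=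
      ih' P1 N1 _ (by omega) h
    have h : k (mx K (mk1 q) (digs K q W) (digs K q W')) (digs K q H + digs K q H')
      (digs K (q * q) P2) (digs K (q * q) N2) = true := h
    rw [digs_add, mk1, show Nat.mul (2 ^ (K - 1)) (rep K q) = 2 ^ (K - 1) * rep K q from rfl,
      mx_eq K_pos (fun i hi => lt_of_le_of_lt (le_WB (by omega) (a1 i hi).2) WB_lt)
        (fun i hi => lt_of_le_of_lt (le_WB (by omega) (b1 i hi).2) WB_lt)] at h
    refine ⟨_, _, P2, N2, Bs ++ Bs', h, ?_, ?_, ?_, ?_, ?_, ?_, ?_, ?_, ?_⟩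
    · intro i hi
      have := a1 i hi
      have := b1 i hi
      rw [Tm.cnt, Nat.add_mul]
      omega
    · intro i hi
      have := a2 i hi
      have := b2 i hi
      rw [Tm.cnt, Nat.add_mul]
      omega
    · rw [List.length_append, a3, b3, Tm.nb]
    · intro B hB
      rcases List.mem_append.1 hB with hB | hB
      · exact a4 B hB
      · exact b4 B hB
    · rw [List.map_append, List.sum_append, mul_add, a5, b5]
      ring
    · intro p hp
      have := a6 p hp
      have := b6 p hp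
      rw [Tm.cnt, Nat.add_mul]
      omega
    · intro p hp
      have := a7 p hp
      have := b7 p hp
      rw [Tm.cnt, Nat.add_mul]
      omega
    · intro jn hjn
      rcases List.mem_append.1 hjn with hjn | hjn
      · exact a9 jn hjn
      · exact b9 jn hjn
    · intro Ls parts g1 g2
      obtain ⟨L1, L2, rfl, g3, g4⟩ := forall₂_split g1
      obtain ⟨p1, p2, rfl, g5, g6⟩ := forall₂_split g2
      have c1 := a8 L1 p1 g3 g5
      have c2 := b8 L2 p2 g4 g6
      rw [lin_add, List.flatten_append, List.flatten_append]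
      refine PacksL.perm (comb_perm _ _ _ _) (PacksL.ver (lin_nonneg hδ _) (lin_nonneg hδ _)
        (c1.mono ?_ le_rfl) (c2.mono ?_ le_rfl))
      · exact lin_mono hδ fun i _ => le_max_left _ _
      · exact lin_mono hδ fun i _ => le_max_right _ _
  | hf kd e t t' ih ih' =>
    intro P N k hc h
    rw [Tm.cnt] at hc
    obtain ⟨W, H, P1, N1, Bs, h, a1, a2, a3, a4, a5, a6, a7, a9, a8⟩ :=
      ih P N (fun w h P N => evalK q D y rows lrows ms vs t' P N (fun w' h' P N =>
        capK q D y kd e w' (Nat.sub (mx K (mk1 q) h (Nat.add h' y)) h') P N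
          (k (Nat.add w w') (mx K (mk1 q) h (Nat.add h' y))))) (by omega) h
    obtain ⟨W', H', P2, N2, Bs', h, b1, b2, b3, b4, b5, b6, b7, b9, b8⟩ :=
      ih' P1 N1 _ (by omega) h
    have h : capK q D y kd e (digs K q W')
      (mx K (mk1 q) (digs K q H) (digs K q H' + y) - digs K q H') (digs K (q * q) P2)
      (digs K (q * q) N2) (k (digs K q W + digs K q W')
        (mx K (mk1 q) (digs K q H) (digs K q H' + y))) = true := h
    have hyL : ∀ i < q, yv i ≤ LB := fun i hi => (hyl i hi).le.trans hLB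
    have hm : ∀ i < q, max (H i) (H' i + yv i) ≤ (t.cnt + t'.cnt + 1) * LB := fun i hi => by
      have := (a2 i hi).2
      have := (b2 i hi).2
      have := hyL i hi
      rw [Nat.add_mul, Nat.add_mul]
      omega
    rw [hy, digs_add, digs_add, mk1,
      show Nat.mul (2 ^ (K - 1)) (rep K q) = 2 ^ (K - 1) * rep K q from rfl,
      mx_eq K_pos (fun i hi => lt_of_le_of_lt (le_WB (by omega) (a2 i hi).2) WB_lt)
        (fun i hi => lt_of_le_of_lt (le_WB (c := t.cnt + t'.cnt + 1) (by omega)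
          ((le_max_right _ _).trans (hm i hi))) WB_lt),
      digs_sub (fun i _ => by omega)] at h
    obtain ⟨P3, N3, f, h, c2, c3, c4, c5⟩ := capK_sound hq hq' hδ hD hD' hyl
      (fun i hi => ⟨(b1 i hi).1, le_WB (by omega) (b1 i hi).2⟩)
      (fun i hi => ⟨by omega, le_WB (c := t.cnt + t'.cnt + 1) (by omega)
        ((Nat.sub_le _ _).trans (hm i hi))⟩) h
    refine ⟨_, _, P3, N3, Bs ++ (Bs' ++ [(lin q δ W',
      lin q δ fun i => max (H i) (H' i + yv i) - H' i, f)]), h, ?_, ?_, ?_, ?_, ?_, ?_, ?_, ?_, ?_⟩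
    · intro i hi
      have := a1 i hi
      have := b1 i hi
      rw [Tm.cnt, Nat.add_mul, Nat.add_mul]
      omega
    · intro i hi
      have := a2 i hi
      exact ⟨by omega, by rw [Tm.cnt]; exact hm i hi⟩
    · rw [List.length_append, List.length_append, a3, b3, Tm.nb, add_assoc]
      rfl
    · intro B hB
      rcases List.mem_append.1 hB with hB | hB
      · exact a4 B hB
      · rcases List.mem_append.1 hB with hB | hB
        · exact b4 B hB
        · rw [List.mem_singleton] at hB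
          rw [hB]
          exact c2
    · rw [List.map_append, List.map_append, List.sum_append, List.sum_append, mul_add, mul_add,
        a5, b5]
      simp only [List.map_cons, List.map_nil, List.sum_cons, List.sum_nil, add_zero]
      rw [c3]
      ring
    · intro p hp
      have := a6 p hp
      have := b6 p hp
      have := c4 p hp
      rw [Tm.cnt, Nat.add_mul, Nat.add_mul, Nat.one_mul]
      omega
    · intro p hp
      have := a7 p hp
      have := b7 p hp
      have := c5 p hp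
      rw [Tm.cnt, Nat.add_mul, Nat.add_mul, Nat.one_mul]
      omega
    · intro jn hjn
      rcases List.mem_append.1 hjn with hjn | hjn
      · exact a9 jn hjn
      · exact b9 jn hjn
    · intro Ls parts g1 g2
      obtain ⟨L1, L2, rfl, g3, g4⟩ := forall₂_split g1
      obtain ⟨p1, p23, rfl, g5, g6⟩ := forall₂_split g2
      obtain ⟨p2, p3, rfl, g6', g7⟩ := forall₂_split g6
      rw [List.forall₂_cons_right_iff] at g7
      obtain ⟨r, rs, g8, g9, rfl⟩ := g7
      obtain rfl := List.forall₂_nil_right_iff.1 g9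
      have d1 := a8 L1 p1 g3 g5
      have d2 := b8 L2 p2 g4 g6'
      have d3 := PacksL.ver (lin_nonneg hδ _) (lin_nonneg hδ _) d2 g8
      rw [← lin_add] at d3
      rw [lin_add, List.flatten_append, List.flatten_append, List.flatten_append,
        List.flatten_singleton]
      rw [List.append_assoc] at d3
      refine PacksL.perm (comb_perm _ _ _ _) (PacksL.hor (lin_nonneg hδ _) (lin_nonneg hδ _)
        (d1.mono le_rfl ?_) (d3.mono le_rfl ?_))
      · exact lin_mono hδ fun i _ => le_max_left _ _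
      · exact lin_mono hδ fun i _ => by omega
  | vf kd e t t' ih ih' =>
    intro P N k hc h
    rw [Tm.cnt] at hc
    obtain ⟨W, H, P1, N1, Bs, h, a1, a2, a3, a4, a5, a6, a7, a9, a8⟩ :=
      ih P N (fun w h P N => evalK q D y rows lrows ms vs t' P N (fun w' h' P N =>
        capK q D y kd e (Nat.sub (mx K (mk1 q) w (Nat.add w' y)) w') h' P N
          (k (mx K (mk1 q) w (Nat.add w' y)) (Nat.add h h')))) (by omega) h
    obtain ⟨W', H', P2, N2, Bs', h, b1, b2, b3, b4, b5, b6, b7, b9, b8⟩ :=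
      ih' P1 N1 _ (by omega) h
    have h : capK q D y kd e (mx K (mk1 q) (digs K q W) (digs K q W' + y) - digs K q W')
      (digs K q H') (digs K (q * q) P2)
      (digs K (q * q) N2) (k (mx K (mk1 q) (digs K q W) (digs K q W' + y))
        (digs K q H + digs K q H')) = true := h
    have hyL : ∀ i < q, yv i ≤ LB := fun i hi => (hyl i hi).le.trans hLB
    have hm : ∀ i < q, max (W i) (W' i + yv i) ≤ (t.cnt + t'.cnt + 1) * LB := fun i hi => by
      have := (a1 i hi).2
      have := (b1 i hi).2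
      have := hyL i hi
      rw [Nat.add_mul, Nat.add_mul]
      omega
    rw [hy, digs_add, digs_add, mk1,
      show Nat.mul (2 ^ (K - 1)) (rep K q) = 2 ^ (K - 1) * rep K q from rfl,
      mx_eq K_pos (fun i hi => lt_of_le_of_lt (le_WB (by omega) (a1 i hi).2) WB_lt)
        (fun i hi => lt_of_le_of_lt (le_WB (c := t.cnt + t'.cnt + 1) (by omega)
          ((le_max_right _ _).trans (hm i hi))) WB_lt),
      digs_sub (fun i _ => by omega)] at h
    obtain ⟨P3, N3, f, h, c2, c3, c4, c5⟩ := capK_sound hq hq' hδ hD hD' hyl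
      (fun i hi => ⟨by omega, le_WB (c := t.cnt + t'.cnt + 1) (by omega)
        ((Nat.sub_le _ _).trans (hm i hi))⟩)
      (fun i hi => ⟨(b2 i hi).1, le_WB (by omega) (b2 i hi).2⟩) h
    refine ⟨_, _, P3, N3, Bs ++ (Bs' ++ [(lin q δ fun i => max (W i) (W' i + yv i) - W' i,
      lin q δ H', f)]), h, ?_, ?_, ?_, ?_, ?_, ?_, ?_, ?_, ?_⟩
    · intro i hi
      have := a1 i hi
      exact ⟨by omega, by rw [Tm.cnt]; exact hm i hi⟩
    · intro i hi
      have := a2 i hi
      have := b2 i hi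
      rw [Tm.cnt, Nat.add_mul, Nat.add_mul]
      omega
    · rw [List.length_append, List.length_append, a3, b3, Tm.nb, add_assoc]
      rfl
    · intro B hB
      rcases List.mem_append.1 hB with hB | hB
      · exact a4 B hB
      · rcases List.mem_append.1 hB with hB | hB
        · exact b4 B hB
        · rw [List.mem_singleton] at hB
          rw [hB]
          exact c2
    · rw [List.map_append, List.map_append, List.sum_append, List.sum_append, mul_add, mul_add,
        a5, b5]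
      simp only [List.map_cons, List.map_nil, List.sum_cons, List.sum_nil, add_zero]
      rw [c3]
      ring
    · intro p hp
      have := a6 p hp
      have := b6 p hp
      have := c4 p hp
      rw [Tm.cnt, Nat.add_mul, Nat.add_mul, Nat.one_mul]
      omega
    · intro p hp
      have := a7 p hp
      have := b7 p hp
      have := c5 p hp
      rw [Tm.cnt, Nat.add_mul, Nat.add_mul, Nat.one_mul]
      omega
    · intro jn hjn
      rcases List.mem_append.1 hjn with hjn | hjn
      · exact a9 jn hjn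
      · exact b9 jn hjn
    · intro Ls parts g1 g2
      obtain ⟨L1, L2, rfl, g3, g4⟩ := forall₂_split g1
      obtain ⟨p1, p23, rfl, g5, g6⟩ := forall₂_split g2
      obtain ⟨p2, p3, rfl, g6', g7⟩ := forall₂_split g6
      rw [List.forall₂_cons_right_iff] at g7
      obtain ⟨r, rs, g8, g9, rfl⟩ := g7
      obtain rfl := List.forall₂_nil_right_iff.1 g9
      have d1 := a8 L1 p1 g3 g5
      have d2 := b8 L2 p2 g4 g6'
      have d3 := PacksL.hor (lin_nonneg hδ _) (lin_nonneg hδ _) d2 g8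
      rw [← lin_add] at d3
      rw [lin_add, List.flatten_append, List.flatten_append, List.flatten_append,
        List.flatten_singleton]
      rw [List.append_assoc] at d3
      refine PacksL.perm (comb_perm _ _ _ _) (PacksL.ver (lin_nonneg hδ _) (lin_nonneg hδ _)
        (d1.mono ?_ le_rfl) (d3.mono ?_ le_rfl))
      · exact lin_mono hδ fun i _ => le_max_left _ _
      · exact lin_mono hδ fun i _ => by omega
  | hs kd e b t ih =>
    intro P N k hc h
    rw [Tm.cnt] at hc
    obtain ⟨W, H, P1, N1, Bs, h, a1, a2, a3, a4, a5, a6, a7, a9, a8⟩ :=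
      ih P N (fun w h P N => capK q D y kd e (Nat.add y (san (lowM q) (nthR 0 vs b))) h P N
        (k (Nat.add w (Nat.add y (san (lowM q) (nthR 0 vs b)))) h)) (by omega) h
    have h : capK q D y kd e (y + san (lowM q) (nthR 0 vs b)) (digs K q H) (digs K (q * q) P1)
      (digs K (q * q) N1) (k (digs K q W + (y + san (lowM q) (nthR 0 vs b))) (digs K q H))
        = true := h
    obtain ⟨b, hb⟩ : ∃ b', b' = nthR 0 vs b := ⟨_, rfl⟩
    rw [← hb, san_eq, hy, digs_add, digs_add] at h
    clear hb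
    have hb := hsd b
    obtain ⟨P3, N3, f, h, c2, c3, c4, c5⟩ := capK_sound hq hq' hδ hD hD' hyl
      (fun i hi => ⟨(hb i hi).1, le_WB (by norm_num) (hb i hi).2⟩)
      (fun i hi => ⟨(a2 i hi).1, le_WB (by omega) (a2 i hi).2⟩) h
    refine ⟨_, _, P3, N3, Bs ++ [(lin q δ fun i => yv i + sd b i, lin q δ H, f)], h, ?_, ?_, ?_, ?_, ?_, ?_, ?_, ?_, ?_⟩
    · intro i hi
      have := a1 i hi
      have := hb i hi
      rw [Tm.cnt, Nat.add_mul]
      omega
    · intro i hi
      have := a2 i hi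
      rw [Tm.cnt, Nat.add_mul]
      omega
    · rw [List.length_append, a3, Tm.nb]
      rfl
    · intro B hB
      rcases List.mem_append.1 hB with hB | hB
      · exact a4 B hB
      · rw [List.mem_singleton] at hB
        rw [hB]
        exact c2
    · rw [List.map_append, List.sum_append, mul_add, a5]
      simp only [List.map_cons, List.map_nil, List.sum_cons, List.sum_nil, add_zero]
      rw [c3]
      ring
    · intro p hp
      have := a6 p hp
      have := c4 p hp
      rw [Tm.cnt, Nat.add_mul, Nat.one_mul]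
      omega
    · intro p hp
      have := a7 p hp
      have := c5 p hp
      rw [Tm.cnt, Nat.add_mul, Nat.one_mul]
      omega
    · exact a9
    · intro Ls parts g1 g2
      obtain ⟨p1, p2, rfl, g3, g4⟩ := forall₂_split g2
      rw [List.forall₂_cons_right_iff] at g4
      obtain ⟨r, rs, g8, g9, rfl⟩ := g4
      obtain rfl := List.forall₂_nil_right_iff.1 g9
      have d1 := a8 Ls p1 g1 g3
      have d3 := PacksL.hor (lin_nonneg hδ _) (lin_nonneg hδ _) d1 g8
      rw [← lin_add, List.append_assoc] at d3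
      rw [List.flatten_append, List.flatten_singleton]
      exact d3
  | vs kd e b t ih =>
    intro P N k hc h
    rw [Tm.cnt] at hc
    obtain ⟨W, H, P1, N1, Bs, h, a1, a2, a3, a4, a5, a6, a7, a9, a8⟩ :=
      ih P N (fun w h P N => capK q D y kd e w (Nat.add y (san (lowM q) (nthR 0 vs b))) P N
        (k w (Nat.add h (Nat.add y (san (lowM q) (nthR 0 vs b)))))) (by omega) h
    have h : capK q D y kd e (digs K q W) (y + san (lowM q) (nthR 0 vs b)) (digs K (q * q) P1)
      (digs K (q * q) N1) (k (digs K q W) (digs K q H + (y + san (lowM q) (nthR 0 vs b))))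
        = true := h
    obtain ⟨b, hb⟩ : ∃ b', b' = nthR 0 vs b := ⟨_, rfl⟩
    rw [← hb, san_eq, hy, digs_add, digs_add] at h
    clear hb
    have hb := hsd b
    obtain ⟨P3, N3, f, h, c2, c3, c4, c5⟩ := capK_sound hq hq' hδ hD hD' hyl
      (fun i hi => ⟨(a1 i hi).1, le_WB (by omega) (a1 i hi).2⟩)
      (fun i hi => ⟨(hb i hi).1, le_WB (by norm_num) (hb i hi).2⟩) h
    refine ⟨_, _, P3, N3, Bs ++ [(lin q δ W, lin q δ fun i => yv i + sd b i, f)], h, ?_, ?_, ?_, ?_, ?_, ?_, ?_, ?_, ?_⟩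
    · intro i hi
      have := a1 i hi
      rw [Tm.cnt, Nat.add_mul]
      omega
    · intro i hi
      have := a2 i hi
      have := hb i hi
      rw [Tm.cnt, Nat.add_mul]
      omega
    · rw [List.length_append, a3, Tm.nb]
      rfl
    · intro B hB
      rcases List.mem_append.1 hB with hB | hB
      · exact a4 B hB
      · rw [List.mem_singleton] at hB
        rw [hB]
        exact c2
    · rw [List.map_append, List.sum_append, mul_add, a5]
      simp only [List.map_cons, List.map_nil, List.sum_cons, List.sum_nil, add_zero]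
      rw [c3]
      ring
    · intro p hp
      have := a6 p hp
      have := c4 p hp
      rw [Tm.cnt, Nat.add_mul, Nat.one_mul]
      omega
    · intro p hp
      have := a7 p hp
      have := c5 p hp
      rw [Tm.cnt, Nat.add_mul, Nat.one_mul]
      omega
    · exact a9
    · intro Ls parts g1 g2
      obtain ⟨p1, p2, rfl, g3, g4⟩ := forall₂_split g2
      rw [List.forall₂_cons_right_iff] at g4
      obtain ⟨r, rs, g8, g9, rfl⟩ := g4
      obtain rfl := List.forall₂_nil_right_iff.1 g9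
      have d1 := a8 Ls p1 g1 g3
      have d3 := PacksL.ver (lin_nonneg hδ _) (lin_nonneg hδ _) d1 g8
      rw [← lin_add, List.append_assoc] at d3
      rw [List.flatten_append, List.flatten_singleton]
      exact d3

end eval

end Pool.Agent.MOS
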