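import Pool.Agent.Lib.MP_b520b2_co.Cover

/-!
# A new group

The first `n` squares of the tail become a group.
-/

namespace Pool.Agent.MOS

open Finset

/-- `A` on the first `q` places, then `B` -/
def glue {α : Type*} (q : ℕ) (A B : ℕ → α) (m : ℕ) : α := if m < q then A m else B (m - q)

theorem digs_glue (k q c : ℕ) (A B : ℕ → ℕ) :
    digs k (q + c) (glue q A B) = digs k q A + 2 ^ (k * q) * digs k c B := by
  rw [digs, sum_range_add]
  congr 1
  · apply sum_congr rfl
    intro m hm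
    rw [glue, if_pos (mem_range.1 hm)]
  · rw [digs, mul_sum]
    apply sum_congr rfl
    intro m _
    rw [glue, if_neg (by omega), Nat.add_sub_cancel_left, mul_add, pow_add]
    ring

theorem lin_glue (q c : ℕ) (A B : ℕ → ℝ) (V W : ℕ → ℕ) :
    lin (q + c) (glue q A B) (glue q V W) = lin q A V + lin c B W := by
  rw [lin, sum_range_add]
  congr 1
  · apply sum_congr rfl
    intro m hm
    rw [glue, glue, if_pos (mem_range.1 hm), if_pos (mem_range.1 hm)]
  · apply sum_congr rfl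
    intro m _
    rw [glue, glue, if_neg (by omega), if_neg (by omega), Nat.add_sub_cancel_left]

/-- the rays with a positive last side -/
noncomputable def selL (y q : ℕ) : List ℕ :=
  Nat.rec (motive := fun _ => List ℕ) List.nil (fun m ih =>
    Bool.rec (motive := fun _ => List ℕ) (List.cons (Nat.mul K m) ih) ih
      (Nat.beq (dgS y (Nat.mul K m)) 0)) q

/-- the indices of the rays with a positive last side -/
def selI (y : ℕ) : ℕ → List ℕ
  | 0 => []
  | m + 1 => if dg y m = 0 then selI y m else m :: selI y m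

theorem selL_eq (y q : ℕ) : selL y q = (selI y q).map (K * ·) := by
  induction q with
  | zero => rfl
  | succ m ih =>
    have e : selL y (m + 1) = Bool.rec (motive := fun _ => List ℕ)
      (List.cons (Nat.mul K m) (selL y m)) (selL y m) (Nat.beq (dg y m) 0) := rfl
    rw [e, ih, selI]
    by_cases h : dg y m = 0
    · rw [if_pos h, h]
      rfl
    · rw [if_neg h, beq_false_of_ne h]
      rfl

/-- the entries of `v` at the places `sh` -/
noncomputable def pick (v : ℕ) (sh : List ℕ) : ℕ :=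
  List.rec (motive := fun _ => ℕ) 0 (fun h _ ih => Nat.add (dgS v h) (Nat.mul (2 ^ K) ih)) sh

theorem pick_eq (v : ℕ) (I : List ℕ) :
    pick v (I.map (K * ·)) = digs K I.length (fun t => dg v (I.getD t 0)) := by
  induction I with
  | nil => simp [digs, pick]
  | cons a I ih =>
    have e : pick v ((a :: I).map (K * ·)) = dg v a + 2 ^ K * pick v (I.map (K * ·)) := rfl
    rw [e, ih, List.length_cons, digs_succ']
    rfl

theorem selI_lt {y q : ℕ} : ∀ m ∈ selI y q, m < q := by
  induction q with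
  | zero => simp [selI]
  | succ q ih =>
    intro m hm
    rw [selI] at hm
    split_ifs at hm
    · have := ih m hm
      omega
    · rcases List.mem_cons.1 hm with rfl | hm
      · omega
      · have := ih m hm
        omega

theorem selI_length {y q : ℕ} : (selI y q).length ≤ q := by
  induction q with
  | zero => simp [selI]
  | succ q ih =>
    rw [selI]
    split_ifs
    · omega
    · rw [List.length_cons]
      omega

theorem selI_getD_lt {y q t : ℕ} (ht : t < (selI y q).length) : (selI y q).getD t 0 < q := by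
  rw [List.getD_eq_getElem _ _ ht]
  exact selI_lt _ (List.getElem_mem ht)

theorem selI_sum (y q : ℕ) (h : ℕ → ℝ) :
    ∑ t ∈ range (selI y q).length, h ((selI y q).getD t 0) =
      ∑ m ∈ range q, if dg y m = 0 then 0 else h m := by
  induction q with
  | zero => simp [selI]
  | succ q ih =>
    rw [sum_range_succ, selI]
    split_ifs with h1
    · rw [ih, add_zero]
    · rw [List.length_cons, sum_range_succ', ← ih]
      simp

theorem selI_lin (y q : ℕ) (f : ℕ → ℝ) (v : ℕ → ℕ) :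
    lin (selI y q).length (fun t => f ((selI y q).getD t 0)) (fun t => v ((selI y q).getD t 0)) =
      ∑ m ∈ range q, if dg y m = 0 then 0 else f m * v m :=
  selI_sum y q (fun m => f m * v m)

/-- facts on the squares of a group -/
theorem group_facts {T : List ℝ} (hT : SP T) {n : ℕ} (hn : 1 ≤ n) :
    0 ≤ hd (T.drop n) ∧ hd (T.drop n) ≤ hd T ∧ (T.take n).sum ≤ n * hd T ∧
      hd T + (n - 1) * hd (T.drop n) ≤ (T.take n).sum := by
  have h1 : 0 ≤ hd (T.drop n) := hd_nonneg (hT.drop n)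
  refine ⟨h1, ?_, sum_take_le hT n, ?_⟩
  · cases h4 : T.drop n with
    | nil =>
      show (0 : ℝ) ≤ hd T
      exact hd_nonneg hT
    | cons b U =>
      show b ≤ hd T
      apply hT.le_hd
      apply List.mem_of_mem_drop (i := n)
      rw [h4]
      simp
  · have h2 := mul_hd_le (hT.drop 1) (n - 1)
    rw [List.drop_drop, show 1 + (n - 1) = n by omega, Nat.cast_sub hn, Nat.cast_one] at h2
    rw [take_sum T hn]
    linarith

section up

variable {q y : ℕ}

/-- entries at the selected rays -/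
def pk (y q : ℕ) (v : ℕ → ℕ) (t : ℕ) : ℕ := v ((selI y q).getD t 0)

theorem pk_lt {v : ℕ → ℕ} {B : ℕ} (hv : ∀ i < q, v i < B) {t : ℕ} (ht : t < (selI y q).length) :
    pk y q v t < B := hv _ (selI_getD_lt ht)

theorem glue_lt {q c : ℕ} {A B : ℕ → ℕ} {b : ℕ} (hA : ∀ i < q, A i < b) (hB : ∀ i < c, B i < b) :
    ∀ i < q + c, glue q A B i < b := by
  intro i hi
  rw [glue]
  split_ifs with h
  · exact hA i h
  · exact hB _ (by omega)

theorem glue_le {q c : ℕ} {A B A' B' : ℕ → ℕ} (hA : ∀ i < q, A i ≤ A' i)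
    (hB : ∀ i < c, B i ≤ B' i) : ∀ i < q + c, glue q A B i ≤ glue q A' B' i := by
  intro i hi
  rw [glue, glue]
  split_ifs with h
  · exact hA i h
  · exact hB _ (by omega)

theorem pow_KAP_le_K : 2 ^ KAP ≤ 2 ^ K := Nat.pow_le_pow_right (by norm_num) (by decide)

theorem dg_of_eq {q v : ℕ} {f : ℕ → ℕ} (hf : ∀ i < q, f i < 2 ^ KAP) (h : v = digs K q f) :
    IsVec q v ∧ ∀ i < q, dg v i = f i := by
  rw [h]
  exact ⟨isVec_digs hf, fun i hi => dg_digs (fun i hi => (hf i hi).trans_le pow_KAP_le_K) hi⟩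

/-- digits for one block -/
def upF1 (y q : ℕ) (v : ℕ → ℕ) : ℕ → ℕ := glue q v (pk y q v)

/-- digits for two blocks -/
def upF2 (y q : ℕ) (v : ℕ → ℕ) : ℕ → ℕ :=
  glue (q + (selI y q).length) (glue q v (pk y q v)) (pk y q v)

/-- one block -/
noncomputable def upV1 (sh : List ℕ) (pq v : ℕ) (k : ℕ → Bool) : Bool :=
  k (Nat.add v (Nat.mul pq (pick v sh)))

theorem upV1_ok : OpOK q (q + (selI y q).length) (upF1 y q) (upV1 (selL y q) (2 ^ (K * q))) := by
  intro v k hv h
  have h : k (v + 2 ^ (K * q) * pick v (selL y q)) = true := h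
  have e : v + 2 ^ (K * q) * pick v (selL y q) = digs K (q + (selI y q).length)
      (upF1 y q (dg v)) := by
    rw [upF1, digs_glue, selL_eq, pick_eq, ← hv.1]
    rfl
  obtain ⟨h1, h2⟩ := dg_of_eq (glue_lt hv.2 fun i hi => pk_lt hv.2 hi) e
  exact ⟨_, h, h1, h2⟩

theorem upV2_ok : OpOK q (q + (selI y q).length + (selI y q).length) (upF2 y q)
    (upV1 (selL y q) (2 ^ (K * q) + 2 ^ (K * (q + (selI y q).length)))) := by
  intro v k hv h
  have h : k (v + (2 ^ (K * q) + 2 ^ (K * (q + (selI y q).length))) * pick v (selL y q)) = true :=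
    h
  have e : v + (2 ^ (K * q) + 2 ^ (K * (q + (selI y q).length))) * pick v (selL y q) =
      digs K (q + (selI y q).length + (selI y q).length) (upF2 y q (dg v)) := by
    rw [upF2, digs_glue, digs_glue, selL_eq, pick_eq, ← hv.1]
    have e3 : digs K (selI y q).length (pk y q (dg v)) =
        digs K (selI y q).length (fun t => dg v ((selI y q).getD t 0)) := rfl
    rw [e3]
    ring
  obtain ⟨h1, h2⟩ := dg_of_eq (glue_lt (glue_lt hv.2 fun i hi => pk_lt hv.2 hi)
    fun i hi => pk_lt hv.2 hi) e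
  exact ⟨_, h, h1, h2⟩

theorem upF1_mono : Mono q (q + (selI y q).length) (upF1 y q) := fun _ _ h =>
  glue_le h fun _ hi => h _ (selI_getD_lt hi)

theorem upF2_mono : Mono q (q + (selI y q).length + (selI y q).length) (upF2 y q) := fun _ _ h =>
  glue_le (glue_le h fun _ hi => h _ (selI_getD_lt hi)) fun _ hi => h _ (selI_getD_lt hi)

/-- coefficients for one block -/
noncomputable def upD1 (y q : ℕ) (f0 f1 : ℕ → ℝ) : ℕ → ℝ :=
  glue q f0 (fun t => f1 ((selI y q).getD t 0))

/-- coefficients for two blocks -/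
noncomputable def upD2 (y q : ℕ) (f0 f1 f2 : ℕ → ℝ) : ℕ → ℝ :=
  glue (q + (selI y q).length) (glue q f0 (fun t => f1 ((selI y q).getD t 0)))
    (fun t => f2 ((selI y q).getD t 0))

theorem upD1_lin (f0 f1 : ℕ → ℝ) (v w : ℕ → ℕ) :
    lin (q + (selI y q).length) (upD1 y q f0 f1) (glue q v (pk y q w)) =
      ∑ m ∈ range q, (f0 m * v m + if dg y m = 0 then 0 else f1 m * w m) := by
  rw [upD1, lin_glue, sum_add_distrib]
  congr 1
  exact selI_lin y q f1 w

theorem upD2_lin (f0 f1 f2 : ℕ → ℝ) (v w x : ℕ → ℕ) :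
    lin (q + (selI y q).length + (selI y q).length) (upD2 y q f0 f1 f2)
      (glue (q + (selI y q).length) (glue q v (pk y q w)) (pk y q x)) =
      ∑ m ∈ range q, (f0 m * v m + (if dg y m = 0 then 0 else f1 m * w m) +
        if dg y m = 0 then 0 else f2 m * x m) := by
  rw [upD2, lin_glue, lin_glue, sum_add_distrib, sum_add_distrib]
  congr 1
  · congr 1
    exact selI_lin y q f1 w
  · exact selI_lin y q f2 x

end up

/-- the number of groups -/
noncomputable def lenG (g : Gl) : ℕ :=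
  Gl.rec (motive := fun _ => ℕ) 0 (fun _ _ _ _ r => Nat.succ r) g

theorem lenG_eq (g : Gl) : lenG g = g.len := by
  induction g with
  | nil => rfl
  | cons n u L g ih =>
    rw [Gl.len, ← ih]
    rfl

/-- the length of a list -/
noncomputable def lenL (l : List ℕ) : ℕ :=
  List.rec (motive := fun _ => ℕ) 0 (fun _ _ r => Nat.succ r) l

theorem lenL_eq (l : List ℕ) : lenL l = l.length := by
  induction l with
  | nil => rfl
  | cons a l ih =>
    rw [List.length_cons, ← ih]
    rfl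

/-- **A new group of one square.** -/
noncomputable def up1 (q c : ℕ) (sh : List ℕ) (g : Gl) (y s : ℕ)
    (k : ℕ → Gl → ℕ → ℕ → Bool) : Bool :=
  andB (Nat.ble (Nat.add q c) 1000) (andB (Nat.ble (lenG g) 29)
    (upV1 sh (Nat.pow 2 (Nat.mul K q)) s (fun s' =>
      upV1 sh (Nat.pow 2 (Nat.mul K q)) y (fun u' =>
        mapG (upV1 sh (Nat.pow 2 (Nat.mul K q))) (Gl.cons 1 u' 0 Gl.nil) g (fun g' =>
          k (Nat.add q c) g' (Nat.mul (Nat.pow 2 (Nat.mul K q)) (pick y sh)) s')))))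

theorem up1_sound {M : ℝ} {q : ℕ} {g : Gl} {y s : ℕ} {k : ℕ → Gl → ℕ → ℕ → Bool} {P : Prop}
    (hc : CellOK q g y s)
    (hk : ∀ q' g' y' s', CellOK q' g' y' s' → k q' g' y' s' = true → GoodCell M q' g' y' s' ∧ P)
    (h : up1 q (lenL (selL y q)) (selL y q) g y s k = true) : GoodCell M q g y s ∧ P := by
  have hc' := hc
  obtain ⟨hq, hq', hy, hs, hg, hlen⟩ := hc'
  obtain ⟨g1, h⟩ := andB_eq_true.1 h
  obtain ⟨g2, h⟩ := andB_eq_true.1 h
  have hcl : lenL (selL y q) = (selI y q).length := by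
    rw [lenL_eq, selL_eq, List.length_map]
  rw [hcl] at h g1
  have g1 : q + (selI y q).length ≤ 1000 := Nat.le_of_ble_eq_true g1
  have g2 : g.len ≤ 29 := by
    rw [← lenG_eq]
    exact Nat.le_of_ble_eq_true g2
  obtain ⟨s', h, a1, a2⟩ := upV1_ok s _ hs h
  obtain ⟨u', h, b1, b2⟩ := upV1_ok y _ hy h
  have hyb : ∀ i < q + (selI y q).length, glue q (fun _ => 0) (pk y q (dg y)) i < 2 ^ KAP :=
    glue_lt (fun _ _ => Nat.two_pow_pos _) fun i hi => pk_lt hy.2 hi
  obtain ⟨y', hy'⟩ : ∃ y', y' = 2 ^ (K * q) * pick y (selL y q) := ⟨_, rfl⟩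
  have ey : y' = digs K (q + (selI y q).length) (glue q (fun _ => 0) (pk y q (dg y))) := by
    rw [hy', digs_glue, selL_eq, pick_eq]
    simp [digs, pk]
  obtain ⟨c1, c2⟩ := dg_of_eq hyb ey
  have hyu : ∀ i < q + (selI y q).length, dg y' i ≤ dg u' i := by
    intro i hi
    rw [c2 i hi, b2 i hi]
    exact glue_le (fun _ _ => Nat.zero_le _) (fun _ _ => le_rfl) i hi
  obtain ⟨g', h, d1, d2, d3⟩ := mapG_sound (y' := y') upF1_mono upV1_ok _
    (fun i hi => (hyu i hi).trans (b2 i hi).le) g hg _ h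
  have h : k (q + (selI y q).length) g' (2 ^ (K * q) * pick y (selL y q)) s' = true := h
  rw [← hy'] at h
  obtain ⟨k1, k2⟩ := hk _ _ _ _ ⟨by omega, g1, c1, a1, d1 ⟨⟨le_rfl, by norm_num⟩, b1, hyu,
    fun hn => absurd rfl hn, trivial⟩, by rw [d2]; simp only [Gl.len]; omega⟩ h
  refine ⟨fun l hl hsp δ hh => ?_, k2⟩
  obtain ⟨hδ, hG, hS⟩ := hh
  have hT := tl_sp g l hsp
  have hhd := tl_hd g l hG
  obtain ⟨f1, f2, _, _⟩ := group_facts hT (n := 1) le_rfl
  obtain ⟨ρ, hρ0, hρ1, hρ⟩ : ∃ ρ : ℝ, 0 ≤ ρ ∧ ρ ≤ 1 ∧ hd ((g.tl l).drop 1) = ρ * hd (g.tl l) := by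
    rcases (hd_nonneg hT).eq_or_lt with h0 | h0
    · refine ⟨0, le_rfl, zero_le_one, ?_⟩
      rw [← h0] at f2
      rw [zero_mul]
      exact le_antisymm f2 f1
    · refine ⟨hd ((g.tl l).drop 1) / hd (g.tl l), div_nonneg f1 h0.le, (div_le_one h0).2 f2, ?_⟩
      field_simp
  obtain ⟨δ', hδ'⟩ : ∃ δ', δ' = upD1 y q (fun m => if dg y m = 0 then δ m else (1 - ρ) * δ m)
    (fun m => ρ * δ m) := ⟨_, rfl⟩
  have hlin : ∀ v : ℕ → ℕ, lin (q + (selI y q).length) δ' (upF1 y q v) = lin q δ v := by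
    intro v
    rw [hδ', upF1, upD1_lin]
    apply sum_congr rfl
    intro m _
    split_ifs <;> ring
  refine k1 l hl hsp δ' ⟨?_, ?_, ?_⟩
  · intro i
    rw [hδ', upD1, glue]
    split_ifs
    · exact hδ i
    · exact mul_nonneg (by linarith) (hδ i)
    · exact mul_nonneg hρ0 (hδ _)
  · refine d3 l δ δ' hlin hG.toP ⟨?_, fun hn => absurd rfl hn, ?_⟩
    · rw [lin_congr b2, hlin]
      exact hhd
    · show hd ((g.tl l).drop 1) = _
      rw [hρ, hhd, lin_congr c2, hδ', upD1_lin, lin, mul_sum]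
      apply sum_congr rfl
      intro m _
      split_ifs with h0
      · rw [h0]
        simp
      · simp only [Nat.cast_zero, mul_zero, zero_add]
        ring
  · rw [lin_congr a2, hlin]
    exact hS

/-- **A new group of `n` squares.** -/
noncomputable def upn (q n c : ℕ) (sh : List ℕ) (g : Gl) (y s : ℕ)
    (k : ℕ → Gl → ℕ → ℕ → Bool) : Bool :=
  andB (Nat.ble (Nat.add (Nat.add q c) c) 1000) (andB (Nat.ble (lenG g) 29)
    (andB (Nat.ble 2 n) (andB (Nat.ble n 961)
    (andB (leD (mk1 q) (Nat.mul n y) (lowM q))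
    (upV1 sh (Nat.add (Nat.pow 2 (Nat.mul K q)) (Nat.pow 2 (Nat.mul K (Nat.add q c)))) s (fun s' =>
      upV1 sh (Nat.add (Nat.pow 2 (Nat.mul K q)) (Nat.pow 2 (Nat.mul K (Nat.add q c)))) y
        (fun u' =>
        mapG (upV1 sh (Nat.add (Nat.pow 2 (Nat.mul K q)) (Nat.pow 2 (Nat.mul K (Nat.add q c)))))
          (Gl.cons n u' (Nat.add y (Nat.mul (Nat.add (Nat.pow 2 (Nat.mul K q))
            (Nat.pow 2 (Nat.mul K (Nat.add q c)))) (Nat.mul n (pick y sh)))) Gl.nil) g (fun g' =>
          k (Nat.add (Nat.add q c) c) g' (Nat.mul (Nat.pow 2 (Nat.mul K (Nat.add q c)))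
            (pick y sh)) s'))))))))

theorem upn_sound {M : ℝ} {q n : ℕ} {g : Gl} {y s : ℕ} {k : ℕ → Gl → ℕ → ℕ → Bool} {P : Prop}
    (hc : CellOK q g y s)
    (hk : ∀ q' g' y' s', CellOK q' g' y' s' → k q' g' y' s' = true → GoodCell M q' g' y' s' ∧ P)
    (h : upn q n (lenL (selL y q)) (selL y q) g y s k = true) : GoodCell M q g y s ∧ P := by
  have hc' := hc
  obtain ⟨hq, hq', hy, hs, hg, hlen⟩ := hc'
  obtain ⟨g1, h⟩ := andB_eq_true.1 h
  obtain ⟨g2, h⟩ := andB_eq_true.1 h
  obtain ⟨g3, h⟩ := andB_eq_true.1 h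
  obtain ⟨g4, h⟩ := andB_eq_true.1 h
  obtain ⟨g5, h⟩ := andB_eq_true.1 h
  have hcl : lenL (selL y q) = (selI y q).length := by
    rw [lenL_eq, selL_eq, List.length_map]
  rw [hcl] at h g1
  have g1 : q + (selI y q).length + (selI y q).length ≤ 1000 := Nat.le_of_ble_eq_true g1
  have g2 : g.len ≤ 29 := by
    rw [← lenG_eq]
    exact Nat.le_of_ble_eq_true g2
  have g3 : 2 ≤ n := Nat.le_of_ble_eq_true g3
  have g4 : n ≤ 961 := Nat.le_of_ble_eq_true g4
  have g5 : ∀ i < q, n * dg y i < 2 ^ KAP := by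
    have e1 : Nat.mul n y = digs K q (fun i => n * dg y i) := by
      conv_lhs => rw [hy.1]
      exact digs_const_mul _ _ _ _
    have e2 : lowM q = digs K q (fun _ => 2 ^ KAP - 1) := (digs_const K_pos q (2 ^ KAP - 1)).symm
    rw [e1, e2] at g5
    intro i hi
    have h1 := le_of_leD K_pos (fun i hi => ?_) (fun i hi => ?_) g5 i hi
    · have := Nat.two_pow_pos KAP
      omega
    · calc n * dg y i ≤ 961 * 2 ^ KAP := Nat.mul_le_mul g4 (hy.2 i hi).le
        _ < 2 ^ (K - 1) := by norm_num [KAP, K]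
    · exact lt_of_le_of_lt (Nat.sub_le _ _) (by norm_num [KAP, K])
  obtain ⟨c, hcd⟩ : ∃ c, c = (selI y q).length := ⟨_, rfl⟩
  obtain ⟨s', h, a1, a2⟩ := upV2_ok s _ hs h
  obtain ⟨u', h, b1, b2⟩ := upV2_ok y _ hy h
  have hyb : ∀ i < q + (selI y q).length + (selI y q).length,
      glue (q + (selI y q).length) (glue q (fun _ => 0) (pk y q (fun _ => 0)))
        (pk y q (dg y)) i < 2 ^ KAP :=
    glue_lt (glue_lt (fun _ _ => Nat.two_pow_pos _) fun _ _ => Nat.two_pow_pos _)
      fun i hi => pk_lt hy.2 hi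
  obtain ⟨y', hy'⟩ : ∃ y', y' = 2 ^ (K * (q + (selI y q).length)) * pick y (selL y q) := ⟨_, rfl⟩
  have ey : y' = digs K (q + (selI y q).length + (selI y q).length)
      (glue (q + (selI y q).length) (glue q (fun _ => 0) (pk y q (fun _ => 0)))
        (pk y q (dg y))) := by
    rw [hy', digs_glue, digs_glue, selL_eq, pick_eq]
    simp [digs, pk]
  obtain ⟨c1, c2⟩ := dg_of_eq hyb ey
  have hLb : ∀ i < q + (selI y q).length + (selI y q).length,
      glue (q + (selI y q).length) (glue q (dg y) (pk y q (fun i => n * dg y i)))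
        (pk y q (fun i => n * dg y i)) i < 2 ^ KAP :=
    glue_lt (glue_lt hy.2 fun i hi => pk_lt (v := fun i => n * dg y i) g5 hi)
      fun i hi => pk_lt (v := fun i => n * dg y i) g5 hi
  obtain ⟨L', hL'⟩ : ∃ L', L' = y + (2 ^ (K * q) + 2 ^ (K * (q + (selI y q).length))) *
    (n * pick y (selL y q)) := ⟨_, rfl⟩
  have eL : L' = digs K (q + (selI y q).length + (selI y q).length)
      (glue (q + (selI y q).length) (glue q (dg y) (pk y q (fun i => n * dg y i)))
        (pk y q (fun i => n * dg y i))) := by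
    rw [hL', digs_glue, digs_glue, ← hy.1, selL_eq, pick_eq]
    have e3 : digs K (selI y q).length (pk y q fun i => n * dg y i) =
        n * digs K (selI y q).length (fun t => dg y ((selI y q).getD t 0)) := by
      rw [digs_const_mul]
      rfl
    rw [e3]
    ring
  obtain ⟨l1, l2⟩ := dg_of_eq hLb eL
  have hyu : ∀ i < q + (selI y q).length + (selI y q).length, dg y' i ≤ dg u' i := by
    intro i hi
    rw [c2 i hi, b2 i hi]
    exact glue_le (glue_le (fun _ _ => Nat.zero_le _) (fun _ _ => Nat.zero_le _))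
      (fun _ _ => le_rfl) i hi
  have huL : ∀ i < q + (selI y q).length + (selI y q).length, dg u' i ≤ dg L' i := by
    intro i hi
    rw [l2 i hi, b2 i hi]
    have hn1 : ∀ j, pk y q (dg y) j ≤ pk y q (fun i => n * dg y i) j := fun j =>
      Nat.le_mul_of_pos_left _ (by omega)
    exact glue_le (glue_le (fun _ _ => le_rfl) (fun j _ => hn1 j)) (fun j _ => hn1 j) i hi
  obtain ⟨g', h, d1, d2, d3⟩ := mapG_sound (y' := y') upF2_mono upV2_ok _
    (fun i hi => (hyu i hi).trans (b2 i hi).le) g hg _ h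
  have h : k (q + (selI y q).length + (selI y q).length) g'
    (2 ^ (K * (q + (selI y q).length)) * pick y (selL y q)) s' = true := h
  have eL2 : Nat.add y (Nat.mul (Nat.add (Nat.pow 2 (Nat.mul K q))
    (Nat.pow 2 (Nat.mul K (Nat.add q (selI y q).length)))) (Nat.mul n (pick y (selL y q)))) = L' :=
    hL'.symm
  rw [eL2] at d1 d2 d3
  rw [← hy'] at h
  obtain ⟨k1, k2⟩ := hk _ _ _ _ ⟨by omega, g1, c1, a1, d1 ⟨⟨by omega, g4⟩, b1, hyu,
    fun _ => ⟨l1, huL⟩, trivial⟩, by rw [d2]; simp only [Gl.len]; omega⟩ h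
  refine ⟨fun l hl hsp δ hh => ?_, k2⟩
  obtain ⟨hδ, hG, hS⟩ := hh
  have hT := tl_sp g l hsp
  have hhd := tl_hd g l hG
  obtain ⟨f1, f2, f3, f4⟩ := group_facts hT (n := n) (by omega)
  have hn1 : (0 : ℝ) < n - 1 := by
    have : (2 : ℝ) ≤ n := by exact_mod_cast g3
    linarith
  obtain ⟨α, β, ρ, hα, hβ, hρ0, hsum, hρ, hℓ⟩ : ∃ α β ρ : ℝ, 0 ≤ α ∧ 0 ≤ β ∧ 0 ≤ ρ ∧
      α + β + ρ = 1 ∧ hd ((g.tl l).drop n) = ρ * hd (g.tl l) ∧
      ((g.tl l).take n).sum = (β + n * (α + ρ)) * hd (g.tl l) := by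
    rcases (hd_nonneg hT).eq_or_lt with h0 | h0
    · refine ⟨0, 1, 0, le_rfl, zero_le_one, le_rfl, by norm_num, ?_, ?_⟩
      · rw [← h0] at f2
        rw [zero_mul]
        exact le_antisymm f2 f1
      · rw [← h0] at f3 f4 f2 ⊢
        rw [mul_zero] at f3 ⊢
        have : 0 ≤ ((n : ℝ) - 1) * hd ((g.tl l).drop n) := mul_nonneg hn1.le f1
        exact le_antisymm f3 (by linarith)
    · obtain ⟨ρ, hρ⟩ : ∃ ρ, ρ = hd ((g.tl l).drop n) / hd (g.tl l) := ⟨_, rfl⟩
      obtain ⟨ℓ, hℓ⟩ : ∃ ℓ, ℓ = ((g.tl l).take n).sum / hd (g.tl l) := ⟨_, rfl⟩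
      have hρ' : hd ((g.tl l).drop n) = ρ * hd (g.tl l) := by
        rw [hρ]
        field_simp
      have hℓ' : ((g.tl l).take n).sum = ℓ * hd (g.tl l) := by
        rw [hℓ]
        field_simp
      rw [hρ', hℓ'] at f4
      rw [hℓ'] at f3
      rw [hρ'] at f1 f2
      have r0 : 0 ≤ ρ := nonneg_of_mul_nonneg_left f1 h0
      have r3 : ℓ ≤ n := le_of_mul_le_mul_right f3 h0
      have r4 : 1 + (n - 1) * ρ ≤ ℓ := by
        refine le_of_mul_le_mul_right ?_ h0
        linarith
      refine ⟨(ℓ - 1 - (n - 1) * ρ) / (n - 1), (n - ℓ) / (n - 1), ρ,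
        div_nonneg (by linarith) hn1.le, div_nonneg (by linarith) hn1.le, r0, ?_, hρ', ?_⟩
      · field_simp
        ring
      · rw [hℓ']
        field_simp
        ring
  obtain ⟨δ', hδ'⟩ : ∃ δ', δ' = upD2 y q (fun m => if dg y m = 0 then δ m else β * δ m)
    (fun m => α * δ m) (fun m => ρ * δ m) := ⟨_, rfl⟩
  have hβ' : β = 1 - α - ρ := by linarith
  have hlin : ∀ v : ℕ → ℕ,
      lin (q + (selI y q).length + (selI y q).length) δ' (upF2 y q v) = lin q δ v := by
    intro v
    rw [hδ', upF2, upD2_lin, hβ']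
    apply sum_congr rfl
    intro m _
    split_ifs <;> ring
  refine k1 l hl hsp δ' ⟨?_, ?_, ?_⟩
  · intro i
    rw [hδ', upD2, glue, glue]
    split_ifs
    · exact hδ i
    · exact mul_nonneg hβ (hδ i)
    · exact mul_nonneg hα (hδ _)
    · exact mul_nonneg hρ0 (hδ _)
  · refine d3 l δ δ' hlin hG.toP ⟨?_, fun _ => ?_, ?_⟩
    · rw [lin_congr b2, hlin]
      exact hhd
    · rw [hℓ, hhd, lin_congr l2, hδ', upD2_lin, lin, mul_sum]
      apply sum_congr rfl
      intro m _
      split_ifs with h0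
      · rw [h0]
        simp
      · push_cast
        ring
    · show hd ((g.tl l).drop n) = _
      rw [hρ, hhd, lin_congr c2, hδ', upD2_lin, lin, mul_sum]
      apply sum_congr rfl
      intro m _
      split_ifs with h0
      · rw [h0]
        simp
      · simp only [Nat.cast_zero, mul_zero, zero_add]
        ring
  · rw [lin_congr a2, hlin]
    exact hS

end Pool.Agent.MOS
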