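import Pool.Agent.Lib.MP_b520b2_co.Digits

/-!
# Vectors over the rays of a cell

`K` is the number of bits of a digit, `KAP` the number of bits of the entries of the input vectors.
`dg a i` is the `i`-th digit of `a`, `lin q δ u = ∑ i < q, δ i * u i` the value of the vector `u` at
the coefficients `δ`, `bil` the same for matrices.
-/

namespace Pool.Agent.MOS

open Finset

/-- number of bits of a digit -/
def K : ℕ := 160

/-- number of bits of the entries of the input vectors -/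
def KAP : ℕ := 28

theorem K_pos : 0 < K := by decide

/-- the `i`-th digit -/
def dg (a i : ℕ) : ℕ := Nat.land (Nat.shiftRight a (Nat.mul K i)) (2 ^ K - 1)

theorem dg_eq (a i : ℕ) : dg a i = a / 2 ^ (K * i) % 2 ^ K := by
  show (a >>> (K * i)) &&& (2 ^ K - 1) = _
  rw [Nat.and_two_pow_sub_one_eq_mod, Nat.shiftRight_eq_div_pow]

theorem dg_lt (a i : ℕ) : dg a i < 2 ^ K := by
  rw [dg_eq]
  exact Nat.mod_lt _ (Nat.two_pow_pos K)

/-- every number is the number of its digits, up to the top part -/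
theorem eq_digs_dg (a q : ℕ) : a = digs K q (dg a) + 2 ^ (K * q) * (a / 2 ^ (K * q)) := by
  induction q with
  | zero => simp [digs]
  | succ q ih =>
    rw [digs_succ, dg_eq]
    have h1 : a / 2 ^ (K * q) = a / 2 ^ (K * q) % 2 ^ K + 2 ^ K * (a / 2 ^ (K * (q + 1))) := by
      rw [mul_add, mul_one, pow_add, ← Nat.div_div_eq_div_mul]
      exact (Nat.mod_add_div _ _).symm
    calc a = digs K q (dg a) + 2 ^ (K * q) * (a / 2 ^ (K * q)) := ih
      _ = digs K q (dg a) + 2 ^ (K * q) *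
          (a / 2 ^ (K * q) % 2 ^ K + 2 ^ K * (a / 2 ^ (K * (q + 1)))) := by rw [← h1]
      _ = _ := by
        rw [mul_add K q 1, mul_one, pow_add]
        ring

theorem dg_digs {q : ℕ} {f : ℕ → ℕ} (hf : ∀ i < q, f i < 2 ^ K) {i : ℕ} (hi : i < q) :
    dg (digs K q f) i = f i := by
  have h1 := eq_digs_dg (digs K q f) q
  have h2 : digs K q f / 2 ^ (K * q) = 0 := Nat.div_eq_of_lt (digs_lt hf)
  rw [h2, mul_zero, add_zero] at h1
  exact (digs_inj hf (fun i _ => dg_lt _ i) h1 i hi).symm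

/-- `a` is a vector of length `q` with entries smaller than `2 ^ KAP` -/
def IsVec (q a : ℕ) : Prop := a = digs K q (dg a) ∧ ∀ i < q, dg a i < 2 ^ KAP

theorem isVec_digs {q : ℕ} {f : ℕ → ℕ} (hf : ∀ i < q, f i < 2 ^ KAP) : IsVec q (digs K q f) := by
  have hK : 2 ^ KAP ≤ 2 ^ K := Nat.pow_le_pow_right (by norm_num) (by decide)
  have hf' : ∀ i < q, f i < 2 ^ K := fun i hi => (hf i hi).trans_le hK
  refine ⟨digs_congr fun i hi => (dg_digs hf' hi).symm, fun i hi => ?_⟩
  rw [dg_digs hf' hi]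
  exact hf i hi

/-- the first `q` digits, cut to `KAP` bits; `lo` is the number with digits `2 ^ KAP - 1` -/
def san (lo a : ℕ) : ℕ := Nat.land a lo

/-- the entries of `san` -/
def sd (a i : ℕ) : ℕ := dg a i % 2 ^ KAP

theorem sd_lt (a i : ℕ) : sd a i < 2 ^ KAP := Nat.mod_lt _ (Nat.two_pow_pos _)

/-- the number with digits `2 ^ KAP - 1` -/
def lowM (q : ℕ) : ℕ := Nat.mul (Nat.sub (Nat.pow 2 KAP) 1) (rep K q)

theorem san_eq (q a : ℕ) : san (lowM q) a = digs K q (sd a) := by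
  have hK : 2 ^ KAP ≤ 2 ^ K := Nat.pow_le_pow_right (by norm_num) (by decide)
  have hp := Nat.two_pow_pos KAP
  have h1 : lowM q = digs K q (fun _ => 2 ^ KAP - 1) := (digs_const K_pos q (2 ^ KAP - 1)).symm
  have h2 : digs K q (fun _ => 2 ^ KAP - 1) < 2 ^ (K * q) := digs_lt fun i _ => by omega
  show a &&& lowM q = _
  rw [h1]
  calc a &&& digs K q (fun _ => 2 ^ KAP - 1)
      = (digs K q (dg a) + 2 ^ (K * q) * (a / 2 ^ (K * q))) &&&
        (digs K q (fun _ => 2 ^ KAP - 1) + 2 ^ (K * q) * 0) := by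
        rw [← eq_digs_dg, mul_zero, add_zero]
    _ = digs K q (fun i => dg a i &&& (2 ^ KAP - 1)) := by
        rw [land_two_pow_mul_add (digs_lt fun i _ => dg_lt a i) h2, Nat.and_zero, mul_zero,
          add_zero, digs_land (fun i _ => dg_lt a i) (fun i _ => by omega)]
    _ = _ := digs_congr fun i _ => by rw [Nat.and_two_pow_sub_one_eq_mod, sd]

/-! ### real values -/

/-- the value of the vector `u` -/
def lin (q : ℕ) (δ : ℕ → ℝ) (u : ℕ → ℕ) : ℝ := ∑ i ∈ range q, δ i * u i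

/-- the value of the matrix `M` -/
def bil (q : ℕ) (δ : ℕ → ℝ) (M : ℕ → ℕ) : ℝ :=
  ∑ p ∈ range (q * q), (δ (p % q) * δ (p / q)) * M p

section lin

variable {q : ℕ} {δ : ℕ → ℝ}

theorem lin_add (u v : ℕ → ℕ) : lin q δ (fun i => u i + v i) = lin q δ u + lin q δ v := by
  simp only [lin, Nat.cast_add, mul_add, sum_add_distrib]

theorem lin_const_mul (c : ℕ) (u : ℕ → ℕ) : lin q δ (fun i => c * u i) = c * lin q δ u := by
  simp only [lin, Nat.cast_mul, mul_sum]
  exact sum_congr rfl fun i _ => by ring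

theorem lin_mono (hδ : ∀ i, 0 ≤ δ i) {u v : ℕ → ℕ} (h : ∀ i < q, u i ≤ v i) :
    lin q δ u ≤ lin q δ v :=
  sum_le_sum fun i hi => mul_le_mul_of_nonneg_left
    (by exact_mod_cast h i (mem_range.1 hi)) (hδ i)

theorem lin_congr {u v : ℕ → ℕ} (h : ∀ i < q, u i = v i) : lin q δ u = lin q δ v :=
  sum_congr rfl fun i hi => by rw [h i (mem_range.1 hi)]

theorem lin_nonneg (hδ : ∀ i, 0 ≤ δ i) (u : ℕ → ℕ) : 0 ≤ lin q δ u :=
  sum_nonneg fun i _ => mul_nonneg (hδ i) (Nat.cast_nonneg _)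

theorem bil_add (M N : ℕ → ℕ) : bil q δ (fun i => M i + N i) = bil q δ M + bil q δ N := by
  simp only [bil, Nat.cast_add, mul_add, sum_add_distrib]

theorem bil_const_mul (c : ℕ) (M : ℕ → ℕ) : bil q δ (fun i => c * M i) = c * bil q δ M := by
  simp only [bil, Nat.cast_mul, mul_sum]
  exact sum_congr rfl fun i _ => by ring

theorem bil_mono (hδ : ∀ i, 0 ≤ δ i) {M N : ℕ → ℕ} (h : ∀ p < q * q, M p ≤ N p) :
    bil q δ M ≤ bil q δ N :=
  sum_le_sum fun p hp => mul_le_mul_of_nonneg_left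
    (by exact_mod_cast h p (mem_range.1 hp)) (mul_nonneg (hδ _) (hδ _))

theorem sum_mul_sum_range (hq : 0 < q) (g h : ℕ → ℝ) (r : ℕ) :
    ∑ p ∈ range (q * r), g (p % q) * h (p / q) = (∑ i ∈ range q, g i) * ∑ j ∈ range r, h j := by
  induction r with
  | zero => simp
  | succ r ih =>
    rw [mul_add, mul_one, sum_range_add, ih, sum_range_succ, mul_add]
    congr 1
    rw [sum_mul]
    apply sum_congr rfl
    intro i hi
    rw [mem_range] at hi
    rw [Nat.mul_add_mod, Nat.mod_eq_of_lt hi, Nat.mul_add_div hq, Nat.div_eq_of_lt hi, add_zero]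

theorem bil_mul (hq : 0 < q) (u v : ℕ → ℕ) :
    bil q δ (fun p => u (p % q) * v (p / q)) = lin q δ u * lin q δ v := by
  rw [bil, lin, lin, ← sum_mul_sum_range hq]
  apply sum_congr rfl
  intro p _
  push_cast
  ring

end lin

/-! ### products of packed vectors -/

/-- the matrix `u ⊗ v + v ⊗ u` -/
def sym (q : ℕ) (u v : ℕ → ℕ) (p : ℕ) : ℕ := u (p % q) * v (p / q) + v (p % q) * u (p / q)

/-- the packed matrix `u ⊗ v + v ⊗ u` -/
def outD (R M u v : ℕ) : ℕ := Nat.add (Nat.mul u (spread R M v)) (Nat.mul v (spread R M u))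

theorem outD_eq {q : ℕ} (hq : 2 ≤ q) {u v : ℕ → ℕ} (hu : ∑ i ∈ range q, u i < 2 ^ K)
    (hv : ∑ i ∈ range q, v i < 2 ^ K) :
    outD (spreadR K q) (spreadM K q) (digs K q u) (digs K q v) = digs K (q * q) (sym q u v) := by
  show digs K q u * spread _ _ (digs K q v) + digs K q v * spread _ _ (digs K q u) = _
  rw [spread_eq K_pos hq hu, spread_eq K_pos hq hv, digs_mul_digsS (by omega),
    digs_mul_digsS (by omega), digs_add]
  rfl

theorem bil_sym {q : ℕ} {δ : ℕ → ℝ} (hq : 0 < q) (u v : ℕ → ℕ) :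
    bil q δ (sym q u v) = 2 * (lin q δ u * lin q δ v) := by
  have : bil q δ (sym q u v) = bil q δ (fun p => u (p % q) * v (p / q)) +
      bil q δ (fun p => v (p % q) * u (p / q)) := bil_add _ _
  rw [this, bil_mul hq, bil_mul hq]
  ring

theorem sym_le {q : ℕ} {u v : ℕ → ℕ} {a b : ℕ} (hu : ∀ i < q, u i ≤ a) (hv : ∀ i < q, v i ≤ b)
    {p : ℕ} (hp : p < q * q) : sym q u v p ≤ 2 * (a * b) := by
  have hq : 0 < q := by
    rcases Nat.eq_zero_or_pos q with h | h
    · subst h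
      simp at hp
    · exact h
  have h1 : p % q < q := Nat.mod_lt _ hq
  have h2 : p / q < q := (Nat.div_lt_iff_lt_mul hq).2 hp
  have h3 := Nat.mul_le_mul (hu _ h1) (hv _ h2)
  have h4 := Nat.mul_le_mul (hv _ h1) (hu _ h2)
  rw [sym]
  rw [mul_comm b a] at h4
  omega

end Pool.Agent.MOS
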